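import Pool.Agent.Helper72.TD.Defs

/-!
TD-1: the descent homomorphism in relational form.
-/

namespace Pool.Agent.Helper72.TD

variable {K : Type*} [Field K] {e1 e2 e3 : K}

theorem nonsingular_of (h2 : (2 : K) ≠ 0) (h12 : e1 ≠ e2) (h13 : e1 ≠ e3) (h23 : e2 ≠ e3) {x y : K}
    (h : y ^ 2 = (x - e1) * (x - e2) * (x - e3)) : (curve e1 e2 e3).toAffine.Nonsingular x y := by
  rw [WeierstrassCurve.Affine.nonsingular_iff', WeierstrassCurve.Affine.equation_iff']
  simp only [curve]
  refine ⟨by linear_combination h, ?_⟩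
  by_cases hy : y = 0
  · left
    subst hy
    have h0 : (x - e1) * (x - e2) * (x - e3) = 0 := by rw [← h]; ring
    rcases mul_eq_zero.mp h0 with h0 | h0
    · rcases mul_eq_zero.mp h0 with h0 | h0
      · have hx : x = e1 := by linear_combination h0
        subst hx
        intro hc
        have : (x - e2) * (x - e3) = 0 := by linear_combination -hc
        rcases mul_eq_zero.mp this with h' | h'
        · exact h12 (sub_eq_zero.mp h')
        · exact h13 (sub_eq_zero.mp h')
      · have hx : x = e2 := by linear_combination h0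
        subst hx
        intro hc
        have : (x - e1) * (x - e3) = 0 := by linear_combination -hc
        rcases mul_eq_zero.mp this with h' | h'
        · exact h12 (sub_eq_zero.mp h').symm
        · exact h23 (sub_eq_zero.mp h')
    · have hx : x = e3 := by linear_combination h0
      subst hx
      intro hc
      have : (x - e1) * (x - e2) = 0 := by linear_combination -hc
      rcases mul_eq_zero.mp this with h' | h'
      · exact h13 (sub_eq_zero.mp h').symm
      · exact h23 (sub_eq_zero.mp h').symm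
  · right
    intro hc
    have : 2 * y = 0 := by linear_combination hc
    rcases mul_eq_zero.mp this with h' | h'
    · exact h2 h'
    · exact hy h'

theorem equation_of {x y : K} (h : (curve e1 e2 e3).toAffine.Nonsingular x y) :
    y ^ 2 = (x - e1) * (x - e2) * (x - e3) := by
  have h1 := (WeierstrassCurve.Affine.equation_iff' _ _).mp h.1
  simp only [curve] at h1
  linear_combination h1

theorem hasClass_exists (h12 : e1 ≠ e2) (h13 : e1 ≠ e3) (h23 : e2 ≠ e3)
    (P : (curve e1 e2 e3).toAffine.Point) :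
    ∃ d1 d2 : K, d1 ≠ 0 ∧ d2 ≠ 0 ∧ HasClass P d1 d2 := by
  match P with
  | .zero => exact ⟨1, 1, one_ne_zero, one_ne_zero, ⟨1, by ring⟩, ⟨1, by ring⟩⟩
  | .some x y h =>
    have he := equation_of h
    have s12 : e1 - e2 ≠ 0 := sub_ne_zero.mpr h12
    have s13 : e1 - e3 ≠ 0 := sub_ne_zero.mpr h13
    have s23 : e2 - e3 ≠ 0 := sub_ne_zero.mpr h23
    have s21 : e2 - e1 ≠ 0 := sub_ne_zero.mpr h12.symm
    have s31 : e3 - e1 ≠ 0 := sub_ne_zero.mpr h13.symm
    have s32 : e3 - e2 ≠ 0 := sub_ne_zero.mpr h23.symm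
    by_cases hy : y = 0
    · subst hy
      have h0 : (x - e1) * (x - e2) * (x - e3) = 0 := by rw [← he]; ring
      rcases mul_eq_zero.mp h0 with h0 | h0
      · rcases mul_eq_zero.mp h0 with h0 | h0
        · have hx : x = e1 := by linear_combination h0
          subst hx
          refine ⟨(x - e2) * (x - e3), x - e2, mul_ne_zero s12 s13, s12, 0, 1,
            1 / (x - e2), ?_, ?_, ?_⟩
          · ring
          · ring
          · field_simp
        · have hx : x = e2 := by linear_combination h0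
          subst hx
          refine ⟨x - e1, (x - e1) * (x - e3), s21, mul_ne_zero s21 s23, 1, 0,
            1 / (x - e1), ?_, ?_, ?_⟩
          · ring
          · ring
          · field_simp
      · have hx : x = e3 := by linear_combination h0
        subst hx
        refine ⟨x - e1, x - e2, s31, s32, 1, 1, 0, ?_, ?_, ?_⟩
        · ring
        · ring
        · ring
    · have hne : (x - e1) * (x - e2) * (x - e3) ≠ 0 := by
        rw [← he]; exact pow_ne_zero 2 hy
      have a1 : x - e1 ≠ 0 := fun h' => hne (by rw [h']; ring)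
      have a2 : x - e2 ≠ 0 := fun h' => hne (by rw [h']; ring)
      refine ⟨x - e1, x - e2, a1, a2, 1, 1, y / ((x - e1) * (x - e2)), ?_, ?_, ?_⟩
      · ring
      · ring
      · field_simp
        linear_combination -he

theorem hasClass_mul_sq {P : (curve e1 e2 e3).toAffine.Point} {d1 d2 s1 s2 : K} (hs1 : s1 ≠ 0)
    (hs2 : s2 ≠ 0) : HasClass P (d1 * s1 ^ 2) (d2 * s2 ^ 2) ↔ HasClass P d1 d2 := by
  match P with
  | .zero =>
    constructor
    · rintro ⟨⟨a, ha⟩, ⟨b, hb⟩⟩
      refine ⟨⟨a / s1, ?_⟩, ⟨b / s2, ?_⟩⟩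
      · field_simp
        linear_combination ha
      · field_simp
        linear_combination hb
    · rintro ⟨⟨a, ha⟩, ⟨b, hb⟩⟩
      refine ⟨⟨a * s1, ?_⟩, ⟨b * s2, ?_⟩⟩
      · rw [ha]; ring
      · rw [hb]; ring
  | .some x y h =>
    constructor
    · rintro ⟨z1, z2, z3, h1, h2, h3⟩
      refine ⟨s1 * z1, s2 * z2, s1 * s2 * z3, ?_, ?_, ?_⟩
      · rw [h1]; ring
      · rw [h2]; ring
      · rw [h3]; ring
    · rintro ⟨z1, z2, z3, h1, h2, h3⟩
      refine ⟨z1 / s1, z2 / s2, z3 / (s1 * s2), ?_, ?_, ?_⟩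
      · rw [h1]; field_simp
      · rw [h2]; field_simp
      · rw [h3]; field_simp

/-- `c z² = d w²` with `z ≠ 0` makes `c d` a square. -/
private theorem sq_aux {c d z w : K} (hc : c ≠ 0) (hd : d ≠ 0) (hz : z ≠ 0)
    (h : c * z ^ 2 = d * w ^ 2) : ∃ κ : K, κ ≠ 0 ∧ c * d = κ ^ 2 := by
  have hw : w ≠ 0 := by
    rintro rfl
    have : c * z ^ 2 = 0 := by rw [h]; ring
    rcases mul_eq_zero.mp this with h' | h'
    · exact hc h'
    · exact hz (pow_eq_zero_iff (two_ne_zero)|>.mp h')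
  refine ⟨d * w / z, div_ne_zero (mul_ne_zero hd hw) hz, ?_⟩
  field_simp
  linear_combination h

/-- Choose the sign of the first coordinate so that `y` is the product. -/
private theorem sign_aux {x y c1 c2 : K} (he : y ^ 2 = (x - e1) * (x - e2) * (x - e3))
    (h : ∃ z1 z2 z3 : K, x - e1 = c1 * z1 ^ 2 ∧ x - e2 = c2 * z2 ^ 2 ∧
      x - e3 = c1 * c2 * z3 ^ 2) :
    ∃ z1 z2 z3 : K, x - e1 = c1 * z1 ^ 2 ∧ x - e2 = c2 * z2 ^ 2 ∧
      x - e3 = c1 * c2 * z3 ^ 2 ∧ y = c1 * c2 * z1 * z2 * z3 := by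
  obtain ⟨z1, z2, z3, h1, h2, h3⟩ := h
  have h4 : (y - c1 * c2 * z1 * z2 * z3) * (y + c1 * c2 * z1 * z2 * z3) = 0 := by
    rw [h1, h2, h3] at he
    linear_combination he
  rcases mul_eq_zero.mp h4 with h5 | h5
  · exact ⟨z1, z2, z3, h1, h2, h3, by linear_combination h5⟩
  · exact ⟨-z1, z2, z3, by rw [h1]; ring, h2, h3, by linear_combination h5⟩

/-- The secant case: one coordinate. -/
private theorem secant_aux {x1 x2 y1 y2 a1 a2 a3 R1 R2 R3 S1 S2 S3 : K} (hx : x1 ≠ x2)
    (hR1 : x1 - a1 = R1) (hR2 : x1 - a2 = R2) (hR3 : x1 - a3 = R3)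
    (hS1 : x2 - a1 = S1) (hS2 : x2 - a2 = S2) (hS3 : x2 - a3 = S3)
    (hy1 : y1 ^ 2 = R1 * R2 * R3) (hy2 : y2 ^ 2 = S1 * S2 * S3) {T : K}
    (hT : T = R1 * S2 * S3 + S1 * R2 * R3 - 2 * y1 * y2) :
    ((y1 - y2) / (x1 - x2)) ^ 2 + (a1 + a2 + a3) - x1 - x2 - a1 = T * (x1 - x2)⁻¹ ^ 2 := by
  have hne : x1 - x2 ≠ 0 := sub_ne_zero.mpr hx
  rw [hT, inv_pow, ← div_eq_mul_inv, eq_div_iff (pow_ne_zero 2 hne)]
  have h1 : (((y1 - y2) / (x1 - x2)) ^ 2 + (a1 + a2 + a3) - x1 - x2 - a1) * (x1 - x2) ^ 2 =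
      (y1 - y2) ^ 2 + (a2 + a3 - x1 - x2) * (x1 - x2) ^ 2 := by
    field_simp
    ring
  rw [h1]
  subst hR1 hR2 hR3 hS1 hS2 hS3
  linear_combination hy1 + hy2

theorem hasClass_add [DecidableEq K] (h2 : (2 : K) ≠ 0) (h12 : e1 ≠ e2) (h13 : e1 ≠ e3)
    (h23 : e2 ≠ e3) {P Q : (curve e1 e2 e3).toAffine.Point} {c1 c2 d1 d2 : K} (hc1 : c1 ≠ 0)
    (hc2 : c2 ≠ 0) (hd1 : d1 ≠ 0) (hd2 : d2 ≠ 0) (hP : HasClass P c1 c2) (hQ : HasClass Q d1 d2) :
    HasClass (P + Q) (c1 * d1) (c2 * d2) := by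
  match P, Q with
  | .zero, Q =>
    obtain ⟨⟨a, ha⟩, ⟨b, hb⟩⟩ := hP
    have ha0 : a ≠ 0 := by rintro rfl; exact hc1 (by rw [ha]; ring)
    have hb0 : b ≠ 0 := by rintro rfl; exact hc2 (by rw [hb]; ring)
    have h3 : (WeierstrassCurve.Affine.Point.zero : (curve e1 e2 e3).toAffine.Point) + Q = Q :=
      zero_add Q
    rw [h3]
    have h4 := (hasClass_mul_sq (P := Q) (d1 := d1) (d2 := d2) ha0 hb0).mpr hQ
    have e1' : c1 * d1 = d1 * a ^ 2 := by rw [ha]; ring
    have e2' : c2 * d2 = d2 * b ^ 2 := by rw [hb]; ring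
    rw [e1', e2']
    exact h4
  | .some x1 y1 hn1, .zero =>
    obtain ⟨⟨a, ha⟩, ⟨b, hb⟩⟩ := hQ
    have ha0 : a ≠ 0 := by rintro rfl; exact hd1 (by rw [ha]; ring)
    have hb0 : b ≠ 0 := by rintro rfl; exact hd2 (by rw [hb]; ring)
    have h3 : (WeierstrassCurve.Affine.Point.some x1 y1 hn1) +
        (WeierstrassCurve.Affine.Point.zero : (curve e1 e2 e3).toAffine.Point) =
        WeierstrassCurve.Affine.Point.some x1 y1 hn1 := add_zero _
    rw [h3]
    have h4 := (hasClass_mul_sq (P := WeierstrassCurve.Affine.Point.some x1 y1 hn1)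
      (d1 := c1) (d2 := c2) ha0 hb0).mpr hP
    have e1' : c1 * d1 = c1 * a ^ 2 := by rw [ha]; ring
    have e2' : c2 * d2 = c2 * b ^ 2 := by rw [hb]; ring
    rw [e1', e2']
    exact h4
  | .some x1 y1 hn1, .some x2 y2 hn2 =>
    have he1 := equation_of hn1
    have he2 := equation_of hn2
    obtain ⟨z1, z2, z3, A1, A2, A3, Ay⟩ := sign_aux he1 hP
    obtain ⟨w1, w2, w3, B1, B2, B3, By⟩ := sign_aux he2 hQ
    by_cases hx : x1 = x2
    · -- equal first coordinates
      subst hx
      have g1 : c1 * z1 ^ 2 = d1 * w1 ^ 2 := by rw [← A1, ← B1]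
      have g2 : c2 * z2 ^ 2 = d2 * w2 ^ 2 := by rw [← A2, ← B2]
      have g3 : (c1 * c2) * z3 ^ 2 = (d1 * d2) * w3 ^ 2 := by rw [← A3, ← B3]
      have hcc := mul_ne_zero hc1 hc2
      have hdd := mul_ne_zero hd1 hd2
      have z12 : z1 = 0 → z2 ≠ 0 := by
        rintro rfl rfl
        exact h12 (by linear_combination A2 - A1)
      have z13 : z1 = 0 → z3 ≠ 0 := by
        rintro rfl rfl
        exact h13 (by linear_combination A3 - A1)
      have z23 : z2 = 0 → z3 ≠ 0 := by
        rintro rfl rfl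
        exact h23 (by linear_combination A3 - A2)
      have hsq1 : ∃ κ : K, κ ≠ 0 ∧ c1 * d1 = κ ^ 2 := by
        by_cases hz : z1 = 0
        · obtain ⟨κ, hκ, h3⟩ := sq_aux hc2 hd2 (z12 hz) g2
          obtain ⟨μ, hμ, h4⟩ := sq_aux hcc hdd (z13 hz) g3
          refine ⟨μ / κ, div_ne_zero hμ hκ, ?_⟩
          rw [div_pow, ← h3, ← h4]
          field_simp
        · exact sq_aux hc1 hd1 hz g1
      have hsq2 : ∃ κ : K, κ ≠ 0 ∧ c2 * d2 = κ ^ 2 := by
        by_cases hz : z2 = 0
        · have hz1 : z1 ≠ 0 := fun h => z12 h hz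
          obtain ⟨κ, hκ, h3⟩ := sq_aux hc1 hd1 hz1 g1
          obtain ⟨μ, hμ, h4⟩ := sq_aux hcc hdd (z23 hz) g3
          refine ⟨μ / κ, div_ne_zero hμ hκ, ?_⟩
          rw [div_pow, ← h3, ← h4]
          field_simp
        · exact sq_aux hc2 hd2 hz g2
      obtain ⟨κ1, hκ1, hk1⟩ := hsq1
      obtain ⟨κ2, hκ2, hk2⟩ := hsq2
      by_cases hy : y1 = (curve e1 e2 e3).toAffine.negY x1 y2
      · rw [WeierstrassCurve.Affine.Point.add_of_Y_eq rfl hy]
        exact ⟨⟨κ1, by rw [hk1]; ring⟩, ⟨κ2, by rw [hk2]; ring⟩⟩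
      · rw [WeierstrassCurve.Affine.Point.add_of_Y_ne hy]
        have hneg : (curve e1 e2 e3).toAffine.negY x1 y2 = -y2 := by
          simp [WeierstrassCurve.Affine.negY, curve]
        have hneg1 : (curve e1 e2 e3).toAffine.negY x1 y1 = -y1 := by
          simp [WeierstrassCurve.Affine.negY, curve]
        have hyy : y1 = y2 := by
          have h3 : (y1 - y2) * (y1 + y2) = 0 := by linear_combination he1 - he2
          rcases mul_eq_zero.mp h3 with h4 | h4
          · linear_combination h4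
          · exact absurd (by rw [hneg]; linear_combination h4) hy
        subst hyy
        have hy0 : y1 ≠ 0 := by
          rintro rfl
          exact hy (by rw [hneg]; ring)
        have hslope : (curve e1 e2 e3).toAffine.slope x1 x1 y1 y1 =
            (3 * x1 ^ 2 - 2 * (e1 + e2 + e3) * x1 + (e1 * e2 + e1 * e3 + e2 * e3)) / (2 * y1) := by
          rw [WeierstrassCurve.Affine.slope_of_Y_ne rfl hy, hneg1]
          simp only [curve]
          congr 1 <;> ring
        have h2y : 2 * y1 ≠ 0 := mul_ne_zero h2 hy0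
        refine ⟨((x1 - e1) ^ 2 - (e1 - e2) * (e1 - e3)) / (2 * y1) / κ1,
          ((x1 - e2) ^ 2 - (e2 - e1) * (e2 - e3)) / (2 * y1) / κ2,
          ((x1 - e3) ^ 2 - (e3 - e1) * (e3 - e2)) / (2 * y1) / (κ1 * κ2), ?_, ?_, ?_⟩
        · rw [hk1, hslope]
          simp only [WeierstrassCurve.Affine.addX, curve]
          have : κ1 ^ 2 * (((x1 - e1) ^ 2 - (e1 - e2) * (e1 - e3)) / (2 * y1) / κ1) ^ 2 =
              (((x1 - e1) ^ 2 - (e1 - e2) * (e1 - e3)) / (2 * y1)) ^ 2 := by
            field_simp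
          rw [this]
          field_simp
          linear_combination 4 * (e2 + e3 - 2 * x1) * he1
        · rw [hk2, hslope]
          simp only [WeierstrassCurve.Affine.addX, curve]
          have : κ2 ^ 2 * (((x1 - e2) ^ 2 - (e2 - e1) * (e2 - e3)) / (2 * y1) / κ2) ^ 2 =
              (((x1 - e2) ^ 2 - (e2 - e1) * (e2 - e3)) / (2 * y1)) ^ 2 := by
            field_simp
          rw [this]
          field_simp
          linear_combination 4 * (e1 + e3 - 2 * x1) * he1
        · rw [hk1, hk2, hslope]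
          simp only [WeierstrassCurve.Affine.addX, curve]
          have : κ1 ^ 2 * κ2 ^ 2 *
              (((x1 - e3) ^ 2 - (e3 - e1) * (e3 - e2)) / (2 * y1) / (κ1 * κ2)) ^ 2 =
              (((x1 - e3) ^ 2 - (e3 - e1) * (e3 - e2)) / (2 * y1)) ^ 2 := by
            field_simp
          rw [this]
          field_simp
          linear_combination 4 * (e1 + e2 - 2 * x1) * he1
    · -- secant case
      rw [WeierstrassCurve.Affine.Point.add_of_X_ne hx]
      have hslope : (curve e1 e2 e3).toAffine.slope x1 x2 y1 y2 = (y1 - y2) / (x1 - x2) :=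
        WeierstrassCurve.Affine.slope_of_X_ne hx
      have hne : x1 - x2 ≠ 0 := sub_ne_zero.mpr hx
      have hY1 : y1 ^ 2 = (c1 * z1 ^ 2) * (c2 * z2 ^ 2) * (c1 * c2 * z3 ^ 2) := by
        rw [Ay]; ring
      have hY2 : y2 ^ 2 = (d1 * w1 ^ 2) * (d2 * w2 ^ 2) * (d1 * d2 * w3 ^ 2) := by
        rw [By]; ring
      refine ⟨(d2 * z1 * w2 * w3 - c2 * w1 * z2 * z3) / (x1 - x2),
        (d1 * z2 * w1 * w3 - c1 * w2 * z1 * z3) / (x1 - x2),
        (z3 * w1 * w2 - w3 * z1 * z2) / (x1 - x2), ?_, ?_, ?_⟩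
      · rw [hslope]
        simp only [WeierstrassCurve.Affine.addX, curve]
        have := secant_aux (T := c1 * d1 * (d2 * z1 * w2 * w3 - c2 * w1 * z2 * z3) ^ 2) hx
          A1 A2 A3 B1 B2 B3 hY1 hY2 (by rw [Ay, By]; ring)
        linear_combination this
      · rw [hslope]
        simp only [WeierstrassCurve.Affine.addX, curve]
        have := secant_aux (T := c2 * d2 * (d1 * z2 * w1 * w3 - c1 * w2 * z1 * z3) ^ 2) hx
          A2 A1 A3 B2 B1 B3 (by rw [hY1]; ring) (by rw [hY2]; ring) (by rw [Ay, By]; ring)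
        linear_combination this
      · rw [hslope]
        simp only [WeierstrassCurve.Affine.addX, curve]
        have := secant_aux (T := c1 * d1 * (c2 * d2) * (z3 * w1 * w2 - w3 * z1 * z2) ^ 2) hx
          A3 A1 A2 B3 B1 B2 (by rw [hY1]; ring) (by rw [hY2]; ring) (by rw [Ay, By]; ring)
        linear_combination this

theorem hasPoint_iff (h2 : (2 : K) ≠ 0) (h12 : e1 ≠ e2) (h13 : e1 ≠ e3) (h23 : e2 ≠ e3)
    {d1 d2 : K} (hd1 : d1 ≠ 0) (hd2 : d2 ≠ 0) :
    HasPoint K e1 e2 e3 d1 d2 ↔ ∃ P : (curve e1 e2 e3).toAffine.Point, HasClass P d1 d2 := by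
  constructor
  · rintro ⟨z0, z1, z2, z3, hne, ha, hb⟩
    simp only [Algebra.algebraMap_self, RingHom.id_apply] at ha hb
    by_cases hz0 : z0 = 0
    · subst hz0
      have ha' : d1 * z1 ^ 2 = d2 * z2 ^ 2 := by linear_combination ha
      have hb' : d1 * z1 ^ 2 = d1 * d2 * z3 ^ 2 := by linear_combination hb
      have hz1 : z1 ≠ 0 := by
        rintro rfl
        have h3 : d2 * z2 ^ 2 = 0 := by rw [← ha']; ring
        have h4 : d1 * d2 * z3 ^ 2 = 0 := by rw [← hb']; ring
        have h5 : z2 = 0 := by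
          rcases mul_eq_zero.mp h3 with h | h
          · exact absurd h hd2
          · exact (pow_eq_zero_iff two_ne_zero).mp h
        have h6 : z3 = 0 := by
          rcases mul_eq_zero.mp h4 with h | h
          · exact absurd h (mul_ne_zero hd1 hd2)
          · exact (pow_eq_zero_iff two_ne_zero).mp h
        exact hne ⟨rfl, rfl, h5, h6⟩
      have hz3 : z3 ≠ 0 := by
        rintro rfl
        have h3 : d1 * z1 ^ 2 = 0 := by rw [hb']; ring
        rcases mul_eq_zero.mp h3 with h | h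
        · exact hd1 h
        · exact hz1 ((pow_eq_zero_iff two_ne_zero).mp h)
      have hb'' : z1 ^ 2 = d2 * z3 ^ 2 := by
        apply mul_left_cancel₀ hd1
        linear_combination hb'
      have hd1' : d1 * z3 ^ 2 = z2 ^ 2 := by
        apply mul_left_cancel₀ hd2
        linear_combination ha' - d1 * hb''
      refine ⟨.zero, ⟨z2 / z3, ?_⟩, ⟨z1 / z3, ?_⟩⟩
      · field_simp
        linear_combination hd1'
      · field_simp
        linear_combination -hb''
    · have hx1 : (e1 + d1 * (z1 / z0) ^ 2) - e1 = d1 * (z1 / z0) ^ 2 := by ring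
      have hx2 : (e1 + d1 * (z1 / z0) ^ 2) - e2 = d2 * (z2 / z0) ^ 2 := by
        field_simp
        linear_combination ha
      have hx3 : (e1 + d1 * (z1 / z0) ^ 2) - e3 = d1 * d2 * (z3 / z0) ^ 2 := by
        field_simp
        linear_combination hb
      have heq : (d1 * d2 * z1 * z2 * z3 / z0 ^ 3) ^ 2 =
          ((e1 + d1 * (z1 / z0) ^ 2) - e1) * ((e1 + d1 * (z1 / z0) ^ 2) - e2) *
            ((e1 + d1 * (z1 / z0) ^ 2) - e3) := by
        rw [hx1, hx2, hx3]
        field_simp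
      exact ⟨.some _ _ (nonsingular_of h2 h12 h13 h23 heq), z1 / z0, z2 / z0, z3 / z0,
        hx1, hx2, hx3⟩
  · rintro ⟨P, hP⟩
    match P with
    | .zero =>
      obtain ⟨⟨a, ha⟩, ⟨b, hb⟩⟩ := hP
      refine ⟨0, b, a, 1, fun h => one_ne_zero h.2.2.2, ?_, ?_⟩
      · simp only [Algebra.algebraMap_self, RingHom.id_apply]
        rw [ha, hb]; ring
      · simp only [Algebra.algebraMap_self, RingHom.id_apply]
        rw [ha, hb]; ring
    | .some x y h =>
      obtain ⟨z1, z2, z3, h1, h2', h3⟩ := hP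
      refine ⟨1, z1, z2, z3, fun h => one_ne_zero h.1, ?_, ?_⟩
      · simp only [Algebra.algebraMap_self, RingHom.id_apply]
        linear_combination h2' - h1
      · simp only [Algebra.algebraMap_self, RingHom.id_apply]
        linear_combination h3 - h1

end Pool.Agent.Helper72.TD
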