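import Pool.Agent.Helper72.TD.Defs

/-!
TD-2: the kernel of the descent homomorphism and the 2-torsion.
-/

namespace Pool.Agent.Helper72.TD

variable {K : Type*} [Field K] [DecidableEq K] {e1 e2 e3 : K}

omit [DecidableEq K] in
private theorem td2_eq {x y : K} : (curve e1 e2 e3).toAffine.Equation x y ↔
    y ^ 2 = (x - e1) * (x - e2) * (x - e3) := by
  rw [WeierstrassCurve.Affine.equation_iff]
  unfold curve
  constructor <;> intro h <;> linear_combination h

omit [DecidableEq K] in
private theorem td2_negY {x y : K} : (curve e1 e2 e3).toAffine.negY x y = -y := by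
  simp [WeierstrassCurve.Affine.negY, curve]

omit [DecidableEq K] in
private theorem td2_ns {x y : K} (h2 : (2 : K) ≠ 0)
    (h : y ^ 2 = (x - e1) * (x - e2) * (x - e3)) (hy : y ≠ 0) :
    (curve e1 e2 e3).toAffine.Nonsingular x y := by
  rw [WeierstrassCurve.Affine.nonsingular_iff']
  refine ⟨td2_eq.mpr h, Or.inr ?_⟩
  have : 2 * y ≠ 0 := mul_ne_zero h2 hy
  simpa [curve] using this

omit [DecidableEq K] in
private theorem td2_ns0 {x : K} (h : (x - e1) * (x - e2) * (x - e3) = 0)
    (h12 : e1 ≠ e2) (h13 : e1 ≠ e3) (h23 : e2 ≠ e3) :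
    (curve e1 e2 e3).toAffine.Nonsingular x 0 := by
  rw [WeierstrassCurve.Affine.nonsingular_iff']
  refine ⟨td2_eq.mpr (by rw [h]; ring), Or.inl ?_⟩
  have h12' := sub_ne_zero.mpr h12
  have h13' := sub_ne_zero.mpr h13
  have h23' := sub_ne_zero.mpr h23
  have key : ∀ D : K, D ≠ 0 → (curve e1 e2 e3).a₁ * 0 - (3 * x ^ 2 +
      2 * (curve e1 e2 e3).a₂ * x + (curve e1 e2 e3).a₄) = D →
      (curve e1 e2 e3).a₁ * 0 - (3 * x ^ 2 +
      2 * (curve e1 e2 e3).a₂ * x + (curve e1 e2 e3).a₄) ≠ 0 := by
    intro D hD h h'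
    rw [h'] at h
    exact hD h.symm
  rcases mul_eq_zero.mp h with h' | h'
  · rcases mul_eq_zero.mp h' with h'' | h''
    · have hx : x = e1 := sub_eq_zero.mp h''
      apply key (-((e1 - e2) * (e1 - e3))) (neg_ne_zero.mpr (mul_ne_zero h12' h13'))
      rw [hx]; simp only [curve]; ring
    · have hx : x = e2 := sub_eq_zero.mp h''
      apply key ((e1 - e2) * (e2 - e3)) (mul_ne_zero h12' h23')
      rw [hx]; simp only [curve]; ring
  · have hx : x = e3 := sub_eq_zero.mp h'
    apply key (-((e1 - e3) * (e2 - e3))) (neg_ne_zero.mpr (mul_ne_zero h13' h23'))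
    rw [hx]; simp only [curve]; ring

private theorem td2_half (h2 : (2 : K) ≠ 0) (h12 : e1 ≠ e2) (h13 : e1 ≠ e3) (h23 : e2 ≠ e3)
    {x y : K} (h : (curve e1 e2 e3).toAffine.Nonsingular x y) {z1 z2 z3 : K}
    (hz1 : x - e1 = z1 ^ 2) (hz2 : x - e2 = z2 ^ 2) (hz3 : x - e3 = z3 ^ 2)
    (hy : y = z1 * z2 * z3) :
    ∃ Q : (curve e1 e2 e3).toAffine.Point,
      WeierstrassCurve.Affine.Point.some x y h = Q + Q := by
  have he1 : e1 = x - z1 ^ 2 := by linear_combination -hz1
  have he2 : e2 = x - z2 ^ 2 := by linear_combination -hz2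
  have he3 : e3 = x - z3 ^ 2 := by linear_combination -hz3
  have k12 : z1 + z2 ≠ 0 := by
    intro h0
    apply h12
    rw [he1, he2]
    linear_combination (z2 - z1) * h0
  have k13 : z1 + z3 ≠ 0 := by
    intro h0
    apply h13
    rw [he1, he3]
    linear_combination (z3 - z1) * h0
  have k23 : z2 + z3 ≠ 0 := by
    intro h0
    apply h23
    rw [he2, he3]
    linear_combination (z3 - z2) * h0
  set X := x + z1 * z2 + z1 * z3 + z2 * z3 with hX
  set Y := (z1 + z2) * (z1 + z3) * (z2 + z3) with hY
  have hY0 : Y ≠ 0 := mul_ne_zero (mul_ne_zero k12 k13) k23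
  have heq : Y ^ 2 = (X - e1) * (X - e2) * (X - e3) := by
    rw [he1, he2, he3, hX, hY]; ring
  have hns := td2_ns h2 heq hY0
  refine ⟨WeierstrassCurve.Affine.Point.some X Y hns, ?_⟩
  have hne : Y ≠ (curve e1 e2 e3).toAffine.negY X Y := by
    rw [td2_negY]
    intro h0
    have : 2 * Y = 0 := by linear_combination h0
    exact mul_ne_zero h2 hY0 this
  rw [WeierstrassCurve.Affine.Point.add_self_of_Y_ne hne]
  have hsl : (curve e1 e2 e3).toAffine.slope X X Y Y = z1 + z2 + z3 := by
    rw [WeierstrassCurve.Affine.slope_of_Y_ne rfl hne, td2_negY]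
    have : Y - -Y ≠ 0 := by
      rw [sub_neg_eq_add, ← two_mul]; exact mul_ne_zero h2 hY0
    rw [div_eq_iff this]
    simp only [curve]
    rw [he1, he2, he3, hX, hY]
    ring
  simp only [WeierstrassCurve.Affine.Point.some.injEq]
  rw [hsl]
  simp only [WeierstrassCurve.Affine.addX, WeierstrassCurve.Affine.addY,
    WeierstrassCurve.Affine.negAddY, WeierstrassCurve.Affine.negY, curve]
  constructor
  · rw [hX, he1, he2, he3]; ring
  · rw [hy, hY, hX, he1, he2, he3]; ring

theorem exists_half (h2 : (2 : K) ≠ 0) (h12 : e1 ≠ e2) (h13 : e1 ≠ e3) (h23 : e2 ≠ e3)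
    {P : (curve e1 e2 e3).toAffine.Point} (hP : HasClass P 1 1) :
    ∃ Q : (curve e1 e2 e3).toAffine.Point, P = Q + Q := by
  match P, hP with
  | .zero, _ => exact ⟨0, (add_zero _).symm⟩
  | .some x y h, hP =>
    obtain ⟨z1, z2, z3, hz1, hz2, hz3⟩ := hP
    rw [one_mul] at hz1 hz2
    rw [one_mul, one_mul] at hz3
    have hE := td2_eq.mp h.1
    rw [hz1, hz2, hz3] at hE
    have hE' : (y - z1 * z2 * z3) * (y + z1 * z2 * z3) = 0 := by linear_combination hE
    rcases mul_eq_zero.mp hE' with h0 | h0
    · exact td2_half h2 h12 h13 h23 h hz1 hz2 hz3 (by linear_combination h0)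
    · exact td2_half h2 h12 h13 h23 h (z1 := -z1) (by rw [hz1]; ring) hz2 hz3
        (by linear_combination h0)

private theorem td2_iff (h2 : (2 : K) ≠ 0) {x y : K}
    (h : (curve e1 e2 e3).toAffine.Nonsingular x y) :
    WeierstrassCurve.Affine.Point.some x y h + WeierstrassCurve.Affine.Point.some x y h = 0 ↔
      y = 0 := by
  constructor
  · intro h0
    by_contra hy
    have hne : y ≠ (curve e1 e2 e3).toAffine.negY x y := by
      rw [td2_negY]
      intro h1
      have : 2 * y = 0 := by linear_combination h1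
      exact mul_ne_zero h2 hy this
    rw [WeierstrassCurve.Affine.Point.add_self_of_Y_ne hne] at h0
    exact WeierstrassCurve.Affine.Point.some_ne_zero _ h0
  · intro hy
    exact WeierstrassCurve.Affine.Point.add_self_of_Y_eq (by rw [td2_negY, hy, neg_zero])

theorem card_two_torsion (h2 : (2 : K) ≠ 0) (h12 : e1 ≠ e2) (h13 : e1 ≠ e3) (h23 : e2 ≠ e3) :
    Nat.card {P : (curve e1 e2 e3).toAffine.Point // P + P = 0} = 4 := by
  have n1 := td2_ns0 (x := e1) (by ring) h12 h13 h23
  have n2 := td2_ns0 (x := e2) (by ring) h12 h13 h23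
  have n3 := td2_ns0 (x := e3) (by ring) h12 h13 h23
  set S : Finset (curve e1 e2 e3).toAffine.Point :=
    {0, .some e1 0 n1, .some e2 0 n2, .some e3 0 n3} with hS
  have hcard : S.card = 4 := by
    rw [hS, Finset.card_insert_of_notMem, Finset.card_insert_of_notMem,
      Finset.card_insert_of_notMem, Finset.card_singleton]
    · simp [h23]
    · simp [h12, h13]
    · simp only [Finset.mem_insert, Finset.mem_singleton, not_or]
      exact ⟨(WeierstrassCurve.Affine.Point.some_ne_zero _).symm,
        (WeierstrassCurve.Affine.Point.some_ne_zero _).symm,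
        (WeierstrassCurve.Affine.Point.some_ne_zero _).symm⟩
  have hset : ∀ P : (curve e1 e2 e3).toAffine.Point, P + P = 0 ↔ P ∈ S := by
    intro P
    match P with
    | .zero =>
      constructor
      · intro _
        rw [hS]
        exact Finset.mem_insert_self _ _
      · intro _
        exact add_zero _
    | .some x y h =>
      rw [td2_iff h2]
      constructor
      · intro hy
        subst hy
        have hE := td2_eq.mp h.1
        have hE' : (x - e1) * (x - e2) * (x - e3) = 0 := by rw [← hE]; ring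
        rw [hS]
        simp only [Finset.mem_insert, Finset.mem_singleton,
          WeierstrassCurve.Affine.Point.some.injEq, and_true]
        right
        rcases mul_eq_zero.mp hE' with h' | h'
        · rcases mul_eq_zero.mp h' with h'' | h''
          · left; exact sub_eq_zero.mp h''
          · right; left; exact sub_eq_zero.mp h''
        · right; right; exact sub_eq_zero.mp h'
      · intro hm
        rw [hS] at hm
        simp only [Finset.mem_insert, Finset.mem_singleton,
          WeierstrassCurve.Affine.Point.some.injEq] at hm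
        rcases hm with hm | hm | hm | hm
        · exact absurd hm (WeierstrassCurve.Affine.Point.some_ne_zero _)
        · exact hm.2
        · exact hm.2
        · exact hm.2
  rw [← hcard]
  exact Nat.subtype_card S fun P => (hset P).symm

end Pool.Agent.Helper72.TD
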