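import Mathlib

/-!
OD-2: the theorem of Amer and Brumer for two diagonal quadratic forms.
-/

namespace Pool.Agent.Helper72.TD

open Polynomial

private theorem ab_sq_coeff {K : Type*} [Field K] (z : K[X]) (m : ℕ) (hz : z.natDegree ≤ m + 1) :
    (z ^ 2).coeff (2 * m + 1) = 2 * z.coeff (m + 1) * z.coeff m := by
  set y := z.coeff (m + 1) with hy
  set u : K[X] := z - C y * X ^ (m + 1) with hu
  have hud : u.natDegree ≤ m := by
    rw [natDegree_le_iff_coeff_eq_zero]
    intro k hk
    rw [hu, coeff_sub, coeff_C_mul, coeff_X_pow]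
    by_cases h : k = m + 1
    · rw [if_pos h, h, mul_one, sub_self]
    · rw [if_neg h, mul_zero, sub_zero]
      exact coeff_eq_zero_of_natDegree_lt (by omega)
  have hum : u.coeff m = z.coeff m := by
    rw [hu, coeff_sub, coeff_C_mul, coeff_X_pow, if_neg (by omega), mul_zero, sub_zero]
  have hz2 : z ^ 2 = u ^ 2 + C (2 * y) * (u * X ^ (m + 1)) + C (y ^ 2) * X ^ (2 * m + 2) := by
    have : z = u + C y * X ^ (m + 1) := by rw [hu]; ring
    rw [this]
    simp only [C_mul, C_pow]
    have h2 : (C (2 : K) : K[X]) = 2 := rfl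
    rw [h2]
    ring
  rw [hz2, coeff_add, coeff_add, coeff_C_mul, coeff_C_mul, coeff_X_pow, if_neg (by omega),
    mul_zero, add_zero]
  have h1 : (u ^ 2).coeff (2 * m + 1) = 0 := by
    apply coeff_eq_zero_of_natDegree_lt
    have := natDegree_pow_le (p := u) (n := 2)
    nlinarith
  have h2 : (u * X ^ (m + 1)).coeff (2 * m + 1) = u.coeff m := by
    have : 2 * m + 1 = m + (m + 1) := by ring
    rw [this, coeff_mul_X_pow]
  rw [h1, h2, hum]
  ring

private theorem ab_coeff_succ {K : Type*} [Field K] (a b : K) (z : K[X]) (k : ℕ) :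
    ((C a + X * C b) * z).coeff (k + 1) = a * z.coeff (k + 1) + b * z.coeff k := by
  have h : (C a + X * C b) * z = C a * z + C b * z * X := by ring
  rw [h, coeff_add, coeff_C_mul, coeff_mul_X, coeff_C_mul]

private theorem ab_coeff_zero {K : Type*} [Field K] (a b : K) (z : K[X]) :
    ((C a + X * C b) * z).coeff 0 = a * z.coeff 0 := by
  have h : (C a + X * C b) * z = C a * z + C b * z * X := by ring
  rw [h, coeff_add, coeff_C_mul, coeff_mul_X_zero, add_zero]

private theorem ab_poly {K : Type*} [Field K] (h2 : (2 : K) ≠ 0) {ι : Type*} [Fintype ι]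
    (a b : ι → K) (m : ℕ) : ∀ z : ι → K[X], z ≠ 0 → (∀ i, (z i).natDegree ≤ m) →
      ∑ i, (C (a i) + X * C (b i)) * z i ^ 2 = 0 →
      ∃ y : ι → K, y ≠ 0 ∧ ∑ i, a i * y i ^ 2 = 0 ∧ ∑ i, b i * y i ^ 2 = 0 := by
  induction m with
  | zero =>
    intro z hz hd hN
    have hzC : ∀ i, z i = C ((z i).coeff 0) := fun i =>
      eq_C_of_natDegree_le_zero (hd i)
    refine ⟨fun i => (z i).coeff 0, ?_, ?_, ?_⟩
    · intro h0
      apply hz
      funext i
      rw [hzC i, congrFun h0 i]
      simp
    · have h1 := congrArg (fun p : K[X] => p.coeff 0) hN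
      simp only [finsetSum_coeff, coeff_zero] at h1
      rw [← h1]
      refine Finset.sum_congr rfl fun i _ => ?_
      rw [ab_coeff_zero, sq, sq, mul_coeff_zero]
    · have h1 := congrArg (fun p : K[X] => p.coeff 1) hN
      simp only [finsetSum_coeff, coeff_zero] at h1
      rw [← h1]
      refine Finset.sum_congr rfl fun i _ => ?_
      rw [show (1 : ℕ) = 0 + 1 from rfl, ab_coeff_succ]
      have h3 : (z i ^ 2).coeff (0 + 1) = 0 := by
        apply coeff_eq_zero_of_natDegree_lt
        have := natDegree_pow_le (p := z i) (n := 2)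
        have := hd i
        nlinarith
      rw [h3, mul_zero, zero_add, sq, sq, mul_coeff_zero]
  | succ m ih =>
    intro z hz hd hN
    set y : ι → K := fun i => (z i).coeff (m + 1) with hy
    by_cases hy0 : y = 0
    · refine ih z hz (fun i => ?_) hN
      rw [natDegree_le_iff_coeff_eq_zero]
      intro k hk
      by_cases h : k = m + 1
      · rw [h]; exact congrFun hy0 i
      · exact coeff_eq_zero_of_natDegree_lt (by have := hd i; omega)
    have hb : ∑ i, b i * y i ^ 2 = 0 := by
      have h1 := congrArg (fun p : K[X] => p.coeff (2 * (m + 1) + 1)) hN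
      simp only [finsetSum_coeff, coeff_zero] at h1
      rw [← h1]
      refine Finset.sum_congr rfl fun i _ => ?_
      rw [ab_coeff_succ]
      have h3 : (z i ^ 2).coeff (2 * (m + 1) + 1) = 0 := by
        apply coeff_eq_zero_of_natDegree_lt
        have := natDegree_pow_le (p := z i) (n := 2)
        have := hd i
        nlinarith
      have h4 : (z i ^ 2).coeff (2 * (m + 1)) = y i ^ 2 := by
        rw [sq, two_mul, coeff_mul_add_eq_of_natDegree_le (hd i) (hd i), sq]
      rw [h3, h4, mul_zero, zero_add]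
    set c : K := ∑ i, a i * y i ^ 2 with hc
    by_cases hc0 : c = 0
    · exact ⟨y, hy0, hc0, hb⟩
    set s : K := ∑ i, b i * (y i * (z i).coeff m) with hs
    have hcs : c + 2 * s = 0 := by
      have h1 := congrArg (fun p : K[X] => p.coeff (2 * m + 1 + 1)) hN
      simp only [finsetSum_coeff, coeff_zero] at h1
      rw [← h1, hc, hs, Finset.mul_sum, ← Finset.sum_add_distrib]
      refine Finset.sum_congr rfl fun i _ => ?_
      rw [ab_coeff_succ]
      have h4 : (z i ^ 2).coeff (2 * m + 1 + 1) = y i ^ 2 := by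
        have : 2 * m + 1 + 1 = (m + 1) + (m + 1) := by ring
        rw [sq, this, coeff_mul_add_eq_of_natDegree_le (hd i) (hd i), sq]
      rw [h4, ab_sq_coeff (z i) m (hd i)]
      ring
    set B : K[X] := ∑ i, (C (a i) + X * C (b i)) * (z i * C (y i)) with hB
    clear_value B
    have hBs : ∀ k, B.coeff (k + 1) = ∑ i, (a i * (z i).coeff (k + 1) +
        b i * (z i).coeff k) * y i := by
      intro k
      rw [hB, finsetSum_coeff]
      refine Finset.sum_congr rfl fun i _ => ?_
      rw [ab_coeff_succ, coeff_mul_C, coeff_mul_C]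
      ring
    have hBm : B.coeff (m + 1) = c + s := by
      rw [hBs, hc, hs, ← Finset.sum_add_distrib]
      refine Finset.sum_congr rfl fun i _ => ?_
      change (a i * y i + _) * _ = _
      ring
    have hBbig : ∀ k, m + 1 < k → B.coeff k = 0 := by
      intro k hk
      obtain ⟨k, rfl⟩ : ∃ k', k = k' + 1 := ⟨k - 1, by omega⟩
      rw [hBs]
      by_cases h : k = m + 1
      · subst h
        rw [← hb]
        refine Finset.sum_congr rfl fun i _ => ?_
        rw [coeff_eq_zero_of_natDegree_lt (p := z i) (by have := hd i; omega)]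
        change (a i * 0 + b i * y i) * y i = _
        ring
      · refine Finset.sum_eq_zero fun i _ => ?_
        rw [coeff_eq_zero_of_natDegree_lt (p := z i) (n := k + 1) (by have := hd i; omega),
          coeff_eq_zero_of_natDegree_lt (p := z i) (n := k) (by have := hd i; omega)]
        ring
    -- the reflected vector
    set z' : ι → K[X] := fun i => C c * z i - 2 * B * C (y i) with hz'
    have hYY : ∑ i, (C (a i) + X * C (b i)) * (C (y i)) ^ 2 = C c := by
      have h3 : ∑ i, (C (a i) + X * C (b i)) * (C (y i)) ^ 2 =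
          C (∑ i, a i * y i ^ 2) + X * C (∑ i, b i * y i ^ 2) := by
        rw [map_sum, map_sum, Finset.mul_sum, ← Finset.sum_add_distrib]
        refine Finset.sum_congr rfl fun i _ => ?_
        simp only [C_mul, C_pow]
        ring
      rw [h3, hb, ← hc]
      simp
    have hN' : ∑ i, (C (a i) + X * C (b i)) * z' i ^ 2 = 0 := by
      have h3 : ∑ i, (C (a i) + X * C (b i)) * z' i ^ 2 =
          C c ^ 2 * (∑ i, (C (a i) + X * C (b i)) * z i ^ 2) - 4 * C c * B * B +
            4 * B ^ 2 * (∑ i, (C (a i) + X * C (b i)) * (C (y i)) ^ 2) := by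
        have h4 : 4 * C c * B * B = 4 * C c * B *
            ∑ i, (C (a i) + X * C (b i)) * (z i * C (y i)) := by rw [← hB]
        rw [h4, Finset.mul_sum, Finset.mul_sum, Finset.mul_sum, ← Finset.sum_sub_distrib,
          ← Finset.sum_add_distrib]
        refine Finset.sum_congr rfl fun i _ => ?_
        simp only [hz']
        ring
      rw [h3, hN, hYY]
      ring
    have h4K : (4 : K[X]) ≠ 0 := by
      have h5 : (4 : K) ≠ 0 := by
        have : (4 : K) = 2 * 2 := by norm_num
        rw [this]
        exact mul_ne_zero h2 h2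
      have : (4 : K[X]) = C (4 : K) := rfl
      rw [this]
      exact fun h6 => h5 (C_eq_zero.1 h6)
    have hcC : (C c : K[X]) ≠ 0 := fun h6 => hc0 (C_eq_zero.1 h6)
    have hz'0 : z' ≠ 0 := by
      intro h0
      have h3 : ∀ i, C c * z i = 2 * B * C (y i) := by
        intro i
        have := congrFun h0 i
        simp only [hz', Pi.zero_apply] at this
        exact sub_eq_zero.1 this
      have h5 : 4 * B ^ 2 * C c = 0 := by
        have h6 : C c ^ 2 * (∑ i, (C (a i) + X * C (b i)) * z i ^ 2) =
            4 * B ^ 2 * (∑ i, (C (a i) + X * C (b i)) * (C (y i)) ^ 2) := by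
          rw [Finset.mul_sum, Finset.mul_sum]
          refine Finset.sum_congr rfl fun i _ => ?_
          have h7 := h3 i
          linear_combination (C (a i) + X * C (b i)) * (C c * z i + 2 * B * C (y i)) * h7
        rw [hYY, hN, mul_zero] at h6
        exact h6.symm
      have hB0 : B = 0 := by
        rcases mul_eq_zero.1 h5 with h6 | h6
        · rcases mul_eq_zero.1 h6 with h7 | h7
          · exact absurd h7 h4K
          · exact pow_eq_zero_iff (two_ne_zero) |>.1 h7
        · exact absurd h6 hcC
      apply hz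
      funext i
      have h7 := h3 i
      rw [hB0, mul_zero, zero_mul] at h7
      exact (mul_eq_zero.1 h7).resolve_left hcC
    refine ih z' hz'0 (fun i => ?_) hN'
    rw [natDegree_le_iff_coeff_eq_zero]
    intro k hk
    have h2C : (2 : K[X]) = C (2 : K) := rfl
    simp only [hz', coeff_sub, coeff_C_mul]
    rw [coeff_mul_C, h2C, coeff_C_mul]
    by_cases h : k = m + 1
    · subst h
      rw [hBm]
      change c * y i - 2 * (c + s) * y i = 0
      linear_combination (-y i) * hcs
    · rw [hBbig k (by omega), coeff_eq_zero_of_natDegree_lt (by have := hd i; omega)]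
      ring

/-- If `∑ (a_i + T b_i) z_i²` is isotropic over `K(T)`, then `∑ a_i y_i²` and `∑ b_i y_i²` have a
common nontrivial zero over `K`.

Proof. Clear denominators: we may assume `z_i ∈ K[X]`, not all zero. Strong induction on `m` where
`natDegree z_i ≤ m` for all `i`. Put `y_i = coeff z_i m`. If `y = 0` then `m > 0` (as `z ≠ 0`) and
all degrees are `≤ m - 1`. Otherwise look at `N = ∑ (C a_i + X C b_i) z_i² = 0`. The coefficient of
`X^(2m+1)` gives `∑ b_i y_i² = 0`. Let `c = ∑ a_i y_i²`. If `c = 0`, `y` is the required zero. If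
`m = 0`, the coefficient of `X^0` gives `c = 0`. Let `m > 0`, `c ≠ 0`. Let
`B = ∑ (C a_i + X C b_i) z_i C y_i` and `z'_i = C c z_i - 2 B C y_i` (a reflection, scaled). As
`∑ (C a_i + X C b_i) (C y_i)² = C c`, we get `∑ (C a_i + X C b_i) z'_i² = c² N - 4 c B² + 4 B² c = 0`.
Moreover `z' ≠ 0`: otherwise `c z_i = 2 B y_i`, so `0 = c² N = 4 B² c`, `B = 0`, `z = 0`.
Finally `natDegree z'_i ≤ m - 1`: let `s = ∑ b_i y_i coeff z_i (m-1)`; the coefficient of `X^(2m)`
of `N` is `c + 2 s = 0`; the coefficient of `X^(m+1)` of `B` is `∑ b_i y_i² = 0` and that of `X^m`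
is `c + s = c / 2`; hence the coefficients of `X^(m+1)` and `X^m` of `z'_i` are `0` and
`c y_i - 2 (c/2) y_i = 0`, and higher ones vanish. Apply the induction hypothesis to `z'`. -/
theorem amer_brumer {K : Type*} [Field K] (h2 : (2 : K) ≠ 0) {ι : Type*} [Fintype ι] (a b : ι → K)
    (z : ι → RatFunc K) (hz : z ≠ 0)
    (h : ∑ i, (RatFunc.C (a i) + RatFunc.X * RatFunc.C (b i)) * z i ^ 2 = 0) :
    ∃ y : ι → K, y ≠ 0 ∧ ∑ i, a i * y i ^ 2 = 0 ∧ ∑ i, b i * y i ^ 2 = 0 := by
  obtain ⟨⟨d, hd⟩, hdz⟩ := IsLocalization.exist_integer_multiples (nonZeroDivisors K[X])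
    Finset.univ z
  choose! w hw using fun i => hdz i (Finset.mem_univ i)
  simp only [Algebra.smul_def] at hw
  have hd0 : algebraMap K[X] (RatFunc K) d ≠ 0 := by
    have h1 := nonZeroDivisors.ne_zero hd
    exact fun h0 => h1 (IsFractionRing.injective K[X] (RatFunc K) (by rw [h0, map_zero]))
  have hw0 : w ≠ 0 := by
    intro h0
    apply hz
    funext i
    have h1 := hw i
    rw [h0] at h1
    simp only [Pi.zero_apply, map_zero] at h1
    exact (mul_eq_zero.1 h1.symm).resolve_left hd0
  refine ab_poly h2 a b (Finset.univ.sup fun i => (w i).natDegree) w hw0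
    (fun i => Finset.le_sup (f := fun i => (w i).natDegree) (Finset.mem_univ i)) ?_
  apply IsFractionRing.injective K[X] (RatFunc K)
  rw [map_zero, map_sum]
  have h1 : ∑ i, algebraMap K[X] (RatFunc K) ((C (a i) + X * C (b i)) * w i ^ 2) =
      (algebraMap K[X] (RatFunc K) d) ^ 2 *
        ∑ i, (RatFunc.C (a i) + RatFunc.X * RatFunc.C (b i)) * z i ^ 2 := by
    rw [Finset.mul_sum]
    refine Finset.sum_congr rfl fun i _ => ?_
    rw [map_mul, map_add, map_mul, map_pow, hw i, RatFunc.algebraMap_C, RatFunc.algebraMap_X,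
      RatFunc.algebraMap_C]
    change _ * (algebraMap K[X] (RatFunc K) d * z i) ^ 2 = _
    ring
  rw [h1, h, mul_zero]

end Pool.Agent.Helper72.TD
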