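import Mathlib

/-!
Definitions for the 2-descent on elliptic curves with full rational 2-torsion over `k(t)`.
-/

namespace Pool.Agent.Helper72.TD

open IsDedekindDomain Polynomial

/-- The curve `y² = (x - e1) (x - e2) (x - e3)`. -/
def curve {K : Type*} [Field K] (e1 e2 e3 : K) : WeierstrassCurve K where
  a₁ := 0
  a₂ := -(e1 + e2 + e3)
  a₃ := 0
  a₄ := e1 * e2 + e1 * e3 + e2 * e3
  a₆ := -(e1 * e2 * e3)

/-- The `2`-covering `C_{d1,d2}` of `y² = (x - e1) (x - e2) (x - e3)`, given in projective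
3-space by `d1 z1² - d2 z2² = (e2 - e1) z0²` and `d1 z1² - d1 d2 z3² = (e3 - e1) z0²`,
has a point `(z0 : z1 : z2 : z3)` over the extension field `L` of `K`. -/
def HasPoint {K : Type*} [Field K] (L : Type*) [Field L] [Algebra K L] (e1 e2 e3 d1 d2 : K) :
    Prop :=
  ∃ z0 z1 z2 z3 : L, ¬ (z0 = 0 ∧ z1 = 0 ∧ z2 = 0 ∧ z3 = 0) ∧
    algebraMap K L d1 * z1 ^ 2 - algebraMap K L d2 * z2 ^ 2 = algebraMap K L (e2 - e1) * z0 ^ 2 ∧
    algebraMap K L d1 * z1 ^ 2 - algebraMap K L (d1 * d2) * z3 ^ 2 =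
      algebraMap K L (e3 - e1) * z0 ^ 2

/-- `C_{d1,d2}` has a point over every completion of `k(t)`. -/
def ELS {k : Type*} [Field k] (e1 e2 e3 d1 d2 : RatFunc k) : Prop := by
  classical exact
  (∀ v : HeightOneSpectrum k[X], HasPoint (v.adicCompletion (RatFunc k)) e1 e2 e3 d1 d2) ∧
    HasPoint (RatFunc.CompletionAtInfty k) e1 e2 e3 d1 d2

/-- The symmetric form of `HasPoint` with three classes whose product is a nonzero square. -/
def SymPoint {L : Type*} [Field L] (e1 e2 e3 d1 d2 d3 : L) : Prop :=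
  (∃ D : L, D ≠ 0 ∧ d1 * d2 * d3 = D ^ 2) ∧
  ∃ z0 z1 z2 z3 : L, ¬ (z0 = 0 ∧ z1 = 0 ∧ z2 = 0 ∧ z3 = 0) ∧
    d1 * z1 ^ 2 - d2 * z2 ^ 2 = (e2 - e1) * z0 ^ 2 ∧
    d1 * z1 ^ 2 - d3 * z3 ^ 2 = (e3 - e1) * z0 ^ 2 ∧
    d2 * z2 ^ 2 - d3 * z3 ^ 2 = (e3 - e2) * z0 ^ 2

/-- The value of `d` is an even element of the value group. -/
def EvenAt {L Γ : Type*} [Field L] [LinearOrderedCommGroupWithZero Γ] (w : Valuation L Γ)
    (d : L) : Prop := ∃ γ : Γ, γ ≠ 0 ∧ w d = γ ^ 2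

/-- `d` is a square times a `1`-unit. -/
def OneSq {L Γ : Type*} [Field L] [LinearOrderedCommGroupWithZero Γ] (w : Valuation L Γ)
    (d : L) : Prop := ∃ s : L, w (d * s ^ 2 - 1) < 1

/-- The point `P` of `y² = (x - e1) (x - e2) (x - e3)` has descent class `(d1, d2)`: it lifts to a
point of the covering `C_{d1,d2}`. -/
def HasClass {K : Type*} [Field K] {e1 e2 e3 : K} (P : (curve e1 e2 e3).toAffine.Point)
    (d1 d2 : K) : Prop :=
  match P with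
  | .zero => IsSquare d1 ∧ IsSquare d2
  | .some x _ _ => ∃ z1 z2 z3 : K, x - e1 = d1 * z1 ^ 2 ∧ x - e2 = d2 * z2 ^ 2 ∧
      x - e3 = d1 * d2 * z3 ^ 2

end Pool.Agent.Helper72.TD
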