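import Pool.Agent.Helper72.TD.Defs

/-!
TD-7: an explicit family of polynomials `g = t^p - t + c`.
-/

namespace Pool.Agent.Helper72.TD

open Polynomial

/-- Artin-Schreier: `X^p - X + a` is irreducible if it has no root. -/
private theorem irr_of_no_root {k : Type*} [Field k] (p : ℕ) [hp : Fact p.Prime] [CharP k p]
    (a : k) (hno : ∀ x : k, x ^ p - x + a ≠ 0) : Irreducible ((X : k[X]) ^ p - X + C a) := by
  have hp1 : 1 < p := hp.out.one_lt
  have hdeg : ((X : k[X]) ^ p - X + C a).natDegree = p := by
    have h1 : (-(X : k[X]) + C a).natDegree ≤ 1 := by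
      apply natDegree_add_le_of_degree_le
      · rw [natDegree_neg]; exact natDegree_X_le
      · rw [natDegree_C]; omega
    rw [sub_add_eq_add_sub, add_sub_assoc, ← neg_sub, ← sub_eq_add_neg]
    have e : (X : k[X]) ^ p - (X - C a) = X ^ p + (-(X : k[X]) + C a) := by ring
    rw [e, natDegree_add_eq_left_of_natDegree_lt, natDegree_X_pow]
    rw [natDegree_X_pow]; omega
  have hmon : ((X : k[X]) ^ p - X + C a).Monic := by
    have e : (X : k[X]) ^ p - X + C a = X ^ p + (-(X : k[X]) + C a) := by ring
    rw [e]
    apply monic_X_pow_add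
    have h1 : (-(X : k[X]) + C a).natDegree ≤ 1 := by
      apply natDegree_add_le_of_degree_le
      · rw [natDegree_neg]; exact natDegree_X_le
      · rw [natDegree_C]; omega
    exact lt_of_le_of_lt degree_le_natDegree (by exact_mod_cast (by omega :
      (-(X : k[X]) + C a).natDegree < p))
  rw [hmon.irreducible_iff_natDegree']
  refine ⟨?_, ?_⟩
  · intro h
    rw [h, natDegree_one] at hdeg
    omega
  · intro f g hf hg hfg hmem
    rw [Finset.mem_Ioc, hdeg] at hmem
    obtain ⟨hg0, hgp⟩ := hmem
    have hgp' : g.natDegree < p := lt_of_le_of_lt hgp (Nat.div_lt_self (by omega) (by norm_num))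
    set Ω := AlgebraicClosure k
    set φ := algebraMap k Ω with hφ
    have : CharP Ω p := charP_of_injective_algebraMap φ.injective p
    -- a root alpha
    obtain ⟨α, hα⟩ := IsAlgClosed.exists_aeval_eq_zero Ω ((X : k[X]) ^ p - X + C a) (by
      rw [Ne, degree_eq_natDegree hmon.ne_zero, hdeg]
      exact_mod_cast (by omega : p ≠ 0))
    have hα' : α ^ p - α + φ a = 0 := by simpa using hα
    set R := (g.map φ).roots with hR
    have hgm : (g.map φ).Monic := hg.map φ
    have hsplit : (g.map φ).Splits := IsAlgClosed.splits _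
    have hRcard : Multiset.card R = g.natDegree := by
      rw [hR, ← hsplit.natDegree_eq_card_roots, natDegree_map]
    have hroot : ∀ r ∈ R, (r - α) ^ p = r - α := by
      intro r hr
      rw [hR, mem_roots hgm.ne_zero, IsRoot.def, eval_map] at hr
      have h1 : r ^ p - r + φ a = 0 := by
        have h2 : eval₂ φ r ((X : k[X]) ^ p - X + C a) = 0 := by
          rw [← hfg, eval₂_mul, hr, mul_zero]
        simpa using h2
      rw [sub_pow_char]
      linear_combination h1 - hα'
    set s := (R.map fun r => r - α).sum with hs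
    have hsp : s ^ p = s := by
      have h1 : frobenius Ω p s = s := by
        rw [hs, map_multiset_sum, Multiset.map_map]
        congr 1
        apply Multiset.map_congr rfl
        intro r hr
        exact hroot r hr
      exact h1
    have hsum : R.sum = s + (g.natDegree : Ω) * α := by
      rw [hs, Multiset.sum_map_sub, Multiset.map_id', Multiset.map_const', Multiset.sum_replicate,
        hRcard, nsmul_eq_mul]
      ring
    have hcoef : R.sum = φ (-g.nextCoeff) := by
      have h1 := hsplit.nextCoeff_eq_neg_sum_roots_of_monic hgm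
      rw [nextCoeff_map φ.injective] at h1
      rw [map_neg, h1, neg_neg]
    have hm0 : (g.natDegree : Ω) ≠ 0 := by
      rw [Ne, CharP.cast_eq_zero_iff Ω p]
      intro hdvd
      exact absurd (Nat.le_of_dvd hg0 hdvd) (by omega)
    have hm0k : (g.natDegree : k) ≠ 0 := by
      rw [Ne, CharP.cast_eq_zero_iff k p]
      intro hdvd
      exact absurd (Nat.le_of_dvd hg0 hdvd) (by omega)
    have hmp : ((g.natDegree : Ω)) ^ p = (g.natDegree : Ω) := by
      have h1 := map_natCast (frobenius Ω p) g.natDegree
      exact h1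
    set β : k := -g.nextCoeff / (g.natDegree : k) with hβ
    have hβα : φ β = α + s / (g.natDegree : Ω) := by
      rw [hβ, map_div₀, ← hcoef, hsum, map_natCast, add_div, mul_div_cancel_left₀ _ hm0, add_comm]
    apply hno β
    apply φ.injective
    rw [map_zero, map_add, map_sub, map_pow, hβα, add_pow_char, div_pow, hsp, hmp]
    linear_combination hα'

private theorem pow_iter {k : Type*} [Field k] (p N : ℕ) (ζ : k) (h : ζ ^ (p ^ N) = ζ) (t : ℕ) :
    ζ ^ (p ^ (N * t)) = ζ := by
  induction t with
  | zero => simp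
  | succ t ih =>
    rw [Nat.mul_succ, pow_add, pow_mul, ih, h]

private theorem sum_blocks {k : Type*} [Field k] (p N : ℕ) (ζ : k) (h : ζ ^ (p ^ N) = ζ) (t : ℕ) :
    ∑ i ∈ Finset.range (N * t), ζ ^ (p ^ i) = t * ∑ i ∈ Finset.range N, ζ ^ (p ^ i) := by
  induction t with
  | zero => simp
  | succ t ih =>
    rw [Nat.mul_succ, Finset.sum_range_add, ih]
    have h1 : ∀ i ∈ Finset.range N, ζ ^ (p ^ (N * t + i)) = ζ ^ (p ^ i) := by
      intro i _
      rw [pow_add, pow_mul, pow_iter p N ζ h t]
    rw [Finset.sum_congr rfl h1]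
    push_cast
    ring

theorem artin_schreier_example (p f m : ℕ) [Fact p.Prime] (hf : 0 < f) (k : Type*) [Field k]
    [Fintype k] (hk : Fintype.card k = (p ^ (2 * f)) ^ (p * m)) :
    ∃ c : k, ∀ ζ : k, ζ ^ (p ^ (2 * f)) = ζ →
      Irreducible ((X : k[X]) ^ p - X + C (c - ζ)) := by
  have hp : p.Prime := Fact.out
  have hp1 : 1 < p := hp.one_lt
  have hcard1 : 1 < Fintype.card k := Fintype.one_lt_card
  have hm : 0 < m := by
    rcases Nat.eq_zero_or_pos m with h | h
    · rw [h, mul_zero, pow_zero] at hk
      omega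
    · exact h
  have : CharP k p := by
    rw [CharP.charP_iff_prime_eq_zero hp]
    have h1 : ((Fintype.card k : ℕ) : k) = 0 := by
      exact FiniteField.cast_card_eq_zero k
    rw [hk] at h1
    push_cast at h1
    exact eq_zero_of_pow_eq_zero (eq_zero_of_pow_eq_zero h1)
  set n := 2 * f * (p * m) with hn
  have hn0 : 0 < n := by positivity
  have hkn : Fintype.card k = p ^ n := by rw [hk, ← pow_mul]
  set P : k[X] := ∑ i ∈ Finset.range n, X ^ (p ^ i) with hP
  have hPne : P ≠ 0 := by
    intro h0
    have h1 : P.coeff 1 = 1 := by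
      rw [hP, finsetSum_coeff, Finset.sum_eq_single 0]
      · simp
      · intro i _ hi
        rw [coeff_X_pow, if_neg]
        intro h2
        have h3 : 1 < p ^ i := Nat.one_lt_pow hi hp1
        omega
      · intro h2
        exact absurd (Finset.mem_range.2 hn0) h2
    rw [h0, coeff_zero] at h1
    exact zero_ne_one h1
  have hPdeg : P.natDegree < Fintype.card k := by
    have h1 : P.natDegree ≤ p ^ (n - 1) := by
      rw [hP]
      apply natDegree_sum_le_of_forall_le
      intro i hi
      rw [Finset.mem_range] at hi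
      rw [natDegree_X_pow]
      exact Nat.pow_le_pow_right (by omega) (by omega)
    rw [hkn]
    exact lt_of_le_of_lt h1 (Nat.pow_lt_pow_right hp1 (by omega))
  obtain ⟨c, hc⟩ : ∃ c, eval c P ≠ 0 := by
    by_contra hcon
    push Not at hcon
    apply hPne
    apply eq_zero_of_natDegree_lt_card_of_eval_eq_zero' P Finset.univ
    · intro r _; exact hcon r
    · rw [Finset.card_univ]; exact hPdeg
  have hT : ∀ x : k, eval x P = ∑ i ∈ Finset.range n, x ^ (p ^ i) := by
    intro x
    rw [hP, eval_finsetSum]
    simp
  have hadd : ∀ x y : k, eval (x - y) P = eval x P - eval y P := by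
    intro x y
    rw [hT, hT, hT, ← Finset.sum_sub_distrib]
    apply Finset.sum_congr rfl
    intro i _
    exact sub_pow_char_pow ..
  refine ⟨c, fun ζ hζ => ?_⟩
  apply irr_of_no_root p
  intro x hx
  apply hc
  have hcx : c = ζ - (x ^ p - x) := by linear_combination hx
  have hζ0 : eval ζ P = 0 := by
    rw [hT, hn, sum_blocks p (2 * f) ζ hζ (p * m)]
    push_cast
    rw [CharP.cast_eq_zero, zero_mul, zero_mul]
  have hxp : eval (x ^ p) P = eval x P := by
    rw [hT, hT]
    have h1 : ∑ i ∈ Finset.range n, (x ^ p) ^ (p ^ i) =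
        ∑ i ∈ Finset.range n, x ^ (p ^ (i + 1)) := by
      apply Finset.sum_congr rfl
      intro i _
      rw [← pow_mul, ← pow_succ']
    rw [h1]
    have h2 := Finset.sum_range_succ (fun i => x ^ (p ^ i)) n
    have h3 := Finset.sum_range_succ' (fun i => x ^ (p ^ i)) n
    have h4 : x ^ (p ^ n) = x := by rw [← hkn]; exact FiniteField.pow_card x
    rw [h3, h4] at h2
    simp only [pow_zero, pow_one] at h2
    exact add_right_cancel h2
  rw [hcx, hadd, hadd, hζ0, hxp]
  ring

end Pool.Agent.Helper72.TD
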