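import Pool.Agent.Helper72.TD.Defs

/-!
TD-8a, TD-8b: the height on `k(t)`.
-/

namespace Pool.Agent.Helper72.TD

open Polynomial

variable {k : Type*} [Field k]

/-- The height of a rational function. -/
noncomputable def ht (x : RatFunc k) : ℕ := max x.num.natDegree x.denom.natDegree

/-- TD-8a: Northcott. -/
theorem finite_ht_le [Finite k] (B : ℕ) : {x : RatFunc k | ht x ≤ B}.Finite := by
  have hfin : {p : k[X] | p.natDegree ≤ B}.Finite := by
    have h1 : Function.Injective (fun p : {p : k[X] // p.natDegree ≤ B} =>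
        (fun i : Fin (B + 1) => p.1.coeff i)) := by
      rintro ⟨p, hp⟩ ⟨q, hq⟩ h
      apply Subtype.ext
      apply Polynomial.ext
      intro n
      by_cases hn : n < B + 1
      · exact congrFun h ⟨n, hn⟩
      · show p.coeff n = q.coeff n
        rw [coeff_eq_zero_of_natDegree_lt (by omega), coeff_eq_zero_of_natDegree_lt (by omega)]
    have h3 : Finite {p : k[X] // p.natDegree ≤ B} := Finite.of_injective _ h1
    exact Set.finite_coe_iff.1 h3
  have h2 : {x : RatFunc k | ht x ≤ B} ⊆
      (fun pq : k[X] × k[X] => algebraMap k[X] (RatFunc k) pq.1 /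
        algebraMap k[X] (RatFunc k) pq.2) ''
        ({p : k[X] | p.natDegree ≤ B} ×ˢ {p : k[X] | p.natDegree ≤ B}) := by
    intro x hx
    have hx' : max x.num.natDegree x.denom.natDegree ≤ B := hx
    refine ⟨(x.num, x.denom), ⟨?_, ?_⟩, RatFunc.num_div_denom x⟩
    · exact le_trans (le_max_left _ _) hx'
    · exact le_trans (le_max_right _ _) hx'
  exact ((hfin.prod hfin).image _).subset h2

/-- TD-8a: a quotient of polynomials of degree at most `N` has height at most `N`. -/
theorem ht_le_of_div {a b : k[X]} (hb : b ≠ 0) {N : ℕ} (h1 : a.natDegree ≤ N)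
    (h2 : b.natDegree ≤ N) {x : RatFunc k}
    (hx : x * algebraMap k[X] (RatFunc k) b = algebraMap k[X] (RatFunc k) a) : ht x ≤ N := by
  have hb' : algebraMap k[X] (RatFunc k) b ≠ 0 := by
    intro h
    exact hb (RatFunc.algebraMap_injective k (by rw [h, map_zero]))
  have hxx : x = algebraMap k[X] (RatFunc k) a / algebraMap k[X] (RatFunc k) b := by
    rw [eq_div_iff hb', hx]
  by_cases ha : a = 0
  · have : x = 0 := by rw [hxx, ha]; simp
    rw [this]
    simp [ht]
  · rw [hxx]
    apply max_le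
    · exact (natDegree_le_of_dvd (RatFunc.num_div_dvd a hb) ha).trans h1
    · exact (natDegree_le_of_dvd (RatFunc.denom_div_dvd a b) hb).trans h2

private theorem clear_one (P : (RatFunc k)[X]) : ∃ M : k[X], M ≠ 0 ∧
    ∃ P0 : (k[X])[X], P0.map (algebraMap k[X] (RatFunc k)) =
      C (algebraMap k[X] (RatFunc k) M) * P := by
  obtain ⟨b, hb0, hb⟩ := IsLocalization.integerNormalization_spec (nonZeroDivisors k[X]) P
  refine ⟨b, nonZeroDivisors.ne_zero hb0, _, hb.trans ?_⟩
  rw [← Polynomial.smul_eq_C_mul, algebraMap_smul]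

private theorem clear_mul {M M' : k[X]} {P : (RatFunc k)[X]}
    (h : ∃ P0 : (k[X])[X], P0.map (algebraMap k[X] (RatFunc k)) =
      C (algebraMap k[X] (RatFunc k) M) * P) :
    ∃ P0 : (k[X])[X], P0.map (algebraMap k[X] (RatFunc k)) =
      C (algebraMap k[X] (RatFunc k) (M' * M)) * P := by
  obtain ⟨P0, h⟩ := h
  refine ⟨C M' * P0, ?_⟩
  rw [Polynomial.map_mul, h, map_mul, Polynomial.map_C, C_mul, mul_assoc]

private theorem clear_list (l : List (RatFunc k)[X]) : ∃ M : k[X], M ≠ 0 ∧ ∀ P ∈ l,
    ∃ P0 : (k[X])[X], P0.map (algebraMap k[X] (RatFunc k)) =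
      C (algebraMap k[X] (RatFunc k) M) * P := by
  induction l with
  | nil => exact ⟨1, one_ne_zero, by simp⟩
  | cons P l ih =>
    obtain ⟨M, hM, h⟩ := ih
    obtain ⟨M', hM', h'⟩ := clear_one P
    refine ⟨M' * M, mul_ne_zero hM' hM, ?_⟩
    intro Q hQ
    rcases List.mem_cons.1 hQ with rfl | hQ
    · rw [mul_comm M' M]
      exact clear_mul h'
    · exact clear_mul (h Q hQ)

/-- homogenisation -/
private noncomputable def hom (P0 : (k[X])[X]) (m : ℕ) (p q : k[X]) : k[X] :=
  ∑ i ∈ Finset.range (m + 1), P0.coeff i * p ^ i * q ^ (m - i)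

private theorem hom_deg (P0 : (k[X])[X]) (m : ℕ) : ∃ D : ℕ, ∀ (p q : k[X]) (h : ℕ),
    p.natDegree ≤ h → q.natDegree ≤ h → (hom P0 m p q).natDegree ≤ D + m * h := by
  refine ⟨(Finset.range (m + 1)).sup fun i => (P0.coeff i).natDegree, ?_⟩
  intro p q h hp hq
  apply natDegree_sum_le_of_forall_le
  intro i hi
  have h1 : (P0.coeff i).natDegree ≤ (Finset.range (m + 1)).sup fun i => (P0.coeff i).natDegree :=
    Finset.le_sup (f := fun i => (P0.coeff i).natDegree) hi
  have h2 : (p ^ i).natDegree ≤ i * h := by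
    refine natDegree_pow_le.trans ?_
    exact Nat.mul_le_mul_left _ hp
  have h3 : (q ^ (m - i)).natDegree ≤ (m - i) * h := by
    refine natDegree_pow_le.trans ?_
    exact Nat.mul_le_mul_left _ hq
  have h4 : (P0.coeff i * p ^ i * q ^ (m - i)).natDegree ≤
      (P0.coeff i).natDegree + (p ^ i).natDegree + (q ^ (m - i)).natDegree :=
    natDegree_mul_le.trans (Nat.add_le_add_right natDegree_mul_le _)
  have h5 : i * h + (m - i) * h = m * h := by
    rw [← add_mul]
    congr 1
    have := Finset.mem_range.1 hi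
    omega
  omega

private theorem hom_eval {P : (RatFunc k)[X]} {P0 : (k[X])[X]} {M : k[X]}
    (h : P0.map (algebraMap k[X] (RatFunc k)) = C (algebraMap k[X] (RatFunc k) M) * P)
    {m : ℕ} (hm : P.natDegree ≤ m) (x : RatFunc k) :
    algebraMap k[X] (RatFunc k) (hom P0 m x.num x.denom) =
      algebraMap k[X] (RatFunc k) M * algebraMap k[X] (RatFunc k) x.denom ^ m * P.eval x := by
  have hq : algebraMap k[X] (RatFunc k) x.denom ≠ 0 := by
    intro h0
    exact RatFunc.denom_ne_zero x (RatFunc.algebraMap_injective k (by rw [h0, map_zero]))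
  have hx : x * algebraMap k[X] (RatFunc k) x.denom = algebraMap k[X] (RatFunc k) x.num := by
    have := RatFunc.num_div_denom x
    rw [← eq_div_iff hq]
    exact this.symm
  rw [eval_eq_sum_range' (Nat.lt_succ_of_le hm), hom, map_sum, Finset.mul_sum]
  apply Finset.sum_congr rfl
  intro i hi
  have hi' : i ≤ m := Nat.lt_succ_iff.1 (Finset.mem_range.1 hi)
  have h1 : algebraMap k[X] (RatFunc k) (P0.coeff i) =
      algebraMap k[X] (RatFunc k) M * P.coeff i := by
    have := congrArg (fun Q => Q.coeff i) h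
    simpa [coeff_map, coeff_C_mul] using this
  rw [map_mul, map_mul, map_pow, map_pow, h1, ← hx, mul_pow]
  have h2 : algebraMap k[X] (RatFunc k) x.denom ^ m =
      algebraMap k[X] (RatFunc k) x.denom ^ i * algebraMap k[X] (RatFunc k) x.denom ^ (m - i) := by
    rw [← pow_add]
    congr 1
    omega
  rw [h2]
  ring

/-- TD-8b: a quotient of two polynomials in `x` over `k(t)` without common zero on the projective
line multiplies the height by the degree. -/
theorem ht_div_ge (n : ℕ) (F G A B A' B' : (RatFunc k)[X]) (hF : F.natDegree ≤ n)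
    (hG : G.natDegree ≤ n) (c c' : RatFunc k) (hc : c ≠ 0) (hc' : c' ≠ 0) (N : ℕ)
    (hA : A.natDegree ≤ N) (hB : B.natDegree ≤ N) (hA' : A'.natDegree ≤ N) (hB' : B'.natDegree ≤ N)
    (h1 : A * F + B * G = C c) (h2 : A' * F + B' * G = C c' * X ^ (n + N)) :
    ∃ C0 : ℕ, ∀ x : RatFunc k, G.eval x ≠ 0 → n * ht x ≤ ht (F.eval x / G.eval x) + C0 := by
  have hinj := RatFunc.algebraMap_injective k
  obtain ⟨M, hM, hcl⟩ := clear_list [F, G, A, B, A', B', C c, C c']
  obtain ⟨F0, hF0⟩ := hcl F (by simp)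
  obtain ⟨G0, hG0⟩ := hcl G (by simp)
  obtain ⟨A0, hA0⟩ := hcl A (by simp)
  obtain ⟨B0, hB0⟩ := hcl B (by simp)
  obtain ⟨A1, hA1⟩ := hcl A' (by simp)
  obtain ⟨B1, hB1⟩ := hcl B' (by simp)
  obtain ⟨c0, hc0⟩ : ∃ c0 : k[X], algebraMap k[X] (RatFunc k) c0 =
      algebraMap k[X] (RatFunc k) M * c := by
    obtain ⟨P, hP⟩ := hcl (C c) (by simp)
    refine ⟨P.coeff 0, ?_⟩
    have := congrArg (fun Q => Q.coeff 0) hP
    simpa [coeff_map, coeff_C_mul] using this
  obtain ⟨c1, hc1⟩ : ∃ c1 : k[X], algebraMap k[X] (RatFunc k) c1 =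
      algebraMap k[X] (RatFunc k) M * c' := by
    obtain ⟨P, hP⟩ := hcl (C c') (by simp)
    refine ⟨P.coeff 0, ?_⟩
    have := congrArg (fun Q => Q.coeff 0) hP
    simpa [coeff_map, coeff_C_mul] using this
  have hM' : algebraMap k[X] (RatFunc k) M ≠ 0 := by
    intro h0
    exact hM (hinj (by rw [h0, map_zero]))
  have hc0' : c0 ≠ 0 := by
    intro h0
    rw [h0, map_zero] at hc0
    exact mul_ne_zero hM' hc hc0.symm
  have hc1' : c1 ≠ 0 := by
    intro h0
    rw [h0, map_zero] at hc1
    exact mul_ne_zero hM' hc' hc1.symm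
  obtain ⟨DA, hDA⟩ := hom_deg A0 N
  obtain ⟨DB, hDB⟩ := hom_deg B0 N
  obtain ⟨DA1, hDA1⟩ := hom_deg A1 N
  obtain ⟨DB1, hDB1⟩ := hom_deg B1 N
  refine ⟨(DA + DB + DA1 + DB1) + (M * c0 * (M * c1)).natDegree, ?_⟩
  intro x hGx
  set p := x.num with hp
  set q := x.denom with hq
  have hq0 : q ≠ 0 := RatFunc.denom_ne_zero x
  have hq0' : algebraMap k[X] (RatFunc k) q ≠ 0 := by
    intro h0
    exact hq0 (hinj (by rw [h0, map_zero]))
  have hpq : IsCoprime p q := RatFunc.isCoprime_num_denom x
  have hxq : x * algebraMap k[X] (RatFunc k) q = algebraMap k[X] (RatFunc k) p := by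
    rw [← eq_div_iff hq0']
    exact (RatFunc.num_div_denom x).symm
  set f := hom F0 n p q with hf
  set g := hom G0 n p q with hg
  set a := hom A0 N p q with ha
  set b := hom B0 N p q with hb
  set a1 := hom A1 N p q with ha1
  set b1 := hom B1 N p q with hb1
  have ef := hom_eval hF0 hF x
  have eg := hom_eval hG0 hG x
  have ea := hom_eval hA0 hA x
  have eb := hom_eval hB0 hB x
  have ea1 := hom_eval hA1 hA' x
  have eb1 := hom_eval hB1 hB' x
  rw [← hp, ← hq] at ef eg ea eb ea1 eb1
  rw [← hf] at ef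
  rw [← hg] at eg
  rw [← ha] at ea
  rw [← hb] at eb
  rw [← ha1] at ea1
  rw [← hb1] at eb1
  have key1 : a * f + b * g = M * c0 * q ^ (n + N) := by
    apply hinj
    have h3 := congrArg (fun P => P.eval x) h1
    simp only [eval_add, eval_mul, eval_C] at h3
    rw [map_add, map_mul, map_mul, map_mul, map_mul, map_pow, ea, ef, eb, eg, hc0, ← h3]
    ring
  have key2 : a1 * f + b1 * g = M * c1 * p ^ (n + N) := by
    apply hinj
    have h3 := congrArg (fun P => P.eval x) h2
    simp only [eval_add, eval_mul, eval_C, eval_pow, eval_X] at h3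
    rw [map_add, map_mul, map_mul, map_mul, map_mul, map_pow, ea1, ef, eb1, eg, hc1, ← hxq]
    have h4 : algebraMap k[X] (RatFunc k) M * (algebraMap k[X] (RatFunc k) M * c') *
        (x * algebraMap k[X] (RatFunc k) q) ^ (n + N) =
        algebraMap k[X] (RatFunc k) M * algebraMap k[X] (RatFunc k) M *
        algebraMap k[X] (RatFunc k) q ^ (n + N) * (c' * x ^ (n + N)) := by
      rw [mul_pow]
      ring
    rw [h4, ← h3]
    ring
  have hg0 : g ≠ 0 := by
    intro h0
    rw [h0, map_zero] at eg
    exact mul_ne_zero (mul_ne_zero hM' (pow_ne_zero _ hq0')) hGx eg.symm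
  have hg0' : algebraMap k[X] (RatFunc k) g ≠ 0 := by
    intro h0
    exact hg0 (hinj (by rw [h0, map_zero]))
  set y := F.eval x / G.eval x with hy
  have hyfg : y * algebraMap k[X] (RatFunc k) g = algebraMap k[X] (RatFunc k) f := by
    rw [ef, eg, hy]
    field_simp
  set u := y.num with hu
  set v := y.denom with hv
  have hv0 : v ≠ 0 := RatFunc.denom_ne_zero y
  have hv0' : algebraMap k[X] (RatFunc k) v ≠ 0 := by
    intro h0
    exact hv0 (hinj (by rw [h0, map_zero]))
  have hyv : y * algebraMap k[X] (RatFunc k) v = algebraMap k[X] (RatFunc k) u := by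
    rw [← eq_div_iff hv0']
    exact (RatFunc.num_div_denom y).symm
  have huv : IsCoprime u v := RatFunc.isCoprime_num_denom y
  have hcross : f * v = g * u := by
    apply hinj
    rw [map_mul, map_mul, ← hyfg, ← hyv]
    ring
  obtain ⟨e, he⟩ : v ∣ g := by
    have h3 : v ∣ g * u := ⟨f, by rw [← hcross]; ring⟩
    exact huv.symm.dvd_of_dvd_mul_right h3
  have he' : f = u * e := by
    have h3 : f * v = u * e * v := by
      rw [hcross, he]
      ring
    exact mul_right_cancel₀ hv0 h3
  have hed : e ∣ M * c0 * (M * c1) := by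
    have h3 : e ∣ M * c0 * q ^ (n + N) := by
      rw [← key1, he', he]
      exact ⟨a * u + b * v, by ring⟩
    have h4 : e ∣ M * c1 * p ^ (n + N) := by
      rw [← key2, he', he]
      exact ⟨a1 * u + b1 * v, by ring⟩
    obtain ⟨r, s, hrs⟩ := (hpq.pow (m := n + N) (n := n + N))
    have h5 : M * c0 * (M * c1) = (M * c0) * r * (M * c1 * p ^ (n + N)) +
        (M * c1) * s * (M * c0 * q ^ (n + N)) := by
      linear_combination (-(M * c0 * (M * c1))) * hrs
    rw [h5]
    exact dvd_add (Dvd.dvd.mul_left h4 _) (Dvd.dvd.mul_left h3 _)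
  have hprod : M * c0 * (M * c1) ≠ 0 :=
    mul_ne_zero (mul_ne_zero hM hc0') (mul_ne_zero hM hc1')
  have hedeg : e.natDegree ≤ (M * c0 * (M * c1)).natDegree := natDegree_le_of_dvd hed hprod
  have hfdeg : f.natDegree ≤ ht y + e.natDegree := by
    rw [he']
    refine natDegree_mul_le.trans ?_
    have : u.natDegree ≤ ht y := le_max_left _ _
    omega
  have hgdeg : g.natDegree ≤ ht y + e.natDegree := by
    rw [he]
    refine natDegree_mul_le.trans ?_
    have : v.natDegree ≤ ht y := le_max_right _ _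
    omega
  have hph : p.natDegree ≤ ht x := le_max_left _ _
  have hqh : q.natDegree ≤ ht x := le_max_right _ _
  have d1 := hDA p q _ hph hqh
  have d2 := hDB p q _ hph hqh
  have d3 := hDA1 p q _ hph hqh
  have d4 := hDB1 p q _ hph hqh
  rw [← ha] at d1
  rw [← hb] at d2
  rw [← ha1] at d3
  rw [← hb1] at d4
  have hq1 : (n + N) * q.natDegree ≤ (DA + DB) + N * ht x + (ht y + e.natDegree) := by
    have h3 : (M * c0 * q ^ (n + N)).natDegree = (M * c0).natDegree + (n + N) * q.natDegree := by
      rw [natDegree_mul (mul_ne_zero hM hc0') (pow_ne_zero _ hq0), natDegree_pow]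
    have h4 : (a * f + b * g).natDegree ≤ (DA + DB) + N * ht x + (ht y + e.natDegree) := by
      refine (natDegree_add_le _ _).trans (max_le ?_ ?_)
      · refine natDegree_mul_le.trans ?_
        omega
      · refine natDegree_mul_le.trans ?_
        omega
    rw [key1, h3] at h4
    omega
  have hp1 : (n + N) * p.natDegree ≤ (DA1 + DB1) + N * ht x + (ht y + e.natDegree) := by
    by_cases hp0 : p = 0
    · rw [hp0, natDegree_zero]
      omega
    have h3 : (M * c1 * p ^ (n + N)).natDegree = (M * c1).natDegree + (n + N) * p.natDegree := by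
      rw [natDegree_mul (mul_ne_zero hM hc1') (pow_ne_zero _ hp0), natDegree_pow]
    have h4 : (a1 * f + b1 * g).natDegree ≤ (DA1 + DB1) + N * ht x + (ht y + e.natDegree) := by
      refine (natDegree_add_le _ _).trans (max_le ?_ ?_)
      · refine natDegree_mul_le.trans ?_
        omega
      · refine natDegree_mul_le.trans ?_
        omega
    rw [key2, h3] at h4
    omega
  have hfin : (n + N) * ht x ≤ (DA + DB + DA1 + DB1) + N * ht x + (ht y + e.natDegree) := by
    rcases le_total p.natDegree q.natDegree with h3 | h3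
    · have : ht x = q.natDegree := max_eq_right h3
      rw [this] at hq1 ⊢
      omega
    · have : ht x = p.natDegree := max_eq_left h3
      rw [this] at hp1 ⊢
      omega
  have h6 : (n + N) * ht x = n * ht x + N * ht x := add_mul _ _ _
  omega

end Pool.Agent.Helper72.TD
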