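import Pool.Agent.Helper72.TD.Heights

/-!
TD-8c: upper bound for the height of a sum of points.
-/

namespace Pool.Agent.Helper72.TD

open Polynomial

variable {k : Type*} [Field k]

/-- The height estimate behind the addition formula. -/
private theorem htAdd_core (e1 e2 e3 x0 y0 q2 q1 q0 : RatFunc k) :
    ∃ C0 : ℕ, ∀ x x' y' : RatFunc k, x' ≠ x0 → y' ^ 2 = (x' - e1) * (x' - e2) * (x' - e3) →
      x * (x' - x0) ^ 2 = -2 * y0 * y' + q2 * x' ^ 2 + q1 * x' + q0 →
      ht x ≤ 2 * ht x' + C0 := by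
  classical
  obtain ⟨⟨M, hM⟩, hMb⟩ := IsLocalization.exist_integer_multiples_of_finset
    (nonZeroDivisors k[X]) ({e1, e2, e3, x0, y0, q2, q1, q0} : Finset (RatFunc k))
  have hM0 : M ≠ 0 := nonZeroDivisors.ne_zero hM
  have hint : ∀ a ∈ ({e1, e2, e3, x0, y0, q2, q1, q0} : Finset (RatFunc k)),
      ∃ E : k[X], algebraMap k[X] (RatFunc k) E = algebraMap k[X] (RatFunc k) M * a := by
    intro a ha
    obtain ⟨E, hE⟩ := hMb a ha
    exact ⟨E, by rw [hE]; simp [Algebra.smul_def]⟩
  obtain ⟨E1, hE1⟩ := hint e1 (by simp)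
  obtain ⟨E2, hE2⟩ := hint e2 (by simp)
  obtain ⟨E3, hE3⟩ := hint e3 (by simp)
  obtain ⟨X0, hX0⟩ := hint x0 (by simp)
  obtain ⟨Y0, hY0⟩ := hint y0 (by simp)
  obtain ⟨Q2, hQ2⟩ := hint q2 (by simp)
  obtain ⟨Q1, hQ1⟩ := hint q1 (by simp)
  obtain ⟨Q0, hQ0⟩ := hint q0 (by simp)
  obtain ⟨D, hDM, hD1, hD2, hD3, hDX, hDY, hDq2, hDq1, hDq0⟩ : ∃ D : ℕ, M.natDegree ≤ D ∧
      E1.natDegree ≤ D ∧ E2.natDegree ≤ D ∧ E3.natDegree ≤ D ∧ X0.natDegree ≤ D ∧
      Y0.natDegree ≤ D ∧ Q2.natDegree ≤ D ∧ Q1.natDegree ≤ D ∧ Q0.natDegree ≤ D :=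
    ⟨M.natDegree + E1.natDegree + E2.natDegree + E3.natDegree + X0.natDegree + Y0.natDegree +
      Q2.natDegree + Q1.natDegree + Q0.natDegree, by omega, by omega, by omega, by omega,
      by omega, by omega, by omega, by omega, by omega⟩
  refine ⟨3 * D, fun x x' y' hx hy hxx => ?_⟩
  have hinj := RatFunc.algebraMap_injective k
  set φ := algebraMap k[X] (RatFunc k) with hφ
  have hq0 : x'.denom ≠ 0 := RatFunc.denom_ne_zero x'
  set p := x'.num with hp
  set q := x'.denom with hq
  have hφq : φ q ≠ 0 := fun h => hq0 (hinj (by rw [h, map_zero]))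
  have hφM : φ M ≠ 0 := fun h => hM0 (hinj (by rw [h, map_zero]))
  have hxpq : x' * φ q = φ p := by
    have h1 := RatFunc.num_div_denom x'
    rw [← hp, ← hq, ← hφ] at h1
    nth_rewrite 1 [← h1]
    field_simp
  have hdp : p.natDegree ≤ ht x' := le_max_left _ _
  have hdq : q.natDegree ≤ ht x' := le_max_right _ _
  set h := ht x' with hh
  -- the square
  have hW2 : (φ M ^ 2 * φ q ^ 2 * y') ^ 2 =
      φ (M * q * ((M * p - E1 * q) * (M * p - E2 * q) * (M * p - E3 * q))) := by
    simp only [map_mul, map_sub, hE1, hE2, hE3, ← hxpq]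
    rw [mul_pow, mul_pow, hy]
    ring
  obtain ⟨w, hw⟩ : ∃ w : k[X], φ w = φ M ^ 2 * φ q ^ 2 * y' := by
    apply IsIntegrallyClosed.exists_algebraMap_eq_of_isIntegral_pow (n := 2) (by norm_num)
    rw [hW2]
    exact isIntegral_algebraMap
  have hw2 : w ^ 2 = M * q * ((M * p - E1 * q) * (M * p - E2 * q) * (M * p - E3 * q)) := by
    apply hinj
    rw [map_pow, hw, hW2]
  have hEd : ∀ E : k[X], E.natDegree ≤ D → (M * p - E * q).natDegree ≤ D + h := by
    intro E hE
    refine (natDegree_sub_le_of_le (natDegree_mul_le_of_le hDM hdp)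
      (natDegree_mul_le_of_le hE hdq)).trans ?_
    rw [max_self]
  have hwd : w.natDegree ≤ 2 * h + 2 * D := by
    have h1 : (w ^ 2).natDegree ≤ (D + h) + ((D + h) + (D + h) + (D + h)) := by
      rw [hw2]
      exact natDegree_mul_le_of_le (natDegree_mul_le_of_le hDM hdq)
        (natDegree_mul_le_of_le (natDegree_mul_le_of_le (hEd E1 hD1) (hEd E2 hD2)) (hEd E3 hD3))
    rw [natDegree_pow] at h1
    omega
  have hsub0 : M * p - X0 * q ≠ 0 := by
    intro h0
    have h1 : φ (M * p - X0 * q) = 0 := by rw [h0, map_zero]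
    rw [map_sub, map_mul, map_mul, hX0, ← hxpq] at h1
    have h2 : φ M * φ q * (x' - x0) = 0 := by linear_combination h1
    rcases mul_eq_zero.1 h2 with h3 | h3
    · exact (mul_ne_zero hφM hφq) h3
    · exact hx (sub_eq_zero.1 h3)
  refine ht_le_of_div (a := C (-2) * (Y0 * w) + M ^ 2 * (Q2 * p ^ 2 + Q1 * (p * q) + Q0 * q ^ 2))
    (b := M * (M * p - X0 * q) ^ 2) (mul_ne_zero hM0 (pow_ne_zero 2 hsub0)) ?_ ?_ ?_
  · have hp2 : (p ^ 2).natDegree ≤ 2 * h := natDegree_pow_le_of_le 2 hdp
    have hq2 : (q ^ 2).natDegree ≤ 2 * h := natDegree_pow_le_of_le 2 hdq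
    have hM2 : (M ^ 2).natDegree ≤ 2 * D := natDegree_pow_le_of_le 2 hDM
    have hpq2 : (p * q).natDegree ≤ h + h := natDegree_mul_le_of_le hdp hdq
    have hc : (C (-2 : k)).natDegree ≤ 0 := (natDegree_C _).le
    apply natDegree_add_le_of_degree_le
    · refine (natDegree_mul_le_of_le hc (natDegree_mul_le_of_le hDY hwd)).trans ?_
      omega
    · refine (natDegree_mul_le_of_le (n := D + 2 * h) hM2 ?_).trans (by omega)
      apply natDegree_add_le_of_degree_le
      · apply natDegree_add_le_of_degree_le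
        · exact natDegree_mul_le_of_le hDq2 hp2
        · exact (natDegree_mul_le_of_le hDq1 hpq2).trans (by omega)
      · exact natDegree_mul_le_of_le hDq0 hq2
  · refine (natDegree_mul_le_of_le hDM (natDegree_pow_le_of_le 2 (hEd X0 hDX))).trans ?_
    omega
  · rw [← hφ]
    simp only [map_mul, map_add, map_sub, map_pow, hw, hX0, hY0, hQ2, hQ1, hQ0, ← hxpq]
    have e2 : φ (C (-2)) = -2 := by
      rw [C_neg, map_neg]
      congr 1
      rw [show (C (2 : k)) = (2 : k[X]) from map_ofNat C 2]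
      exact map_ofNat φ 2
    rw [e2]
    linear_combination (φ M ^ 3 * φ q ^ 2) * hxx

/-- The height of the `x`-coordinate. -/
private noncomputable def hx {e1 e2 e3 : RatFunc k} : (curve e1 e2 e3).toAffine.Point → ℕ
  | .zero => 0
  | .some x _ _ => ht x

theorem ht_add_le [DecidableEq (RatFunc k)] {e1 e2 e3 : RatFunc k}
    (Q : (curve e1 e2 e3).toAffine.Point) :
    ∃ C0 : ℕ, ∀ (x y x' y' : RatFunc k) (h : (curve e1 e2 e3).toAffine.Nonsingular x y)
      (h' : (curve e1 e2 e3).toAffine.Nonsingular x' y'),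
      Q + WeierstrassCurve.Affine.Point.some x y h = WeierstrassCurve.Affine.Point.some x' y' h' →
      ht x ≤ 2 * ht x' + C0 := by
  match Q with
  | .zero =>
    refine ⟨0, fun x y x' y' h h' heq => ?_⟩
    have h1 : WeierstrassCurve.Affine.Point.some x y h =
        WeierstrassCurve.Affine.Point.some x' y' h' := by
      rw [← heq]
      exact (zero_add _).symm
    have h2 : x = x' := by
      injection h1
    rw [h2]
    omega
  | .some a b hab =>
    obtain ⟨C1, hC1⟩ := htAdd_core e1 e2 e3 a (-b) a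
      (e1 * e2 + e1 * e3 + e2 * e3 - 2 * a * (e1 + e2 + e3) + a ^ 2)
      (-(e1 * e2 * e3) + (e1 + e2 + e3 - a) * a ^ 2 + b ^ 2)
    set Q0 : (curve e1 e2 e3).toAffine.Point := WeierstrassCurve.Affine.Point.some a b hab with hQ0
    refine ⟨C1 + hx (-Q0 + -Q0), fun x y x' y' h h' heq => ?_⟩
    set P : (curve e1 e2 e3).toAffine.Point := WeierstrassCurve.Affine.Point.some x y h with hP
    set P' : (curve e1 e2 e3).toAffine.Point :=
      WeierstrassCurve.Affine.Point.some x' y' h' with hP'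
    have hPP : P = P' + -Q0 := by rw [← heq]; abel
    by_cases hxa : x' = a
    · have h1 : P' = Q0 ∨ P' = -Q0 := WeierstrassCurve.Affine.Point.X_eq_iff.1 hxa
      rcases h1 with h1 | h1
      · exfalso
        have h2 : P = 0 := by rw [hPP, h1]; abel
        exact WeierstrassCurve.Affine.Point.some_ne_zero h h2
      · have h2 : P = -Q0 + -Q0 := by rw [hPP, h1]
        have h3 : hx (-Q0 + -Q0) = ht x := by rw [← h2]; rfl
        omega
    · have hneg : -Q0 = WeierstrassCurve.Affine.Point.some a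
          ((curve e1 e2 e3).toAffine.negY a b)
          ((WeierstrassCurve.Affine.nonsingular_neg ..).mpr hab) := rfl
      have h1 : P = WeierstrassCurve.Affine.Point.some _ _
          (WeierstrassCurve.Affine.nonsingular_add h'
            ((WeierstrassCurve.Affine.nonsingular_neg ..).mpr hab) fun hxy => hxa hxy.left) := by
        rw [hPP, hneg]
        exact WeierstrassCurve.Affine.Point.add_of_X_ne hxa
      have h2 : x = (curve e1 e2 e3).toAffine.addX x' a
          ((curve e1 e2 e3).toAffine.slope x' a y' ((curve e1 e2 e3).toAffine.negY a b)) := by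
        injection h1
      have heq' := (WeierstrassCurve.Affine.equation_iff (W := (curve e1 e2 e3)) x' y').1 h'.1
      rw [WeierstrassCurve.Affine.slope_of_X_ne hxa] at h2
      simp only [WeierstrassCurve.Affine.addX, WeierstrassCurve.Affine.negY, curve] at h2 heq'
      have hne : x' - a ≠ 0 := sub_ne_zero.2 hxa
      have hy2 : y' ^ 2 = (x' - e1) * (x' - e2) * (x' - e3) := by linear_combination heq'
      have h3 : x * (x' - a) ^ 2 = -2 * (-b) * y' + a * x' ^ 2 +
          (e1 * e2 + e1 * e3 + e2 * e3 - 2 * a * (e1 + e2 + e3) + a ^ 2) * x' +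
          (-(e1 * e2 * e3) + (e1 + e2 + e3 - a) * a ^ 2 + b ^ 2) := by
        rw [h2]
        field_simp
        linear_combination hy2
      have := hC1 x x' y' hxa hy2 h3
      omega

end Pool.Agent.Helper72.TD
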