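import Pool.Agent.Helper72.TD.Heights

/-!
TD-8d: lower bound for the height of the double of a point.
-/

namespace Pool.Agent.Helper72.TD

open Polynomial

variable {k : Type*} [Field k]

namespace HtDouble

variable {K : Type*} [Field K]

/-- a quartic with given coefficients -/
noncomputable def quart (c4 c3 c2 c1 c0 : K) : K[X] :=
  C c4 * X ^ 4 + C c3 * X ^ 3 + C c2 * X ^ 2 + C c1 * X ^ 1 + C c0 * X ^ 0

theorem natDegree_quart (c4 c3 c2 c1 c0 : K) : (quart c4 c3 c2 c1 c0).natDegree ≤ 4 := by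
  unfold quart
  compute_degree

theorem reflect_quart (c4 c3 c2 c1 c0 : K) :
    reflect 4 (quart c4 c3 c2 c1 c0) = quart c0 c1 c2 c3 c4 := by
  unfold quart
  rw [reflect_add, reflect_add, reflect_add, reflect_add, reflect_C_mul_X_pow,
    reflect_C_mul_X_pow, reflect_C_mul_X_pow, reflect_C_mul_X_pow, reflect_C_mul_X_pow,
    revAt_le (le_refl 4), revAt_le (by norm_num : 3 ≤ 4), revAt_le (by norm_num : 2 ≤ 4),
    revAt_le (by norm_num : 1 ≤ 4), revAt_le (by norm_num : 0 ≤ 4)]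
  norm_num
  ring

theorem eval_quart (c4 c3 c2 c1 c0 x : K) :
    (quart c4 c3 c2 c1 c0).eval x = c4 * x ^ 4 + c3 * x ^ 3 + c2 * x ^ 2 + c1 * x + c0 := by
  simp [quart]

section coprime

variable (h2 : (2 : K) ≠ 0) {e1 e2 e3 : K} (h12 : e1 ≠ e2) (h13 : e1 ≠ e3) (h23 : e2 ≠ e3)

theorem coprime_of_C {a b : K[X]} {c : K} (hc : c ≠ 0) (p q : K[X]) (h : p * a + q * b = C c) :
    IsCoprime a b := by
  refine ⟨C c⁻¹ * p, C c⁻¹ * q, ?_⟩
  have h1 : C c⁻¹ * (C c : K[X]) = 1 := by rw [← C_mul, inv_mul_cancel₀ hc, C_1]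
  calc C c⁻¹ * p * a + C c⁻¹ * q * b = C c⁻¹ * (p * a + q * b) := by ring
    _ = 1 := by rw [h, h1]

include h2 h12 h13 h23

/-- numerator and denominator of the duplication formula are coprime -/
theorem coprime_FG :
    IsCoprime (((X - C e1) ^ 2 - C ((e1 - e2) * (e1 - e3))) ^ 2 +
        C e1 * (C 4 * ((X - C e1) * ((X - C e2) * (X - C e3)))))
      (C 4 * ((X - C e1) * ((X - C e2) * (X - C e3))) : K[X]) := by
  have h4 : (4 : K) ≠ 0 := by
    have : (4 : K) = 2 * 2 := by norm_num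
    rw [this]; exact mul_ne_zero h2 h2
  have d12 : e1 - e2 ≠ 0 := sub_ne_zero.2 h12
  have d13 : e1 - e3 ≠ 0 := sub_ne_zero.2 h13
  have d23 : e2 - e3 ≠ 0 := sub_ne_zero.2 h23
  apply IsCoprime.add_mul_right_left
  apply IsCoprime.pow_left
  apply IsCoprime.mul_right
  · exact coprime_of_C h4 0 1 (by ring)
  apply IsCoprime.mul_right
  · refine coprime_of_C (mul_ne_zero d12 d13) (-1) (X - C e1) ?_
    ring
  apply IsCoprime.mul_right
  · refine coprime_of_C (mul_ne_zero d12 d23) (-1) (X - C e1 + (C e2 - C e1)) ?_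
    simp only [C_mul, C_sub]
    ring
  · refine coprime_of_C (mul_ne_zero d13 d23) 1 (-(X - C e1 + (C e3 - C e1))) ?_
    simp only [C_mul, C_sub]
    ring

/-- the same for the reversed polynomials -/
theorem coprime_FGr :
    IsCoprime (((1 - C e1 * X) ^ 2 - C ((e1 - e2) * (e1 - e3)) * X ^ 2) ^ 2 +
        C e1 * (C 4 * (X * ((1 - C e1 * X) * ((1 - C e2 * X) * (1 - C e3 * X))))))
      (C 4 * (X * ((1 - C e1 * X) * ((1 - C e2 * X) * (1 - C e3 * X)))) : K[X]) := by
  have h4 : (4 : K) ≠ 0 := by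
    have : (4 : K) = 2 * 2 := by norm_num
    rw [this]; exact mul_ne_zero h2 h2
  have d12 : e1 - e2 ≠ 0 := sub_ne_zero.2 h12
  have d13 : e1 - e3 ≠ 0 := sub_ne_zero.2 h13
  have d23 : e2 - e3 ≠ 0 := sub_ne_zero.2 h23
  have hX : ∀ e : K, IsCoprime (X : K[X]) (1 - C e * X) := fun e =>
    coprime_of_C one_ne_zero (C e) 1 (by rw [C_1]; ring)
  -- a polynomial congruent to `c X^2` modulo `1 - e X` is coprime to it
  have key : ∀ (e c : K) (Q R : K[X]), c ≠ 0 → Q = R * (1 - C e * X) + C c * X ^ 2 →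
      IsCoprime Q (1 - C e * X) := by
    intro e c Q R hc hQ
    rw [hQ, add_comm]
    apply IsCoprime.add_mul_right_left
    apply IsCoprime.mul_left
    · exact coprime_of_C hc 1 0 (by ring)
    · exact (hX e).pow_left
  apply IsCoprime.add_mul_right_left
  apply IsCoprime.pow_left
  apply IsCoprime.mul_right
  · exact coprime_of_C h4 0 1 (by ring)
  apply IsCoprime.mul_right
  · refine coprime_of_C one_ne_zero 1 (2 * C e1 - C e1 ^ 2 * X +
      C ((e1 - e2) * (e1 - e3)) * X) ?_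
    rw [C_1]
    ring
  apply IsCoprime.mul_right
  · refine key e1 (-((e1 - e2) * (e1 - e3))) _ (1 - C e1 * X)
      (neg_ne_zero.2 (mul_ne_zero d12 d13)) ?_
    rw [C_neg]
    ring
  apply IsCoprime.mul_right
  · refine key e2 (-((e1 - e2) * (e2 - e3))) _ (1 - C e2 * X - 2 * (C e1 - C e2) * X)
      (neg_ne_zero.2 (mul_ne_zero d12 d23)) ?_
    simp only [C_neg, C_mul, C_sub]
    ring
  · refine key e3 ((e1 - e3) * (e2 - e3)) _ (1 - C e3 * X - 2 * (C e1 - C e3) * X)
      (mul_ne_zero d13 d23) ?_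
    simp only [C_mul, C_sub]
    ring

end coprime

theorem bezout (h2 : (2 : K) ≠ 0) {e1 e2 e3 : K} (h12 : e1 ≠ e2) (h13 : e1 ≠ e3)
    (h23 : e2 ≠ e3) :
    ∃ (F G A B A' B' : K[X]) (N : ℕ), F.natDegree ≤ 4 ∧ G.natDegree ≤ 4 ∧ A.natDegree ≤ N ∧
      B.natDegree ≤ N ∧ A'.natDegree ≤ N ∧ B'.natDegree ≤ N ∧ A * F + B * G = C 1 ∧
      A' * F + B' * G = C 1 * X ^ (4 + N) ∧
      (∀ x, F.eval x = ((x - e1) ^ 2 - (e1 - e2) * (e1 - e3)) ^ 2 +
        e1 * (4 * ((x - e1) * ((x - e2) * (x - e3))))) ∧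
      ∀ x, G.eval x = 4 * ((x - e1) * ((x - e2) * (x - e3))) := by
  -- coefficients
  set s := e1 + e2 + e3 with hs
  set p := e1 * e2 + e1 * e3 + e2 * e3 with hp
  set m := e1 * e2 * e3 with hm
  let F : K[X] := quart 1 0 (-2 * p) (8 * m) (p ^ 2 - 4 * s * m)
  let G : K[X] := quart 0 4 (-4 * s) (4 * p) (-4 * m)
  let Fr : K[X] := quart (p ^ 2 - 4 * s * m) (8 * m) (-2 * p) 0 1
  let Gr : K[X] := quart (-4 * m) (4 * p) (-4 * s) 4 0
  have hF : F = ((X - C e1) ^ 2 - C ((e1 - e2) * (e1 - e3))) ^ 2 +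
        C e1 * (C 4 * ((X - C e1) * ((X - C e2) * (X - C e3)))) := by
    simp only [F, quart, hs, hp, hm, C_mul, C_sub, C_add, C_neg, C_pow, C_0, C_1]
    simp only [map_ofNat]
    ring
  have hG : G = C 4 * ((X - C e1) * ((X - C e2) * (X - C e3))) := by
    simp only [G, quart, hs, hp, hm, C_mul, C_sub, C_add, C_neg, C_pow, C_0, C_1]
    simp only [map_ofNat]
    ring
  have hFr : Fr = ((1 - C e1 * X) ^ 2 - C ((e1 - e2) * (e1 - e3)) * X ^ 2) ^ 2 +
        C e1 * (C 4 * (X * ((1 - C e1 * X) * ((1 - C e2 * X) * (1 - C e3 * X))))) := by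
    simp only [Fr, quart, hs, hp, hm, C_mul, C_sub, C_add, C_neg, C_pow, C_0, C_1]
    simp only [map_ofNat]
    ring
  have hGr : Gr = C 4 * (X * ((1 - C e1 * X) * ((1 - C e2 * X) * (1 - C e3 * X)))) := by
    simp only [Gr, quart, hs, hp, hm, C_mul, C_sub, C_add, C_neg, C_pow, C_0, C_1]
    simp only [map_ofNat]
    ring
  obtain ⟨A, B, hAB⟩ : IsCoprime F G := by
    rw [hF, hG]; exact coprime_FG h2 h12 h13 h23
  obtain ⟨a, b, hab⟩ : IsCoprime Fr Gr := by
    rw [hFr, hGr]; exact coprime_FGr h2 h12 h13 h23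
  set N := max (max A.natDegree B.natDegree) (max a.natDegree b.natDegree) with hN
  have n1 : A.natDegree ≤ N := (le_max_left _ _).trans (le_max_left _ _)
  have n2 : B.natDegree ≤ N := (le_max_right _ _).trans (le_max_left _ _)
  have n3 : a.natDegree ≤ N := (le_max_left _ _).trans (le_max_right _ _)
  have n4 : b.natDegree ≤ N := (le_max_right _ _).trans (le_max_right _ _)
  refine ⟨F, G, A, B, reflect N a, reflect N b, N, natDegree_quart _ _ _ _ _,
    natDegree_quart _ _ _ _ _, n1, n2, ?_, ?_, ?_, ?_, ?_, ?_⟩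
  · exact natDegree_reflect_le.trans (max_le le_rfl n3)
  · exact natDegree_reflect_le.trans (max_le le_rfl n4)
  · rw [C_1]; exact hAB
  · have h1 := congrArg (reflect (N + 4)) hab
    rw [reflect_add, reflect_mul _ _ n3 (natDegree_quart _ _ _ _ _),
      reflect_mul _ _ n4 (natDegree_quart _ _ _ _ _), reflect_one, reflect_quart,
      reflect_quart] at h1
    rw [C_1, one_mul, add_comm 4 N]
    exact h1
  · intro x
    rw [hF]
    simp
  · intro x
    rw [hG]
    simp

end HtDouble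

open HtDouble in
theorem ht_double_ge [DecidableEq (RatFunc k)] (h2 : (2 : k) ≠ 0) {e1 e2 e3 : RatFunc k}
    (h12 : e1 ≠ e2) (h13 : e1 ≠ e3) (h23 : e2 ≠ e3) :
    ∃ C0 : ℕ, ∀ (x y x' y' : RatFunc k) (h : (curve e1 e2 e3).toAffine.Nonsingular x y)
      (h' : (curve e1 e2 e3).toAffine.Nonsingular x' y'),
      WeierstrassCurve.Affine.Point.some x y h + WeierstrassCurve.Affine.Point.some x y h =
        WeierstrassCurve.Affine.Point.some x' y' h' →
      4 * ht x ≤ ht x' + C0 := by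
  have h2' : (2 : RatFunc k) ≠ 0 := by
    have h3 : (algebraMap k (RatFunc k)) 2 ≠ 0 := by
      rw [Ne, map_eq_zero_iff _ (algebraMap k (RatFunc k)).injective]
      exact h2
    rwa [map_ofNat] at h3
  obtain ⟨F, G, A, B, A', B', N, hF, hG, hA, hB, hA', hB', e1', e2', hFe, hGe⟩ :=
    bezout h2' h12 h13 h23
  obtain ⟨C0, hC0⟩ := ht_div_ge 4 F G A B A' B' hF hG 1 1 one_ne_zero one_ne_zero N hA hB hA'
    hB' e1' e2'
  refine ⟨C0, ?_⟩
  intro x y x' y' h h' heq
  have hxy : y ^ 2 = (x - e1) * ((x - e2) * (x - e3)) := by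
    have h1 := h.1
    rw [WeierstrassCurve.Affine.equation_iff] at h1
    simp only [curve] at h1
    linear_combination h1
  have hy0 : y ≠ 0 := by
    intro hy
    have h1 : y = (curve e1 e2 e3).toAffine.negY x y := by
      simp [WeierstrassCurve.Affine.negY, curve, hy]
    rw [WeierstrassCurve.Affine.Point.add_self_of_Y_eq h1] at heq
    exact absurd heq.symm (WeierstrassCurve.Affine.Point.some_ne_zero _)
  have hyne : y ≠ (curve e1 e2 e3).toAffine.negY x y := by
    intro h1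
    simp only [WeierstrassCurve.Affine.negY, curve] at h1
    have h3 : 2 * y = 0 := by linear_combination h1
    rcases mul_eq_zero.1 h3 with h4 | h4
    · exact h2' h4
    · exact hy0 h4
  have hG0 : G.eval x = 4 * y ^ 2 := by rw [hGe, hxy]
  have h4 : (4 : RatFunc k) ≠ 0 := by
    have : (4 : RatFunc k) = 2 * 2 := by norm_num
    rw [this]; exact mul_ne_zero h2' h2'
  have hG1 : G.eval x ≠ 0 := by
    rw [hG0]; exact mul_ne_zero h4 (pow_ne_zero 2 hy0)
  have hx' : x' = F.eval x / G.eval x := by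
    rw [WeierstrassCurve.Affine.Point.add_self_of_Y_ne hyne] at heq
    have h5 := (WeierstrassCurve.Affine.Point.some.inj heq).1
    rw [← h5, eq_div_iff hG1, hG0, hFe, WeierstrassCurve.Affine.slope_of_Y_ne rfl hyne]
    simp only [WeierstrassCurve.Affine.addX, WeierstrassCurve.Affine.negY, curve]
    have h6 : (y - (-y - 0 * x - 0)) = 2 * y := by ring
    rw [h6]
    field_simp
    have h7 : y ^ 2 = (x - e1) * ((x - e2) * (x - e3)) := hxy
    linear_combination (4 * (4 * (e1 + e2 + e3) - 8 * x)) * h7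
  rw [hx']
  exact hC0 x hG1

end Pool.Agent.Helper72.TD
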