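import Pool.Agent.Helper72.TD.Descent
import Pool.Agent.Helper72.TD.Halving

/-!
IB-2: 2-coverings over finite fields have points.
-/

namespace Pool.Agent.Helper72.TD

/-- In a finite field of odd characteristic two nonzero elements which are both squares or both
nonsquares differ by a square factor. -/
private theorem exists_sq_factor {κ : Type*} [Field κ] [Finite κ] {a b : κ}
    (ha : a ≠ 0) (hb : b ≠ 0) (h : IsSquare a ↔ IsSquare b) :
    ∃ s : κ, s ≠ 0 ∧ b = a * s ^ 2 := by
  classical
  have : Fintype κ := Fintype.ofFinite κ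
  have hab : a * b ≠ 0 := mul_ne_zero ha hb
  have hsq : IsSquare (a * b) := by
    by_cases hs : IsSquare a
    · exact hs.mul (h.mp hs)
    · have hs' : ¬ IsSquare b := fun hb' => hs (h.mpr hb')
      rw [← quadraticChar_neg_one_iff_not_isSquare] at hs hs'
      rw [← quadraticChar_one_iff_isSquare hab, map_mul, hs, hs']
      norm_num
  obtain ⟨c, hc⟩ := hsq
  have hc0 : c ≠ 0 := by
    rintro rfl
    exact hab (by rw [hc]; ring)
  refine ⟨c / a, div_ne_zero hc0 ha, ?_⟩
  field_simp
  linear_combination hc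

private theorem point_finite {κ : Type*} [Field κ] [Finite κ] (e1 e2 e3 : κ) :
    Finite (curve e1 e2 e3).toAffine.Point := by
  let f : (curve e1 e2 e3).toAffine.Point → Option (κ × κ) := fun P =>
    match P with
    | .zero => none
    | .some x y _ => some (x, y)
  refine Finite.of_injective f ?_
  intro P Q h
  match P, Q, h with
  | .zero, .zero, _ => rfl
  | .zero, .some _ _ _, h => simp [f] at h
  | .some _ _ _, .zero, h => simp [f] at h
  | .some x y hx, .some x' y' hx', h =>
    simp only [f, Option.some.injEq, Prod.mk.injEq] at h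
    obtain ⟨h1, h2⟩ := h
    subst h1
    subst h2
    rfl

theorem hasPoint_finite {κ : Type*} [Field κ] [Finite κ] (h2 : (2 : κ) ≠ 0) {e1 e2 e3 : κ}
    (h12 : e1 ≠ e2) (h13 : e1 ≠ e3) (h23 : e2 ≠ e3) {d1 d2 : κ} (hd1 : d1 ≠ 0) (hd2 : d2 ≠ 0) :
    HasPoint κ e1 e2 e3 d1 d2 := by
  classical
  have hfin := point_finite e1 e2 e3
  rw [hasPoint_iff h2 h12 h13 h23 hd1 hd2]
  choose c1 c2 hc1 hc2 hc using fun P : (curve e1 e2 e3).toAffine.Point =>
    hasClass_exists h12 h13 h23 P
  -- the class map
  let f : (curve e1 e2 e3).toAffine.Point → Prop × Prop := fun P => (IsSquare (c1 P), IsSquare (c2 P))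
  let dbl : (curve e1 e2 e3).toAffine.Point →+ (curve e1 e2 e3).toAffine.Point :=
    zsmulAddGroupHom (2 : ℤ)
  have hdbl : ∀ P, dbl P = P + P := fun P => by
    change (2 : ℤ) • P = P + P
    rw [two_zsmul]
  have hf : ∀ P Q, f P = f Q → ∃ R, P + Q = R + R := by
    intro P Q h
    have h1 : IsSquare (c1 P) ↔ IsSquare (c1 Q) := by
      have := congrArg Prod.fst h
      exact iff_of_eq this
    have h2' : IsSquare (c2 P) ↔ IsSquare (c2 Q) := by
      have := congrArg Prod.snd h
      exact iff_of_eq this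
    obtain ⟨s, hs, hs'⟩ := exists_sq_factor (hc1 P) (hc1 Q) h1
    obtain ⟨t, ht, ht'⟩ := exists_sq_factor (hc2 P) (hc2 Q) h2'
    have h3 := hasClass_add h2 h12 h13 h23 (hc1 P) (hc2 P) (hc1 Q) (hc2 Q) (hc P) (hc Q)
    have h4 : HasClass (P + Q) (1 * (c1 P * s) ^ 2) (1 * (c2 P * t) ^ 2) := by
      rw [hs', ht'] at h3
      convert h3 using 1 <;> ring
    rw [hasClass_mul_sq (mul_ne_zero (hc1 P) hs) (mul_ne_zero (hc2 P) ht)] at h4
    exact exists_half h2 h12 h13 h23 h4
  -- the quotient by the doubles has four elements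
  have hquot : Nat.card ((curve e1 e2 e3).toAffine.Point ⧸ dbl.range) = 4 := by
    have h5 := AddSubgroup.index_ker dbl
    have h6 := dbl.range.index_mul_card
    have h7 := dbl.ker.index_mul_card
    have h8 : Nat.card dbl.ker = 4 := by
      rw [← card_two_torsion (e1 := e1) (e2 := e2) (e3 := e3) h2 h12 h13 h23]
      refine Nat.card_congr (Equiv.subtypeEquivRight fun P => ?_)
      rw [AddMonoidHom.mem_ker, hdbl]
    have h9 : 0 < Nat.card dbl.range := Nat.card_pos
    have h10 : dbl.range.index * Nat.card dbl.range = 4 * Nat.card dbl.range := by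
      rw [h6, ← h7, h5, h8, mul_comm]
    have h11 : dbl.range.index = 4 := Nat.eq_of_mul_eq_mul_right h9 h10
    rw [← h11]
    rfl
  -- the class map is injective on the quotient, hence surjective
  let F : (curve e1 e2 e3).toAffine.Point ⧸ dbl.range → Prop × Prop := fun a => f a.out
  have hF : Function.Injective F := by
    intro a b hab
    obtain ⟨R, hR⟩ := hf _ _ hab
    rw [← QuotientAddGroup.out_eq' a, ← QuotientAddGroup.out_eq' b, QuotientAddGroup.eq]
    refine ⟨R - a.out, ?_⟩
    rw [hdbl]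
    have : b.out = R + R - a.out := by rw [← hR]; abel
    rw [this]
    abel
  have hFs : Function.Bijective F := by
    have : Finite ((curve e1 e2 e3).toAffine.Point ⧸ dbl.range) := inferInstance
    have : Fintype ((curve e1 e2 e3).toAffine.Point ⧸ dbl.range) := Fintype.ofFinite _
    rw [Fintype.bijective_iff_injective_and_card]
    refine ⟨hF, ?_⟩
    rw [← Nat.card_eq_fintype_card, hquot]
    simp
  obtain ⟨a, ha⟩ := hFs.2 (IsSquare d1, IsSquare d2)
  have h1 : IsSquare (c1 a.out) ↔ IsSquare d1 := iff_of_eq (congrArg Prod.fst ha)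
  have h1' : IsSquare (c2 a.out) ↔ IsSquare d2 := iff_of_eq (congrArg Prod.snd ha)
  obtain ⟨s, hs, hs'⟩ := exists_sq_factor (hc1 _) hd1 h1
  obtain ⟨t, ht, ht'⟩ := exists_sq_factor (hc2 _) hd2 h1'
  refine ⟨a.out, ?_⟩
  rw [hs', ht', hasClass_mul_sq hs ht]
  exact hc _

end Pool.Agent.Helper72.TD
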