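import Pool.Agent.Helper72.TD.Defs

/-!
TD-3: local lemmas over a valued field.
-/

namespace Pool.Agent.Helper72.TD

variable {L Γ : Type*} [Field L] [LinearOrderedCommGroupWithZero Γ] {e1 e2 e3 d1 d2 d3 : L}

theorem symPoint_of_hasPoint {K : Type*} [Field K] [Algebra K L] {e1 e2 e3 d1 d2 : K}
    (hd1 : d1 ≠ 0) (hd2 : d2 ≠ 0) (h : HasPoint L e1 e2 e3 d1 d2) :
    SymPoint (algebraMap K L e1) (algebraMap K L e2) (algebraMap K L e3)
      (algebraMap K L d1) (algebraMap K L d2) (algebraMap K L (d1 * d2)) := by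
  obtain ⟨z0, z1, z2, z3, hz, h1, h2⟩ := h
  refine ⟨⟨algebraMap K L (d1 * d2), ?_, ?_⟩, z0, z1, z2, z3, hz, ?_, ?_, ?_⟩
  · simpa using mul_ne_zero hd1 hd2
  · simp only [map_mul]; ring
  · rw [h1, map_sub]
  · rw [h2, map_sub]
  · rw [map_sub] at h1 h2
    linear_combination h2 - h1

theorem symPoint_swap12 (h : SymPoint e1 e2 e3 d1 d2 d3) : SymPoint e2 e1 e3 d2 d1 d3 := by
  obtain ⟨⟨D, hD, hp⟩, z0, z1, z2, z3, hz, h1, h2, h3⟩ := h
  refine ⟨⟨D, hD, by rw [← hp]; ring⟩, z0, z2, z1, z3, ?_, ?_, h3, h2⟩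
  · rintro ⟨a, b, c, d⟩; exact hz ⟨a, c, b, d⟩
  · linear_combination -h1

theorem symPoint_swap23 (h : SymPoint e1 e2 e3 d1 d2 d3) : SymPoint e1 e3 e2 d1 d3 d2 := by
  obtain ⟨⟨D, hD, hp⟩, z0, z1, z2, z3, hz, h1, h2, h3⟩ := h
  refine ⟨⟨D, hD, by rw [← hp]; ring⟩, z0, z1, z3, z2, ?_, h2, h1, ?_⟩
  · rintro ⟨a, b, c, d⟩; exact hz ⟨a, b, d, c⟩
  · linear_combination -h3

/-- Scaling of the curve by a square. -/
theorem symPoint_scale {c : L} (hc : c ≠ 0) (h : SymPoint e1 e2 e3 d1 d2 d3) :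
    SymPoint (e1 / c ^ 2) (e2 / c ^ 2) (e3 / c ^ 2) d1 d2 d3 := by
  obtain ⟨hD, z0, z1, z2, z3, hz, h1, h2, h3⟩ := h
  refine ⟨hD, c * z0, z1, z2, z3, ?_, ?_, ?_, ?_⟩
  · rintro ⟨a, b, c', d⟩
    exact hz ⟨by simpa [hc] using a, b, c', d⟩
  · rw [h1]; field_simp
  · rw [h2]; field_simp
  · rw [h3]; field_simp

private theorem even_aux1 (w : Valuation L Γ) {D z1 z2 : L} (hD : D ≠ 0)
    (hp : d1 * d2 * d3 = D ^ 2) (h1 : d1 * z1 ^ 2 ≠ 0)
    (h : w (d2 * z2 ^ 2) = w (d1 * z1 ^ 2)) : EvenAt w d3 := by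
  have hwA : w (d1 * z1 ^ 2) ≠ 0 := (Valuation.ne_zero_iff w).mpr h1
  have h2 : d2 * z2 ^ 2 ≠ 0 := (Valuation.ne_zero_iff w).mp (by rw [h]; exact hwA)
  have hz1 : z1 ≠ 0 := by rintro rfl; simp at h1
  have hz2 : z2 ≠ 0 := by rintro rfl; simp at h2
  have hd1 : d1 ≠ 0 := by rintro rfl; simp at h1
  have hd2 : d2 ≠ 0 := by rintro rfl; simp at h2
  refine ⟨w (D * z1 * z2 / (d1 * z1 ^ 2)), ?_, ?_⟩
  · rw [Valuation.ne_zero_iff]
    exact div_ne_zero (mul_ne_zero (mul_ne_zero hD hz1) hz2) h1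
  · have e : d3 = (D * z1 * z2 / (d1 * z1 ^ 2)) ^ 2 * ((d1 * z1 ^ 2) / (d2 * z2 ^ 2)) := by
      field_simp
      linear_combination hp
    rw [e, map_mul, map_pow]
    have : w ((d1 * z1 ^ 2) / (d2 * z2 ^ 2)) = 1 := by
      rw [map_div₀, h, div_self hwA]
    rw [this, mul_one]

private theorem even_aux2 (w : Valuation L Γ) {z0 z3 : L} (hz0 : z0 ≠ 0)
    (h : w (d3 * z3 ^ 2) = w z0 ^ 2) : EvenAt w d3 := by
  have hwz0 : w z0 ≠ 0 := (Valuation.ne_zero_iff w).mpr hz0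
  have hz3 : z3 ≠ 0 := by
    rintro rfl
    rw [zero_pow two_ne_zero, mul_zero, map_zero] at h
    exact pow_ne_zero 2 hwz0 h.symm
  have hwz3 : w z3 ≠ 0 := (Valuation.ne_zero_iff w).mpr hz3
  refine ⟨w z0 / w z3, div_ne_zero hwz0 hwz3, ?_⟩
  rw [div_pow, ← h, map_mul, map_pow]
  field_simp

private theorem val_aux (w : Valuation L Γ) {x y : L} {m : Γ} (hx : w x < m) (h : w (x - y) = m) :
    w y = m := by
  have : w (y - -(x - y)) < w (-(x - y)) := by
    rw [Valuation.map_neg, h]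
    convert hx using 2
    ring
  rw [Valuation.map_eq_of_sub_lt w this, Valuation.map_neg, h]

private theorem val_aux' (w : Valuation L Γ) {x y : L} {m : Γ} (hx : m < w x) (h : w (x - y) = m) :
    w y = w x := by
  apply Valuation.map_eq_of_sub_lt w
  rw [Valuation.map_sub_swap, h]
  exact hx

private theorem val_aux2 (w : Valuation L Γ) {x y : L} {m : Γ} (hx : w x ≤ m)
    (h : w (x - y) ≤ m) : w y ≤ m := by
  have : y = x - (x - y) := by ring
  rw [this]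
  exact (Valuation.map_sub w _ _).trans (max_le hx h)

theorem even_of_good (w : Valuation L Γ) (h12 : w (e2 - e1) = 1) (h13 : w (e3 - e1) = 1)
    (h23 : w (e3 - e2) = 1) (h : SymPoint e1 e2 e3 d1 d2 d3) :
    EvenAt w d1 ∧ EvenAt w d2 ∧ EvenAt w d3 := by
  obtain ⟨⟨D, hD, hp⟩, z0, z1, z2, z3, hz, h1, h2, h3⟩ := h
  have hp' : d3 * d1 * d2 = D ^ 2 := by rw [← hp]; ring
  have hp'' : d2 * d3 * d1 = D ^ 2 := by rw [← hp]; ring
  have hd1 : d1 ≠ 0 := by rintro rfl; simp at hp; exact pow_ne_zero 2 hD hp.symm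
  have hd2 : d2 ≠ 0 := by rintro rfl; simp at hp; exact pow_ne_zero 2 hD hp.symm
  have hd3 : d3 ≠ 0 := by rintro rfl; simp at hp; exact pow_ne_zero 2 hD hp.symm
  have all (hA1 : d1 * z1 ^ 2 ≠ 0) (h12 : w (d2 * z2 ^ 2) = w (d1 * z1 ^ 2))
      (h13 : w (d3 * z3 ^ 2) = w (d1 * z1 ^ 2)) : EvenAt w d1 ∧ EvenAt w d2 ∧ EvenAt w d3 := by
    have hA1' : w (d1 * z1 ^ 2) ≠ 0 := (Valuation.ne_zero_iff w).mpr hA1
    have hA2 : d2 * z2 ^ 2 ≠ 0 := (Valuation.ne_zero_iff w).mp (by rw [h12]; exact hA1')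
    have hA3 : d3 * z3 ^ 2 ≠ 0 := (Valuation.ne_zero_iff w).mp (by rw [h13]; exact hA1')
    exact ⟨even_aux1 w hD hp'' hA2 (by rw [h12, h13]), even_aux1 w hD hp' hA3 h13.symm,
      even_aux1 w hD hp hA1 h12⟩
  rcases eq_or_ne z0 0 with rfl | hz0
  · have e1 : d1 * z1 ^ 2 = d2 * z2 ^ 2 := by linear_combination h1
    have e2 : d1 * z1 ^ 2 = d3 * z3 ^ 2 := by linear_combination h2
    refine all ?_ ?_ ?_
    · intro h0
      apply hz
      have a1 : z1 = 0 := by simpa [hd1] using h0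
      have a2 : z2 = 0 := by
        have : d2 * z2 ^ 2 = 0 := by rw [← e1, h0]
        simpa [hd2] using this
      have a3 : z3 = 0 := by
        have : d3 * z3 ^ 2 = 0 := by rw [← e2, h0]
        simpa [hd3] using this
      exact ⟨rfl, a1, a2, a3⟩
    · rw [e1]
    · rw [e2]
  · have g1 : w (d1 * z1 ^ 2 - d2 * z2 ^ 2) = w z0 ^ 2 := by rw [h1, map_mul, h12, one_mul, map_pow]
    have g2 : w (d1 * z1 ^ 2 - d3 * z3 ^ 2) = w z0 ^ 2 := by rw [h2, map_mul, h13, one_mul, map_pow]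
    have g3 : w (d2 * z2 ^ 2 - d3 * z3 ^ 2) = w z0 ^ 2 := by rw [h3, map_mul, h23, one_mul, map_pow]
    have hm : w z0 ^ 2 ≠ 0 := pow_ne_zero 2 ((Valuation.ne_zero_iff w).mpr hz0)
    rcases lt_trichotomy (w (d1 * z1 ^ 2)) (w z0 ^ 2) with hlt | heq | hgt
    · have b2 := val_aux w hlt g1
      have b3 := val_aux w hlt g2
      refine ⟨even_aux1 w hD hp'' ((Valuation.ne_zero_iff w).mp (by rw [b2]; exact hm))
        (by rw [b2, b3]), even_aux2 w hz0 b2, even_aux2 w hz0 b3⟩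
    · refine ⟨even_aux2 w hz0 heq, ?_⟩
      have hle : w (d2 * z2 ^ 2) ≤ w z0 ^ 2 := val_aux2 w heq.le g1.le
      rcases lt_or_eq_of_le hle with hlt | heq2
      · have b3 := val_aux w hlt g3
        exact ⟨even_aux1 w hD hp' ((Valuation.ne_zero_iff w).mp (by rw [b3]; exact hm))
          (by rw [b3, heq]), even_aux2 w hz0 b3⟩
      · exact ⟨even_aux2 w hz0 heq2, even_aux1 w hD hp
          ((Valuation.ne_zero_iff w).mp (by rw [heq]; exact hm)) (by rw [heq2, heq])⟩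
    · exact all ((Valuation.ne_zero_iff w).mp (ne_zero_of_lt hgt)) (val_aux' w hgt g1)
        (val_aux' w hgt g2)

theorem even_of_mult (w : Valuation L Γ) (h12 : w (e2 - e1) < 1) (h13 : w (e3 - e1) = 1)
    (h : SymPoint e1 e2 e3 d1 d2 d3) : EvenAt w d3 := by
  have h23 : w (e3 - e2) = 1 := by
    have : w (e3 - e2) = w (e3 - e1) := by
      apply Valuation.map_eq_of_sub_lt w
      rw [h13]
      convert h12 using 1
      rw [← Valuation.map_neg]
      congr 1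
      ring
    rw [this, h13]
  obtain ⟨⟨D, hD, hp⟩, z0, z1, z2, z3, hz, h1, h2, h3⟩ := h
  have hd1 : d1 ≠ 0 := by rintro rfl; simp at hp; exact pow_ne_zero 2 hD hp.symm
  have hd2 : d2 ≠ 0 := by rintro rfl; simp at hp; exact pow_ne_zero 2 hD hp.symm
  have hd3 : d3 ≠ 0 := by rintro rfl; simp at hp; exact pow_ne_zero 2 hD hp.symm
  rcases eq_or_ne z0 0 with rfl | hz0
  · have e1 : d1 * z1 ^ 2 = d2 * z2 ^ 2 := by linear_combination h1
    have e2 : d1 * z1 ^ 2 = d3 * z3 ^ 2 := by linear_combination h2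
    apply even_aux1 w hD hp (z1 := z1) (z2 := z2)
    · intro h0
      apply hz
      have a1 : z1 = 0 := by simpa [hd1] using h0
      have a2 : z2 = 0 := by
        have : d2 * z2 ^ 2 = 0 := by rw [← e1, h0]
        simpa [hd2] using this
      have a3 : z3 = 0 := by
        have : d3 * z3 ^ 2 = 0 := by rw [← e2, h0]
        simpa [hd3] using this
      exact ⟨rfl, a1, a2, a3⟩
    · rw [e1]
  · have g2 : w (d1 * z1 ^ 2 - d3 * z3 ^ 2) = w z0 ^ 2 := by rw [h2, map_mul, h13, one_mul, map_pow]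
    have g3 : w (d2 * z2 ^ 2 - d3 * z3 ^ 2) = w z0 ^ 2 := by rw [h3, map_mul, h23, one_mul, map_pow]
    have hm : w z0 ^ 2 ≠ 0 := pow_ne_zero 2 ((Valuation.ne_zero_iff w).mpr hz0)
    rw [Valuation.map_sub_swap] at g2 g3
    rcases lt_trichotomy (w (d3 * z3 ^ 2)) (w z0 ^ 2) with hlt | heq | hgt
    · have b1 := val_aux w hlt g2
      have b2 := val_aux w hlt g3
      exact even_aux1 w hD hp ((Valuation.ne_zero_iff w).mp (by rw [b1]; exact hm))
        (by rw [b1, b2])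
    · exact even_aux2 w hz0 heq
    · have b1 := val_aux' w hgt g2
      have b2 := val_aux' w hgt g3
      exact even_aux1 w hD hp ((Valuation.ne_zero_iff w).mp (by rw [b1]; exact ne_zero_of_lt hgt))
        (by rw [b1, b2])

private theorem oneSq_aux (w : Valuation L Γ) {D z1 z2 : L} (hD : D ≠ 0)
    (hp : d1 * d2 * d3 = D ^ 2) (h : w (d1 * z1 ^ 2 - d2 * z2 ^ 2) < w (d1 * z1 ^ 2)) :
    OneSq w d3 := by
  have hA1 : d1 * z1 ^ 2 ≠ 0 := (Valuation.ne_zero_iff w).mp (ne_zero_of_lt h)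
  have hw : w (d2 * z2 ^ 2) = w (d1 * z1 ^ 2) := by
    apply Valuation.map_eq_of_sub_lt w
    rw [Valuation.map_sub_swap]
    exact h
  have hA2 : d2 * z2 ^ 2 ≠ 0 := (Valuation.ne_zero_iff w).mp (by rw [hw]; exact ne_zero_of_lt h)
  have hz1 : z1 ≠ 0 := by rintro rfl; simp at hA1
  have hz2 : z2 ≠ 0 := by rintro rfl; simp at hA2
  have hd1 : d1 ≠ 0 := by rintro rfl; simp at hA1
  have hd2 : d2 ≠ 0 := by rintro rfl; simp at hA2
  refine ⟨d1 * z1 ^ 2 / (D * z1 * z2), ?_⟩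
  have e : d3 * (d1 * z1 ^ 2 / (D * z1 * z2)) ^ 2 - 1 =
      (d1 * z1 ^ 2 - d2 * z2 ^ 2) / (d2 * z2 ^ 2) := by
    field_simp
    linear_combination d1 * z1 ^ 2 * hp
  rw [e, map_div₀, hw]
  exact (div_lt_one₀ (zero_lt_iff.mpr (ne_zero_of_lt h))).mpr h

theorem oneSq_of_mult (w : Valuation L Γ) (h12 : w (e2 - e1) < 1) (h13 : w (e3 - e1) = 1)
    (hs : OneSq w (e1 - e3)) (h : SymPoint e1 e2 e3 d1 d2 d3) : OneSq w d3 := by
  have h31 : w (e1 - e3) = 1 := by rw [Valuation.map_sub_swap, h13]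
  obtain ⟨⟨D, hD, hp⟩, z0, z1, z2, z3, hz, h1, h2, h3⟩ := h
  have hd1 : d1 ≠ 0 := by rintro rfl; simp at hp; exact pow_ne_zero 2 hD hp.symm
  have hd2 : d2 ≠ 0 := by rintro rfl; simp at hp; exact pow_ne_zero 2 hD hp.symm
  have hd3 : d3 ≠ 0 := by rintro rfl; simp at hp; exact pow_ne_zero 2 hD hp.symm
  rcases eq_or_ne z0 0 with rfl | hz0
  · have e1 : d1 * z1 ^ 2 = d2 * z2 ^ 2 := by linear_combination h1
    have e2 : d1 * z1 ^ 2 = d3 * z3 ^ 2 := by linear_combination h2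
    apply oneSq_aux w hD hp (z1 := z1) (z2 := z2)
    rw [e1, sub_self, map_zero, ← e1, zero_lt_iff, Valuation.ne_zero_iff]
    intro h0
    apply hz
    have a1 : z1 = 0 := by simpa [hd1] using h0
    have a2 : z2 = 0 := by
      have : d2 * z2 ^ 2 = 0 := by rw [← e1, h0]
      simpa [hd2] using this
    have a3 : z3 = 0 := by
      have : d3 * z3 ^ 2 = 0 := by rw [← e2, h0]
      simpa [hd3] using this
    exact ⟨rfl, a1, a2, a3⟩
  · have hm : w z0 ^ 2 ≠ 0 := pow_ne_zero 2 ((Valuation.ne_zero_iff w).mpr hz0)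
    have g1 : w (d1 * z1 ^ 2 - d2 * z2 ^ 2) < w z0 ^ 2 := by
      rw [h1, map_mul, map_pow]
      exact (mul_lt_mul_of_pos_right h12 (zero_lt_iff.mpr hm)).trans_eq (one_mul _)
    have g2 : w (d1 * z1 ^ 2 - d3 * z3 ^ 2) = w z0 ^ 2 := by rw [h2, map_mul, h13, one_mul, map_pow]
    have g2' := g2
    rw [Valuation.map_sub_swap] at g2
    rcases lt_trichotomy (w (d3 * z3 ^ 2)) (w z0 ^ 2) with hlt | heq | hgt
    · have b1 := val_aux w hlt g2
      exact oneSq_aux w hD hp (by rw [b1]; exact g1)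
    · have hle : w (d1 * z1 ^ 2) ≤ w z0 ^ 2 := val_aux2 w heq.le g2.le
      rcases lt_or_eq_of_le hle with hlt | heq2
      · obtain ⟨s, hs⟩ := hs
        have hws : w s ^ 2 = 1 := by
          have : w ((e1 - e3) * s ^ 2) = 1 := by
            have h' := Valuation.map_eq_of_sub_lt w (x := 1) (y := (e1 - e3) * s ^ 2)
              (by rw [map_one]; exact hs)
            rw [h', map_one]
          rw [map_mul, h31, one_mul, map_pow] at this
          exact this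
        refine ⟨z3 * s / z0, ?_⟩
        have e : d3 * (z3 * s / z0) ^ 2 - 1 =
            d1 * z1 ^ 2 * s ^ 2 / z0 ^ 2 + ((e1 - e3) * s ^ 2 - 1) := by
          field_simp
          linear_combination (-s ^ 2) * h2
        rw [e]
        apply Valuation.map_add_lt w _ hs
        rw [map_div₀, map_mul, map_pow, map_pow, hws, mul_one]
        exact (div_lt_one₀ (zero_lt_iff.mpr hm)).mpr hlt
      · exact oneSq_aux w hD hp (by rw [heq2]; exact g1)
    · have b1 := val_aux' w hgt g2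
      exact oneSq_aux w hD hp (by rw [b1]; exact g1.trans hgt)

theorem evenAt_mul {w : Valuation L Γ} {a b : L} (ha : EvenAt w a) (hb : EvenAt w b) :
    EvenAt w (a * b) := by
  obtain ⟨x, hx, h1⟩ := ha
  obtain ⟨y, hy, h2⟩ := hb
  exact ⟨x * y, mul_ne_zero hx hy, by rw [map_mul, h1, h2, mul_pow]⟩

theorem evenAt_sq {w : Valuation L Γ} {s : L} (hs : s ≠ 0) : EvenAt w (s ^ 2) :=
  ⟨w s, (Valuation.ne_zero_iff w).mpr hs, by rw [map_pow]⟩

theorem evenAt_mul_sq {w : Valuation L Γ} {a s : L} (hs : s ≠ 0) :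
    EvenAt w (a * s ^ 2) ↔ EvenAt w a := by
  constructor
  · intro h
    have := evenAt_mul h (evenAt_sq (w := w) (inv_ne_zero hs))
    rw [mul_assoc, ← mul_pow, mul_inv_cancel₀ hs, one_pow, mul_one] at this
    exact this
  · intro h
    exact evenAt_mul h (evenAt_sq hs)

theorem oneSq_mul {w : Valuation L Γ} {a b : L} (ha : OneSq w a) (hb : OneSq w b) :
    OneSq w (a * b) := by
  obtain ⟨x, hx⟩ := ha
  obtain ⟨y, hy⟩ := hb
  refine ⟨x * y, ?_⟩
  have e : a * b * (x * y) ^ 2 - 1 =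
      (a * x ^ 2 - 1) * (b * y ^ 2 - 1) + ((a * x ^ 2 - 1) + (b * y ^ 2 - 1)) := by ring
  rw [e]
  apply Valuation.map_add_lt
  · rw [map_mul]
    exact mul_lt_one_of_lt_of_le hx hy.le
  · exact Valuation.map_add_lt w hx hy

theorem oneSq_mul_sq {w : Valuation L Γ} {a s : L} (hs : s ≠ 0) :
    OneSq w (a * s ^ 2) ↔ OneSq w a := by
  constructor
  · rintro ⟨x, hx⟩
    exact ⟨s * x, by rw [mul_pow, ← mul_assoc]; exact hx⟩
  · rintro ⟨x, hx⟩
    refine ⟨x / s, ?_⟩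
    convert hx using 2
    field_simp

end Pool.Agent.Helper72.TD
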