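import Pool.Agent.Helper72.TD.IBDefs
import Pool.Agent.Helper72.TD.IBFinField
import Pool.Agent.Helper72.TD.Local

/-!
IB-3: unramified 2-coverings are soluble at places of good reduction.
-/

namespace Pool.Agent.Helper72.TD

open WithZero

variable {K L : Type*} [Field K] [Field L] [Algebra K L] {v : Valuation K ℤᵐ⁰}
  {w : Valuation L ℤᵐ⁰}

private theorem exists_val_eq (hv : FinRes v) {γ : ℤᵐ⁰} (hγ : γ ≠ 0) : ∃ s : K, s ≠ 0 ∧ v s = γ := by
  obtain ⟨ϖ, hϖ⟩ := hv.unif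
  have h0 : ϖ ≠ 0 := by
    rintro rfl
    rw [map_zero] at hϖ
    exact (exp_ne_zero hϖ.symm)
  refine ⟨ϖ ^ (-(log γ)), zpow_ne_zero _ h0, ?_⟩
  rw [map_zpow₀, hϖ, ← exp_zsmul]
  simp only [smul_eq_mul, mul_neg, mul_one, neg_neg]
  exact exp_log hγ

/-- An element of `K` congruent to a nonzero square modulo the maximal ideal is a square in `L`. -/
private theorem isSquare_of_residue (hL : LocalData v w) {r y : v.valuationSubring}
    (hy : IsLocalRing.residue v.valuationSubring y ≠ 0)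
    (h : IsLocalRing.residue v.valuationSubring r = IsLocalRing.residue v.valuationSubring y ^ 2) :
    ∃ z : L, z ≠ 0 ∧ algebraMap K L (r : K) = z ^ 2 := by
  have hvy : v (y : K) = 1 := by
    have h1 : ¬ v (y : K) < 1 := by
      rw [← Valuation.mem_maximalIdeal_iff, ← IsLocalRing.residue_eq_zero_iff]
      exact hy
    exact le_antisymm y.2 (not_lt.mp h1)
  have hy0 : (y : K) ≠ 0 := by
    intro h0
    rw [h0, map_zero] at hvy
    exact zero_ne_one hvy
  have h2 : v ((r : K) - (y : K) ^ 2) < 1 := by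
    have h3 : r - y ^ 2 ∈ IsLocalRing.maximalIdeal v.valuationSubring := by
      rw [← IsLocalRing.residue_eq_zero_iff, map_sub, map_pow, h, sub_self]
    rw [Valuation.mem_maximalIdeal_iff] at h3
    exact h3
  have h4 : w (algebraMap K L ((r : K) / (y : K) ^ 2) - 1) < 1 := by
    have h5 : algebraMap K L ((r : K) / (y : K) ^ 2) - 1 =
        algebraMap K L (((r : K) - (y : K) ^ 2) / (y : K) ^ 2) := by
      rw [sub_div, div_self (pow_ne_zero 2 hy0), map_sub, map_one]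
    rw [h5, hL.ext, map_div₀, map_pow, hvy, one_pow, div_one]
    exact h2
  obtain ⟨q, hq⟩ := hL.hensel _ h4
  have hq0 : q ≠ 0 := by
    rintro rfl
    rw [hq] at h4
    simp at h4
  have hyL : algebraMap K L (y : K) ≠ 0 := by
    simpa using hy0
  refine ⟨q * algebraMap K L (y : K), mul_ne_zero hq0 hyL, ?_⟩
  rw [mul_pow, sq q, ← hq, map_div₀, map_pow]
  field_simp

theorem hasPoint_of_good (hL : LocalData v w) (hv : FinRes v) {e1 e2 e3 d1 d2 : K}
    (hg : GoodAt v e1 e2 e3) (h1 : EvenAt v d1) (h2 : EvenAt v d2) :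
    HasPoint L e1 e2 e3 d1 d2 := by
  obtain ⟨γ, hγ, g12, g13, g23⟩ := hg
  obtain ⟨s, hs0, hs⟩ := exists_val_eq hv hγ
  obtain ⟨γ1, hγ1, hd1⟩ := h1
  obtain ⟨γ2, hγ2, hd2⟩ := h2
  obtain ⟨t1, ht1, hvt1⟩ := exists_val_eq hv hγ1
  obtain ⟨t2, ht2, hvt2⟩ := exists_val_eq hv hγ2
  have hva : v ((e2 - e1) / s ^ 2) = 1 := by
    rw [map_div₀, Valuation.map_sub_swap, g12, map_pow, hs, div_self (pow_ne_zero 2 hγ)]
  have hvb : v ((e3 - e1) / s ^ 2) = 1 := by
    rw [map_div₀, Valuation.map_sub_swap, g13, map_pow, hs, div_self (pow_ne_zero 2 hγ)]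
  have hvc : v ((e3 - e1) / s ^ 2 - (e2 - e1) / s ^ 2) = 1 := by
    have : (e3 - e1) / s ^ 2 - (e2 - e1) / s ^ 2 = (e3 - e2) / s ^ 2 := by
      rw [← sub_div]; congr 1; ring
    rw [this, map_div₀, Valuation.map_sub_swap, g23, map_pow, hs, div_self (pow_ne_zero 2 hγ)]
  have hvu1 : v (d1 / t1 ^ 2) = 1 := by
    rw [map_div₀, hd1, map_pow, hvt1, div_self (pow_ne_zero 2 hγ1)]
  have hvu2 : v (d2 / t2 ^ 2) = 1 := by
    rw [map_div₀, hd2, map_pow, hvt2, div_self (pow_ne_zero 2 hγ2)]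
  set O := v.valuationSubring with hO
  let a : O := ⟨(e2 - e1) / s ^ 2, hva.le⟩
  let b : O := ⟨(e3 - e1) / s ^ 2, hvb.le⟩
  let u1 : O := ⟨d1 / t1 ^ 2, hvu1.le⟩
  let u2 : O := ⟨d2 / t2 ^ 2, hvu2.le⟩
  let i1 : O := ⟨(d1 / t1 ^ 2)⁻¹, by
    change v _ ≤ 1
    rw [map_inv₀, hvu1, inv_one]⟩
  let i2 : O := ⟨(d2 / t2 ^ 2)⁻¹, by
    change v _ ≤ 1
    rw [map_inv₀, hvu2, inv_one]⟩
  have hu1 : u1 * i1 = 1 := by
    apply Subtype.ext
    change (d1 / t1 ^ 2) * (d1 / t1 ^ 2)⁻¹ = 1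
    refine mul_inv_cancel₀ ?_
    intro h0
    rw [h0, map_zero] at hvu1
    exact zero_ne_one hvu1
  have hu2 : u2 * i2 = 1 := by
    apply Subtype.ext
    change (d2 / t2 ^ 2) * (d2 / t2 ^ 2)⁻¹ = 1
    refine mul_inv_cancel₀ ?_
    intro h0
    rw [h0, map_zero] at hvu2
    exact zero_ne_one hvu2
  set ρ := IsLocalRing.residue O with hρ
  have hne : ∀ x : O, v (x : K) = 1 → ρ x ≠ 0 := by
    intro x hx h0
    rw [IsLocalRing.residue_eq_zero_iff, Valuation.mem_maximalIdeal_iff, hx] at h0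
    exact lt_irrefl _ h0
  have ha0 : ρ a ≠ 0 := hne a hva
  have hb0 : ρ b ≠ 0 := hne b hvb
  have hc0 : ρ b - ρ a ≠ 0 := by
    rw [← map_sub]
    exact hne (b - a) hvc
  have hU1 : ρ u1 ≠ 0 := hne u1 hvu1
  have hU2 : ρ u2 ≠ 0 := hne u2 hvu2
  have hI1 : ρ u1 * ρ i1 = 1 := by rw [← map_mul, hu1, map_one]
  have hI2 : ρ u2 * ρ i2 = 1 := by rw [← map_mul, hu2, map_one]
  have h2ne : (2 : IsLocalRing.ResidueField O) ≠ 0 := by
    have h3 : v ((2 : O) : K) = 1 := by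
      have h4 : ((2 : O) : K) = 2 := rfl
      rw [h4]
      exact hv.two
    have h5 := hne 2 h3
    rwa [map_ofNat] at h5
  have := hv.fin
  obtain ⟨z0, z1, z2, z3, hz, hz1, hz2⟩ := hasPoint_finite (κ := IsLocalRing.ResidueField O) h2ne
    (e1 := 0) (e2 := ρ a) (e3 := ρ b) ha0.symm hb0.symm (fun h => hc0 (by rw [h, sub_self])) hU1 hU2
  simp only [Algebra.algebraMap_self, RingHom.id_apply, sub_zero] at hz1 hz2
  obtain ⟨Z0, rfl⟩ := IsLocalRing.residue_surjective z0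
  obtain ⟨Z1, rfl⟩ := IsLocalRing.residue_surjective z1
  obtain ⟨Z2, rfl⟩ := IsLocalRing.residue_surjective z2
  obtain ⟨Z3, rfl⟩ := IsLocalRing.residue_surjective z3
  let m : O →+* L := (algebraMap K L).comp O.subtype
  have hm : ∀ x : O, m x = algebraMap K L (x : K) := fun _ => rfl
  have hs0' : algebraMap K L s ≠ 0 := by simpa using hs0
  have ht1' : algebraMap K L t1 ≠ 0 := by simpa using ht1
  have ht2' : algebraMap K L t2 ≠ 0 := by simpa using ht2
  have hA : algebraMap K L (e2 - e1) = m a * algebraMap K L s ^ 2 := by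
    rw [hm, ← map_pow, ← map_mul]
    congr 1
    change e2 - e1 = (e2 - e1) / s ^ 2 * s ^ 2
    field_simp
  have hB : algebraMap K L (e3 - e1) = m b * algebraMap K L s ^ 2 := by
    rw [hm, ← map_pow, ← map_mul]
    congr 1
    change e3 - e1 = (e3 - e1) / s ^ 2 * s ^ 2
    field_simp
  have hD1 : algebraMap K L d1 = m u1 * algebraMap K L t1 ^ 2 := by
    rw [hm, ← map_pow, ← map_mul]
    congr 1
    change d1 = d1 / t1 ^ 2 * t1 ^ 2
    field_simp
  have hD2 : algebraMap K L d2 = m u2 * algebraMap K L t2 ^ 2 := by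
    rw [hm, ← map_pow, ← map_mul]
    congr 1
    change d2 = d2 / t2 ^ 2 * t2 ^ 2
    field_simp
  have hM1 : m u1 * m i1 = 1 := by rw [← map_mul, hu1, map_one]
  have hM2 : m u2 * m i2 = 1 := by rw [← map_mul, hu2, map_one]
  have key : ∀ W0 W1 W2 W3 : L, (W1 ≠ 0 ∨ W2 ≠ 0) →
      m u1 * W1 ^ 2 - m u2 * W2 ^ 2 = m a * W0 ^ 2 →
      m u1 * W1 ^ 2 - m u1 * m u2 * W3 ^ 2 = m b * W0 ^ 2 → HasPoint L e1 e2 e3 d1 d2 := by
    intro W0 W1 W2 W3 hW hW1 hW2
    refine ⟨W0 / algebraMap K L s, W1 / algebraMap K L t1, W2 / algebraMap K L t2,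
      W3 / (algebraMap K L t1 * algebraMap K L t2), ?_, ?_, ?_⟩
    · rintro ⟨-, h1, h2, -⟩
      rcases hW with hW | hW
      · exact hW (by simpa [ht1] using h1)
      · exact hW (by simpa [ht2] using h2)
    · rw [hA, hD1, hD2]
      field_simp
      linear_combination hW1
    · rw [map_mul, hB, hD1, hD2]
      field_simp
      linear_combination hW2
  by_cases c1 : ρ Z1 = 0
  · have c2 : ρ Z2 ≠ 0 := by
      intro c2
      have c0 : ρ Z0 = 0 := by
        rw [c1, c2] at hz1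
        have h3 : ρ a * ρ Z0 ^ 2 = 0 := by rw [← hz1]; ring
        rcases mul_eq_zero.mp h3 with h3 | h3
        · exact absurd h3 ha0
        · exact pow_eq_zero_iff (two_ne_zero) |>.mp h3
      have c3 : ρ Z3 = 0 := by
        rw [c1, c0] at hz2
        have h3 : ρ u1 * ρ u2 * ρ Z3 ^ 2 = 0 := by linear_combination -hz2
        rcases mul_eq_zero.mp h3 with h3 | h3
        · exact absurd h3 (mul_ne_zero hU1 hU2)
        · exact pow_eq_zero_iff (two_ne_zero) |>.mp h3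
      exact hz ⟨c0, c1, c2, c3⟩
    have c3 : ρ Z3 ≠ 0 := by
      intro c3
      rw [c1, c3] at hz2
      have h3 : ρ b * ρ Z0 ^ 2 = 0 := by rw [← hz2]; ring
      have c0 : ρ Z0 = 0 := by
        rcases mul_eq_zero.mp h3 with h3 | h3
        · exact absurd h3 hb0
        · exact pow_eq_zero_iff (two_ne_zero) |>.mp h3
      rw [c1, c0] at hz1
      have h4 : ρ u2 * ρ Z2 ^ 2 = 0 := by linear_combination -hz1
      rcases mul_eq_zero.mp h4 with h4 | h4
      · exact hU2 h4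
      · exact c2 (pow_eq_zero_iff (two_ne_zero) |>.mp h4)
    obtain ⟨W2, hW2, hW2'⟩ := isSquare_of_residue hL (r := (u1 * Z1 ^ 2 - a * Z0 ^ 2) * i2) c2 (by
      change ρ _ = ρ Z2 ^ 2
      simp only [map_mul, map_sub, map_pow]
      linear_combination (ρ i2) * hz1 + ρ Z2 ^ 2 * hI2)
    obtain ⟨W3, hW3, hW3'⟩ := isSquare_of_residue hL
      (r := (u1 * Z1 ^ 2 - b * Z0 ^ 2) * i1 * i2) c3 (by
      change ρ _ = ρ Z3 ^ 2
      simp only [map_mul, map_sub, map_pow]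
      linear_combination (ρ i1 * ρ i2) * hz2 + ρ Z3 ^ 2 * ρ u2 * ρ i2 * hI1 + ρ Z3 ^ 2 * hI2)
    rw [← hm] at hW2' hW3'
    simp only [map_mul, map_sub, map_pow] at hW2' hW3'
    refine key (m Z0) (m Z1) W2 W3 (Or.inr hW2) ?_ ?_
    · linear_combination (m u2) * hW2' - (m u1 * m Z1 ^ 2 - m a * m Z0 ^ 2) * hM2
    · linear_combination (m u1 * m u2) * hW3' -
        (m u1 * m Z1 ^ 2 - m b * m Z0 ^ 2) * (m u2 * m i2) * hM1 -
        (m u1 * m Z1 ^ 2 - m b * m Z0 ^ 2) * hM2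
  · by_cases c2 : ρ Z2 = 0
    · have c3 : ρ Z3 ≠ 0 := by
        intro c3
        have h3 : (ρ b - ρ a) * ρ Z0 ^ 2 = 0 := by
          rw [c2] at hz1
          rw [c3] at hz2
          linear_combination hz1 - hz2
        rcases mul_eq_zero.mp h3 with h3 | h3
        · exact hc0 h3
        · have c0 : ρ Z0 = 0 := pow_eq_zero_iff (two_ne_zero) |>.mp h3
          rw [c2, c0] at hz1
          have h4 : ρ u1 * ρ Z1 ^ 2 = 0 := by linear_combination hz1
          rcases mul_eq_zero.mp h4 with h4 | h4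
          · exact hU1 h4
          · exact c1 (pow_eq_zero_iff (two_ne_zero) |>.mp h4)
      obtain ⟨W1, hW1, hW1'⟩ := isSquare_of_residue hL
        (r := (a * Z0 ^ 2 + u2 * Z2 ^ 2) * i1) c1 (by
        change ρ _ = ρ Z1 ^ 2
        simp only [map_mul, map_add, map_pow]
        linear_combination -(ρ i1) * hz1 + ρ Z1 ^ 2 * hI1)
      obtain ⟨W3, hW3, hW3'⟩ := isSquare_of_residue hL
        (r := ((a - b) * Z0 ^ 2 + u2 * Z2 ^ 2) * i1 * i2) c3 (by
        change ρ _ = ρ Z3 ^ 2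
        simp only [map_mul, map_add, map_sub, map_pow]
        linear_combination (ρ i1 * ρ i2) * (hz2 - hz1) + ρ Z3 ^ 2 * ρ u2 * ρ i2 * hI1 +
          ρ Z3 ^ 2 * hI2)
      rw [← hm] at hW1' hW3'
      simp only [map_mul, map_add, map_sub, map_pow] at hW1' hW3'
      refine key (m Z0) W1 (m Z2) W3 (Or.inl hW1) ?_ ?_
      · linear_combination -(m u1) * hW1' + (m a * m Z0 ^ 2 + m u2 * m Z2 ^ 2) * hM1
      · linear_combination -(m u1) * hW1' + (m u1 * m u2) * hW3' +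
          (m a * m Z0 ^ 2 + m u2 * m Z2 ^ 2) * hM1 -
          ((m a - m b) * m Z0 ^ 2 + m u2 * m Z2 ^ 2) * (m u2 * m i2) * hM1 -
          ((m a - m b) * m Z0 ^ 2 + m u2 * m Z2 ^ 2) * hM2
    · obtain ⟨W1, hW1, hW1'⟩ := isSquare_of_residue hL
        (r := (b * Z0 ^ 2 + u1 * u2 * Z3 ^ 2) * i1) c1 (by
        change ρ _ = ρ Z1 ^ 2
        simp only [map_mul, map_add, map_pow]
        linear_combination -(ρ i1) * hz2 + ρ Z1 ^ 2 * hI1)
      obtain ⟨W2, hW2, hW2'⟩ := isSquare_of_residue hL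
        (r := ((b - a) * Z0 ^ 2 + u1 * u2 * Z3 ^ 2) * i2) c2 (by
        change ρ _ = ρ Z2 ^ 2
        simp only [map_mul, map_add, map_sub, map_pow]
        linear_combination (ρ i2) * (hz1 - hz2) + ρ Z2 ^ 2 * hI2)
      rw [← hm] at hW1' hW2'
      simp only [map_mul, map_add, map_sub, map_pow] at hW1' hW2'
      refine key (m Z0) W1 W2 (m Z3) (Or.inl hW1) ?_ ?_
      · linear_combination -(m u1) * hW1' + (m b * m Z0 ^ 2 + m u1 * m u2 * m Z3 ^ 2) * hM1 +
          (m u2) * hW2' - ((m b - m a) * m Z0 ^ 2 + m u1 * m u2 * m Z3 ^ 2) * hM2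
      · linear_combination -(m u1) * hW1' + (m b * m Z0 ^ 2 + m u1 * m u2 * m Z3 ^ 2) * hM1

end Pool.Agent.Helper72.TD
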