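import Pool.Agent.Helper72.TD.IBDefs
import Pool.Agent.Helper72.TD.Descent

/-!
IB-6: the soluble classes form a group containing the classes of the 2-torsion points.
-/

namespace Pool.Agent.Helper72.TD

variable {K : Type*} [Field K] (L : Type*) [Field L] [Algebra K L]

private theorem hasPoint_base {e1 e2 e3 d1 d2 : K} :
    HasPoint L e1 e2 e3 d1 d2 ↔ HasPoint L (algebraMap K L e1) (algebraMap K L e2)
      (algebraMap K L e3) (algebraMap K L d1) (algebraMap K L d2) := by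
  unfold HasPoint
  simp only [map_sub, map_mul, Algebra.algebraMap_self, RingHom.id_apply]

theorem hasPoint_mul (h2 : (2 : K) ≠ 0) {e1 e2 e3 : K} (h12 : e1 ≠ e2) (h13 : e1 ≠ e3)
    (h23 : e2 ≠ e3) {c1 c2 d1 d2 : K} (hc1 : c1 ≠ 0) (hc2 : c2 ≠ 0) (hd1 : d1 ≠ 0) (hd2 : d2 ≠ 0)
    (hc : HasPoint L e1 e2 e3 c1 c2) (hd : HasPoint L e1 e2 e3 d1 d2) :
    HasPoint L e1 e2 e3 (c1 * d1) (c2 * d2) := by
  classical
  have inj : Function.Injective (algebraMap K L) := (algebraMap K L).injective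
  have n0 : ∀ {a : K}, a ≠ 0 → algebraMap K L a ≠ 0 := fun ha =>
    (map_ne_zero_iff _ inj).mpr ha
  have h2' : (2 : L) ≠ 0 := by
    have := n0 h2
    rwa [map_ofNat] at this
  rw [hasPoint_base] at hc hd ⊢
  rw [map_mul, map_mul]
  rw [hasPoint_iff h2' (inj.ne h12) (inj.ne h13) (inj.ne h23) (n0 hc1) (n0 hc2)] at hc
  rw [hasPoint_iff h2' (inj.ne h12) (inj.ne h13) (inj.ne h23) (n0 hd1) (n0 hd2)] at hd
  rw [hasPoint_iff h2' (inj.ne h12) (inj.ne h13) (inj.ne h23)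
    (mul_ne_zero (n0 hc1) (n0 hd1)) (mul_ne_zero (n0 hc2) (n0 hd2))]
  obtain ⟨P, hP⟩ := hc
  obtain ⟨Q, hQ⟩ := hd
  exact ⟨P + Q, hasClass_add h2' (inj.ne h12) (inj.ne h13) (inj.ne h23) (n0 hc1) (n0 hc2)
    (n0 hd1) (n0 hd2) hP hQ⟩

/-- Only the classes in `L` modulo squares matter. -/
theorem hasPoint_congr {e1 e2 e3 c1 c2 d1 d2 : K} (hc1 : c1 ≠ 0) (hc2 : c2 ≠ 0)
    (hd1 : d1 ≠ 0) (hd2 : d2 ≠ 0) (h1 : IsSquare (algebraMap K L (c1 * d1)))
    (h2 : IsSquare (algebraMap K L (c2 * d2))) (hc : HasPoint L e1 e2 e3 c1 c2) :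
    HasPoint L e1 e2 e3 d1 d2 := by
  have inj : Function.Injective (algebraMap K L) := (algebraMap K L).injective
  have n0 : ∀ {a : K}, a ≠ 0 → algebraMap K L a ≠ 0 := fun ha =>
    (map_ne_zero_iff _ inj).mpr ha
  obtain ⟨s, hs⟩ := h1
  obtain ⟨t, ht⟩ := h2
  obtain ⟨z0, z1, z2, z3, hz, ha, hb⟩ := hc
  rw [map_mul] at hs ht hb
  have a1 := n0 hc1
  have a2 := n0 hc2
  have b1 := n0 hd1
  have b2 := n0 hd2
  generalize algebraMap K L c1 = C1 at *
  generalize algebraMap K L c2 = C2 at *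
  have hs0 : s ≠ 0 := by rintro rfl; exact mul_ne_zero a1 b1 (by rw [hs]; ring)
  have ht0 : t ≠ 0 := by rintro rfl; exact mul_ne_zero a2 b2 (by rw [ht]; ring)
  have e1' : algebraMap K L d1 = s * s / C1 := by rw [← hs, mul_div_cancel_left₀ _ a1]
  have e2' : algebraMap K L d2 = t * t / C2 := by rw [← ht, mul_div_cancel_left₀ _ a2]
  refine ⟨z0, z1 * C1 / s, z2 * C2 / t, z3 * (C1 * C2) / (s * t), ?_, ?_, ?_⟩
  · rintro ⟨x0, x1, x2, x3⟩
    apply hz
    refine ⟨x0, ?_, ?_, ?_⟩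
    · rcases div_eq_zero_iff.mp x1 with h | h
      · exact (mul_eq_zero.mp h).resolve_right a1
      · exact absurd h hs0
    · rcases div_eq_zero_iff.mp x2 with h | h
      · exact (mul_eq_zero.mp h).resolve_right a2
      · exact absurd h ht0
    · rcases div_eq_zero_iff.mp x3 with h | h
      · exact (mul_eq_zero.mp h).resolve_right (mul_ne_zero a1 a2)
      · exact absurd h (mul_ne_zero hs0 ht0)
  · rw [← ha, e1', e2']
    field_simp
  · rw [← hb, map_mul, e1', e2']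
    field_simp

theorem hasPoint_torsion1 {e1 e2 e3 : K} (h12 : e1 ≠ e2) :
    HasPoint L e1 e2 e3 ((e1 - e2) * (e1 - e3)) (e1 - e2) := by
  have h : algebraMap K L (e1 - e2) ≠ 0 :=
    (map_ne_zero_iff _ (algebraMap K L).injective).mpr (sub_ne_zero.mpr h12)
  refine ⟨1, 0, 1, 1 / algebraMap K L (e1 - e2), fun hh => one_ne_zero hh.1, ?_, ?_⟩
  · rw [← neg_sub e1 e2, map_neg]; ring
  · have e : algebraMap K L (e3 - e1) = -algebraMap K L (e1 - e3) := by
      rw [← map_neg]; congr 1; ring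
    rw [map_mul, map_mul, e]
    field_simp
    simp

theorem hasPoint_torsion2 {e1 e2 e3 : K} (h12 : e1 ≠ e2) :
    HasPoint L e1 e2 e3 (e2 - e1) ((e2 - e1) * (e2 - e3)) := by
  have h : algebraMap K L (e2 - e1) ≠ 0 :=
    (map_ne_zero_iff _ (algebraMap K L).injective).mpr (sub_ne_zero.mpr h12.symm)
  refine ⟨1, 1, 0, 1 / algebraMap K L (e2 - e1), fun hh => one_ne_zero hh.1, ?_, ?_⟩
  · ring
  · rw [map_mul, map_mul]
    have e : algebraMap K L (e3 - e1) = algebraMap K L (e2 - e1) - algebraMap K L (e2 - e3) := by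
      rw [← map_sub]; congr 1; ring
    rw [e]
    field_simp

theorem hasPoint_torsion3 {e1 e2 e3 : K} :
    HasPoint L e1 e2 e3 (e3 - e1) (e3 - e2) := by
  refine ⟨1, 1, 1, 0, fun hh => one_ne_zero hh.1, ?_, ?_⟩
  · simp only [map_sub]; ring
  · simp

/-- Permutations of the roots. -/
theorem hasPoint_swap12 {e1 e2 e3 d1 d2 : K} :
    HasPoint L e1 e2 e3 d1 d2 ↔ HasPoint L e2 e1 e3 d2 d1 := by
  have key : ∀ {e1 e2 e3 d1 d2 : K}, HasPoint L e1 e2 e3 d1 d2 → HasPoint L e2 e1 e3 d2 d1 := by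
    intro e1 e2 e3 d1 d2 ⟨z0, z1, z2, z3, hz, ha, hb⟩
    refine ⟨z0, z2, z1, z3, ?_, ?_, ?_⟩
    · rintro ⟨x0, x1, x2, x3⟩; exact hz ⟨x0, x2, x1, x3⟩
    · simp only [map_sub, map_mul] at ha hb ⊢
      linear_combination -ha
    · simp only [map_sub, map_mul] at ha hb ⊢
      linear_combination hb - ha
  exact ⟨key, key⟩

theorem hasPoint_swap23 {e1 e2 e3 d1 d2 : K} (hd1 : d1 ≠ 0) (hd2 : d2 ≠ 0) :
    HasPoint L e1 e2 e3 d1 d2 ↔ HasPoint L e1 e3 e2 d1 (d1 * d2) := by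
  have h1 : algebraMap K L d1 ≠ 0 :=
    (map_ne_zero_iff _ (algebraMap K L).injective).mpr hd1
  constructor
  · rintro ⟨z0, z1, z2, z3, hz, ha, hb⟩
    refine ⟨z0, z1, z3, z2 / algebraMap K L d1, ?_, hb, ?_⟩
    · rintro ⟨x0, x1, x2, x3⟩
      rcases div_eq_zero_iff.mp x3 with h | h
      · exact hz ⟨x0, x1, h, x2⟩
      · exact h1 h
    · rw [← ha, map_mul, map_mul]
      field_simp
  · rintro ⟨z0, z1, z2, z3, hz, ha, hb⟩
    refine ⟨z0, z1, z3 * algebraMap K L d1, z2, ?_, ?_, ha⟩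
    · rintro ⟨x0, x1, x2, x3⟩
      rcases mul_eq_zero.mp x2 with h | h
      · exact hz ⟨x0, x1, x3, h⟩
      · exact h1 h
    · rw [← hb, map_mul, map_mul]
      ring

end Pool.Agent.Helper72.TD
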