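import Pool.Agent.Helper72.TD.IBDefs
import Pool.Agent.Helper72.TD.Local

/-!
IB-1: facts about valuations with finite residue field of odd characteristic.
-/

namespace Pool.Agent.Helper72.TD

open WithZero

variable {K : Type*} [Field K] {v : Valuation K ℤᵐ⁰}

/-- the residue class of an integral element -/
private noncomputable def rs (v : Valuation K ℤᵐ⁰) (x : K) (hx : v x ≤ 1) :
    IsLocalRing.ResidueField v.valuationSubring :=
  IsLocalRing.residue v.valuationSubring ⟨x, hx⟩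

private theorem rs_eq_zero (v : Valuation K ℤᵐ⁰) (x : K) (hx : v x ≤ 1) :
    rs v x hx = 0 ↔ v x < 1 := by
  unfold rs
  rw [IsLocalRing.residue_eq_zero_iff, IsLocalRing.mem_maximalIdeal, mem_nonunits_iff,
    Valuation.Integers.isUnit_iff_valuation_eq_one (Valuation.valuationSubring.integers v)]
  exact ⟨fun h => lt_of_le_of_ne hx h, fun h => ne_of_lt h⟩

private theorem exists_rs (v : Valuation K ℤᵐ⁰) (r : IsLocalRing.ResidueField v.valuationSubring) :
    ∃ (x : K) (hx : v x ≤ 1), rs v x hx = r := by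
  obtain ⟨⟨x, hx⟩, rfl⟩ := IsLocalRing.residue_surjective r
  exact ⟨x, hx, rfl⟩

private theorem oneSq_iff (v : Valuation K ℤᵐ⁰) (a : K) (ha : v a = 1) :
    OneSq v a ↔ IsSquare (rs v a ha.le) := by
  constructor
  · rintro ⟨s, hs⟩
    have h1 : v (a * s ^ 2) = 1 := by
      have := Valuation.map_eq_of_sub_lt v (x := 1) (y := a * s ^ 2) (by rwa [map_one])
      rw [this, map_one]
    have h2 : v s = 1 := by
      rw [map_mul, ha, one_mul, map_pow] at h1
      exact (pow_eq_one_iff_of_nonneg zero_le two_ne_zero).1 h1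
    have h3 : v (s⁻¹) = 1 := by rw [map_inv₀, h2, inv_one]
    have hs0 : s ≠ 0 := by rintro rfl; simp at h2
    refine ⟨rs v s⁻¹ h3.le, ?_⟩
    have h4 : rs v a ha.le - rs v s⁻¹ h3.le * rs v s⁻¹ h3.le =
        rs v (a - s⁻¹ * s⁻¹) (by
          refine (Valuation.map_sub v _ _).trans (max_le ha.le ?_)
          rw [map_mul, h3, one_mul]) := by
      unfold rs
      rw [← map_mul, ← map_sub]
      rfl
    rw [← sub_eq_zero, h4, rs_eq_zero]
    have h5 : a - s⁻¹ * s⁻¹ = (a * s ^ 2 - 1) * (s⁻¹ * s⁻¹) := by field_simp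
    rw [h5, map_mul, map_mul, h3, one_mul, mul_one]
    exact hs
  · rintro ⟨r, hr⟩
    obtain ⟨x, hx, rfl⟩ := exists_rs v r
    have hx1 : v x = 1 := by
      by_contra hne
      have hlt : v x < 1 := lt_of_le_of_ne hx hne
      have h0 := (rs_eq_zero v x hx).2 hlt
      rw [h0, mul_zero, rs_eq_zero, ha] at hr
      exact lt_irrefl _ hr
    have hx0 : x ≠ 0 := by rintro rfl; simp at hx1
    have h4 : rs v a ha.le - rs v x hx * rs v x hx =
        rs v (a - x * x) (by
          refine (Valuation.map_sub v _ _).trans (max_le ha.le ?_)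
          rw [map_mul, hx1, one_mul]) := by
      unfold rs
      rw [← map_mul, ← map_sub]
      rfl
    rw [← sub_eq_zero, h4, rs_eq_zero] at hr
    refine ⟨x⁻¹, ?_⟩
    have h5 : a * x⁻¹ ^ 2 - 1 = (a - x * x) * x⁻¹ ^ 2 := by field_simp
    rw [h5, map_mul, map_pow, map_inv₀, hx1]
    simpa using hr

private theorem exists_unit (hv : FinRes v) {a : K} (ha : EvenAt v a) :
    ∃ s : K, v (a * s ^ 2) = 1 := by
  obtain ⟨γ, hγ, ha⟩ := ha
  obtain ⟨ϖ, hϖ⟩ := hv.unif
  refine ⟨ϖ ^ (WithZero.log γ), ?_⟩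
  have h1 : v (ϖ ^ (WithZero.log γ)) = γ⁻¹ := by
    rw [map_zpow₀, hϖ, ← WithZero.exp_zsmul]
    conv_rhs => rw [← WithZero.exp_log hγ]
    rw [← WithZero.exp_neg]
    congr 1
    simp
  rw [map_mul, map_pow, h1, ha, ← mul_pow, mul_inv_cancel₀ hγ, one_pow]

private theorem char_ne (hv : FinRes v) :
    ringChar (IsLocalRing.ResidueField v.valuationSubring) ≠ 2 := by
  intro h
  have h1 : ((2 : ℕ) : IsLocalRing.ResidueField v.valuationSubring) = 0 := by
    rw [← h]; exact ringChar.Nat.cast_ringChar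
  have h2 : rs v 2 hv.two.le = 0 := by
    rw [← h1]
    unfold rs
    rw [← map_natCast (IsLocalRing.residue v.valuationSubring) 2]
    congr 1
  rw [rs_eq_zero, hv.two] at h2
  exact lt_irrefl _ h2

/-- The product of two non-squares of even value is a square, up to 1-units. -/
theorem oneSq_or (hv : FinRes v) {a b : K} (ha : EvenAt v a) (hb : EvenAt v b) :
    OneSq v a ∨ OneSq v b ∨ OneSq v (a * b) := by
  classical
  obtain ⟨s, hs⟩ := exists_unit hv ha
  obtain ⟨t, ht⟩ := exists_unit hv hb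
  have := hv.fin
  letI := Fintype.ofFinite (IsLocalRing.ResidueField v.valuationSubring)
  have hst : v ((a * s ^ 2) * (b * t ^ 2)) = 1 := by rw [map_mul, hs, ht, one_mul]
  by_cases h1 : OneSq v (a * s ^ 2)
  · left
    obtain ⟨r, hr⟩ := h1
    refine ⟨s * r, ?_⟩
    convert hr using 2
    ring
  by_cases h2 : OneSq v (b * t ^ 2)
  · right; left
    obtain ⟨r, hr⟩ := h2
    refine ⟨t * r, ?_⟩
    convert hr using 2
    ring
  right; right
  rw [oneSq_iff v _ hs] at h1
  rw [oneSq_iff v _ ht] at h2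
  have h3 : OneSq v ((a * s ^ 2) * (b * t ^ 2)) := by
    rw [oneSq_iff v _ hst]
    have h4 : rs v ((a * s ^ 2) * (b * t ^ 2)) hst.le = rs v (a * s ^ 2) hs.le *
        rs v (b * t ^ 2) ht.le := by
      unfold rs
      rw [← map_mul]
      rfl
    have h5 : rs v ((a * s ^ 2) * (b * t ^ 2)) hst.le ≠ 0 := by
      rw [Ne, rs_eq_zero, hst]
      exact lt_irrefl _
    rw [← quadraticChar_one_iff_isSquare h5, h4, map_mul,
      quadraticChar_neg_one_iff_not_isSquare.2 h1, quadraticChar_neg_one_iff_not_isSquare.2 h2]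
    rfl
  obtain ⟨r, hr⟩ := h3
  refine ⟨s * t * r, ?_⟩
  convert hr using 2
  ring

private theorem exists_sum_nonsq_fin {F : Type*} [Field F] [Finite F] (hF : ringChar F ≠ 2) :
    ∃ y : F, y ≠ 0 ∧ y ^ 2 + 1 ≠ 0 ∧ ¬ IsSquare (y ^ 2 + 1) := by
  classical
  letI := Fintype.ofFinite F
  obtain ⟨c, hc⟩ := FiniteField.exists_nonsquare hF
  have hcard : Fintype.card F % 2 = 1 := FiniteField.odd_card_of_char_ne_two hF
  obtain ⟨x, z, hxz⟩ := FiniteField.exists_root_sum_quadratic (R := F)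
    (f := Polynomial.X ^ 2) (g := Polynomial.X ^ 2 - Polynomial.C c)
    (Polynomial.degree_X_pow 2) (Polynomial.degree_X_pow_sub_C (by decide) _) hcard
  simp only [Polynomial.eval_pow, Polynomial.eval_X, Polynomial.eval_sub, Polynomial.eval_C] at hxz
  have hc2 : c = x ^ 2 + z ^ 2 := by linear_combination -hxz
  have hz : z ≠ 0 := by
    rintro rfl
    exact hc ⟨x, by rw [hc2]; ring⟩
  have hx : x ≠ 0 := by
    rintro rfl
    exact hc ⟨z, by rw [hc2]; ring⟩
  have h1 : (x / z) ^ 2 + 1 = c / z ^ 2 := by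
    rw [hc2]; field_simp
  have h2 : ¬ IsSquare (c / z ^ 2) := by
    rintro ⟨r, hr⟩
    refine hc ⟨r * z, ?_⟩
    rw [div_eq_iff (pow_ne_zero 2 hz)] at hr
    rw [hr]; ring
  refine ⟨x / z, div_ne_zero hx hz, ?_, ?_⟩
  · rw [h1]
    intro h0
    exact h2 (by rw [h0]; exact IsSquare.zero)
  · rwa [h1]

/-- Some `y² + 1` is a non-square unit. -/
theorem exists_sum_nonsq (hv : FinRes v) :
    ∃ y : K, v y = 1 ∧ v (y ^ 2 + 1) = 1 ∧ ¬ OneSq v (y ^ 2 + 1) := by
  have := hv.fin
  obtain ⟨r, hr0, hr1, hr2⟩ := exists_sum_nonsq_fin (char_ne hv)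
  obtain ⟨y, hy, rfl⟩ := exists_rs v r
  have hy1 : v y = 1 := by
    by_contra hne
    exact hr0 ((rs_eq_zero v y hy).2 (lt_of_le_of_ne hy hne))
  have hle : v (y ^ 2 + 1) ≤ 1 := by
    refine (Valuation.map_add v _ _).trans (max_le ?_ (map_one v).le)
    rw [map_pow, hy1, one_pow]
  have h1 : rs v (y ^ 2 + 1) hle = rs v y hy ^ 2 + 1 := by
    unfold rs
    rw [← map_pow, ← map_one (IsLocalRing.residue v.valuationSubring), ← map_add]
    rfl
  have h2 : v (y ^ 2 + 1) = 1 := by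
    by_contra hne
    exact hr1 (by rw [← h1]; exact (rs_eq_zero v _ hle).2 (lt_of_le_of_ne hle hne))
  refine ⟨y, hy1, h2, ?_⟩
  rw [oneSq_iff v _ h2, h1]
  exact hr2

end Pool.Agent.Helper72.TD
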