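import Pool.Agent.Helper72.TD.IBDefs
import Pool.Agent.Helper72.TD.IBResid
import Pool.Agent.Helper72.TD.Local
import Pool.Agent.Helper72.TD.IBGroup

/-!
IB-4: solubility of certain 2-coverings at places of multiplicative reduction.
-/

namespace Pool.Agent.Helper72.TD

open WithZero

variable {K L : Type*} [Field K] [Field L] [Algebra K L] {v : Valuation K ℤᵐ⁰}
  {w : Valuation L ℤᵐ⁰}

/-- A nonzero element of `K` is a square in `L` iff it is a square times a 1-unit. -/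
theorem isSquare_iff_oneSq (hL : LocalData v w) {a : K} (ha : a ≠ 0) :
    IsSquare (algebraMap K L a) ↔ OneSq v a := by
  have inj : Function.Injective (algebraMap K L) := (algebraMap K L).injective
  have ha' : algebraMap K L a ≠ 0 := (map_ne_zero_iff _ inj).mpr ha
  constructor
  · rintro ⟨x, hx⟩
    have hx0 : x ≠ 0 := by rintro rfl; exact ha' (by rw [hx]; ring)
    obtain ⟨b, hb⟩ := hL.dense x hx0
    have hwx : w x ≠ 0 := (Valuation.ne_zero_iff w).mpr hx0
    have hwb : w (algebraMap K L b) = w x := by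
      apply Valuation.map_eq_of_sub_lt w
      rwa [Valuation.map_sub_swap]
    have hb0 : algebraMap K L b ≠ 0 := (Valuation.ne_zero_iff w).mp (by rw [hwb]; exact hwx)
    refine ⟨b⁻¹, ?_⟩
    rw [← hL.ext, map_sub, map_mul, map_pow, map_inv₀, map_one, hx]
    have e : x * x * (algebraMap K L b)⁻¹ ^ 2 - 1
        = (x - algebraMap K L b) * (x + algebraMap K L b) * ((algebraMap K L b)⁻¹ ^ 2) := by
      field_simp
      ring
    rw [e, map_mul, map_mul, map_pow, map_inv₀, hwb]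
    have h1 : w (x + algebraMap K L b) ≤ w x := by
      refine (Valuation.map_add w _ _).trans ?_
      rw [hwb, max_self]
    have h2 : w (x - algebraMap K L b) * w (x + algebraMap K L b) < w x * w x :=
      lt_of_le_of_lt (mul_le_mul_right h1 _) (mul_lt_mul_of_pos_right hb (zero_lt_iff.mpr hwx))
    calc w (x - algebraMap K L b) * w (x + algebraMap K L b) * (w x)⁻¹ ^ 2
        < w x * w x * (w x)⁻¹ ^ 2 :=
          mul_lt_mul_of_pos_right h2 (zero_lt_iff.mpr (pow_ne_zero 2 (inv_ne_zero hwx)))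
      _ = 1 := by field_simp
  · rintro ⟨s, hs⟩
    have hs0 : s ≠ 0 := by
      rintro rfl
      simp at hs
    have h1 : w (algebraMap K L (a * s ^ 2) - 1) < 1 := by
      rw [← map_one (algebraMap K L), ← map_sub, hL.ext]
      exact hs
    obtain ⟨y, hy⟩ := hL.hensel _ h1
    have hs' : algebraMap K L s ≠ 0 := (map_ne_zero_iff _ inj).mpr hs0
    refine ⟨y / algebraMap K L s, ?_⟩
    rw [map_mul, map_pow] at hy
    field_simp
    rw [hy]
    ring

/-- The covering `C_{c,c}` has a point as soon as `x = e1 + c s²` has the right square classes. -/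
private theorem hasPoint_of_x (hL : LocalData v w) {e1 e2 e3 c s : K} (hc : c ≠ 0) (hs : s ≠ 0)
    (h2 : v (e1 - e2) < v (c * s ^ 2)) (h3 : IsSquare (algebraMap K L (e1 - e3 + c * s ^ 2))) :
    HasPoint L e1 e2 e3 c c := by
  have inj : Function.Injective (algebraMap K L) := (algebraMap K L).injective
  have hc' : algebraMap K L c ≠ 0 := (map_ne_zero_iff _ inj).mpr hc
  have hcs : c * s ^ 2 ≠ 0 := mul_ne_zero hc (pow_ne_zero 2 hs)
  have hvcs : v (c * s ^ 2) ≠ 0 := (Valuation.ne_zero_iff v).mpr hcs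
  have hu : w (algebraMap K L (1 + (e1 - e2) / (c * s ^ 2)) - 1) < 1 := by
    rw [map_add, map_one, add_sub_cancel_left, hL.ext, map_div₀]
    rwa [div_lt_one₀ (zero_lt_iff.mpr hvcs)]
  obtain ⟨r, hr⟩ := hL.hensel _ hu
  obtain ⟨q, hq⟩ := h3
  refine ⟨1, algebraMap K L s, algebraMap K L s * r, q / algebraMap K L c,
    fun h => one_ne_zero h.1, ?_, ?_⟩
  · have e : algebraMap K L c * (algebraMap K L s * r) ^ 2
        = algebraMap K L (c * s ^ 2 * (1 + (e1 - e2) / (c * s ^ 2))) := by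
      rw [map_mul, hr, map_mul, map_pow]; ring
    have e' : c * s ^ 2 * (1 + (e1 - e2) / (c * s ^ 2)) = c * s ^ 2 + (e1 - e2) := by
      field_simp
    rw [e, e', map_add, map_mul, map_pow, map_sub, map_sub]
    ring
  · have e : algebraMap K L (c * c) * (q / algebraMap K L c) ^ 2
        = algebraMap K L (e1 - e3 + c * s ^ 2) := by
      rw [hq, map_mul]; field_simp
    rw [e, map_add, map_mul, map_pow, map_sub, map_sub]
    ring

theorem hasPoint_unit_mult (hL : LocalData v w) (hv : FinRes v) {e1 e2 e3 c : K}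
    (h12 : v (e1 - e2) < v (e1 - e3)) (hev : EvenAt v (e1 - e3)) (hc : EvenAt v c) :
    HasPoint L e1 e2 e3 c c := by
  have inj : Function.Injective (algebraMap K L) := (algebraMap K L).injective
  have hc0 : c ≠ 0 := by
    rintro rfl
    obtain ⟨γ, hγ, h⟩ := hc
    rw [map_zero] at h
    exact pow_ne_zero 2 hγ h.symm
  have hv13 : v (e1 - e3) ≠ 0 := ne_zero_of_lt h12
  have h13 : e1 - e3 ≠ 0 := (Valuation.ne_zero_iff v).mp hv13
  have h31 : e3 - e1 ≠ 0 := by
    intro h; exact h13 (by linear_combination -h)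
  have hv31 : v (e3 - e1) = v (e1 - e3) := Valuation.map_sub_swap v _ _
  have hev' : EvenAt v (e3 - e1) := by
    obtain ⟨γ, hγ, h⟩ := hev
    exact ⟨γ, hγ, by rw [hv31, h]⟩
  by_cases hA : OneSq v c
  · obtain ⟨r, hr⟩ := (isSquare_iff_oneSq hL hc0).mpr hA
    have hr0 : r ≠ 0 := by
      rintro rfl
      exact (map_ne_zero_iff _ inj).mpr hc0 (by rw [hr]; ring)
    refine ⟨0, r, r, 1, fun h => hr0 h.2.1, by ring, ?_⟩
    rw [map_mul, hr]
    ring
  by_cases hB : OneSq v ((e3 - e1) * c)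
  · have h32v : v (e3 - e2) = v (e3 - e1) := by
      apply Valuation.map_eq_of_sub_lt v
      rw [hv31]
      convert h12 using 2
      ring
    have h32 : e3 - e2 ≠ 0 := (Valuation.ne_zero_iff v).mp (by rw [h32v, hv31]; exact hv13)
    refine hasPoint_congr L h31 h32 hc0 hc0 ((isSquare_iff_oneSq hL (mul_ne_zero h31 hc0)).mpr hB)
      ((isSquare_iff_oneSq hL (mul_ne_zero h32 hc0)).mpr ?_) (hasPoint_torsion3 L)
    obtain ⟨s, hs⟩ := hB
    refine ⟨s, ?_⟩
    have hs1 : v ((e3 - e1) * c * s ^ 2) = 1 := by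
      have := Valuation.map_eq_of_sub_lt v (x := (1 : K)) (y := (e3 - e1) * c * s ^ 2)
        (by rw [map_one]; exact hs)
      rw [this, map_one]
    have e : (e3 - e2) * c * s ^ 2 - 1
        = ((e3 - e1) * c * s ^ 2 - 1) + (e1 - e2) / (e3 - e1) * ((e3 - e1) * c * s ^ 2) := by
      field_simp
      ring
    rw [e]
    refine Valuation.map_add_lt v hs ?_
    rw [map_mul, hs1, mul_one, map_div₀, div_lt_one₀ (zero_lt_iff.mpr (by rw [hv31]; exact hv13)),
      hv31]
    exact h12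
  have hC : OneSq v (e3 - e1) := by
    rcases oneSq_or hv hc hev' with h | h | h
    · exact absurd h hA
    · exact h
    · rw [mul_comm] at h; exact absurd h hB
  obtain ⟨y, hy1, hy2, hy3⟩ := exists_sum_nonsq hv
  have hD : OneSq v (c * (y ^ 2 + 1)) := by
    rcases oneSq_or hv hc (b := y ^ 2 + 1) ⟨1, one_ne_zero, by rw [hy2]; simp⟩ with h | h | h
    · exact absurd h hA
    · exact absurd h hy3
    · exact h
  obtain ⟨r, hr⟩ := hC
  obtain ⟨t, ht⟩ := hD
  have unit_of : ∀ {x : K}, v (x - 1) < 1 → v x = 1 := by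
    intro x hx
    have := Valuation.map_eq_of_sub_lt v (x := (1 : K)) (y := x) (by rw [map_one]; exact hx)
    rw [this, map_one]
  have hr0 : r ≠ 0 := by rintro rfl; simp at hr
  have ht0 : t ≠ 0 := by rintro rfl; simp at ht
  have hy0 : y ≠ 0 := (Valuation.ne_zero_iff v).mp (by rw [hy1]; exact one_ne_zero)
  have hyy : y ^ 2 + 1 ≠ 0 := (Valuation.ne_zero_iff v).mp (by rw [hy2]; exact one_ne_zero)
  have hvr : v r ≠ 0 := (Valuation.ne_zero_iff v).mpr hr0
  set z : K := (y ^ 2 + 1) * t / r with hz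
  have hz0 : z ≠ 0 := div_ne_zero (mul_ne_zero hyy ht0) hr0
  have hvz : v (c * z ^ 2) = v (e1 - e3) := by
    have e : c * z ^ 2 = (c * (y ^ 2 + 1) * t ^ 2) * (y ^ 2 + 1) / r ^ 2 := by
      rw [hz]; field_simp
    have e2 : v (e1 - e3) * v r ^ 2 = 1 := by
      rw [← hv31, ← map_pow, ← map_mul]
      exact unit_of hr
    rw [e, map_div₀, map_mul, unit_of ht, hy2, one_mul, map_pow]
    rw [div_eq_iff (pow_ne_zero 2 hvr), e2]
  refine hasPoint_of_x hL hc0 hz0 (by rw [hvz]; exact h12) ?_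
  have hne : e1 - e3 + c * z ^ 2 ≠ 0 := by
    intro h0
    have e : (e1 - e3 + c * z ^ 2) * r ^ 2
        = y ^ 2 + (c * (y ^ 2 + 1) * t ^ 2 - 1) * (y ^ 2 + 1) - ((e3 - e1) * r ^ 2 - 1) := by
      rw [hz]; field_simp; ring
    rw [h0, zero_mul] at e
    have h1 : v (y ^ 2) < 1 := by
      have e3 : y ^ 2 = ((e3 - e1) * r ^ 2 - 1) - (c * (y ^ 2 + 1) * t ^ 2 - 1) * (y ^ 2 + 1) := by
        linear_combination -e
      rw [e3]
      refine Valuation.map_sub_lt v hr ?_
      rw [map_mul, hy2, mul_one]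
      exact ht
    rw [map_pow, hy1, one_pow] at h1
    exact lt_irrefl _ h1
  rw [isSquare_iff_oneSq hL hne]
  refine ⟨r / y, ?_⟩
  have e : (e1 - e3 + c * z ^ 2) * (r / y) ^ 2 - 1
      = ((c * (y ^ 2 + 1) * t ^ 2 - 1) * (y ^ 2 + 1) - ((e3 - e1) * r ^ 2 - 1)) / y ^ 2 := by
    rw [hz]; field_simp; ring
  rw [e, map_div₀, map_pow, hy1, one_pow, div_one]
  refine Valuation.map_sub_lt v ?_ hr
  rw [map_mul, hy2, mul_one]
  exact ht

theorem hasPoint_unif_mult (hL : LocalData v w) (hv : FinRes v) {e1 e2 e3 c : K}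
    (h12 : v (e1 - e2) < v (e1 - e3)) (hev : EvenAt v (e1 - e3)) (hs : OneSq v (e1 - e3))
    (hν : EvenAt v (e1 - e2)) (hc0 : c ≠ 0) (hc : ¬ EvenAt v c) :
    HasPoint L e1 e2 e3 c c := by
  have inj : Function.Injective (algebraMap K L) := (algebraMap K L).injective
  have hv13 : v (e1 - e3) ≠ 0 := ne_zero_of_lt h12
  have h13 : e1 - e3 ≠ 0 := (Valuation.ne_zero_iff v).mp hv13
  obtain ⟨ϖ, hϖ⟩ := hv.unif
  have hϖ0 : ϖ ≠ 0 := (Valuation.ne_zero_iff v).mp (by rw [hϖ]; exact exp_ne_zero)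
  have hvc : v c ≠ 0 := (Valuation.ne_zero_iff v).mpr hc0
  obtain ⟨n, hn⟩ : ∃ n : ℤ, v c = exp n := ⟨log (v c), (exp_log hvc).symm⟩
  obtain ⟨γ, hγ, hγ2⟩ := hev
  obtain ⟨δ, hδ, hδ2⟩ := hν
  obtain ⟨m, rfl⟩ : ∃ m : ℤ, γ = exp m := ⟨log γ, (exp_log hγ).symm⟩
  obtain ⟨m', rfl⟩ : ∃ m : ℤ, δ = exp m := ⟨log δ, (exp_log hδ).symm⟩
  have sq : ∀ a : ℤ, (exp a : ℤᵐ⁰) ^ 2 = exp (2 * a) := by
    intro a; rw [pow_two, ← exp_add]; congr 1; ring
  rw [sq] at hγ2 hδ2
  have hodd : Odd n := by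
    by_contra h
    rw [Int.not_odd_iff_even] at h
    obtain ⟨j, hj⟩ := h
    exact hc ⟨exp j, exp_ne_zero, by rw [hn, sq, hj]; congr 1; ring⟩
  obtain ⟨j, hj⟩ := hodd
  have hlt : m' < m := by
    rw [hγ2, hδ2, exp_lt_exp] at h12
    omega
  -- choose `s` of value `exp (m - 1 - j)`
  set s : K := ϖ ^ (-(m - 1 - j)) with hsdef
  have hvs : v s = exp (m - 1 - j) := by
    rw [hsdef, map_zpow₀, hϖ, ← exp_zsmul]
    congr 1
    simp
  have hs0 : s ≠ 0 := zpow_ne_zero _ hϖ0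
  have hvcs : v (c * s ^ 2) = exp (2 * m - 1) := by
    rw [map_mul, map_pow, hvs, hn, sq, ← exp_add, hj]
    congr 1
    ring
  refine hasPoint_of_x hL hc0 hs0 ?_ ?_
  · rw [hvcs, hδ2, exp_lt_exp]; omega
  · obtain ⟨q, hq⟩ := (isSquare_iff_oneSq hL h13).mpr hs
    have hu : w (algebraMap K L (1 + c * s ^ 2 / (e1 - e3)) - 1) < 1 := by
      rw [map_add, map_one, add_sub_cancel_left, hL.ext, map_div₀,
        div_lt_one₀ (zero_lt_iff.mpr hv13), hvcs, hγ2, exp_lt_exp]
      omega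
    obtain ⟨r, hr⟩ := hL.hensel _ hu
    refine ⟨q * r, ?_⟩
    have e : e1 - e3 + c * s ^ 2 = (e1 - e3) * (1 + c * s ^ 2 / (e1 - e3)) := by
      field_simp
    rw [e, map_mul, hq, hr]
    ring

end Pool.Agent.Helper72.TD
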