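import Pool.Agent.Helper72.TD.LegPoints

/-!
The linear conditions force a pair to be a product of classes of the points `P_ζ`.
-/

namespace Pool.Agent.Helper72.TD

open IsDedekindDomain Polynomial WithZero

variable {k : Type*} [Field k]

theorem factor_eq (g : k[X]) {η : k} (hη : η ≠ 0) :
    RatFunc.C η * algebraMap k[X] (RatFunc k) g + 1 =
      RatFunc.C η * algebraMap k[X] (RatFunc k) (g - C (-η⁻¹)) := by
  rw [map_sub, RatFunc.algebraMap_C, mul_sub, map_neg, mul_neg, sub_neg_eq_add,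
    ← map_mul, mul_inv_cancel₀ hη, map_one]

theorem evenAt_iff_exp {K : Type*} [Field K] (v : Valuation K ℤᵐ⁰) {a : K} {n : ℤ}
    (h : v a = exp n) : EvenAt v a ↔ Even n := by
  constructor
  · rintro ⟨γ, hγ, e⟩
    have h1 : γ = exp (log γ) := (exp_log hγ).symm
    rw [h, h1, ← exp_nsmul, exp_inj] at e
    exact ⟨log γ, by rw [e]; simp [two_mul]⟩
  · rintro ⟨m, rfl⟩
    refine ⟨exp m, exp_ne_zero, ?_⟩
    rw [h, ← exp_nsmul, exp_inj]
    simp [two_mul]

theorem evenAt_of_odd_odd {K : Type*} [Field K] (v : Valuation K ℤᵐ⁰) {a b : K} (ha : a ≠ 0)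
    (hb : b ≠ 0) (h1 : ¬ EvenAt v a) (h2 : ¬ EvenAt v b) : EvenAt v (a * b) := by
  have ha' : v a = exp (log (v a)) := (exp_log ((Valuation.ne_zero_iff v).mpr ha)).symm
  have hb' : v b = exp (log (v b)) := (exp_log ((Valuation.ne_zero_iff v).mpr hb)).symm
  rw [evenAt_iff_exp v ha', Int.not_even_iff_odd] at h1
  rw [evenAt_iff_exp v hb', Int.not_even_iff_odd] at h2
  have hab : v (a * b) = exp (log (v a) + log (v b)) := by
    rw [map_mul, exp_add, ← ha', ← hb']
  rw [evenAt_iff_exp v hab]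
  exact h1.add_odd h2

theorem place_eq {v v' : HeightOneSpectrum k[X]} {a : k[X]} {π : k[X]} (hπ : Irreducible π)
    {u : k} {n : ℕ} (ha : a = C u * π ^ n) (ha0 : a ≠ 0)
    (h : v.valuation (RatFunc k) (algebraMap k[X] (RatFunc k) a) < 1)
    (h' : v'.valuation (RatFunc k) (algebraMap k[X] (RatFunc k) a) < 1) : v = v' := by
  have key : ∀ v : HeightOneSpectrum k[X],
      v.valuation (RatFunc k) (algebraMap k[X] (RatFunc k) a) < 1 →
        v.asIdeal = Ideal.span {π} := by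
    intro v hv
    rw [HeightOneSpectrum.valuation_lt_one_iff_mem, ha] at hv
    have hu : u ≠ 0 := by rintro rfl; simp [ha] at ha0
    have h1 : C u ∉ v.asIdeal := by
      intro hc
      apply v.isPrime.ne_top
      rw [Ideal.eq_top_iff_one]
      have := v.asIdeal.mul_mem_left (C u⁻¹) hc
      rwa [← C_mul, inv_mul_cancel₀ hu, C_1] at this
    have h2 : π ^ n ∈ v.asIdeal := (v.isPrime.mem_or_mem hv).resolve_left h1
    have h3 : π ∈ v.asIdeal := v.isPrime.mem_of_pow_mem n h2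
    have h4 : Ideal.span {π} ≤ v.asIdeal := by
      rw [Ideal.span_le]; simpa using h3
    have h5 : (Ideal.span {π}).IsMaximal := PrincipalIdealRing.isMaximal_of_irreducible hπ
    exact (h5.eq_of_le v.isPrime.ne_top h4).symm
  apply HeightOneSpectrum.ext
  rw [key v h, key v' h']

theorem exists_place_of {a : k[X]} {π : k[X]} (hπ : Irreducible π)
    {u : k} {n : ℕ} (ha : a = C u * π ^ n) (_ : a ≠ 0) (hn : n ≠ 0) :
    ∃ v : HeightOneSpectrum k[X], v.asIdeal = Ideal.span {π} ∧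
      v.valuation (RatFunc k) (algebraMap k[X] (RatFunc k) a) < 1 := by
  refine ⟨⟨Ideal.span {π}, (Ideal.span_singleton_prime hπ.ne_zero).mpr hπ.prime, ?_⟩, rfl, ?_⟩
  · simpa using hπ.ne_zero
  · rw [HeightOneSpectrum.valuation_lt_one_iff_mem, ha]
    apply Ideal.mul_mem_left
    exact Ideal.pow_mem_of_mem _ (Ideal.mem_span_singleton_self π) n (Nat.pos_of_ne_zero hn)

theorem lin_prod [DecidableEq (RatFunc k)] {g : k[X]} {d : ℕ} (T : Finset k)
    (h : ∀ ζ ∈ T, Lin g d (RatFunc.C ζ * algebraMap k[X] (RatFunc k) g)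
      (RatFunc.C ζ * algebraMap k[X] (RatFunc k) g + 1)) :
    Lin g d (∏ ζ ∈ T, (RatFunc.C ζ * algebraMap k[X] (RatFunc k) g))
      (∏ ζ ∈ T, (RatFunc.C ζ * algebraMap k[X] (RatFunc k) g + 1)) := by
  classical
  induction T using Finset.induction_on with
  | empty => simpa using Lin.one
  | insert a s ha ih =>
    rw [Finset.prod_insert ha, Finset.prod_insert ha]
    exact (h a (Finset.mem_insert_self a s)).mul
      (ih fun ζ hζ => h ζ (Finset.mem_insert_of_mem hζ))

/-- The value of `ζ g + 1` at a place where `g ≡ ζ0`. -/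
theorem val_factor {g : k[X]} {ζ ζ0 : k} (hζ : ζ ≠ 0) (v : HeightOneSpectrum k[X])
    (h0 : v.valuation (RatFunc k) (algebraMap k[X] (RatFunc k) (g - C ζ0)) < 1)
    (hne : -ζ⁻¹ ≠ ζ0) :
    v.valuation (RatFunc k) (RatFunc.C ζ * algebraMap k[X] (RatFunc k) g + 1) = 1 := by
  have hC : RatFunc.C (ζ0 - -ζ⁻¹) = algebraMap k[X] (RatFunc k) (C (ζ0 - -ζ⁻¹)) :=
    (RatFunc.algebraMap_C _).symm
  have e : RatFunc.C ζ * algebraMap k[X] (RatFunc k) g + 1 =
      RatFunc.C ζ * (algebraMap k[X] (RatFunc k) (g - C ζ0) + RatFunc.C (ζ0 - -ζ⁻¹)) := by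
    rw [hC, ← map_add]
    have : g - C ζ0 + C (ζ0 - -ζ⁻¹) = g + C ζ⁻¹ := by
      rw [C_sub, C_neg]; ring
    rw [this, map_add, RatFunc.algebraMap_C, mul_add, ← map_mul, mul_inv_cancel₀ hζ, map_one]
  rw [e, val_const_mul v hζ]
  have h1 : v.valuation (RatFunc k) (RatFunc.C (ζ0 - -ζ⁻¹)) = 1 :=
    val_C v (sub_ne_zero.mpr hne.symm)
  rw [Valuation.map_eq_of_sub_lt (v.valuation (RatFunc k)) (x := RatFunc.C (ζ0 - -ζ⁻¹)), h1]
  rw [add_sub_cancel_right, h1]
  exact h0

/-- The main global step. -/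
theorem lin_imp [DecidableEq (RatFunc k)] (g : k[X]) (hg : g.natDegree ≠ 0) {d : ℕ} (hd : Even d)
    (hd0 : 0 < d) {μ : k} (hμ : IsPrimitiveRoot μ d)
    (hgπ : ∃ π : k[X], Irreducible π ∧ Odd π.natDegree ∧ ∃ (u : k) (n : ℕ), n ≠ 0 ∧
      g = C u * π ^ n)
    (hgζ : ∀ ζ : k, ζ ^ d = 1 → ∃ π : k[X], Irreducible π ∧ ∃ (u : k) (n : ℕ), Odd n ∧
      g - C ζ = C u * π ^ n)
    {d1 d2 : RatFunc k} (hL : Lin g d d1 d2) :
    ∃ T : Finset k, (∀ ζ ∈ T, ζ ^ d = 1) ∧
      IsSquare (d1 * ∏ ζ ∈ T, (RatFunc.C ζ * algebraMap k[X] (RatFunc k) g)) ∧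
      IsSquare (d2 * ∏ ζ ∈ T, (RatFunc.C ζ * algebraMap k[X] (RatFunc k) g + 1)) := by
  classical
  set G := algebraMap k[X] (RatFunc k) g with hG
  have hg0 : g ≠ 0 := by rintro rfl; simp at hg
  have hgne : ∀ c : k, g - C c ≠ 0 := by
    intro c h
    apply hg
    rw [sub_eq_zero.mp h, natDegree_C]
  have hz0 : ∀ ζ : k, ζ ^ d = 1 → ζ ≠ 0 := by
    rintro ζ h rfl
    rw [zero_pow hd0.ne'] at h
    exact zero_ne_one h
  set T : Finset k := (nthRootsFinset d (1 : k)).filter (fun ζ =>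
    ∃ v : HeightOneSpectrum k[X],
      v.valuation (RatFunc k) (algebraMap k[X] (RatFunc k) (g - C (-ζ⁻¹))) < 1 ∧
      ¬ EvenAt (v.valuation (RatFunc k)) d2) with hT
  have hTmem : ∀ ζ ∈ T, ζ ^ d = 1 := fun ζ hζ =>
    (mem_nthRootsFinset hd0 1).mp (Finset.mem_filter.mp hζ).1
  have hP := lin_prod (g := g) (d := d) T (fun ζ hζ => lin_pt g hg hd hd0 hμ (hTmem ζ hζ))
  have hL' := hL.mul hP
  set D1 := ∏ ζ ∈ T, (RatFunc.C ζ * algebraMap k[X] (RatFunc k) g) with hD1
  set D2 := ∏ ζ ∈ T, (RatFunc.C ζ * algebraMap k[X] (RatFunc k) g + 1) with hD2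
  -- all valuations of d2 * D2 are even
  have heven : ∀ v : HeightOneSpectrum k[X], EvenAt (v.valuation (RatFunc k)) (d2 * D2) := by
    intro v
    by_cases hv : v.valuation (RatFunc k) (1 - algebraMap k[X] (RatFunc k) g ^ d) = 1
    · exact hL'.even2 v hv
    · have : ∃ ζ0 : k, ζ0 ^ d = 1 ∧
          v.valuation (RatFunc k) (algebraMap k[X] (RatFunc k) (g - C ζ0)) < 1 := by
        by_contra hcon
        push Not at hcon
        apply hv
        apply val_one_sub hd0 hμ g v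
        intro ζ hζ
        exact le_antisymm (HeightOneSpectrum.valuation_le_one v _) (hcon ζ hζ)
      obtain ⟨ζ0, hζ0, hv0⟩ := this
      have hζ00 := hz0 ζ0 hζ0
      obtain ⟨π0, hπ0, u0, n0, hn0, hfac0⟩ := hgζ ζ0 hζ0
      set η := -ζ0⁻¹ with hη
      have hη0 : η ≠ 0 := neg_ne_zero.mpr (inv_ne_zero hζ00)
      have hηd : η ^ d = 1 := by rw [hη, hd.neg_pow, inv_pow, hζ0, inv_one]
      have hηinv : -η⁻¹ = ζ0 := by rw [hη, inv_neg, inv_inv, neg_neg]
      -- the other factors are even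
      have hother : ∀ S : Finset k, (∀ ζ ∈ S, ζ ^ d = 1 ∧ ζ ≠ η) →
          EvenAt (v.valuation (RatFunc k))
            (∏ ζ ∈ S, (RatFunc.C ζ * algebraMap k[X] (RatFunc k) g + 1)) := by
        intro S hS
        refine ⟨1, one_ne_zero, ?_⟩
        rw [map_prod, one_pow]
        apply Finset.prod_eq_one
        intro ζ hζ
        obtain ⟨h1, h2⟩ := hS ζ hζ
        apply val_factor (hz0 ζ h1) v hv0
        intro h3
        apply h2
        rw [hη, ← h3, inv_neg, inv_inv, neg_neg]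
      -- the factor of η is odd
      have hηodd : ¬ EvenAt (v.valuation (RatFunc k))
          (RatFunc.C η * algebraMap k[X] (RatFunc k) g + 1) := by
        have hvπ : v.asIdeal = Ideal.span {π0} := by
          obtain ⟨v', hv', hv''⟩ := exists_place_of hπ0 hfac0 (hgne ζ0)
            (by rintro rfl; simp at hn0)
          rw [place_eq hπ0 hfac0 (hgne ζ0) hv0 hv'', hv']
        have e : RatFunc.C η * algebraMap k[X] (RatFunc k) g + 1 =
            RatFunc.C η * algebraMap k[X] (RatFunc k) (g - C ζ0) := by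
          rw [factor_eq g hη0, hηinv]
        have hu0 : u0 ≠ 0 := by
          rintro rfl
          apply hgne ζ0
          simpa using hfac0
        have hnd : ¬ π0 ∣ C u0 := by
          intro hdvd
          exact hπ0.not_isUnit (isUnit_of_dvd_unit hdvd (isUnit_C.mpr hu0.isUnit))
        have h1 := (evenAt_pow v hvπ n0 hnd).not.mpr (by rwa [Nat.not_even_iff_odd])
        rw [e]
        rintro ⟨γ, hγ, h2⟩
        apply h1
        refine ⟨γ, hγ, ?_⟩
        rw [← h2, val_const_mul v hη0, hfac0, mul_comm]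
      by_cases hηT : η ∈ T
      · -- then d2 is odd at v
        obtain ⟨-, v', hv'1, hv'2⟩ := Finset.mem_filter.mp hηT
        rw [hηinv] at hv'1
        have hvv : v = v' := place_eq hπ0 hfac0 (hgne ζ0) hv0 hv'1
        rw [← hvv] at hv'2
        have hηne : RatFunc.C η * algebraMap k[X] (RatFunc k) g + 1 ≠ 0 :=
          (lin_pt g hg hd hd0 hμ hηd).ne2
        have h1 := evenAt_of_odd_odd _ hL.ne2 hηne hv'2 hηodd
        have h2 := hother (T.erase η) (fun ζ hζ =>
          ⟨hTmem ζ (Finset.mem_of_mem_erase hζ), Finset.ne_of_mem_erase hζ⟩)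
        have h3 := evenAt_mul h1 h2
        rwa [mul_assoc, Finset.mul_prod_erase T
          (fun ζ => RatFunc.C ζ * algebraMap k[X] (RatFunc k) g + 1) hηT] at h3
      · have h1 : EvenAt (v.valuation (RatFunc k)) d2 := by
          by_contra hcon
          apply hηT
          rw [hT, Finset.mem_filter]
          exact ⟨(mem_nthRootsFinset hd0 1).mpr hηd, v, by rw [hηinv]; exact hv0, hcon⟩
        exact evenAt_mul h1 (hother T (fun ζ hζ =>
          ⟨hTmem ζ hζ, fun h => hηT (h ▸ hζ)⟩))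
  obtain ⟨u2, s2, hu2, hs2, he2⟩ := const_of_even hL'.ne2 heven
  obtain ⟨π, hπ, hπodd, u, n, hn, hgfac⟩ := hgπ
  obtain ⟨v0, hv0, hv0'⟩ := exists_place_of hπ hgfac hg0 hn
  have hsq2 : IsSquare u2 := by
    apply isSquare_of_oneSq_finite v0 hv0 hπodd
    have := hL'.one2 v0 hv0'
    rw [he2] at this
    exact (oneSq_mul_sq hs2).mp this
  have hSq2 : IsSquare (d2 * D2) := by
    obtain ⟨r, rfl⟩ := hsq2
    exact ⟨RatFunc.C r * s2, by rw [he2, map_mul]; ring⟩
  obtain ⟨r2, hr2⟩ := hSq2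
  have hr20 : r2 ≠ 0 := by
    rintro rfl
    exact hL'.ne2 (by rw [hr2, mul_zero])
  have hinf1 : EvenAt (RatFunc.inftyValuation k) (d1 * D1) := by
    have := hL'.even3
    rw [hr2, ← sq] at this
    exact (evenAt_mul_sq hr20).mp this
  have hinf2 : OneSq (RatFunc.inftyValuation k) (d1 * D1) := by
    have := hL'.one3
    rw [hr2, ← sq] at this
    exact (oneSq_mul_sq hr20).mp this
  obtain ⟨u1, s1, hu1, hs1, he1⟩ := const_of_even' hL'.ne1 v0 hv0 hπodd (by
    intro v hv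
    apply hL'.even1 v
    by_contra hcon
    apply hv
    apply place_eq hπ hgfac hg0 _ hv0'
    exact lt_of_le_of_ne (HeightOneSpectrum.valuation_le_one v _) hcon) hinf1
  have hsq1 : IsSquare u1 := by
    apply isSquare_of_oneSq_infty
    rw [he1] at hinf2
    exact (oneSq_mul_sq hs1).mp hinf2
  refine ⟨T, hTmem, ?_, ⟨r2, hr2⟩⟩
  obtain ⟨r, rfl⟩ := hsq1
  exact ⟨RatFunc.C r * s1, by rw [he1, map_mul]; ring⟩

end Pool.Agent.Helper72.TD
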