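import Pool.Agent.Helper72.TD.IBMultNec
import Pool.Agent.Helper72.TD.IBMultSuff
import Pool.Agent.Helper72.TD.IBGood
import Pool.Agent.Helper72.TD.IBGroup
import Pool.Agent.Helper72.TD.LegGlobal

/-!
Local comparison: local solubility over `K_v` and over `K'_w`, for an odd extension of places.
-/

namespace Pool.Agent.Helper72.TD

open WithZero

section one

variable {K L : Type*} [Field K] [Field L] [Algebra K L] {v : Valuation K ℤᵐ⁰}
  {w : Valuation L ℤᵐ⁰}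

theorem evenAt_of_oneSq' {v : Valuation K ℤᵐ⁰} {d : K} (h : OneSq v d) : EvenAt v d := by
  obtain ⟨s, hs⟩ := h
  have h1 : v (d * s ^ 2) = 1 := by
    rw [Valuation.map_eq_of_sub_lt v (x := 1) (y := d * s ^ 2) (by rw [map_one]; exact hs),
      map_one]
  have hs0 : v s ≠ 0 := by
    intro h0
    rw [map_mul, map_pow, h0, zero_pow two_ne_zero, mul_zero] at h1
    exact zero_ne_one h1
  refine ⟨(v s)⁻¹, inv_ne_zero hs0, ?_⟩
  rw [inv_pow]
  rw [map_mul, map_pow] at h1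
  exact eq_inv_of_mul_eq_one_left h1

theorem evenAt_not_of_odd {v : Valuation K ℤᵐ⁰} {a b : K} (ha : EvenAt v a) (hb : ¬ EvenAt v b) :
    ¬ EvenAt v (a * b) := by
  intro h
  apply hb
  obtain ⟨x, hx, e1⟩ := ha
  obtain ⟨y, hy, e2⟩ := h
  refine ⟨y / x, div_ne_zero hy hx, ?_⟩
  have : v a ≠ 0 := by rw [e1]; exact pow_ne_zero 2 hx
  rw [div_pow, ← e1, ← e2, map_mul]
  field_simp

/-- The conditions at a multiplicative place with `e1 ≡ e2`. -/
structure MultCond (v : Valuation K ℤᵐ⁰) (e1 e2 e3 d1 d2 : K) : Prop where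
  third : EvenAt v (d1 * d2)
  split : OneSq v (e1 - e3) → OneSq v (d1 * d2)
  nonsplit : ¬ OneSq v (e1 - e3) → EvenAt v (e1 - e2) → EvenAt v d1
  odd1 : ¬ EvenAt v (e1 - e2) → EvenAt v d1 → OneSq v (d1 * d2)
  odd2 : ¬ EvenAt v d1 → OneSq v (d1 * d2 * (e1 - e3))

theorem mult_iff (hL : LocalData v w) (hv : FinRes v) (h2 : (2 : K) ≠ 0) {e1 e2 e3 d1 d2 : K}
    (h12 : e1 ≠ e2) (h13 : e1 ≠ e3) (h23 : e2 ≠ e3) (hd1 : d1 ≠ 0) (hd2 : d2 ≠ 0)
    (hlt : v (e1 - e2) < v (e1 - e3)) (hev : EvenAt v (e1 - e3)) :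
    HasPoint L e1 e2 e3 d1 d2 ↔ MultCond v e1 e2 e3 d1 d2 := by
  constructor
  · intro h
    exact ⟨nec_mult hL hd1 hd2 hlt hev h, fun hs => nec_split hL hd1 hd2 hlt hev hs h,
      fun hs hν => nec_nonsplit_even hL hd1 hd2 hlt hev hs hν h,
      fun hν he => nec_odd1 hL hd1 hd2 hlt hev h12 hν h he,
      fun he => nec_odd2 hL hd1 hd2 hlt hev h he⟩
  · rintro ⟨c3, ca, cb, cc, cd⟩
    have he12 : e1 - e2 ≠ 0 := sub_ne_zero.mpr h12
    have he13 : e1 - e3 ≠ 0 := sub_ne_zero.mpr h13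
    have hd12 : d1 * d2 ≠ 0 := mul_ne_zero hd1 hd2
    -- multiplication by the class of the first torsion point
    have viaT : HasPoint L e1 e2 e3 (d1 * ((e1 - e2) * (e1 - e3))) (d2 * (e1 - e2)) →
        HasPoint L e1 e2 e3 d1 d2 := by
      intro h
      have h' := hasPoint_mul L h2 h12 h13 h23
        (mul_ne_zero hd1 (mul_ne_zero he12 he13)) (mul_ne_zero hd2 he12)
        (mul_ne_zero he12 he13) he12 h (hasPoint_torsion1 L h12)
      refine hasPoint_congr L ?_ ?_ hd1 hd2 ?_ ?_ h'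
      · exact mul_ne_zero (mul_ne_zero hd1 (mul_ne_zero he12 he13)) (mul_ne_zero he12 he13)
      · exact mul_ne_zero (mul_ne_zero hd2 he12) he12
      · refine ⟨algebraMap K L (d1 * ((e1 - e2) * (e1 - e3))), ?_⟩
        rw [← map_mul]; congr 1; ring
      · refine ⟨algebraMap K L (d2 * (e1 - e2)), ?_⟩
        rw [← map_mul]; congr 1; ring
    -- the pair (c, c') with c c' a square up to 1-units
    have viaU : ∀ {a b : K}, a ≠ 0 → b ≠ 0 → HasPoint L e1 e2 e3 a a → OneSq v (a * b) →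
        HasPoint L e1 e2 e3 a b := by
      intro a b ha hb h hab
      refine hasPoint_congr L ha ha ha hb ⟨algebraMap K L a, by rw [← map_mul]⟩ ?_ h
      exact (isSquare_iff_oneSq hL (mul_ne_zero ha hb)).mpr hab
    have hc0 : d1 * ((e1 - e2) * (e1 - e3)) ≠ 0 := mul_ne_zero hd1 (mul_ne_zero he12 he13)
    have hc0' : d2 * (e1 - e2) ≠ 0 := mul_ne_zero hd2 he12
    have hcc : d1 * ((e1 - e2) * (e1 - e3)) * (d2 * (e1 - e2)) =
        d1 * d2 * (e1 - e3) * (e1 - e2) ^ 2 := by ring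
    by_cases h1 : EvenAt v d1
    · by_cases h3 : OneSq v (d1 * d2)
      · exact viaU hd1 hd2 (hasPoint_unit_mult hL hv hlt hev h1) h3
      · have hns : ¬ OneSq v (e1 - e3) := fun hs => h3 (ca hs)
        have hν : EvenAt v (e1 - e2) := by
          by_contra hν
          exact h3 (cc hν h1)
        have h4 : OneSq v (d1 * d2 * (e1 - e3)) := by
          rcases oneSq_or hv c3 hev with h | h | h
          · exact absurd h h3
          · exact absurd h hns
          · exact h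
        apply viaT
        apply viaU hc0 hc0'
        · exact hasPoint_unit_mult hL hv hlt hev (evenAt_mul h1 (evenAt_mul hν hev))
        · rw [hcc]
          exact (oneSq_mul_sq he12).mpr h4
    · have h4 := cd h1
      by_cases hν : EvenAt v (e1 - e2)
      · have hs : OneSq v (e1 - e3) := by
          by_contra hs
          exact h1 (cb hs hν)
        have h3 := ca hs
        exact viaU hd1 hd2 (hasPoint_unif_mult hL hv hlt hev hs hν hd1 h1) h3
      · apply viaT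
        apply viaU hc0 hc0'
        · apply hasPoint_unit_mult hL hv hlt hev
          have e : d1 * ((e1 - e2) * (e1 - e3)) = d1 * (e1 - e2) * (e1 - e3) := by ring
          rw [e]
          exact evenAt_mul (evenAt_of_odd_odd v hd1 he12 h1 hν) hev
        · rw [hcc]
          exact (oneSq_mul_sq he12).mpr h4

/-- The conditions at an additive place. -/
def AddCond (v : Valuation K ℤᵐ⁰) (e1 e2 e3 d1 d2 : K) : Prop :=
  (OneSq v d1 ∧ OneSq v d2) ∨
  (OneSq v (d1 * ((e1 - e2) * (e1 - e3))) ∧ OneSq v (d2 * (e1 - e2))) ∨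
  (OneSq v (d1 * (e2 - e1)) ∧ OneSq v (d2 * ((e2 - e1) * (e2 - e3)))) ∨
  (OneSq v (d1 * (e3 - e1)) ∧ OneSq v (d2 * (e3 - e2)))

theorem hasPoint_one (e1 e2 e3 : K) : HasPoint L e1 e2 e3 1 1 := by
  refine ⟨0, 1, 1, 1, ?_, ?_, ?_⟩
  · rintro ⟨-, h, -, -⟩
    exact one_ne_zero h
  · simp
  · simp

theorem evenAt_neg_sub {v : Valuation K ℤᵐ⁰} {a b : K} : EvenAt v (a - b) ↔ EvenAt v (b - a) := by
  unfold EvenAt
  rw [Valuation.map_sub_swap]

theorem add_iff (hL : LocalData v w) (h2 : (2 : K) ≠ 0) {e1 e2 e3 d1 d2 : K}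
    (h12 : e1 ≠ e2) (h13 : e1 ≠ e3) (h23 : e2 ≠ e3) (hd1 : d1 ≠ 0) (hd2 : d2 ≠ 0)
    (heq : v (e1 - e3) = v (e2 - e3)) (hodd : ¬ EvenAt v (e1 - e3)) :
    HasPoint L e1 e2 e3 d1 d2 ↔ AddCond v e1 e2 e3 d1 d2 := by
  have he12 : e1 - e2 ≠ 0 := sub_ne_zero.mpr h12
  have he13 : e1 - e3 ≠ 0 := sub_ne_zero.mpr h13
  have he23 : e2 - e3 ≠ 0 := sub_ne_zero.mpr h23
  have he21 : e2 - e1 ≠ 0 := sub_ne_zero.mpr h12.symm
  have he31 : e3 - e1 ≠ 0 := sub_ne_zero.mpr h13.symm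
  have he32 : e3 - e2 ≠ 0 := sub_ne_zero.mpr h23.symm
  have hodd' : ¬ EvenAt v (e2 - e3) := by
    unfold EvenAt at hodd ⊢
    rwa [← heq]
  have via : ∀ {t1 t2 : K}, t1 ≠ 0 → t2 ≠ 0 → HasPoint L e1 e2 e3 t1 t2 →
      OneSq v (d1 * t1) → OneSq v (d2 * t2) → HasPoint L e1 e2 e3 d1 d2 := by
    intro t1 t2 ht1 ht2 h o1 o2
    refine hasPoint_congr L ht1 ht2 hd1 hd2 ?_ ?_ h
    · rw [mul_comm]
      exact (isSquare_iff_oneSq hL (mul_ne_zero hd1 ht1)).mpr o1
    · rw [mul_comm]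
      exact (isSquare_iff_oneSq hL (mul_ne_zero hd2 ht2)).mpr o2
  have nec : HasPoint L e1 e2 e3 d1 d2 → ∀ {t1 t2 : K}, t1 ≠ 0 → t2 ≠ 0 →
      HasPoint L e1 e2 e3 t1 t2 → EvenAt v (d1 * t1) → EvenAt v (d2 * t2) →
      OneSq v (d1 * t1) ∧ OneSq v (d2 * t2) := by
    intro hd t1 t2 ht1 ht2 h o1 o2
    exact nec_add hL (mul_ne_zero hd1 ht1) (mul_ne_zero hd2 ht2) heq hodd h13
      (hasPoint_mul L h2 h12 h13 h23 hd1 hd2 ht1 ht2 hd h) o1 o2
  constructor
  · intro h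
    by_cases p1 : EvenAt v d1 <;> by_cases p2 : EvenAt v d2
    · exact Or.inl (nec_add hL hd1 hd2 heq hodd h13 h p1 p2)
    · -- d1 even, d2 odd
      by_cases hν : EvenAt v (e1 - e2)
      · refine Or.inr (Or.inr (Or.inl (nec h he21 (mul_ne_zero he21 he23)
          (hasPoint_torsion2 L h12) (evenAt_mul p1 (evenAt_neg_sub.mp hν)) ?_)))
        have e : d2 * ((e2 - e1) * (e2 - e3)) = (e2 - e1) * (d2 * (e2 - e3)) := by ring
        rw [e]
        exact evenAt_mul (evenAt_neg_sub.mp hν) (evenAt_of_odd_odd v hd2 he23 p2 hodd')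
      · refine Or.inr (Or.inl (nec h (mul_ne_zero he12 he13) he12
          (hasPoint_torsion1 L h12) ?_ (evenAt_of_odd_odd v hd2 he12 p2 hν)))
        exact evenAt_mul p1 (evenAt_of_odd_odd v he12 he13 hν hodd)
    · -- d1 odd, d2 even
      by_cases hν : EvenAt v (e1 - e2)
      · refine Or.inr (Or.inl (nec h (mul_ne_zero he12 he13) he12
          (hasPoint_torsion1 L h12) ?_ (evenAt_mul p2 hν)))
        have e : d1 * ((e1 - e2) * (e1 - e3)) = (e1 - e2) * (d1 * (e1 - e3)) := by ring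
        rw [e]
        exact evenAt_mul hν (evenAt_of_odd_odd v hd1 he13 p1 hodd)
      · have hν' : ¬ EvenAt v (e2 - e1) := fun hh => hν (evenAt_neg_sub.mp hh)
        refine Or.inr (Or.inr (Or.inl (nec h he21 (mul_ne_zero he21 he23)
          (hasPoint_torsion2 L h12) (evenAt_of_odd_odd v hd1 he21 p1 hν') ?_)))
        exact evenAt_mul p2 (evenAt_of_odd_odd v he21 he23 hν' hodd')
    · refine Or.inr (Or.inr (Or.inr (nec h he31 he32 (hasPoint_torsion3 L) ?_ ?_)))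
      · exact evenAt_of_odd_odd v hd1 he31 p1 (fun hh => hodd (evenAt_neg_sub.mp hh))
      · exact evenAt_of_odd_odd v hd2 he32 p2 (fun hh => hodd' (evenAt_neg_sub.mp hh))
  · rintro (⟨o1, o2⟩ | ⟨o1, o2⟩ | ⟨o1, o2⟩ | ⟨o1, o2⟩)
    · exact via one_ne_zero one_ne_zero (hasPoint_one e1 e2 e3) (by rwa [mul_one])
        (by rwa [mul_one])
    · exact via (mul_ne_zero he12 he13) he12 (hasPoint_torsion1 L h12) o1 o2
    · exact via he21 (mul_ne_zero he21 he23) (hasPoint_torsion2 L h12) o1 o2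
    · exact via he31 he32 (hasPoint_torsion3 L) o1 o2

theorem good_iff (hL : LocalData v w) (hv : FinRes v) {e1 e2 e3 d1 d2 : K} (hd1 : d1 ≠ 0)
    (hd2 : d2 ≠ 0) (hg : GoodAt v e1 e2 e3) :
    HasPoint L e1 e2 e3 d1 d2 ↔ EvenAt v d1 ∧ EvenAt v d2 :=
  ⟨fun h => nec_good hL hd1 hd2 hg h, fun h => hasPoint_of_good hL hv hg h.1 h.2⟩

end one

section two

variable {K K' L L' : Type*} [Field K] [Field K'] [Field L] [Field L'] [Algebra K L]
  [Algebra K' L'] {v : Valuation K ℤᵐ⁰} {w : Valuation L ℤᵐ⁰} {v' : Valuation K' ℤᵐ⁰}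
  {w' : Valuation L' ℤᵐ⁰}

/-- `v'` lies over `v` with odd ramification index and odd residue degree. -/
structure OddOver (φ : K →+* K') (v : Valuation K ℤᵐ⁰) (v' : Valuation K' ℤᵐ⁰) (n : ℕ) :
    Prop where
  odd : Odd n
  val : ∀ x : K, v' (φ x) = v x ^ n
  sq : ∀ x : K, x ≠ 0 → EvenAt v x → OneSq v' (φ x) → OneSq v x

variable {φ : K →+* K'} {n : ℕ}

theorem OddOver.even_iff (h : OddOver φ v v' n) {x : K} (hx : x ≠ 0) :
    EvenAt v' (φ x) ↔ EvenAt v x := by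
  have hvx : v x = exp (log (v x)) := (exp_log ((Valuation.ne_zero_iff v).mpr hx)).symm
  have hvx' : v' (φ x) = exp ((n : ℤ) * log (v x)) := by
    rw [h.val, hvx, log_exp, ← exp_nsmul, nsmul_eq_mul]
  rw [evenAt_iff_exp v hvx, evenAt_iff_exp v' hvx', Int.even_mul]
  have : ¬ Even (n : ℤ) := by
    rw [Int.not_even_iff_odd]
    exact_mod_cast h.odd
  tauto

theorem OddOver.oneSq_iff (h : OddOver φ v v' n) {x : K} (hx : x ≠ 0) :
    OneSq v' (φ x) ↔ OneSq v x := by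
  constructor
  · intro h1
    exact h.sq x hx ((h.even_iff hx).mp (evenAt_of_oneSq' h1)) h1
  · rintro ⟨s, hs⟩
    refine ⟨φ s, ?_⟩
    rw [← map_pow, ← map_mul, ← map_one φ, ← map_sub, h.val]
    exact pow_lt_one₀ zero_le hs (by rintro rfl; exact absurd h.odd (by decide))

theorem OddOver.val_lt (h : OddOver φ v v' n) {x y : K} : v' (φ x) < v' (φ y) ↔ v x < v y := by
  have hn : n ≠ 0 := by rintro rfl; exact absurd h.odd (by decide)
  rw [h.val, h.val]
  exact pow_lt_pow_iff_left₀ zero_le zero_le hn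

theorem OddOver.val_eq (h : OddOver φ v v' n) {x y : K} : v' (φ x) = v' (φ y) ↔ v x = v y := by
  have hn : n ≠ 0 := by rintro rfl; exact absurd h.odd (by decide)
  rw [h.val, h.val]
  exact pow_left_inj₀ zero_le zero_le hn

/-- Comparison when `e1`, `e2` are the closest pair. -/
theorem compare12 (hφ : OddOver φ v v' n) (hL : LocalData v w) (hL' : LocalData v' w')
    (hv : FinRes v) (hv' : FinRes v') (h2 : (2 : K) ≠ 0) (h2' : (2 : K') ≠ 0)
    {e1 e2 e3 d1 d2 : K}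
    (h12 : e1 ≠ e2) (h13 : e1 ≠ e3) (h23 : e2 ≠ e3) (hd1 : d1 ≠ 0) (hd2 : d2 ≠ 0)
    (hle : v (e1 - e2) ≤ v (e1 - e3)) (heq : v (e1 - e3) = v (e2 - e3)) :
    HasPoint L e1 e2 e3 d1 d2 ↔ HasPoint L' (φ e1) (φ e2) (φ e3) (φ d1) (φ d2) := by
  have inj := φ.injective
  have he12 : e1 - e2 ≠ 0 := sub_ne_zero.mpr h12
  have he13 : e1 - e3 ≠ 0 := sub_ne_zero.mpr h13
  have he23 : e2 - e3 ≠ 0 := sub_ne_zero.mpr h23
  have he21 : e2 - e1 ≠ 0 := sub_ne_zero.mpr h12.symm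
  have he31 : e3 - e1 ≠ 0 := sub_ne_zero.mpr h13.symm
  have he32 : e3 - e2 ≠ 0 := sub_ne_zero.mpr h23.symm
  have hφd1 : φ d1 ≠ 0 := (map_ne_zero φ).mpr hd1
  have hφd2 : φ d2 ≠ 0 := (map_ne_zero φ).mpr hd2
  by_cases hev : EvenAt v (e1 - e3)
  · rcases lt_or_eq_of_le hle with hlt | he
    · rw [mult_iff hL hv h2 h12 h13 h23 hd1 hd2 hlt hev,
        mult_iff hL' hv' h2' (inj.ne h12) (inj.ne h13) (inj.ne h23) hφd1 hφd2
          (by rw [← map_sub, ← map_sub]; exact hφ.val_lt.mpr hlt)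
          (by rw [← map_sub]; exact (hφ.even_iff he13).mpr hev)]
      have i1 := hφ.even_iff (mul_ne_zero hd1 hd2)
      have i2 := hφ.oneSq_iff (mul_ne_zero hd1 hd2)
      have i3 := hφ.oneSq_iff he13
      have i4 := hφ.even_iff he12
      have i5 := hφ.even_iff hd1
      have i6 := hφ.oneSq_iff (mul_ne_zero (mul_ne_zero hd1 hd2) he13)
      simp only [map_mul, map_sub] at i1 i2 i3 i4 i5 i6
      constructor
      · rintro ⟨c3, ca, cb, cc, cd⟩
        exact ⟨i1.mpr c3, fun h => i2.mpr (ca (i3.mp h)),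
          fun h h' => i5.mpr (cb (fun hh => h (i3.mpr hh)) (i4.mp h')),
          fun h h' => i2.mpr (cc (fun hh => h (i4.mpr hh)) (i5.mp h')),
          fun h => i6.mpr (cd (fun hh => h (i5.mpr hh)))⟩
      · rintro ⟨c3, ca, cb, cc, cd⟩
        exact ⟨i1.mp c3, fun h => i2.mp (ca (i3.mpr h)),
          fun h h' => i5.mp (cb (fun hh => h (i3.mp hh)) (i4.mpr h')),
          fun h h' => i2.mp (cc (fun hh => h (i4.mp hh)) (i5.mpr h')),
          fun h => i6.mp (cd (fun hh => h (i5.mp hh)))⟩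
    · obtain ⟨γ, hγ, hev⟩ := hev
      have hg : GoodAt v e1 e2 e3 := ⟨γ, hγ, by rw [he, hev], hev, by rw [← heq, hev]⟩
      have hg' : GoodAt v' (φ e1) (φ e2) (φ e3) :=
        ⟨γ ^ n, pow_ne_zero n hγ, by rw [← map_sub, hφ.val, he, hev, pow_right_comm],
          by rw [← map_sub, hφ.val, hev, pow_right_comm],
          by rw [← map_sub, hφ.val, ← heq, hev, pow_right_comm]⟩
      rw [good_iff hL hv hd1 hd2 hg, good_iff hL' hv' hφd1 hφd2 hg', hφ.even_iff hd1,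
        hφ.even_iff hd2]
  · rw [add_iff hL h2 h12 h13 h23 hd1 hd2 heq hev,
      add_iff hL' h2' (inj.ne h12) (inj.ne h13) (inj.ne h23) hφd1 hφd2
        (by rw [← map_sub, ← map_sub]; exact hφ.val_eq.mpr heq)
        (by rw [← map_sub, hφ.even_iff he13]; exact hev)]
    unfold AddCond
    have i1 := hφ.oneSq_iff hd1
    have i2 := hφ.oneSq_iff hd2
    have i3 := hφ.oneSq_iff (mul_ne_zero hd1 (mul_ne_zero he12 he13))
    have i4 := hφ.oneSq_iff (mul_ne_zero hd2 he12)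
    have i5 := hφ.oneSq_iff (mul_ne_zero hd1 he21)
    have i6 := hφ.oneSq_iff (mul_ne_zero hd2 (mul_ne_zero he21 he23))
    have i7 := hφ.oneSq_iff (mul_ne_zero hd1 he31)
    have i8 := hφ.oneSq_iff (mul_ne_zero hd2 he32)
    simp only [map_mul, map_sub] at i1 i2 i3 i4 i5 i6 i7 i8
    rw [i1, i2, i3, i4, i5, i6, i7, i8]

/-- Local comparison. -/
theorem compare (hφ : OddOver φ v v' n) (hL : LocalData v w) (hL' : LocalData v' w')
    (hv : FinRes v) (hv' : FinRes v') (h2 : (2 : K) ≠ 0) (h2' : (2 : K') ≠ 0)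
    {e1 e2 e3 d1 d2 : K}
    (h12 : e1 ≠ e2) (h13 : e1 ≠ e3) (h23 : e2 ≠ e3) (hd1 : d1 ≠ 0) (hd2 : d2 ≠ 0) :
    HasPoint L e1 e2 e3 d1 d2 ↔ HasPoint L' (φ e1) (φ e2) (φ e3) (φ d1) (φ d2) := by
  have hφd1 : φ d1 ≠ 0 := (map_ne_zero φ).mpr hd1
  have hφd2 : φ d2 ≠ 0 := (map_ne_zero φ).mpr hd2
  have hd12 : d1 * d2 ≠ 0 := mul_ne_zero hd1 hd2
  -- ultrametric trichotomy
  have tri : (v (e1 - e2) ≤ v (e1 - e3) ∧ v (e1 - e3) = v (e2 - e3)) ∨
      (v (e1 - e3) ≤ v (e1 - e2) ∧ v (e1 - e2) = v (e3 - e2)) ∨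
      (v (e2 - e3) ≤ v (e2 - e1) ∧ v (e2 - e1) = v (e3 - e1)) := by
    rcases lt_trichotomy (v (e1 - e3)) (v (e2 - e3)) with hlt | heq | hgt
    · -- v (e1 - e2) = v (e2 - e3)
      right; left
      have : v (e1 - e2) = v (e3 - e2) := by
        apply Valuation.map_eq_of_sub_lt v
        rw [Valuation.map_sub_swap v e3 e2]
        convert hlt using 2
        ring
      refine ⟨?_, this⟩
      rw [this, Valuation.map_sub_swap v e3 e2]
      exact hlt.le
    · left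
      refine ⟨?_, heq⟩
      have e : e1 - e2 = (e1 - e3) - (e2 - e3) := by ring
      rw [e]
      exact (Valuation.map_sub v _ _).trans (max_le le_rfl heq.ge)
    · right; right
      have : v (e2 - e1) = v (e3 - e1) := by
        apply Valuation.map_eq_of_sub_lt v
        rw [Valuation.map_sub_swap v e3 e1]
        convert hgt using 2
        ring
      refine ⟨?_, this⟩
      rw [this, Valuation.map_sub_swap v e3 e1]
      exact hgt.le
  rcases tri with ⟨a, b⟩ | ⟨a, b⟩ | ⟨a, b⟩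
  · exact compare12 hφ hL hL' hv hv' h2 h2' h12 h13 h23 hd1 hd2 a b
  · rw [hasPoint_swap23 L hd1 hd2, hasPoint_swap23 L' hφd1 hφd2, ← map_mul]
    exact compare12 hφ hL hL' hv hv' h2 h2' h13 h12 h23.symm hd1 hd12 a b
  · rw [hasPoint_swap12 L, hasPoint_swap12 L', hasPoint_swap23 L hd2 hd1,
      hasPoint_swap23 L' hφd2 hφd1, ← map_mul]
    exact compare12 hφ hL hL' hv hv' h2 h2' h23 h12.symm h13.symm hd2 (mul_ne_zero hd2 hd1) a b

end two

end Pool.Agent.Helper72.TD
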