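import Pool.Agent.Helper72.TD.Defs

/-!
Definitions for the inert base change theorem.
-/

namespace Pool.Agent.Helper72.TD

open IsDedekindDomain Polynomial WithZero

/-- `(L, w)` behaves like the completion of `(K, v)`. -/
structure LocalData {K L : Type*} [Field K] [Field L] [Algebra K L] (v : Valuation K ℤᵐ⁰)
    (w : Valuation L ℤᵐ⁰) : Prop where
  ext : ∀ a : K, w (algebraMap K L a) = v a
  dense : ∀ x : L, x ≠ 0 → ∃ a : K, w (x - algebraMap K L a) < w x
  hensel : ∀ x : L, w (x - 1) < 1 → IsSquare x

/-- A discrete valuation with finite residue field of odd characteristic. -/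
structure FinRes {K : Type*} [Field K] (v : Valuation K ℤᵐ⁰) : Prop where
  unif : ∃ ϖ : K, v ϖ = exp (-1 : ℤ)
  two : v 2 = 1
  fin : Finite (IsLocalRing.ResidueField v.valuationSubring)

/-- The curve `y² = (x - e1) (x - e2) (x - e3)` has good reduction at `v`: the three differences
have the same value, which is an even element of the value group. -/
def GoodAt {K : Type*} [Field K] (v : Valuation K ℤᵐ⁰) (e1 e2 e3 : K) : Prop :=
  ∃ γ : ℤᵐ⁰, γ ≠ 0 ∧ v (e1 - e2) = γ ^ 2 ∧ v (e1 - e3) = γ ^ 2 ∧ v (e2 - e3) = γ ^ 2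

theorem comp_injective {k : Type*} [Field k] {g : k[X]} (hg : g.natDegree ≠ 0) :
    Function.Injective (Polynomial.compRingHom g) := by
  rw [injective_iff_map_eq_zero]
  intro a ha
  have h : a.comp g = 0 := ha
  rcases Polynomial.comp_eq_zero_iff.mp h with h | ⟨-, h⟩
  · exact h
  · exact absurd (by rw [h, natDegree_C]) hg

/-- The substitution `t ↦ g(t)` on `k(t)`, for a nonconstant polynomial `g`. -/
noncomputable def cmp {k : Type*} [Field k] (g : k[X]) (hg : g.natDegree ≠ 0) :
    RatFunc k →+* RatFunc k :=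
  IsFractionRing.map (K := RatFunc k) (L := RatFunc k) (comp_injective hg)

theorem cmp_algebraMap {k : Type*} [Field k] (g : k[X]) (hg : g.natDegree ≠ 0) (f : k[X]) :
    cmp g hg (algebraMap k[X] (RatFunc k) f) = algebraMap k[X] (RatFunc k) (f.comp g) := by
  unfold cmp
  rw [IsFractionRing.map, IsLocalization.map_eq]
  rfl

end Pool.Agent.Helper72.TD
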