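import Pool.Agent.Helper72.TD.IBDefs

/-!
IB-8: the residue fields of the places of `k(t)`, `k` finite, are finite.
-/

namespace Pool.Agent.Helper72.TD

open IsDedekindDomain Polynomial WithZero

variable {k : Type*} [Field k]

/-- criterion: finitely many representatives of the classes -/
private theorem fin_of_reps {K : Type*} [Field K] (v : Valuation K ℤᵐ⁰) {ι : Type*} [Finite ι]
    (s : ι → K) (hs : ∀ i, v (s i) ≤ 1) (h : ∀ x, v x ≤ 1 → ∃ i, v (x - s i) < 1) :
    Finite (IsLocalRing.ResidueField v.valuationSubring) := by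
  let f : ι → IsLocalRing.ResidueField v.valuationSubring := fun i =>
    IsLocalRing.residue v.valuationSubring ⟨s i, hs i⟩
  refine Finite.of_surjective f fun y => ?_
  obtain ⟨x, rfl⟩ := IsLocalRing.residue_surjective y
  obtain ⟨i, hi⟩ := h x.1 x.2
  refine ⟨i, ?_⟩
  rw [eq_comm, ← sub_eq_zero]
  change IsLocalRing.residue v.valuationSubring x - IsLocalRing.residue _ ⟨s i, hs i⟩ = 0
  rw [← map_sub, IsLocalRing.residue_eq_zero_iff, ValuationSubring.valuation_lt_one_iff]
  exact (Valuation.isEquiv_iff_val_lt_one.mp
    (Valuation.isEquiv_valuation_valuationSubring v)).mp hi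

theorem finRes_finite [Finite k] (h2 : (2 : k) ≠ 0) (v : HeightOneSpectrum k[X]) :
    FinRes (v.valuation (RatFunc k)) := by
  refine ⟨v.valuation_exists_uniformizer (RatFunc k), ?_, ?_⟩
  · have h1 : (2 : RatFunc k) = algebraMap k[X] (RatFunc k) 2 := (map_ofNat _ 2).symm
    rw [h1, HeightOneSpectrum.valuation_eq_one_iff_notMem]
    intro hmem
    apply v.isPrime.ne_top
    rw [Ideal.eq_top_iff_one]
    have h3 : (1 : k[X]) = C (2⁻¹ : k) * 2 := by
      have : (2 : k[X]) = C (2 : k) := (map_ofNat C 2).symm
      rw [this, ← C_mul, inv_mul_cancel₀ h2, C_1]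
    rw [h3]
    exact v.asIdeal.mul_mem_left _ hmem
  · -- the quotient is finite
    have hfin : Finite (k[X] ⧸ v.asIdeal) := by
      obtain ⟨g, hg⟩ := (IsPrincipalIdealRing.principal v.asIdeal).principal
      have hg0 : g ≠ 0 := by
        rintro rfl
        apply v.ne_bot
        rw [hg]
        simp
      have h4 : Module.Finite k (k[X] ⧸ Ideal.span {g}) :=
        Module.Finite.of_basis (AdjoinRoot.powerBasis hg0).basis
      have h5 : Finite (k[X] ⧸ Ideal.span {g}) := Module.finite_of_finite k
      rw [hg]
      exact h5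
    let rep : (k[X] ⧸ v.asIdeal) → RatFunc k := fun q => algebraMap k[X] (RatFunc k)
      (Quotient.out q)
    refine fin_of_reps _ rep (fun q => v.valuation_le_one _) fun x hx => ?_
    have hd0 : x.denom ≠ 0 := x.denom_ne_zero
    have hxe : algebraMap k[X] (RatFunc k) x.num / algebraMap k[X] (RatFunc k) x.denom = x :=
      x.num_div_denom
    have hcop : x.denom ∈ v.asIdeal → x.num ∉ v.asIdeal := by
      intro h5 h6
      obtain ⟨a, b, hab⟩ := x.isCoprime_num_denom
      apply v.isPrime.ne_top
      rw [Ideal.eq_top_iff_one, ← hab]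
      exact v.asIdeal.add_mem (v.asIdeal.mul_mem_left _ h6) (v.asIdeal.mul_mem_left _ h5)
    have hden : x.denom ∉ v.asIdeal := by
      have h6 := (HeightOneSpectrum.valuation_div_le_one_iff (RatFunc k) v x.num hd0 hcop).mp
      apply h6
      rw [hxe]
      exact hx
    -- inverse of the denominator
    obtain ⟨e, i, hi, hei⟩ : ∃ y, ∃ i ∈ v.asIdeal, y * x.denom + i = 1 :=
      (v.isPrime.isMaximal v.ne_bot).exists_inv hden
    have hvd : v.valuation (RatFunc k) (algebraMap k[X] (RatFunc k) x.denom) = 1 :=
      (HeightOneSpectrum.valuation_eq_one_iff_notMem v).mpr hden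
    have hdK : algebraMap k[X] (RatFunc k) x.denom ≠ 0 := by
      intro h0
      rw [h0, map_zero] at hvd
      exact zero_ne_one hvd
    refine ⟨Ideal.Quotient.mk _ (x.num * e), ?_⟩
    have h7 : v.valuation (RatFunc k) (x - algebraMap k[X] (RatFunc k) (x.num * e)) < 1 := by
      have h8 : x - algebraMap k[X] (RatFunc k) (x.num * e) =
          algebraMap k[X] (RatFunc k) x.num * algebraMap k[X] (RatFunc k) i /
            algebraMap k[X] (RatFunc k) x.denom := by
        have h9 : algebraMap k[X] (RatFunc k) i =
            1 - algebraMap k[X] (RatFunc k) e * algebraMap k[X] (RatFunc k) x.denom := by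
          rw [← map_mul, ← map_one (algebraMap k[X] (RatFunc k)), ← map_sub]
          congr 1
          linear_combination hei
        rw [h9, map_mul]
        nth_rewrite 1 [← hxe]
        field_simp
      rw [h8, map_div₀, hvd, div_one, map_mul]
      have h10 : v.valuation (RatFunc k) (algebraMap k[X] (RatFunc k) i) < 1 :=
        (HeightOneSpectrum.valuation_lt_one_iff_mem v i).mpr hi
      exact lt_of_le_of_lt (mul_le_of_le_one_left' (v.valuation_le_one _)) h10
    have h11 : v.valuation (RatFunc k) (algebraMap k[X] (RatFunc k) (x.num * e) -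
        rep (Ideal.Quotient.mk _ (x.num * e))) < 1 := by
      change v.valuation (RatFunc k) (algebraMap k[X] (RatFunc k) (x.num * e) -
        algebraMap k[X] (RatFunc k) (Quotient.out (Ideal.Quotient.mk _ (x.num * e)))) < 1
      rw [← map_sub]
      refine (HeightOneSpectrum.valuation_lt_one_iff_mem v _).mpr ?_
      rw [← Ideal.Quotient.eq]
      exact (Quotient.out_eq _).symm
    have h12 : x - rep (Ideal.Quotient.mk _ (x.num * e)) =
        (x - algebraMap k[X] (RatFunc k) (x.num * e)) +
          (algebraMap k[X] (RatFunc k) (x.num * e) - rep (Ideal.Quotient.mk _ (x.num * e))) := by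
      ring
    rw [h12]
    exact Valuation.map_add_lt _ h7 h11

theorem finRes_infty [Finite k] [DecidableEq (RatFunc k)] (h2 : (2 : k) ≠ 0) :
    FinRes (RatFunc.inftyValuation k) := by
  refine ⟨⟨1 / RatFunc.X, RatFunc.inftyValuation.X_inv k⟩, ?_, ?_⟩
  · have : (2 : RatFunc k) = RatFunc.C (2 : k) := (map_ofNat RatFunc.C 2).symm
    rw [this]
    exact RatFunc.inftyValuation.C k h2
  · refine fin_of_reps _ (fun c : k => RatFunc.C c) (fun c => ?_) fun x hx => ?_
    · by_cases hc : c = 0
      · rw [hc, map_zero, map_zero]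
        exact zero_le_one
      · rw [RatFunc.inftyValuation.C k hc]
    · by_cases hx0 : x = 0
      · refine ⟨0, ?_⟩
        rw [hx0, map_zero, sub_zero, map_zero]
        exact zero_lt_one
      have hd0 : x.denom ≠ 0 := x.denom_ne_zero
      have hn0 : x.num ≠ 0 := x.num_ne_zero hx0
      have hmon : x.denom.Monic := x.monic_denom
      have hxe : algebraMap k[X] (RatFunc k) x.num / algebraMap k[X] (RatFunc k) x.denom = x :=
        x.num_div_denom
      have hval : ∀ q : k[X], q ≠ 0 → RatFunc.inftyValuation k (algebraMap k[X] (RatFunc k) q) =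
          exp (q.natDegree : ℤ) := fun q hq => RatFunc.inftyValuation.polynomial k hq
      have hdK : algebraMap k[X] (RatFunc k) x.denom ≠ 0 := by simpa using hd0
      have hle : x.num.natDegree ≤ x.denom.natDegree := by
        rw [← hxe, map_div₀, hval _ hn0, hval _ hd0, ← exp_sub, ← exp_zero, exp_le_exp] at hx
        omega
      set N := x.denom.natDegree with hN
      refine ⟨x.num.coeff N, ?_⟩
      set P : k[X] := x.num - C (x.num.coeff N) * x.denom with hP
      have hPd : x - RatFunc.C (x.num.coeff N) =
          algebraMap k[X] (RatFunc k) P / algebraMap k[X] (RatFunc k) x.denom := by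
        rw [hP, map_sub, map_mul, RatFunc.algebraMap_C, sub_div, mul_div_assoc, div_self hdK,
          mul_one, hxe]
      rw [hPd]
      by_cases hP0 : P = 0
      · rw [hP0, map_zero, zero_div, map_zero]
        exact zero_lt_one
      · rw [map_div₀, hval _ hP0, hval _ hd0, ← exp_sub, ← exp_zero, exp_lt_exp]
        have hdeg : P.degree < (N : ℕ) := by
          rw [degree_lt_iff_coeff_zero]
          intro m hm
          rw [hP, coeff_sub, coeff_C_mul]
          rcases hm.eq_or_lt with h | h
          · rw [← h, hN, hmon.coeff_natDegree, mul_one, sub_self]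
          · rw [coeff_eq_zero_of_natDegree_lt (lt_of_le_of_lt hle h),
              coeff_eq_zero_of_natDegree_lt (p := x.denom) h, mul_zero, sub_zero]
        have := (natDegree_lt_iff_degree_lt hP0).mpr hdeg
        omega

end Pool.Agent.Helper72.TD
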