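import Pool.Agent.Helper72.TD.Defs

/-!
TD-4: completions of `k(t)`: the valuation extends and `k(t)` is dense; transfer of `OneSq`.
-/

namespace Pool.Agent.Helper72.TD

open IsDedekindDomain Polynomial WithZero

theorem oneSq_transfer {K L Γ : Type*} [Field K] [Field L] [Algebra K L]
    [LinearOrderedCommGroupWithZero Γ] (v : Valuation K Γ) (w : Valuation L Γ)
    (hvw : ∀ a : K, w (algebraMap K L a) = v a)
    (hd : ∀ x : L, x ≠ 0 → ∃ a : K, w (x - algebraMap K L a) < w x) {d : K}
    (h : OneSq w (algebraMap K L d)) : OneSq v d := by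
  obtain ⟨s, hs⟩ := h
  have hs0 : s ≠ 0 := by
    rintro rfl
    simp at hs
  obtain ⟨a, ha⟩ := hd s hs0
  refine ⟨a, ?_⟩
  have h1 : w (algebraMap K L d * s ^ 2) = 1 := by
    have h2 : w (algebraMap K L d * s ^ 2 - 1) < w 1 := by rwa [map_one]
    have h3 := Valuation.map_eq_of_sub_lt w h2
    rw [h3, map_one]
  have ha2 : w (algebraMap K L a) ≤ w s := by
    have e : algebraMap K L a = s - (s - algebraMap K L a) := by ring
    rw [e]
    exact (w.map_sub _ _).trans (max_le le_rfl ha.le)
  have hsum : w (s + algebraMap K L a) ≤ w s :=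
    (w.map_add _ _).trans (max_le le_rfl ha2)
  have hws : 0 < w s := by
    rw [zero_lt_iff]; exact (Valuation.ne_zero_iff w).2 hs0
  have hwd : 0 < w (algebraMap K L d) := by
    rw [zero_lt_iff]
    intro h0
    rw [map_mul, h0, zero_mul] at h1
    exact zero_ne_one h1
  have h4 : w (algebraMap K L d * ((s - algebraMap K L a) * (s + algebraMap K L a))) < 1 := by
    rw [← h1, map_mul, map_mul, map_mul, map_pow, pow_two]
    apply mul_lt_mul_of_pos_left _ hwd
    calc w (s - algebraMap K L a) * w (s + algebraMap K L a)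
        ≤ w (s - algebraMap K L a) * w s := by gcongr
      _ < w s * w s := mul_lt_mul_of_pos_right ha hws
  rw [← hvw]
  have e : algebraMap K L (d * a ^ 2 - 1) = (algebraMap K L d * s ^ 2 - 1) -
      algebraMap K L d * ((s - algebraMap K L a) * (s + algebraMap K L a)) := by
    rw [map_sub, map_mul, map_pow, map_one]; ring
  rw [e]
  exact lt_of_le_of_lt (w.map_sub _ _) (max_lt hs h4)

private theorem dense_approx {L Γ K : Type*} [Field L] [LinearOrderedCommGroupWithZero Γ]
    [Valued L Γ] (f : K → L) (hf : DenseRange f) (x : L) (hx : x ≠ 0) :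
    ∃ a : K, Valued.v (x - f a) < (Valued.v x : Γ) := by
  have h : {y : L | (Valued.v (x - y) : Γ) < Valued.v x} ∈ nhds x := by
    rw [Valued.mem_nhds]
    have h' : (Valued.v (R := L) (Γ₀ := Γ)).restrict x ≠ 0 := by simp [hx]
    refine ⟨Units.mk0 _ h', ?_⟩
    rw [Units.val_mk0]
    intro y hy
    have h3 := ((Valued.v (R := L) (Γ₀ := Γ)).restrict_lt_iff).mp hy
    show (Valued.v (x - y) : Γ) < Valued.v x
    rwa [Valuation.map_sub_swap] at h3
  obtain ⟨y, hy, ⟨a, rfl⟩⟩ := mem_closure_iff_nhds.1 (hf x) _ h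
  exact ⟨a, hy⟩

theorem finite_place {k : Type*} [Field k] (v : HeightOneSpectrum k[X]) :
    ∃ w : Valuation (v.adicCompletion (RatFunc k)) ℤᵐ⁰,
      (∀ a : RatFunc k, w (algebraMap (RatFunc k) (v.adicCompletion (RatFunc k)) a) =
        v.valuation (RatFunc k) a) ∧
      ∀ x : v.adicCompletion (RatFunc k), x ≠ 0 →
        ∃ a : RatFunc k, w (x - algebraMap (RatFunc k) (v.adicCompletion (RatFunc k)) a) < w x := by
  refine ⟨Valued.v, fun a => ?_, fun x hx => ?_⟩
  · exact HeightOneSpectrum.valuedAdicCompletion_eq_valuation' v a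
  · exact dense_approx _ (HeightOneSpectrum.denseRange_algebraMap (K := RatFunc k) v) x hx

theorem infinite_place {k : Type*} [Field k] [DecidableEq (RatFunc k)] :
    ∃ w : Valuation (RatFunc.CompletionAtInfty k) ℤᵐ⁰,
      (∀ a : RatFunc k, w (algebraMap (RatFunc k) (RatFunc.CompletionAtInfty k) a) =
        RatFunc.inftyValuation k a) ∧
      ∀ x : RatFunc.CompletionAtInfty k, x ≠ 0 →
        ∃ a : RatFunc k, w (x - algebraMap (RatFunc k) (RatFunc.CompletionAtInfty k) a) < w x := by
  refine ⟨Valued.v, fun a => ?_, fun x hx => ?_⟩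
  · rw [RatFunc.valuedCompletionAtInfty.def]
    let := RatFunc.inftyValued k
    exact Valued.extensionValuation_apply_coe (K := RatFunc k) a
  · refine dense_approx _ ?_ x hx
    let := RatFunc.inftyValued k
    exact UniformSpace.Completion.denseRange_coe (α := RatFunc k)

end Pool.Agent.Helper72.TD
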