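import Pool.Agent.Helper72.TD.IBDefs
import Pool.Agent.Helper72.TD.Transfer

/-!
IB-7: the completions of `k(t)` satisfy `LocalData`; the residue fields are finite.
-/

namespace Pool.Agent.Helper72.TD

open IsDedekindDomain Polynomial WithZero

/-- In a complete discretely valued field with `2` a unit, `1`-units are squares. -/
theorem isSquare_of_near_one {L : Type*} [Field L] [Valued L ℤᵐ⁰] [CompleteSpace L]
    (h2 : Valued.v (2 : L) = (1 : ℤᵐ⁰)) (x : L) (hx : Valued.v (x - 1) < (1 : ℤᵐ⁰)) :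
    IsSquare x := by
  have h20 : (2 : L) ≠ 0 := by
    intro h
    rw [h, map_zero] at h2
    exact zero_ne_one h2
  obtain ⟨δ, hδ⟩ : ∃ δ : ℤᵐ⁰, δ = Valued.v (x - 1) := ⟨_, rfl⟩
  rw [← hδ] at hx
  obtain ⟨y, y0, ys⟩ : ∃ y : ℕ → L, y 0 = 1 ∧ ∀ n, y (n + 1) = (y n + x / y n) / 2 :=
    ⟨fun n => Nat.rec 1 (fun _ yn => (yn + x / yn) / 2) n, rfl, fun n => rfl⟩
  have inv : ∀ n, Valued.v (y n) = (1 : ℤᵐ⁰) ∧ Valued.v (y n ^ 2 - x) ≤ δ ^ (n + 1) ∧
      Valued.v (y (n + 1) - y n) ≤ δ ^ (n + 1) := by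
    have step : ∀ n, Valued.v (y n) = (1 : ℤᵐ⁰) → Valued.v (y n ^ 2 - x) ≤ δ ^ (n + 1) →
        Valued.v (y (n + 1) - y n) ≤ δ ^ (n + 1) := by
      intro n h1 h3
      have hyn : y n ≠ 0 := by
        intro h
        rw [h, map_zero] at h1
        exact zero_ne_one h1
      have e : y (n + 1) - y n = (x - y n ^ 2) / (2 * y n) := by
        rw [ys]; field_simp; ring
      rw [e, map_div₀, map_mul, h2, h1, one_mul, div_one, Valuation.map_sub_swap]
      exact h3
    intro n
    induction n with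
    | zero =>
      have h1 : Valued.v (y 0) = (1 : ℤᵐ⁰) := by rw [y0, map_one]
      have h3 : Valued.v (y 0 ^ 2 - x) ≤ δ ^ (0 + 1) := by
        rw [y0, one_pow, Valuation.map_sub_swap, ← hδ, zero_add, pow_one]
      exact ⟨h1, h3, step 0 h1 h3⟩
    | succ n ih =>
      obtain ⟨h1, h3, h4⟩ := ih
      have hyn : y n ≠ 0 := by
        intro h
        rw [h, map_zero] at h1
        exact zero_ne_one h1
      have hlt : δ ^ (n + 1) < 1 := pow_lt_one₀ zero_le hx (Nat.succ_ne_zero n)
      have h5 : Valued.v (y (n + 1)) = (1 : ℤᵐ⁰) := by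
        have := Valuation.map_eq_of_sub_lt Valued.v (x := y n) (y := y (n + 1))
          (by rw [h1]; exact h4.trans_lt hlt)
        rw [this, h1]
      have h6 : Valued.v (y (n + 1) ^ 2 - x) ≤ δ ^ (n + 1 + 1) := by
        have e : y (n + 1) ^ 2 - x = ((y n ^ 2 - x) / (2 * y n)) ^ 2 := by
          rw [ys]; field_simp; ring
        rw [e, map_pow, map_div₀, map_mul, h2, h1, one_mul, div_one]
        calc Valued.v (y n ^ 2 - x) ^ 2 ≤ (δ ^ (n + 1)) ^ 2 := by gcongr
          _ = δ ^ (n + 1 + 1) * δ ^ n := by rw [← pow_mul, ← pow_add]; congr 1; ring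
          _ ≤ δ ^ (n + 1 + 1) := mul_le_of_le_one_right' (pow_le_one₀ zero_le hx.le)
      exact ⟨h5, h6, step (n + 1) h5 h6⟩
  have hdiff : ∀ N n, N ≤ n → Valued.v (y n - y N) ≤ δ ^ (N + 1) := by
    intro N n hn
    induction n, hn using Nat.le_induction with
    | base => rw [sub_self, map_zero]; exact zero_le
    | succ n hn ih =>
      have e : y (n + 1) - y N = (y (n + 1) - y n) + (y n - y N) := by ring
      rw [e]
      refine (Valuation.map_add _ _ _).trans (max_le ?_ ih)
      refine (inv n).2.2.trans ?_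
      exact pow_le_pow_right_of_le_one' hx.le (by omega)
  have hsmall : ∀ γ : ℤᵐ⁰, γ ≠ 0 → ∃ N : ℕ, δ ^ N < γ := by
    intro γ hγ
    obtain ⟨N, hN⟩ := exists_pow_lt₀ hx (Units.mk0 γ hγ)
    exact ⟨N, hN⟩
  have hc : CauchySeq y := by
    rw [(Valued.hasBasis_uniformity L ℤᵐ⁰).cauchySeq_iff']
    intro γ _
    obtain ⟨N, hN⟩ := hsmall (MonoidWithZeroHom.ValueGroup₀.embedding γ.1) (by
      rw [_root_.map_ne_zero]
      exact γ.ne_zero)
    refine ⟨N, fun n hn => ?_⟩
    show Valued.v.restrict (y N - y n) < γ.1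
    rw [Valuation.restrict_lt_iff_lt_embedding, Valuation.map_sub_swap]
    refine (hdiff N n hn).trans_lt (lt_of_le_of_lt ?_ hN)
    exact pow_le_pow_right_of_le_one' hx.le (by omega)
  obtain ⟨z, hz⟩ := cauchySeq_tendsto_of_complete hc
  have h3 : Filter.Tendsto (fun n => y n ^ 2 - x) Filter.atTop (nhds (z ^ 2 - x)) :=
    (hz.pow 2).sub tendsto_const_nhds
  have h4 : Filter.Tendsto (fun n => y n ^ 2 - x) Filter.atTop (nhds 0) := by
    rw [(Valued.hasBasis_nhds_zero L ℤᵐ⁰).tendsto_right_iff]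
    intro γ _
    obtain ⟨N, hN⟩ := hsmall (MonoidWithZeroHom.ValueGroup₀.embedding γ.1) (by
      rw [_root_.map_ne_zero]
      exact γ.ne_zero)
    filter_upwards [Filter.eventually_ge_atTop N] with n hn
    show Valued.v.restrict (y n ^ 2 - x) < γ.1
    rw [Valuation.restrict_lt_iff_lt_embedding]
    refine (inv n).2.1.trans_lt (lt_of_le_of_lt ?_ hN)
    exact pow_le_pow_right_of_le_one' hx.le (by omega)
  have h5 := tendsto_nhds_unique h3 h4
  exact ⟨z, by linear_combination -h5⟩

private theorem dense_approx' {L Γ K : Type*} [Field L] [LinearOrderedCommGroupWithZero Γ]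
    [Valued L Γ] (f : K → L) (hf : DenseRange f) (x : L) (hx : x ≠ 0) :
    ∃ a : K, Valued.v (x - f a) < (Valued.v x : Γ) := by
  have h : {y : L | (Valued.v (x - y) : Γ) < Valued.v x} ∈ nhds x := by
    rw [Valued.mem_nhds]
    have h' : (Valued.v (R := L) (Γ₀ := Γ)).restrict x ≠ 0 := by simp [hx]
    refine ⟨Units.mk0 _ h', ?_⟩
    rw [Units.val_mk0]
    intro y hy
    have h3 := ((Valued.v (R := L) (Γ₀ := Γ)).restrict_lt_iff).mp hy
    show (Valued.v (x - y) : Γ) < Valued.v x
    rwa [Valuation.map_sub_swap] at h3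
  obtain ⟨y, hy, ⟨a, rfl⟩⟩ := mem_closure_iff_nhds.1 (hf x) _ h
  exact ⟨a, hy⟩

variable {k : Type*} [Field k]

theorem localData_finite (h2 : (2 : k) ≠ 0) (v : HeightOneSpectrum k[X]) :
    ∃ w : Valuation (v.adicCompletion (RatFunc k)) ℤᵐ⁰,
      LocalData (v.valuation (RatFunc k)) w := by
  have hext : ∀ a : RatFunc k, (Valued.v (algebraMap (RatFunc k)
      (v.adicCompletion (RatFunc k)) a) : ℤᵐ⁰) = v.valuation (RatFunc k) a := fun a =>
    HeightOneSpectrum.valuedAdicCompletion_eq_valuation' v a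
  refine ⟨Valued.v, hext, fun x hx => ?_, fun x hx => ?_⟩
  · exact dense_approx' _ (HeightOneSpectrum.denseRange_algebraMap (K := RatFunc k) v) x hx
  · refine isSquare_of_near_one ?_ x hx
    have e : (2 : v.adicCompletion (RatFunc k)) =
        algebraMap (RatFunc k) (v.adicCompletion (RatFunc k)) 2 := by
      rw [map_ofNat]
    rw [e, hext]
    have hle : ∀ c : k, v.valuation (RatFunc k) (algebraMap k[X] (RatFunc k) (C c)) ≤ 1 :=
      fun c => HeightOneSpectrum.valuation_le_one v _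
    have e2 : (2 : RatFunc k) = algebraMap k[X] (RatFunc k) (C 2) := by
      rw [map_ofNat, map_ofNat]
    rw [e2]
    apply le_antisymm (hle 2)
    have h3 : v.valuation (RatFunc k) (algebraMap k[X] (RatFunc k) (C 2)) *
        v.valuation (RatFunc k) (algebraMap k[X] (RatFunc k) (C 2⁻¹)) = 1 := by
      rw [← map_mul, ← map_mul, ← map_mul, mul_inv_cancel₀ h2, map_one, map_one, map_one]
    rw [← h3]
    exact mul_le_of_le_one_right' (hle _)

theorem localData_infty [DecidableEq (RatFunc k)] (h2 : (2 : k) ≠ 0) :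
    ∃ w : Valuation (RatFunc.CompletionAtInfty k) ℤᵐ⁰,
      LocalData (RatFunc.inftyValuation k) w := by
  have hext : ∀ a : RatFunc k, (Valued.v (algebraMap (RatFunc k)
      (RatFunc.CompletionAtInfty k) a) : ℤᵐ⁰) = RatFunc.inftyValuation k a := by
    intro a
    rw [RatFunc.valuedCompletionAtInfty.def]
    let := RatFunc.inftyValued k
    exact Valued.extensionValuation_apply_coe (K := RatFunc k) a
  refine ⟨Valued.v, hext, fun x hx => ?_, fun x hx => ?_⟩
  · refine dense_approx' _ ?_ x hx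
    let := RatFunc.inftyValued k
    exact UniformSpace.Completion.denseRange_coe (α := RatFunc k)
  · have hcs : CompleteSpace (RatFunc.CompletionAtInfty k) := by
      let := RatFunc.inftyValued k
      exact inferInstanceAs (CompleteSpace (UniformSpace.Completion (RatFunc k)))
    refine isSquare_of_near_one ?_ x hx
    have e : (2 : RatFunc.CompletionAtInfty k) =
        algebraMap (RatFunc k) (RatFunc.CompletionAtInfty k) 2 := by
      rw [map_ofNat]
    rw [e, hext]
    have e2 : (2 : RatFunc k) = RatFunc.C 2 := by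
      rw [map_ofNat]
    rw [e2, RatFunc.inftyValuation.C k h2]

end Pool.Agent.Helper72.TD
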