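import Pool.Agent.Helper72.TD.IBDefs

/-!
IB-10: an element of `k(t)` which becomes a square after an odd substitution is a square.
-/

namespace Pool.Agent.Helper72.TD

open Polynomial

variable {k : Type*} [Field k]

theorem isSquare_of_cmp (g : k[X]) (hg : Odd g.natDegree) (hg0 : g.natDegree ≠ 0) {d : RatFunc k}
    (h : IsSquare (cmp g hg0 d)) : IsSquare d := by
  classical
  -- the substitution as an algebra homomorphism
  let φ : RatFunc k →ₐ[k] RatFunc k :=
    { cmp g hg0 with
      commutes' := by
        intro c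
        have h1 : (algebraMap k (RatFunc k)) c = algebraMap k[X] (RatFunc k) (Polynomial.C c) := by
          rw [IsScalarTower.algebraMap_apply k k[X] (RatFunc k) c]
          rfl
        show cmp g hg0 (algebraMap k (RatFunc k) c) = _
        rw [h1, cmp_algebraMap, Polynomial.C_comp] }
  have hφ : ∀ x, φ x = cmp g hg0 x := fun _ => rfl
  let f : RatFunc k := algebraMap k[X] (RatFunc k) g
  let E : IntermediateField k (RatFunc k) := IntermediateField.adjoin k {f}
  have hE : φ.fieldRange = E := by
    rw [AlgHom.fieldRange_eq_map, ← RatFunc.adjoin_X, IntermediateField.adjoin_map,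
      Set.image_singleton]
    have h2 : φ RatFunc.X = f := by
      rw [hφ, ← RatFunc.algebraMap_X, cmp_algebraMap, Polynomial.X_comp]
    rw [h2]
  have hfin : Module.finrank E (RatFunc k) = g.natDegree := by
    have h1 := RatFunc.finrank_eq_max_natDegree f
    rw [RatFunc.num_algebraMap, RatFunc.denom_algebraMap, Polynomial.natDegree_one,
      Nat.max_zero] at h1
    exact h1
  obtain ⟨s, hs⟩ := h
  obtain ⟨m, hm⟩ := hg
  have hmem : cmp g hg0 d ∈ E := by
    rw [← hE]
    exact ⟨d, rfl⟩
  let x : E := ⟨cmp g hg0 d, hmem⟩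
  by_cases hx : x = 0
  · have h1 : cmp g hg0 d = 0 := congrArg Subtype.val hx
    rw [map_eq_zero] at h1
    rw [h1]
    exact IsSquare.zero
  have hxs : algebraMap E (RatFunc k) x = s * s := hs
  have hn : x ^ (2 * m + 1) = Algebra.norm E s * Algebra.norm E s := by
    rw [← map_mul, ← hxs, Algebra.norm_algebraMap, hfin, hm]
  let y : E := Algebra.norm E s / x ^ m
  have hy : x = y * y := by
    have hxm : x ^ m ≠ 0 := pow_ne_zero _ hx
    have h1 : y * x ^ m = Algebra.norm E s := div_mul_cancel₀ _ hxm
    have h2 : x * (x ^ m * x ^ m) = y * y * (x ^ m * x ^ m) := by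
      calc x * (x ^ m * x ^ m) = x ^ (2 * m + 1) := by ring
        _ = (y * x ^ m) * (y * x ^ m) := by rw [hn, h1]
        _ = _ := by ring
    exact mul_right_cancel₀ (mul_ne_zero hxm hxm) h2
  have hyE : (y : RatFunc k) ∈ φ.fieldRange := by
    rw [hE]
    exact y.2
  obtain ⟨r, hr⟩ := hyE
  refine ⟨r, ?_⟩
  apply (cmp g hg0).injective
  rw [map_mul]
  have h1 : cmp g hg0 d = (y : RatFunc k) * (y : RatFunc k) := congrArg Subtype.val hy
  have h2 : cmp g hg0 r = (y : RatFunc k) := hr
  rw [h1, h2]

end Pool.Agent.Helper72.TD
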