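import Pool.Agent.Helper72.TD.Defs

/-!
TD-5: constants which are squares up to `1`-units at a place of odd degree are squares.
-/

namespace Pool.Agent.Helper72.TD

open IsDedekindDomain Polynomial WithZero

variable {k : Type*} [Field k]

private theorem isSquare_of_odd_pow {u : k} {n : ℕ} (hn : Odd n) (h : IsSquare (u ^ n)) :
    IsSquare u := by
  obtain ⟨m, rfl⟩ := hn
  rcases eq_or_ne u 0 with rfl | hu
  · exact ⟨0, by simp⟩
  · obtain ⟨r, hr⟩ := h
    refine ⟨r / u ^ m, ?_⟩
    have hum : u ^ m ≠ 0 := pow_ne_zero m hu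
    rw [div_mul_div_comm, ← hr, eq_div_iff (mul_ne_zero hum hum)]
    ring

private theorem isSquare_of_dvd {π a b : k[X]} (hπ : Irreducible π) (hodd : Odd π.natDegree)
    {u : k} (hb : ¬ π ∣ b) (h : π ∣ C u * a ^ 2 - b ^ 2) : IsSquare u := by
  have : Fact (Irreducible π) := ⟨hπ⟩
  have h1 : AdjoinRoot.mk π (C u * a ^ 2 - b ^ 2) = 0 := AdjoinRoot.mk_eq_zero.mpr h
  have hb' : AdjoinRoot.mk π b ≠ 0 := fun h0 => hb (AdjoinRoot.mk_eq_zero.mp h0)
  set A := AdjoinRoot.mk π a
  set B := AdjoinRoot.mk π b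
  have h2 : algebraMap k (AdjoinRoot π) u * A ^ 2 = B ^ 2 := by
    have : AdjoinRoot.mk π (C u) = algebraMap k (AdjoinRoot π) u := by
      rw [AdjoinRoot.mk_C]; rfl
    rw [map_sub, map_mul, map_pow, map_pow, this] at h1
    exact sub_eq_zero.mp h1
  have hA : A ≠ 0 := by
    intro h0
    rw [h0] at h2
    apply hb'
    have : B ^ 2 = 0 := by rw [← h2]; ring
    simpa using this
  have h3 := congrArg (Algebra.norm k) h2
  rw [map_mul, map_pow, map_pow, Algebra.norm_algebraMap] at h3
  have hfr : Module.finrank k (AdjoinRoot π) = π.natDegree := by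
    rw [(AdjoinRoot.powerBasis hπ.ne_zero).finrank, AdjoinRoot.powerBasis_dim]
  rw [hfr] at h3
  have : FiniteDimensional k (AdjoinRoot π) := (AdjoinRoot.powerBasis hπ.ne_zero).finite
  have hnA : Algebra.norm k A ≠ 0 := Algebra.norm_ne_zero_iff.mpr hA
  apply isSquare_of_odd_pow hodd
  refine ⟨Algebra.norm k B / Algebra.norm k A, ?_⟩
  field_simp
  linear_combination h3

theorem isSquare_of_oneSq_finite (v : HeightOneSpectrum k[X]) {π : k[X]}
    (hv : v.asIdeal = Ideal.span {π}) (hodd : Odd π.natDegree) {u : k}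
    (h : OneSq (v.valuation (RatFunc k)) (RatFunc.C u)) : IsSquare u := by
  obtain ⟨s, hs⟩ := h
  have hπ0 : π ≠ 0 := by
    rintro rfl
    exact v.ne_bot (by rw [hv]; simp)
  have hπp : Prime π := by
    have := v.isPrime
    rw [hv] at this
    exact (Ideal.span_singleton_prime hπ0).mp this
  have hπ : Irreducible π := hπp.irreducible
  have hlt : ∀ a : k[X], v.valuation (RatFunc k) (algebraMap k[X] (RatFunc k) a) < 1 ↔ π ∣ a := by
    intro a
    rw [HeightOneSpectrum.valuation_lt_one_iff_mem, hv, Ideal.mem_span_singleton]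
  have hle : ∀ a : k[X], v.valuation (RatFunc k) (algebraMap k[X] (RatFunc k) a) ≤ 1 := fun a =>
    HeightOneSpectrum.valuation_le_one v a
  have hcop : IsCoprime s.num s.denom := RatFunc.isCoprime_num_denom s
  have hdenom0 : s.denom ≠ 0 := RatFunc.denom_ne_zero s
  have hs' : s * algebraMap k[X] (RatFunc k) s.denom = algebraMap k[X] (RatFunc k) s.num := by
    have h0 : algebraMap k[X] (RatFunc k) s.denom ≠ 0 := RatFunc.algebraMap_ne_zero hdenom0
    conv_lhs => rw [← RatFunc.num_div_denom s]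
    rw [RatFunc.num_div_denom s]
    nth_rw 1 [← RatFunc.num_div_denom s]
    field_simp
  have hkey : (RatFunc.C u * s ^ 2 - 1) * algebraMap k[X] (RatFunc k) s.denom ^ 2 =
      algebraMap k[X] (RatFunc k) (C u * s.num ^ 2 - s.denom ^ 2) := by
    rw [map_sub, map_mul, map_pow, map_pow, ← hs', RatFunc.algebraMap_C]
    ring
  have hu : v.valuation (RatFunc k) (RatFunc.C u) ≤ 1 := by
    rw [← RatFunc.algebraMap_C]; exact hle _
  have h1 : v.valuation (RatFunc k) (RatFunc.C u * s ^ 2) = 1 := by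
    have := Valuation.map_eq_of_sub_lt (v.valuation (RatFunc k)) (x := 1)
      (y := RatFunc.C u * s ^ 2) (by rw [map_one]; exact hs)
    rw [this, map_one]
  have hnd : ¬ π ∣ s.denom := by
    intro hd
    have hn : ¬ π ∣ s.num := fun hn => hπ.not_isUnit (hcop.isUnit_of_dvd' hn hd)
    -- valuation of num is one, of denom < 1
    have hdl := (hlt _).mpr hd
    have hnl : v.valuation (RatFunc k) (algebraMap k[X] (RatFunc k) s.num) = 1 :=
      le_antisymm (hle _) (not_lt.mp (fun h => hn ((hlt _).mp h)))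
    -- u * num^2 = (u s^2) denom^2, u is a unit
    have hu0 : u ≠ 0 := by
      rintro rfl
      simp at h1
    have hu1 : v.valuation (RatFunc k) (RatFunc.C u) = 1 := by
      apply le_antisymm hu
      have : v.valuation (RatFunc k) (RatFunc.C u) * v.valuation (RatFunc k) (RatFunc.C u⁻¹) =
          1 := by
        rw [← map_mul, ← map_mul, mul_inv_cancel₀ hu0, map_one, map_one]
      have hle' : v.valuation (RatFunc k) (RatFunc.C u⁻¹) ≤ 1 := by
        rw [← RatFunc.algebraMap_C]; exact hle _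
      rw [← this]
      exact mul_le_of_le_one_right' hle'
    have e : RatFunc.C u * algebraMap k[X] (RatFunc k) s.num ^ 2 =
        (RatFunc.C u * s ^ 2) * algebraMap k[X] (RatFunc k) s.denom ^ 2 := by
      rw [← hs']; ring
    have e2 := congrArg (v.valuation (RatFunc k)) e
    rw [map_mul, map_mul (v.valuation (RatFunc k)) (RatFunc.C u * s ^ 2), h1, hu1, map_pow,
      map_pow, hnl, one_pow, one_mul, one_mul] at e2
    exact absurd e2.symm (pow_lt_one₀ zero_le hdl two_ne_zero).ne
  apply isSquare_of_dvd hπ hodd hnd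
  rw [← hlt, ← hkey, map_mul]
  exact mul_lt_one_of_lt_of_le hs (by rw [← map_pow]; exact hle _ |>.trans_eq' (by rw [map_pow]))

theorem isSquare_of_oneSq_infty [DecidableEq (RatFunc k)] {u : k}
    (h : OneSq (RatFunc.inftyValuation k) (RatFunc.C u)) : IsSquare u := by
  obtain ⟨s, hs⟩ := h
  have hdenom0 : s.denom ≠ 0 := RatFunc.denom_ne_zero s
  have hpoly : ∀ a : k[X], a ≠ 0 → RatFunc.inftyValuation k (algebraMap k[X] (RatFunc k) a) =
      exp (a.natDegree : ℤ) := fun a ha => RatFunc.inftyValuation.polynomial k ha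
  have h1 : RatFunc.inftyValuation k (RatFunc.C u * s ^ 2) = 1 := by
    have := Valuation.map_eq_of_sub_lt (RatFunc.inftyValuation k) (x := 1)
      (y := RatFunc.C u * s ^ 2) (by rw [map_one]; exact hs)
    rw [this, map_one]
  have hs' : s * algebraMap k[X] (RatFunc k) s.denom = algebraMap k[X] (RatFunc k) s.num := by
    have h0 : algebraMap k[X] (RatFunc k) s.denom ≠ 0 := RatFunc.algebraMap_ne_zero hdenom0
    nth_rw 1 [← RatFunc.num_div_denom s]
    field_simp
  have hu0 : u ≠ 0 := by
    rintro rfl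
    simp at h1
  have hs0 : s ≠ 0 := by
    rintro rfl
    simp at h1
  have hnum0 : s.num ≠ 0 := by simpa using hs0
  have hkey : (RatFunc.C u * s ^ 2 - 1) * algebraMap k[X] (RatFunc k) s.denom ^ 2 =
      algebraMap k[X] (RatFunc k) (C u * s.num ^ 2 - s.denom ^ 2) := by
    rw [map_sub, map_mul, map_pow, map_pow, ← hs', RatFunc.algebraMap_C]
    ring
  have e : RatFunc.C u * algebraMap k[X] (RatFunc k) s.num ^ 2 =
      (RatFunc.C u * s ^ 2) * algebraMap k[X] (RatFunc k) s.denom ^ 2 := by
    rw [← hs']; ring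
  have e2 := congrArg (RatFunc.inftyValuation k) e
  rw [map_mul, map_mul (RatFunc.inftyValuation k) (RatFunc.C u * s ^ 2), h1,
    RatFunc.inftyValuation.C k hu0, map_pow, map_pow, hpoly _ hnum0, hpoly _ hdenom0, one_mul,
    one_mul, ← exp_nsmul, ← exp_nsmul] at e2
  have hdeg : s.num.natDegree = s.denom.natDegree := by
    have := exp_injective e2
    simpa using this
  have hlt : (C u * s.num ^ 2 - s.denom ^ 2).coeff (2 * s.denom.natDegree) = 0 := by
    rcases eq_or_ne (C u * s.num ^ 2 - s.denom ^ 2) 0 with h0 | h0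
    · rw [h0, coeff_zero]
    · apply coeff_eq_zero_of_natDegree_lt
      have h3 := congrArg (RatFunc.inftyValuation k) hkey
      rw [hpoly _ h0, map_mul, map_pow, hpoly _ hdenom0, ← exp_nsmul] at h3
      have h4 : exp ((C u * s.num ^ 2 - s.denom ^ 2).natDegree : ℤ) <
          exp ((2 : ℕ) • (s.denom.natDegree : ℤ)) := by
        rw [← h3]
        exact mul_lt_of_lt_one_left (zero_lt_iff.mpr (exp_ne_zero)) hs
      have h5 := exp_lt_exp.mp h4
      rw [nsmul_eq_mul] at h5
      exact_mod_cast h5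
  rw [coeff_sub, coeff_C_mul] at hlt
  have c1 : (s.num ^ 2).coeff (2 * s.denom.natDegree) = s.num.leadingCoeff ^ 2 := by
    rw [← hdeg, ← natDegree_pow, coeff_natDegree, leadingCoeff_pow]
  have c2 : (s.denom ^ 2).coeff (2 * s.denom.natDegree) = 1 := by
    rw [← natDegree_pow, coeff_natDegree, leadingCoeff_pow, RatFunc.monic_denom s, one_pow]
  rw [c1, c2] at hlt
  have hl : s.num.leadingCoeff ≠ 0 := leadingCoeff_ne_zero.mpr hnum0
  refine ⟨1 / s.num.leadingCoeff, ?_⟩
  field_simp
  linear_combination hlt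

end Pool.Agent.Helper72.TD
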