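import Pool.Agent.Helper72.TD.IBDefs
import Pool.Agent.Helper72.TD.Local
import Pool.Agent.Helper72.TD.Residue

/-!
IB-9: places of `k(t)` above and below under the substitution `t ↦ g(t)`.
-/

namespace Pool.Agent.Helper72.TD

open IsDedekindDomain Polynomial WithZero

variable {k : Type*} [Field k]

private theorem gen_ne (v : HeightOneSpectrum k[X]) {π : k[X]}
    (hv : v.asIdeal = Ideal.span {π}) : π ≠ 0 := by
  rintro rfl
  apply v.ne_bot
  rw [hv]
  simp

private theorem gen_prime (v : HeightOneSpectrum k[X]) {π : k[X]}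
    (hv : v.asIdeal = Ideal.span {π}) : Prime π := by
  have := v.isPrime
  rw [hv] at this
  exact (Ideal.span_singleton_prime (gen_ne v hv)).mp this

private theorem val_pow (v : HeightOneSpectrum k[X]) {π a : k[X]}
    (hv : v.asIdeal = Ideal.span {π}) (n : ℕ) (ha : ¬ π ∣ a) :
    v.valuation (RatFunc k) (algebraMap k[X] (RatFunc k) (π ^ n * a)) = exp (-(n : ℤ)) := by
  rw [HeightOneSpectrum.valuation_of_algebraMap, map_mul, map_pow,
    HeightOneSpectrum.intValuation_singleton v (gen_ne v hv) hv]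
  have h2 : v.intValuation a = 1 := by
    rw [HeightOneSpectrum.intValuation_eq_one_iff, hv, Ideal.mem_span_singleton]
    exact ha
  rw [h2, mul_one, ← exp_nsmul]
  simp

private theorem split_pow {π a : k[X]} (hπ : Prime π) (ha : a ≠ 0) :
    ∃ (n : ℕ) (b : k[X]), ¬ π ∣ b ∧ a = π ^ n * b := by
  have hfin : FiniteMultiplicity π a :=
    FiniteMultiplicity.of_prime_left hπ ha
  obtain ⟨b, hb, hn⟩ := hfin.exists_eq_pow_mul_and_not_dvd
  exact ⟨_, b, hn, hb⟩

private theorem val_cmp (g : k[X]) (hg : g.natDegree ≠ 0) (v w : HeightOneSpectrum k[X])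
    {π : k[X]} (hv : v.asIdeal = Ideal.span {π})
    (h1 : ∀ a : k[X], ¬ π ∣ a → a.comp g ∉ w.asIdeal) {n : ℕ} (hn : n ≠ 0)
    (h2 : w.valuation (RatFunc k) (algebraMap k[X] (RatFunc k) (π.comp g)) = exp (-(n : ℤ)))
    (x : RatFunc k) :
    w.valuation (RatFunc k) (cmp g hg x) = v.valuation (RatFunc k) x ^ n := by
  have key : ∀ a : k[X], w.valuation (RatFunc k) (cmp g hg (algebraMap k[X] (RatFunc k) a)) =
      v.valuation (RatFunc k) (algebraMap k[X] (RatFunc k) a) ^ n := by
    intro a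
    rcases eq_or_ne a 0 with rfl | ha
    · simp [hn]
    · obtain ⟨j, b, hb, rfl⟩ := split_pow (gen_prime v hv) ha
      rw [val_pow v hv j hb, cmp_algebraMap, mul_comp, pow_comp, map_mul, map_mul, map_pow,
        map_pow, h2]
      have h3 : w.valuation (RatFunc k) (algebraMap k[X] (RatFunc k) (b.comp g)) = 1 := by
        rw [HeightOneSpectrum.valuation_of_algebraMap, HeightOneSpectrum.intValuation_eq_one_iff]
        exact h1 b hb
      rw [h3, mul_one, ← exp_nsmul, ← exp_nsmul]
      congr 1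
      simp only [nsmul_eq_mul]
      ring
  rw [← RatFunc.num_div_denom x, map_div₀, map_div₀, map_div₀, key, key, div_pow]

/-- Below every finite place there is a finite place. -/
theorem place_below [Finite k] (g : k[X]) (hg : g.natDegree ≠ 0) (w : HeightOneSpectrum k[X]) :
    ∃ (v : HeightOneSpectrum k[X]) (n : ℕ), n ≠ 0 ∧
      (∀ x : RatFunc k, w.valuation (RatFunc k) (cmp g hg x) = v.valuation (RatFunc k) x ^ n) ∧
      ∀ π : k[X], v.asIdeal = Ideal.span {π} → π.comp g ∈ w.asIdeal := by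
  obtain ⟨ρ, hρ'⟩ := (IsPrincipalIdealRing.principal w.asIdeal).principal
  have hρ : w.asIdeal = Ideal.span {ρ} := hρ'
  have hρp := gen_prime w hρ
  have hfact : Fact (Irreducible ρ) := ⟨hρp.irreducible⟩
  have hfd : FiniteDimensional k (AdjoinRoot ρ) := (AdjoinRoot.powerBasis hρp.ne_zero).finite
  -- the prime ideal below
  have hP : (w.asIdeal.comap (compRingHom g)).IsPrime := by
    have := w.isPrime
    exact Ideal.IsPrime.comap _
  have hPne : w.asIdeal.comap (compRingHom g) ≠ ⊥ := by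
    obtain ⟨a, ha0, ha⟩ := (IsAlgebraic.of_finite k (AdjoinRoot.mk ρ g))
    intro hbot
    apply ha0
    have hmem : a ∈ w.asIdeal.comap (compRingHom g) := by
      rw [Ideal.mem_comap, hρ, Ideal.mem_span_singleton, ← AdjoinRoot.mk_eq_zero]
      have e : (compRingHom g) a = a.eval₂ C g := rfl
      rw [e, Polynomial.hom_eval₂]
      rw [Polynomial.aeval_def] at ha
      exact ha
    rw [hbot] at hmem
    exact hmem
  obtain ⟨π, hπ'⟩ := (IsPrincipalIdealRing.principal (w.asIdeal.comap (compRingHom g))).principal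
  have hπ : w.asIdeal.comap (compRingHom g) = Ideal.span {π} := hπ'
  let v : HeightOneSpectrum k[X] := ⟨w.asIdeal.comap (compRingHom g), hP, hPne⟩
  have hv : v.asIdeal = Ideal.span {π} := hπ
  have hmem : ∀ a : k[X], a ∈ v.asIdeal ↔ a.comp g ∈ w.asIdeal := fun a => Iff.rfl
  have hπ0 : π ≠ 0 := gen_ne v hv
  have hπg0 : π.comp g ≠ 0 := by
    intro h
    apply hπ0
    apply comp_injective hg
    rw [map_zero]
    exact h
  obtain ⟨n, b, hb, hnb⟩ := split_pow hρp hπg0
  have hπw : π.comp g ∈ w.asIdeal := by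
    rw [← hmem, hv]
    exact Ideal.mem_span_singleton_self π
  have hn : n ≠ 0 := by
    rintro rfl
    apply hb
    rw [pow_zero, one_mul] at hnb
    rw [← hnb, ← Ideal.mem_span_singleton, ← hρ]
    exact hπw
  refine ⟨v, n, hn, ?_, ?_⟩
  · apply val_cmp g hg v w hv _ hn
    · rw [hnb]
      exact val_pow w hρ n hb
    · intro a ha h
      apply ha
      rw [← Ideal.mem_span_singleton, ← hv, hmem]
      exact h
  · intro p hp
    rw [← hmem, hp]
    exact Ideal.mem_span_singleton_self p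

private theorem isSquare_of_odd_pow' {K : Type*} [Field K] {u : K} {n : ℕ} (hn : Odd n)
    (h : IsSquare (u ^ n)) : IsSquare u := by
  obtain ⟨m, rfl⟩ := hn
  rcases eq_or_ne u 0 with rfl | hu
  · exact ⟨0, by simp⟩
  · obtain ⟨r, hr⟩ := h
    refine ⟨r / u ^ m, ?_⟩
    have hum : u ^ m ≠ 0 := pow_ne_zero m hu
    rw [div_mul_div_comm, ← hr, eq_div_iff (mul_ne_zero hum hum)]
    ring

/-- The residue class of a polynomial unit which is a square up to `1`-units. -/
private theorem isSquare_mk_of_oneSq (v : HeightOneSpectrum k[X]) {π c : k[X]}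
    (hv : v.asIdeal = Ideal.span {π}) (hc : ¬ π ∣ c)
    (h : OneSq (v.valuation (RatFunc k)) (algebraMap k[X] (RatFunc k) c)) :
    IsSquare (AdjoinRoot.mk π c) := by
  obtain ⟨s, hs⟩ := h
  have hπp : Prime π := gen_prime v hv
  have hfact : Fact (Irreducible π) := ⟨hπp.irreducible⟩
  have hlt : ∀ a : k[X], v.valuation (RatFunc k) (algebraMap k[X] (RatFunc k) a) < 1 ↔ π ∣ a := by
    intro a
    rw [HeightOneSpectrum.valuation_lt_one_iff_mem, hv, Ideal.mem_span_singleton]
  have hle : ∀ a : k[X], v.valuation (RatFunc k) (algebraMap k[X] (RatFunc k) a) ≤ 1 := fun a =>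
    HeightOneSpectrum.valuation_le_one v a
  have hone : ∀ a : k[X], ¬ π ∣ a →
      v.valuation (RatFunc k) (algebraMap k[X] (RatFunc k) a) = 1 := fun a ha =>
    le_antisymm (hle _) (not_lt.mp (fun h => ha ((hlt _).mp h)))
  have hcop : IsCoprime s.num s.denom := RatFunc.isCoprime_num_denom s
  have hdenom0 : s.denom ≠ 0 := RatFunc.denom_ne_zero s
  have hs' : s * algebraMap k[X] (RatFunc k) s.denom = algebraMap k[X] (RatFunc k) s.num := by
    have h0 : algebraMap k[X] (RatFunc k) s.denom ≠ 0 := RatFunc.algebraMap_ne_zero hdenom0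
    nth_rw 1 [← RatFunc.num_div_denom s]
    field_simp
  have hkey : (algebraMap k[X] (RatFunc k) c * s ^ 2 - 1) *
      algebraMap k[X] (RatFunc k) s.denom ^ 2 =
      algebraMap k[X] (RatFunc k) (c * s.num ^ 2 - s.denom ^ 2) := by
    rw [map_sub, map_mul, map_pow, map_pow, ← hs']
    ring
  have h1 : v.valuation (RatFunc k) (algebraMap k[X] (RatFunc k) c * s ^ 2) = 1 := by
    have := Valuation.map_eq_of_sub_lt (v.valuation (RatFunc k)) (x := 1)
      (y := algebraMap k[X] (RatFunc k) c * s ^ 2) (by rw [map_one]; exact hs)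
    rw [this, map_one]
  have hnd : ¬ π ∣ s.denom := by
    intro hd
    have hn : ¬ π ∣ s.num := fun hn => hπp.not_isUnit (hcop.isUnit_of_dvd' hn hd)
    have hdl := (hlt _).mpr hd
    have e : algebraMap k[X] (RatFunc k) c * algebraMap k[X] (RatFunc k) s.num ^ 2 =
        (algebraMap k[X] (RatFunc k) c * s ^ 2) * algebraMap k[X] (RatFunc k) s.denom ^ 2 := by
      rw [← hs']; ring
    have e2 := congrArg (v.valuation (RatFunc k)) e
    rw [map_mul, map_mul (v.valuation (RatFunc k)) (algebraMap k[X] (RatFunc k) c * s ^ 2), h1,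
      hone c hc, map_pow, map_pow, hone _ hn, one_pow, one_mul, one_mul] at e2
    exact absurd e2.symm (pow_lt_one₀ zero_le hdl two_ne_zero).ne
  have hdvd : π ∣ c * s.num ^ 2 - s.denom ^ 2 := by
    rw [← hlt, ← hkey, map_mul]
    refine mul_lt_one_of_lt_of_le hs ?_
    rw [← map_pow]
    exact hle _ |>.trans_eq' (by rw [map_pow])
  have h2 : AdjoinRoot.mk π (c * s.num ^ 2 - s.denom ^ 2) = 0 := AdjoinRoot.mk_eq_zero.mpr hdvd
  rw [map_sub, map_mul, map_pow, map_pow, sub_eq_zero] at h2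
  have hd' : AdjoinRoot.mk π s.denom ≠ 0 := fun h0 => hnd (AdjoinRoot.mk_eq_zero.mp h0)
  have hn' : AdjoinRoot.mk π s.num ≠ 0 := by
    intro h0
    rw [h0] at h2
    apply hd'
    have : AdjoinRoot.mk π s.denom ^ 2 = 0 := by rw [← h2]; ring
    simpa using this
  refine ⟨AdjoinRoot.mk π s.denom / AdjoinRoot.mk π s.num, ?_⟩
  field_simp
  linear_combination h2

/-- The converse. -/
private theorem oneSq_of_isSquare_mk (v : HeightOneSpectrum k[X]) {π c : k[X]}
    (hv : v.asIdeal = Ideal.span {π}) (hc : ¬ π ∣ c)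
    (h : IsSquare (AdjoinRoot.mk π c)) :
    OneSq (v.valuation (RatFunc k)) (algebraMap k[X] (RatFunc k) c) := by
  have hπp : Prime π := gen_prime v hv
  have hlt : ∀ a : k[X], v.valuation (RatFunc k) (algebraMap k[X] (RatFunc k) a) < 1 ↔ π ∣ a := by
    intro a
    rw [HeightOneSpectrum.valuation_lt_one_iff_mem, hv, Ideal.mem_span_singleton]
  have hle : ∀ a : k[X], v.valuation (RatFunc k) (algebraMap k[X] (RatFunc k) a) ≤ 1 := fun a =>
    HeightOneSpectrum.valuation_le_one v a
  have hone : ∀ a : k[X], ¬ π ∣ a →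
      v.valuation (RatFunc k) (algebraMap k[X] (RatFunc k) a) = 1 := fun a ha =>
    le_antisymm (hle _) (not_lt.mp (fun h => ha ((hlt _).mp h)))
  obtain ⟨β, hβ⟩ := h
  obtain ⟨d, rfl⟩ := AdjoinRoot.mk_surjective β
  have hdvd : π ∣ c - d * d := by
    rw [← AdjoinRoot.mk_eq_zero, map_sub, map_mul, hβ, sub_self]
  have hd : ¬ π ∣ d := by
    intro hd
    apply hc
    have : c = (c - d * d) + d * d := by ring
    rw [this]
    exact dvd_add hdvd (hd.mul_right d)
  have hd0 : d ≠ 0 := by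
    rintro rfl
    exact hd (dvd_zero _)
  have hd0' : algebraMap k[X] (RatFunc k) d ≠ 0 := RatFunc.algebraMap_ne_zero hd0
  refine ⟨1 / algebraMap k[X] (RatFunc k) d, ?_⟩
  have e : algebraMap k[X] (RatFunc k) c * (1 / algebraMap k[X] (RatFunc k) d) ^ 2 - 1 =
      algebraMap k[X] (RatFunc k) (c - d * d) / algebraMap k[X] (RatFunc k) d ^ 2 := by
    rw [map_sub, map_mul]
    field_simp
  rw [e, map_div₀, map_pow, hone d hd, one_pow, div_one, hlt]
  exact hdvd

private theorem isSquare_descent {π ρ g : k[X]} (hπ : Irreducible π) (hρ : Irreducible ρ)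
    (hd : ρ ∣ π.comp g) {f : ℕ} (hf : Odd f) (hdeg : π.natDegree * f = ρ.natDegree) {c : k[X]}
    (h : IsSquare (AdjoinRoot.mk ρ (c.comp g))) : IsSquare (AdjoinRoot.mk π c) := by
  have : Fact (Irreducible ρ) := ⟨hρ⟩
  have : Fact (Irreducible π) := ⟨hπ⟩
  let φ : AdjoinRoot π →+* AdjoinRoot ρ := AdjoinRoot.lift (AdjoinRoot.of ρ) (AdjoinRoot.mk ρ g) (by
    have e : AdjoinRoot.mk ρ (π.comp g) = π.eval₂ (AdjoinRoot.of ρ) (AdjoinRoot.mk ρ g) := by
      unfold Polynomial.comp
      rw [Polynomial.hom_eval₂]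
      rfl
    rw [← e]
    exact AdjoinRoot.mk_eq_zero.mpr hd)
  have hφ : ∀ a : k[X], φ (AdjoinRoot.mk π a) = AdjoinRoot.mk ρ (a.comp g) := by
    intro a
    have e : AdjoinRoot.mk ρ (a.comp g) = a.eval₂ (AdjoinRoot.of ρ) (AdjoinRoot.mk ρ g) := by
      unfold Polynomial.comp
      rw [Polynomial.hom_eval₂]
      rfl
    rw [e]
    exact AdjoinRoot.lift_mk _ _
  let _ : Algebra (AdjoinRoot π) (AdjoinRoot ρ) := φ.toAlgebra
  have hst : IsScalarTower k (AdjoinRoot π) (AdjoinRoot ρ) := by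
    apply IsScalarTower.of_algebraMap_eq
    intro x
    have e1 : algebraMap k (AdjoinRoot π) x = AdjoinRoot.mk π (C x) := by
      rw [AdjoinRoot.mk_C]; rfl
    have e2 : algebraMap k (AdjoinRoot ρ) x = AdjoinRoot.mk ρ (C x) := by
      rw [AdjoinRoot.mk_C]; rfl
    rw [e1, e2]
    change _ = φ (AdjoinRoot.mk π (C x))
    rw [hφ, C_comp]
  have hfπ : Module.finrank k (AdjoinRoot π) = π.natDegree := by
    rw [(AdjoinRoot.powerBasis hπ.ne_zero).finrank, AdjoinRoot.powerBasis_dim]
  have hfρ : Module.finrank k (AdjoinRoot ρ) = ρ.natDegree := by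
    rw [(AdjoinRoot.powerBasis hρ.ne_zero).finrank, AdjoinRoot.powerBasis_dim]
  have hfd : FiniteDimensional k (AdjoinRoot ρ) := (AdjoinRoot.powerBasis hρ.ne_zero).finite
  have hfd2 : FiniteDimensional k (AdjoinRoot π) := (AdjoinRoot.powerBasis hπ.ne_zero).finite
  have hfd' : FiniteDimensional (AdjoinRoot π) (AdjoinRoot ρ) :=
    FiniteDimensional.right k (AdjoinRoot π) (AdjoinRoot ρ)
  have hmul := Module.finrank_mul_finrank k (AdjoinRoot π) (AdjoinRoot ρ)
  have hfr : Module.finrank (AdjoinRoot π) (AdjoinRoot ρ) = f := by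
    rw [hfπ, hfρ, ← hdeg] at hmul
    exact Nat.eq_of_mul_eq_mul_left hπ.natDegree_pos hmul
  obtain ⟨β, hβ⟩ := h
  apply isSquare_of_odd_pow' hf
  refine ⟨Algebra.norm (AdjoinRoot π) β, ?_⟩
  rw [← map_mul, ← hβ, ← hφ]
  have e3 : φ (AdjoinRoot.mk π c) =
    algebraMap (AdjoinRoot π) (AdjoinRoot ρ) (AdjoinRoot.mk π c) := rfl
  rw [e3, Algebra.norm_algebraMap, hfr]

/-- Reduction of an even element to a polynomial prime to `π`. -/
private theorem normalise (v : HeightOneSpectrum k[X]) {π : k[X]}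
    (hv : v.asIdeal = Ideal.span {π}) {x : RatFunc k} (hx : x ≠ 0)
    (he : EvenAt (v.valuation (RatFunc k)) x) :
    ∃ (c : k[X]) (s : RatFunc k), ¬ π ∣ c ∧ s ≠ 0 ∧ algebraMap k[X] (RatFunc k) c = x * s ^ 2 := by
  have hπp : Prime π := gen_prime v hv
  have hlt : ∀ a : k[X], v.valuation (RatFunc k) (algebraMap k[X] (RatFunc k) a) < 1 ↔ π ∣ a := by
    intro a
    rw [HeightOneSpectrum.valuation_lt_one_iff_mem, hv, Ideal.mem_span_singleton]
  obtain ⟨γ, hγ, h⟩ := he
  have hπ0 : algebraMap k[X] (RatFunc k) π ≠ 0 := RatFunc.algebraMap_ne_zero hπp.ne_zero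
  have hvπ : v.valuation (RatFunc k) (algebraMap k[X] (RatFunc k) π) = exp (-1 : ℤ) := by
    have := val_pow v hv (a := 1) 1 (fun h => hπp.not_isUnit (isUnit_of_dvd_one h))
    simpa using this
  set t : RatFunc k := algebraMap k[X] (RatFunc k) π ^ (log γ) with ht
  have ht0 : t ≠ 0 := zpow_ne_zero _ hπ0
  have hvt : v.valuation (RatFunc k) t = γ⁻¹ := by
    rw [ht, map_zpow₀, hvπ, ← exp_zsmul, smul_neg, smul_eq_mul, mul_one, exp_neg, exp_log hγ]
  have hy0 : x * t ^ 2 ≠ 0 := mul_ne_zero hx (pow_ne_zero 2 ht0)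
  have hvy : v.valuation (RatFunc k) (x * t ^ 2) = 1 := by
    rw [map_mul, map_pow, hvt, h, inv_pow, mul_inv_cancel₀ (pow_ne_zero 2 hγ)]
  set y := x * t ^ 2 with hy
  have hcop : IsCoprime y.num y.denom := RatFunc.isCoprime_num_denom y
  have hdenom0 : y.denom ≠ 0 := RatFunc.denom_ne_zero y
  have hdenom0' : algebraMap k[X] (RatFunc k) y.denom ≠ 0 := RatFunc.algebraMap_ne_zero hdenom0
  have hy' : y * algebraMap k[X] (RatFunc k) y.denom = algebraMap k[X] (RatFunc k) y.num := by
    nth_rw 1 [← RatFunc.num_div_denom y]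
    field_simp
  have hvals : v.valuation (RatFunc k) (algebraMap k[X] (RatFunc k) y.denom) =
      v.valuation (RatFunc k) (algebraMap k[X] (RatFunc k) y.num) := by
    rw [← hy', map_mul, hvy, one_mul]
  have hiff : π ∣ y.denom ↔ π ∣ y.num := by rw [← hlt, ← hlt, hvals]
  have hnd : ¬ π ∣ y.denom := fun hd => hπp.not_isUnit (hcop.isUnit_of_dvd' (hiff.mp hd) hd)
  have hnn : ¬ π ∣ y.num := fun hn => hnd (hiff.mpr hn)
  refine ⟨y.num * y.denom, t * algebraMap k[X] (RatFunc k) y.denom, ?_,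
    mul_ne_zero ht0 hdenom0', ?_⟩
  · intro hd
    rcases hπp.dvd_or_dvd hd with h | h
    · exact hnn h
    · exact hnd h
  · rw [map_mul, ← hy', hy]
    ring

/-- An inert place: there is exactly one place above. -/
theorem inert_place [Finite k] (g : k[X]) (hg : Odd g.natDegree) (hg0 : g.natDegree ≠ 0)
    (v : HeightOneSpectrum k[X]) {π ρ : k[X]} {u : k} {m : ℕ}
    (hv : v.asIdeal = Ideal.span {π}) (hρ : Irreducible ρ) (hm : Odd m)
    (hin : π.comp g = C u * ρ ^ m) :
    ∃ (w : HeightOneSpectrum k[X]), w.asIdeal = Ideal.span {ρ} ∧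
      (∀ x : RatFunc k, w.valuation (RatFunc k) (cmp g hg0 x) = v.valuation (RatFunc k) x ^ m) ∧
      (∀ x : RatFunc k, x ≠ 0 → EvenAt (v.valuation (RatFunc k)) x →
        OneSq (w.valuation (RatFunc k)) (cmp g hg0 x) → OneSq (v.valuation (RatFunc k)) x) ∧
      ∀ w' : HeightOneSpectrum k[X], π.comp g ∈ w'.asIdeal → w' = w := by
  have hm0 : m ≠ 0 := by
    rintro rfl
    exact absurd hm (by decide)
  have hπp : Prime π := gen_prime v hv
  have hπg0 : π.comp g ≠ 0 := by
    intro h
    apply hπp.ne_zero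
    apply comp_injective hg0
    rw [map_zero]
    exact h
  have hu : u ≠ 0 := by
    rintro rfl
    apply hπg0
    rw [hin]
    simp
  let w : HeightOneSpectrum k[X] :=
    ⟨Ideal.span {ρ}, (Ideal.span_singleton_prime hρ.ne_zero).2 hρ.prime,
      fun h => hρ.ne_zero (Ideal.span_singleton_eq_bot.1 h)⟩
  have hw : w.asIdeal = Ideal.span {ρ} := rfl
  have hdvd : ρ ∣ π.comp g := by
    rw [hin]
    exact Dvd.dvd.mul_left (dvd_pow_self ρ hm0) _
  have h1 : ∀ a : k[X], ¬ π ∣ a → a.comp g ∉ w.asIdeal := by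
    intro a ha hmem
    rw [hw, Ideal.mem_span_singleton] at hmem
    have hcop : IsCoprime π a := (hπp.irreducible.coprime_iff_not_dvd).mpr ha
    obtain ⟨p, q, hpq⟩ := hcop
    have h := congrArg (fun z => z.comp g) hpq
    simp only [add_comp, mul_comp, one_comp] at h
    apply hρ.not_isUnit
    apply isUnit_of_dvd_one
    rw [← h]
    exact dvd_add (Dvd.dvd.mul_left hdvd _) (Dvd.dvd.mul_left hmem _)
  have hCu : ¬ ρ ∣ C u := by
    intro h
    exact hρ.not_isUnit (isUnit_of_dvd_unit h (isUnit_C.mpr (isUnit_iff_ne_zero.mpr hu)))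
  have h2 : w.valuation (RatFunc k) (algebraMap k[X] (RatFunc k) (π.comp g)) =
      exp (-(m : ℤ)) := by
    rw [hin, mul_comm]
    exact val_pow w hw m hCu
  -- degrees
  have hdegs : π.natDegree * g.natDegree = m * ρ.natDegree := by
    rw [← natDegree_comp, hin, natDegree_C_mul hu, natDegree_pow]
  -- the residue degree
  have hπρ : π.natDegree ∣ ρ.natDegree := by
    have : Fact (Irreducible ρ) := ⟨hρ⟩
    have : Fact (Irreducible π) := ⟨hπp.irreducible⟩
    let φ : AdjoinRoot π →+* AdjoinRoot ρ :=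
      AdjoinRoot.lift (AdjoinRoot.of ρ) (AdjoinRoot.mk ρ g) (by
      have e : AdjoinRoot.mk ρ (π.comp g) = π.eval₂ (AdjoinRoot.of ρ) (AdjoinRoot.mk ρ g) := by
        unfold Polynomial.comp
        rw [Polynomial.hom_eval₂]
        rfl
      rw [← e]
      exact AdjoinRoot.mk_eq_zero.mpr hdvd)
    have hφC : ∀ x : k, φ (AdjoinRoot.of π x) = AdjoinRoot.of ρ x := by
      intro x
      exact AdjoinRoot.lift_of _
    let _ : Algebra (AdjoinRoot π) (AdjoinRoot ρ) := φ.toAlgebra
    have hst : IsScalarTower k (AdjoinRoot π) (AdjoinRoot ρ) := by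
      apply IsScalarTower.of_algebraMap_eq
      intro x
      exact (hφC x).symm
    have hfπ : Module.finrank k (AdjoinRoot π) = π.natDegree := by
      rw [(AdjoinRoot.powerBasis hπp.ne_zero).finrank, AdjoinRoot.powerBasis_dim]
    have hfρ : Module.finrank k (AdjoinRoot ρ) = ρ.natDegree := by
      rw [(AdjoinRoot.powerBasis hρ.ne_zero).finrank, AdjoinRoot.powerBasis_dim]
    have hmul := Module.finrank_mul_finrank k (AdjoinRoot π) (AdjoinRoot ρ)
    rw [hfπ, hfρ] at hmul
    exact ⟨_, hmul.symm⟩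
  obtain ⟨f, hf⟩ := hπρ
  have hfg : g.natDegree = m * f := by
    have hpos : 0 < π.natDegree := hπp.irreducible.natDegree_pos
    apply Nat.eq_of_mul_eq_mul_left hpos
    rw [hdegs, hf]
    ring
  have hfodd : Odd f := by
    rw [hfg] at hg
    exact (Nat.odd_mul.mp hg).2
  refine ⟨w, hw, val_cmp g hg0 v w hv h1 hm0 h2, ?_, ?_⟩
  · intro x hx he ho
    obtain ⟨c, s, hc, hs, hcs⟩ := normalise v hv hx he
    rw [← oneSq_mul_sq hs, ← hcs]
    apply oneSq_of_isSquare_mk v hv hc
    apply isSquare_descent hπp.irreducible hρ hdvd hfodd hf.symm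
    have hcg : ¬ ρ ∣ c.comp g := by
      have := h1 c hc
      rwa [hw, Ideal.mem_span_singleton] at this
    apply isSquare_mk_of_oneSq w hw hcg
    rw [← cmp_algebraMap g hg0, hcs, map_mul, map_pow]
    exact (oneSq_mul_sq ((_root_.map_ne_zero _).mpr hs)).mpr ho
  · intro w' hw'
    rw [hin] at hw'
    have hp := w'.isPrime
    have hρw : ρ ∈ w'.asIdeal := by
      rcases hp.mem_or_mem hw' with h | h
      · exfalso
        exact hp.ne_top (Ideal.eq_top_of_isUnit_mem _ h
          (isUnit_C.mpr (isUnit_iff_ne_zero.mpr hu)))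
      · exact hp.mem_of_pow_mem m h
    have hmax : (Ideal.span {ρ}).IsMaximal := PrincipalIdealRing.isMaximal_of_irreducible hρ
    apply HeightOneSpectrum.ext
    symm
    apply hmax.eq_of_le hp.ne_top
    rw [Ideal.span_singleton_le_iff_mem]
    exact hρw

private theorem infty_poly [DecidableEq (RatFunc k)] {a : k[X]} (ha : a ≠ 0) :
    RatFunc.inftyValuation k (algebraMap k[X] (RatFunc k) a) = exp (a.natDegree : ℤ) :=
  RatFunc.inftyValuation.polynomial k ha

/-- An element of value one at infinity is a constant up to a `1`-unit. -/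
private theorem infty_lead [DecidableEq (RatFunc k)] {y : RatFunc k}
    (h : RatFunc.inftyValuation k y = 1) :
    ∃ u : k, u ≠ 0 ∧ RatFunc.inftyValuation k (y / RatFunc.C u - 1) < 1 := by
  have hy0 : y ≠ 0 := by
    rintro rfl
    simp at h
  have hnum : y.num ≠ 0 := RatFunc.num_ne_zero hy0
  have hdenom0 : y.denom ≠ 0 := RatFunc.denom_ne_zero y
  have hdenom0' : algebraMap k[X] (RatFunc k) y.denom ≠ 0 := RatFunc.algebraMap_ne_zero hdenom0
  have hy' : y * algebraMap k[X] (RatFunc k) y.denom = algebraMap k[X] (RatFunc k) y.num := by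
    nth_rw 1 [← RatFunc.num_div_denom y]
    field_simp
  have hdeg : y.denom.natDegree = y.num.natDegree := by
    have h1 := congrArg (RatFunc.inftyValuation k) hy'
    rw [map_mul, h, one_mul, infty_poly hdenom0, infty_poly hnum] at h1
    exact_mod_cast exp_injective h1
  set u : k := y.num.leadingCoeff with hu
  have hu0 : u ≠ 0 := leadingCoeff_ne_zero.mpr hnum
  have hCu : (RatFunc.C u : RatFunc k) ≠ 0 := by
    rw [_root_.map_ne_zero]
    exact hu0
  refine ⟨u, hu0, ?_⟩
  have e : y / RatFunc.C u - 1 = algebraMap k[X] (RatFunc k) (y.num - C u * y.denom) /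
      (RatFunc.C u * algebraMap k[X] (RatFunc k) y.denom) := by
    rw [map_sub, map_mul, ← hy', RatFunc.algebraMap_C]
    field_simp
  rw [e, map_div₀, map_mul, RatFunc.inftyValuation.C k hu0, one_mul, infty_poly hdenom0]
  rcases eq_or_ne (y.num - C u * y.denom) 0 with h0 | h0
  · rw [h0]
    simp
  · rw [infty_poly h0, div_lt_one₀ (zero_lt_iff.mpr exp_ne_zero), exp_lt_exp]
    have hdlt : (y.num - C u * y.denom).degree < y.num.degree := by
      apply degree_sub_lt_left
      · rw [degree_C_mul hu0, degree_eq_natDegree hnum, degree_eq_natDegree hdenom0, hdeg]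
      · exact hnum
      · rw [leadingCoeff_mul, leadingCoeff_C, RatFunc.monic_denom y, mul_one]
    have hnlt := natDegree_lt_natDegree h0 hdlt
    rw [hdeg]
    exact_mod_cast hnlt

private theorem infty_cmp [DecidableEq (RatFunc k)] (g : k[X]) (hg0 : g.natDegree ≠ 0)
    (x : RatFunc k) : RatFunc.inftyValuation k (cmp g hg0 x) =
      RatFunc.inftyValuation k x ^ g.natDegree := by
  have key : ∀ a : k[X], RatFunc.inftyValuation k (cmp g hg0 (algebraMap k[X] (RatFunc k) a)) =
      RatFunc.inftyValuation k (algebraMap k[X] (RatFunc k) a) ^ g.natDegree := by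
    intro a
    rcases eq_or_ne a 0 with rfl | ha
    · simp [hg0]
    · have hag : a.comp g ≠ 0 := by
        intro h
        apply ha
        apply comp_injective hg0
        rw [map_zero]
        exact h
      rw [cmp_algebraMap, infty_poly hag, infty_poly ha, natDegree_comp, ← exp_nsmul]
      congr 1
      simp only [nsmul_eq_mul, Nat.cast_mul]
      ring
  rw [← RatFunc.num_div_denom x, map_div₀, map_div₀, map_div₀, key, key, div_pow]

private theorem oneSq_of_one {L Γ : Type*} [Field L] [LinearOrderedCommGroupWithZero Γ]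
    {w : Valuation L Γ} {z : L} (h : w (z - 1) < 1) : OneSq w z := ⟨1, by simpa using h⟩

/-- The place at infinity. -/
theorem infty_place [DecidableEq (RatFunc k)] (g : k[X]) (hg : Odd g.natDegree)
    (hg0 : g.natDegree ≠ 0) :
    (∀ x : RatFunc k, RatFunc.inftyValuation k (cmp g hg0 x) =
      RatFunc.inftyValuation k x ^ g.natDegree) ∧
    (∀ x : RatFunc k, x ≠ 0 → EvenAt (RatFunc.inftyValuation k) x →
      OneSq (RatFunc.inftyValuation k) (cmp g hg0 x) → OneSq (RatFunc.inftyValuation k) x) := by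
  refine ⟨infty_cmp g hg0, ?_⟩
  intro x hx he ho
  obtain ⟨γ, hγ, h⟩ := he
  have hX0 : algebraMap k[X] (RatFunc k) X ≠ 0 := RatFunc.algebraMap_ne_zero X_ne_zero
  set t : RatFunc k := algebraMap k[X] (RatFunc k) X ^ (-log γ) with ht
  have ht0 : t ≠ 0 := zpow_ne_zero _ hX0
  have hvt : RatFunc.inftyValuation k t = γ⁻¹ := by
    rw [ht, map_zpow₀, infty_poly X_ne_zero, natDegree_X, Nat.cast_one, ← exp_zsmul, smul_eq_mul,
      mul_one, exp_neg, exp_log hγ]
  have hvy : RatFunc.inftyValuation k (x * t ^ 2) = 1 := by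
    rw [map_mul, map_pow, hvt, h, inv_pow, mul_inv_cancel₀ (pow_ne_zero 2 hγ)]
  obtain ⟨u, hu, hlt⟩ := infty_lead hvy
  have hCu : (RatFunc.C u : RatFunc k) ≠ 0 := by
    rw [_root_.map_ne_zero]
    exact hu
  set z : RatFunc k := x * t ^ 2 / RatFunc.C u with hz
  have hz0 : z ≠ 0 := div_ne_zero (mul_ne_zero hx (pow_ne_zero 2 ht0)) hCu
  have hyz : x * t ^ 2 = RatFunc.C u * z := by
    rw [hz]
    field_simp
  have hCc : cmp g hg0 (RatFunc.C u) = RatFunc.C u := by
    rw [← RatFunc.algebraMap_C, cmp_algebraMap, C_comp]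
  have h1 : OneSq (RatFunc.inftyValuation k) (cmp g hg0 (x * t ^ 2)) := by
    rw [map_mul, map_pow]
    exact (oneSq_mul_sq ((_root_.map_ne_zero _).mpr ht0)).mpr ho
  have h2 : OneSq (RatFunc.inftyValuation k) (cmp g hg0 z) := by
    apply oneSq_of_one
    have e : cmp g hg0 z - 1 = cmp g hg0 (z - 1) := by rw [map_sub, map_one]
    rw [e, infty_cmp]
    exact pow_lt_one₀ zero_le hlt hg0
  have hcz0 : cmp g hg0 z ≠ 0 := (_root_.map_ne_zero _).mpr hz0
  have h3 : OneSq (RatFunc.inftyValuation k) (cmp g hg0 z)⁻¹ := by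
    rw [← oneSq_mul_sq hcz0]
    have e : (cmp g hg0 z)⁻¹ * cmp g hg0 z ^ 2 = cmp g hg0 z := by
      field_simp
    rw [e]
    exact h2
  have h4 : OneSq (RatFunc.inftyValuation k) (RatFunc.C u) := by
    have := oneSq_mul h1 h3
    rw [hyz, map_mul, hCc, mul_assoc, mul_inv_cancel₀ hcz0, mul_one] at this
    exact this
  obtain ⟨r, hr⟩ := isSquare_of_oneSq_infty h4
  have hr0 : r ≠ 0 := by
    rintro rfl
    exact hu (by rw [hr, mul_zero])
  have hCr : (RatFunc.C r : RatFunc k) ≠ 0 := by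
    rw [_root_.map_ne_zero]
    exact hr0
  rw [← oneSq_mul_sq ht0, hyz, hr]
  have e : RatFunc.C (r * r) * z = z * RatFunc.C r ^ 2 := by
    rw [map_mul]
    ring
  rw [e, oneSq_mul_sq hCr]
  exact oneSq_of_one hlt

end Pool.Agent.Helper72.TD
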