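import Pool.Agent.Helper72.TD.Defs

/-!
TD-6: squarefree parts and parity of valuations.
-/

namespace Pool.Agent.Helper72.TD

open IsDedekindDomain Polynomial WithZero

variable {k : Type*} [Field k]

private theorem poly_sqf (n : ℕ) : ∀ a : k[X], a.natDegree = n → a ≠ 0 →
    ∃ f s : k[X], Squarefree f ∧ f ≠ 0 ∧ s ≠ 0 ∧ a = f * s ^ 2 := by
  induction n using Nat.strong_induction_on with
  | _ n ih =>
    intro a han ha
    by_cases hs : Squarefree a
    · exact ⟨a, 1, hs, ha, one_ne_zero, by ring⟩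
    · have h1 : ∃ x : k[X], x * x ∣ a ∧ ¬ IsUnit x := by
        by_contra h
        push Not at h
        exact hs h
      obtain ⟨x, ⟨b, hb⟩, hx⟩ := h1
      have hx0 : x ≠ 0 := by
        rintro rfl
        exact ha (by rw [hb]; ring)
      have hb0 : b ≠ 0 := by
        rintro rfl
        exact ha (by rw [hb]; ring)
      have hxd : 0 < x.natDegree := by
        rcases Nat.eq_zero_or_pos x.natDegree with h | h
        · exact absurd (isUnit_iff_degree_eq_zero.2
            (by rw [degree_eq_natDegree hx0, h]; rfl)) hx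
        · exact h
      have hdeg : a.natDegree = x.natDegree + x.natDegree + b.natDegree := by
        rw [hb, natDegree_mul (mul_ne_zero hx0 hx0) hb0, natDegree_mul hx0 hx0]
      obtain ⟨f, s, hf, hf0, hs0, hfs⟩ := ih b.natDegree (by omega) b rfl hb0
      refine ⟨f, x * s, hf, hf0, mul_ne_zero hx0 hs0, ?_⟩
      rw [hb, hfs]
      ring

private theorem algMap_ne {a : k[X]} (ha : a ≠ 0) : algebraMap k[X] (RatFunc k) a ≠ 0 := by
  intro h
  exact ha (RatFunc.algebraMap_injective k (by rw [h, map_zero]))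

theorem exists_sqf {d : RatFunc k} (hd : d ≠ 0) :
    ∃ (f : k[X]) (s : RatFunc k), Squarefree f ∧ f ≠ 0 ∧ s ≠ 0 ∧
      d = algebraMap k[X] (RatFunc k) f * s ^ 2 := by
  have hden : d.denom ≠ 0 := RatFunc.denom_ne_zero d
  have hnum : d.num ≠ 0 := RatFunc.num_ne_zero hd
  obtain ⟨f, s, hf, hf0, hs0, hfs⟩ := poly_sqf _ (d.num * d.denom) rfl (mul_ne_zero hnum hden)
  have hden' := algMap_ne hden
  refine ⟨f, algebraMap k[X] (RatFunc k) s / algebraMap k[X] (RatFunc k) d.denom, hf, hf0,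
    div_ne_zero (algMap_ne hs0) hden', ?_⟩
  have h1 : algebraMap k[X] (RatFunc k) d.num * algebraMap k[X] (RatFunc k) d.denom =
      algebraMap k[X] (RatFunc k) f * algebraMap k[X] (RatFunc k) s ^ 2 := by
    rw [← map_mul, hfs, map_mul, map_pow]
  have h2 : d * algebraMap k[X] (RatFunc k) d.denom = algebraMap k[X] (RatFunc k) d.num := by
    rw [← eq_div_iff hden']
    exact (RatFunc.num_div_denom d).symm
  rw [div_pow, mul_div_assoc', ← h1, eq_div_iff (pow_ne_zero _ hden'), ← h2]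
  ring

private theorem sq_exp_iff (z : ℤ) : (∃ γ : ℤᵐ⁰, γ ≠ 0 ∧ exp z = γ ^ 2) ↔ Even z := by
  constructor
  · rintro ⟨γ, hγ, h⟩
    have h1 : γ = exp (log γ) := (exp_log hγ).symm
    rw [h1, ← exp_nsmul, exp_inj] at h
    rw [h]
    exact ⟨log γ, by simp [two_mul]⟩
  · rintro ⟨m, rfl⟩
    refine ⟨exp m, exp_ne_zero, ?_⟩
    rw [← exp_nsmul, exp_inj]
    simp [two_mul]

private theorem even_mul_sq {L Γ : Type*} [Field L] [LinearOrderedCommGroupWithZero Γ]
    (w : Valuation L Γ) {a s : L} (hs : s ≠ 0) (h : EvenAt w (a * s ^ 2)) : EvenAt w a := by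
  obtain ⟨γ, hγ, h⟩ := h
  have hws : w s ≠ 0 := (Valuation.ne_zero_iff _).2 hs
  refine ⟨γ / w s, div_ne_zero hγ hws, ?_⟩
  rw [div_pow, ← h, map_mul, map_pow, mul_div_cancel_right₀ _ (pow_ne_zero _ hws)]

private theorem pi_ne (v : HeightOneSpectrum k[X]) {π : k[X]}
    (hv : v.asIdeal = Ideal.span {π}) : π ≠ 0 := by
  rintro rfl
  apply v.ne_bot
  rw [hv]
  simp

/-- valuation of a polynomial at a place given by an irreducible polynomial -/
theorem evenAt_pow (v : HeightOneSpectrum k[X]) {π a : k[X]} (hv : v.asIdeal = Ideal.span {π})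
    (n : ℕ) (ha : ¬ π ∣ a) :
    EvenAt (v.valuation (RatFunc k)) (algebraMap k[X] (RatFunc k) (π ^ n * a)) ↔ Even n := by
  have h1 : v.valuation (RatFunc k) (algebraMap k[X] (RatFunc k) (π ^ n * a)) =
      exp (-(n : ℤ)) := by
    rw [HeightOneSpectrum.valuation_of_algebraMap, map_mul, map_pow,
      HeightOneSpectrum.intValuation_singleton v (pi_ne v hv) hv]
    have h2 : v.intValuation a = 1 := by
      rw [HeightOneSpectrum.intValuation_eq_one_iff, hv, Ideal.mem_span_singleton]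
      exact ha
    rw [h2, mul_one, ← exp_nsmul]
    simp
  unfold EvenAt
  rw [h1, sq_exp_iff]
  simp

theorem valuation_lt_one_iff (v : HeightOneSpectrum k[X]) {π a : k[X]}
    (hv : v.asIdeal = Ideal.span {π}) :
    v.valuation (RatFunc k) (algebraMap k[X] (RatFunc k) a) < 1 ↔ π ∣ a := by
  rw [HeightOneSpectrum.valuation_lt_one_iff_mem, hv, Ideal.mem_span_singleton]

theorem evenAt_infty_iff [DecidableEq (RatFunc k)] {f : k[X]} (hf : f ≠ 0) :
    EvenAt (RatFunc.inftyValuation k) (algebraMap k[X] (RatFunc k) f) ↔ Even f.natDegree := by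
  unfold EvenAt
  rw [RatFunc.inftyValuation_apply, RatFunc.inftyValuation.polynomial k hf, sq_exp_iff]
  simp

private theorem place_of {ρ : k[X]} (hρ : Irreducible ρ) :
    ∃ v : HeightOneSpectrum k[X], v.asIdeal = Ideal.span {ρ} := by
  refine ⟨⟨Ideal.span {ρ}, ?_, ?_⟩, rfl⟩
  · exact (Ideal.span_singleton_prime hρ.ne_zero).2 hρ.prime
  · intro h
    exact hρ.ne_zero (Ideal.span_singleton_eq_bot.1 h)

private theorem sqf_not_dvd {f ρ a : k[X]} (hf : Squarefree f) (hρ : Irreducible ρ)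
    (h : f = ρ * a) : ¬ ρ ∣ a := by
  rintro ⟨b, rfl⟩
  exact hρ.not_isUnit (hf ρ ⟨b, by rw [h]; ring⟩)

private theorem unit_C {f : k[X]} (hf : IsUnit f) : ∃ u : k, u ≠ 0 ∧ f = C u := by
  obtain ⟨u, hu, rfl⟩ := Polynomial.isUnit_iff.1 hf
  exact ⟨u, hu.ne_zero, rfl⟩

private theorem odd_place {f ρ : k[X]} (hf : Squarefree f) (hρ : Irreducible ρ) (hd : ρ ∣ f)
    (v : HeightOneSpectrum k[X]) (hv : v.asIdeal = Ideal.span {ρ}) :
    ¬ EvenAt (v.valuation (RatFunc k)) (algebraMap k[X] (RatFunc k) f) := by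
  obtain ⟨a, ha⟩ := hd
  have h1 := evenAt_pow v hv 1 (sqf_not_dvd hf hρ ha)
  rw [pow_one, ← ha] at h1
  rw [h1]
  decide

theorem const_of_even {d : RatFunc k} (hd : d ≠ 0)
    (h : ∀ v : HeightOneSpectrum k[X], EvenAt (v.valuation (RatFunc k)) d) :
    ∃ (u : k) (s : RatFunc k), u ≠ 0 ∧ s ≠ 0 ∧ d = RatFunc.C u * s ^ 2 := by
  obtain ⟨f, s, hf, hf0, hs0, hfs⟩ := exists_sqf hd
  have hu : IsUnit f := by
    by_contra hnu
    obtain ⟨ρ, hρ, hd⟩ := WfDvdMonoid.exists_irreducible_factor hnu hf0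
    obtain ⟨v, hv⟩ := place_of hρ
    apply odd_place hf hρ hd v hv
    have := h v
    rw [hfs] at this
    exact even_mul_sq _ hs0 this
  obtain ⟨u, hu0, rfl⟩ := unit_C hu
  exact ⟨u, s, hu0, hs0, by rw [hfs, RatFunc.algebraMap_C]⟩

theorem const_of_even' [DecidableEq (RatFunc k)] {d : RatFunc k} (hd : d ≠ 0)
    (v0 : HeightOneSpectrum k[X]) {π : k[X]} (hv0 : v0.asIdeal = Ideal.span {π})
    (hodd : Odd π.natDegree)
    (h : ∀ v : HeightOneSpectrum k[X], v ≠ v0 → EvenAt (v.valuation (RatFunc k)) d)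
    (hinf : EvenAt (RatFunc.inftyValuation k) d) :
    ∃ (u : k) (s : RatFunc k), u ≠ 0 ∧ s ≠ 0 ∧ d = RatFunc.C u * s ^ 2 := by
  obtain ⟨f, s, hf, hf0, hs0, hfs⟩ := exists_sqf hd
  have hdeg : Even f.natDegree := by
    rw [← evenAt_infty_iff hf0]
    rw [hfs] at hinf
    exact even_mul_sq _ hs0 hinf
  have hπp : Prime π := by
    have h1 := v0.isPrime
    rw [hv0] at h1
    exact (Ideal.span_singleton_prime (pi_ne v0 hv0)).1 h1
  have hfac : ∀ ρ : k[X], Irreducible ρ → ρ ∣ f → Associated ρ π := by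
    intro ρ hρ hd
    obtain ⟨v, hv⟩ := place_of hρ
    by_cases hvv : v = v0
    · rw [hvv, hv0] at hv
      exact (Ideal.span_singleton_eq_span_singleton.1 hv).symm
    · exfalso
      apply odd_place hf hρ hd v hv
      have := h v hvv
      rw [hfs] at this
      exact even_mul_sq _ hs0 this
  have hu : IsUnit f := by
    by_contra hnu
    obtain ⟨ρ, hρ, hd⟩ := WfDvdMonoid.exists_irreducible_factor hnu hf0
    obtain ⟨a, ha⟩ := hd
    have ha0 : a ≠ 0 := by
      rintro rfl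
      exact hf0 (by rw [ha, mul_zero])
    have hau : IsUnit a := by
      by_contra hnu'
      obtain ⟨ρ', hρ', hd'⟩ := WfDvdMonoid.exists_irreducible_factor hnu' ha0
      have h1 := hfac ρ hρ ⟨a, ha⟩
      have h2 := hfac ρ' hρ' (hd'.trans ⟨ρ, by rw [ha]; ring⟩)
      have h3 : ρ ∣ ρ' := (h1.trans h2.symm).dvd
      exact sqf_not_dvd hf hρ ha (h3.trans hd')
    have h1 : Associated f π := by
      have h2 : Associated f ρ := by
        rw [ha]
        exact (associated_mul_unit_left ρ a hau)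
      exact h2.trans (hfac ρ hρ ⟨a, ha⟩)
    have h3 : f.natDegree = π.natDegree := natDegree_eq_of_degree_eq (degree_eq_degree_of_associated h1)
    rw [h3] at hdeg
    exact (Nat.not_even_iff_odd.2 hodd) hdeg
  obtain ⟨u, hu0, rfl⟩ := unit_C hu
  exact ⟨u, s, hu0, hs0, by rw [hfs, RatFunc.algebraMap_C]⟩

end Pool.Agent.Helper72.TD
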