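import Pool.Agent.Helper72.TD.IBDefs
import Pool.Agent.Helper72.TD.Descent
import Pool.Agent.Helper72.TD.Halving
import Pool.Agent.Helper72.TD.Sqf
import Pool.Agent.Helper72.TD.Local

/-!
IB-11: the weak Mordell-Weil theorem for curves with full 2-torsion over `k(t)`, `k` finite.
-/

namespace Pool.Agent.Helper72.TD

open IsDedekindDomain Polynomial WithZero

variable {k : Type*} [Field k]

private theorem val_one_of {a : RatFunc k} (v : HeightOneSpectrum k[X])
    (h : a.num * a.denom ∉ v.asIdeal) : v.valuation (RatFunc k) a = 1 := by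
  have h1 : a.num ∉ v.asIdeal := fun h' => h (v.asIdeal.mul_mem_right _ h')
  have h2 : a.denom ∉ v.asIdeal := fun h' => h (v.asIdeal.mul_mem_left _ h')
  have h3 : v.valuation (RatFunc k) (algebraMap k[X] (RatFunc k) a.num) = 1 := by
    rw [HeightOneSpectrum.valuation_of_algebraMap, HeightOneSpectrum.intValuation_eq_one_iff]
    exact h1
  have h4 : v.valuation (RatFunc k) (algebraMap k[X] (RatFunc k) a.denom) = 1 := by
    rw [HeightOneSpectrum.valuation_of_algebraMap, HeightOneSpectrum.intValuation_eq_one_iff]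
    exact h2
  rw [← RatFunc.num_div_denom a, map_div₀, h3, h4, div_one]

/-- The polynomial whose prime divisors contain all the bad places. -/
private noncomputable def badPoly (e1 e2 e3 : RatFunc k) : k[X] :=
  ((e1 - e2).num * (e1 - e2).denom) * ((e1 - e3).num * (e1 - e3).denom) *
    ((e2 - e3).num * (e2 - e3).denom)

private theorem badPoly_ne {e1 e2 e3 : RatFunc k} (h12 : e1 ≠ e2) (h13 : e1 ≠ e3)
    (h23 : e2 ≠ e3) : badPoly e1 e2 e3 ≠ 0 := by
  have h : ∀ a b : RatFunc k, a ≠ b → (a - b).num * (a - b).denom ≠ 0 := fun a b hab =>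
    mul_ne_zero (RatFunc.num_ne_zero (sub_ne_zero.mpr hab)) (RatFunc.denom_ne_zero _)
  exact mul_ne_zero (mul_ne_zero (h _ _ h12) (h _ _ h13)) (h _ _ h23)

private theorem val_of_badPoly {e1 e2 e3 : RatFunc k} (v : HeightOneSpectrum k[X])
    (h : badPoly e1 e2 e3 ∉ v.asIdeal) :
    v.valuation (RatFunc k) (e1 - e2) = 1 ∧ v.valuation (RatFunc k) (e1 - e3) = 1 ∧
      v.valuation (RatFunc k) (e2 - e3) = 1 := by
  have h1 : (e1 - e2).num * (e1 - e2).denom * ((e1 - e3).num * (e1 - e3).denom) ∉ v.asIdeal :=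
    fun h' => h (v.asIdeal.mul_mem_right _ h')
  exact ⟨val_one_of v fun h' => h1 (v.asIdeal.mul_mem_right _ h'),
    val_one_of v fun h' => h1 (v.asIdeal.mul_mem_left _ h'),
    val_one_of v fun h' => h (v.asIdeal.mul_mem_left _ h')⟩

/-- Only finitely many places are bad. -/
theorem finite_bad {e1 e2 e3 : RatFunc k} (h12 : e1 ≠ e2) (h13 : e1 ≠ e3) (h23 : e2 ≠ e3) :
    {v : HeightOneSpectrum k[X] | ¬ GoodAt (v.valuation (RatFunc k)) e1 e2 e3}.Finite := by
  have hI : Ideal.span {badPoly e1 e2 e3} ≠ 0 := by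
    intro h
    exact badPoly_ne h12 h13 h23 (Ideal.span_singleton_eq_bot.1 h)
  refine (Ideal.finite_factors hI).subset ?_
  intro v hv
  by_contra hnd
  apply hv
  have h1 : badPoly e1 e2 e3 ∉ v.asIdeal := by
    intro h
    apply hnd
    change v.asIdeal ∣ _
    rw [Ideal.dvd_iff_le, Ideal.span_singleton_le_iff_mem]
    exact h
  obtain ⟨a, b, c⟩ := val_of_badPoly v h1
  exact ⟨1, one_ne_zero, by rw [a, one_pow], by rw [b, one_pow], by rw [c, one_pow]⟩

private theorem ibw_place_of {ρ : k[X]} (hρ : Irreducible ρ) :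
    ∃ v : HeightOneSpectrum k[X], v.asIdeal = Ideal.span {ρ} := by
  refine ⟨⟨Ideal.span {ρ}, ?_, ?_⟩, rfl⟩
  · exact (Ideal.span_singleton_prime hρ.ne_zero).2 hρ.prime
  · intro h
    exact hρ.ne_zero (Ideal.span_singleton_eq_bot.1 h)

private theorem ibw_odd_place {f ρ : k[X]} (hf : Squarefree f) (hρ : Irreducible ρ) (hd : ρ ∣ f)
    (v : HeightOneSpectrum k[X]) (hv : v.asIdeal = Ideal.span {ρ}) :
    ¬ EvenAt (v.valuation (RatFunc k)) (algebraMap k[X] (RatFunc k) f) := by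
  obtain ⟨a, ha⟩ := hd
  have h0 : ¬ ρ ∣ a := by
    rintro ⟨b, rfl⟩
    exact hρ.not_isUnit (hf ρ ⟨b, by rw [ha]; ring⟩)
  have h1 := evenAt_pow v hv 1 h0
  rw [pow_one, ← ha] at h1
  rw [h1]
  decide

private theorem ibw_dvd_pow (F : k[X]) : ∀ f : k[X], f ≠ 0 → (∀ ρ : k[X], Irreducible ρ → ρ ∣ f →
    ρ ∣ F) → ∃ n : ℕ, f ∣ F ^ n := by
  intro f
  induction f using WfDvdMonoid.induction_on_irreducible with
  | zero => intro h; exact absurd rfl h
  | unit u hu => intro _ _; exact ⟨0, hu.dvd⟩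
  | mul z p hz hp ih =>
    intro _ h
    obtain ⟨n, hn⟩ := ih hz fun ρ hρ hd => h ρ hρ (hd.mul_left p)
    refine ⟨n + 1, ?_⟩
    rw [pow_succ']
    exact mul_dvd_mul (h p hp (dvd_mul_right p z)) hn

/-- A class which is even outside the bad places is represented by a divisor of the bad
polynomial. -/
private theorem ibw_rep {F : k[X]} (hF : F ≠ 0) {d : RatFunc k} (hd : d ≠ 0)
    (h : ∀ v : HeightOneSpectrum k[X], F ∉ v.asIdeal → EvenAt (v.valuation (RatFunc k)) d) :
    ∃ (f : k[X]) (s : RatFunc k), f ≠ 0 ∧ s ≠ 0 ∧ f.natDegree ≤ F.natDegree ∧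
      d = algebraMap k[X] (RatFunc k) f * s ^ 2 := by
  obtain ⟨f, s, hf, hf0, hs0, hfs⟩ := exists_sqf hd
  refine ⟨f, s, hf0, hs0, ?_, hfs⟩
  apply natDegree_le_of_dvd _ hF
  obtain ⟨n, hn⟩ := ibw_dvd_pow F f hf0 (by
    intro ρ hρ hd
    by_contra hnd
    obtain ⟨v, hv⟩ := ibw_place_of hρ
    apply ibw_odd_place hf hρ hd v hv
    have h1 := h v (by rw [hv, Ideal.mem_span_singleton]; exact hnd)
    rw [hfs] at h1
    exact (evenAt_mul_sq hs0).mp h1)
  exact hf.isRadical n F hn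

private theorem ibw_two {k : Type*} [Field k] (h2 : (2 : k) ≠ 0) : (2 : RatFunc k) ≠ 0 := by
  intro h6
  apply h2
  have h7 : algebraMap k (RatFunc k) 2 = algebraMap k (RatFunc k) 0 := by
    rw [map_ofNat, map_zero, h6]
  exact (algebraMap k (RatFunc k)).injective h7

private theorem ibw_class (h2 : (2 : k) ≠ 0) {e1 e2 e3 : RatFunc k}
    (h12 : e1 ≠ e2) (h13 : e1 ≠ e3) (h23 : e2 ≠ e3) (P : (curve e1 e2 e3).toAffine.Point) :
    ∃ f1 f2 : k[X], f1 ≠ 0 ∧ f2 ≠ 0 ∧ f1.natDegree ≤ (badPoly e1 e2 e3).natDegree ∧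
      f2.natDegree ≤ (badPoly e1 e2 e3).natDegree ∧
      HasClass P (algebraMap k[X] (RatFunc k) f1) (algebraMap k[X] (RatFunc k) f2) := by
  obtain ⟨d1, d2, hd1, hd2, hP⟩ := hasClass_exists h12 h13 h23 P
  have hpt := (hasPoint_iff (ibw_two h2) h12 h13 h23 hd1 hd2).mpr ⟨P, hP⟩
  have hsym := symPoint_of_hasPoint hd1 hd2 hpt
  simp only [Algebra.algebraMap_self, RingHom.id_apply] at hsym
  have hev : ∀ v : HeightOneSpectrum k[X], badPoly e1 e2 e3 ∉ v.asIdeal →
      EvenAt (v.valuation (RatFunc k)) d1 ∧ EvenAt (v.valuation (RatFunc k)) d2 := by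
    intro v hv
    obtain ⟨a, b, c⟩ := val_of_badPoly v hv
    obtain ⟨x, y, -⟩ := even_of_good (v.valuation (RatFunc k))
      (by rw [Valuation.map_sub_swap]; exact a) (by rw [Valuation.map_sub_swap]; exact b)
      (by rw [Valuation.map_sub_swap]; exact c) hsym
    exact ⟨x, y⟩
  obtain ⟨f1, s1, hf1, hs1, hd1', he1⟩ := ibw_rep (badPoly_ne h12 h13 h23) hd1
    fun v hv => (hev v hv).1
  obtain ⟨f2, s2, hf2, hs2, hd2', he2⟩ := ibw_rep (badPoly_ne h12 h13 h23) hd2
    fun v hv => (hev v hv).2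
  refine ⟨f1, f2, hf1, hf2, hd1', hd2', ?_⟩
  rw [he1, he2] at hP
  exact (hasClass_mul_sq hs1 hs2).mp hP

private theorem ibw_finite [Finite k] (N : ℕ) : Finite {f : k[X] // f.natDegree ≤ N} := by
  have hinj : Function.Injective (fun f : {f : k[X] // f.natDegree ≤ N} =>
      fun i : Fin (N + 1) => f.1.coeff i) := by
    rintro ⟨f, hf⟩ ⟨g, hg⟩ h
    apply Subtype.ext
    ext i
    by_cases hi : i < N + 1
    · exact congrFun h ⟨i, hi⟩
    · change f.coeff i = g.coeff i
      rw [coeff_eq_zero_of_natDegree_lt (by omega), coeff_eq_zero_of_natDegree_lt (by omega)]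
  exact Finite.of_injective _ hinj

theorem weak_mw [Finite k] [DecidableEq (RatFunc k)] (h2 : (2 : k) ≠ 0) {e1 e2 e3 : RatFunc k}
    (h12 : e1 ≠ e2) (h13 : e1 ≠ e3) (h23 : e2 ≠ e3) :
    (zsmulAddGroupHom (α := (curve e1 e2 e3).toAffine.Point) 2).range.FiniteIndex := by
  choose f1 f2 hf1 hf2 hd1 hd2 hc using ibw_class h2 h12 h13 h23
  have := ibw_finite (k := k) (badPoly e1 e2 e3).natDegree
  set H := (zsmulAddGroupHom (α := (curve e1 e2 e3).toAffine.Point) 2).range
  let φ : (curve e1 e2 e3).toAffine.Point ⧸ H →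
      {f : k[X] // f.natDegree ≤ (badPoly e1 e2 e3).natDegree} ×
        {f : k[X] // f.natDegree ≤ (badPoly e1 e2 e3).natDegree} :=
    fun q => (⟨f1 q.out, hd1 _⟩, ⟨f2 q.out, hd2 _⟩)
  have hφ : Function.Injective φ := by
    intro p q hpq
    obtain ⟨ha, hb⟩ := Prod.mk.inj hpq
    have ha' : f1 p.out = f1 q.out := congrArg Subtype.val ha
    have hb' : f2 p.out = f2 q.out := congrArg Subtype.val hb
    have hP := hc p.out
    have hQ := hc q.out
    rw [ha', hb'] at hP
    have n1 : algebraMap k[X] (RatFunc k) (f1 q.out) ≠ 0 := fun h =>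
      hf1 q.out (RatFunc.algebraMap_injective k (by rw [h, map_zero]))
    have n2 : algebraMap k[X] (RatFunc k) (f2 q.out) ≠ 0 := fun h =>
      hf2 q.out (RatFunc.algebraMap_injective k (by rw [h, map_zero]))
    have hS := hasClass_add (ibw_two h2) h12 h13 h23 n1 n2 n1 n2 hP hQ
    have hS' : HasClass (p.out + q.out) (1 * algebraMap k[X] (RatFunc k) (f1 q.out) ^ 2)
        (1 * algebraMap k[X] (RatFunc k) (f2 q.out) ^ 2) := by
      rw [one_mul, one_mul, pow_two, pow_two]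
      exact hS
    rw [hasClass_mul_sq n1 n2] at hS'
    obtain ⟨R, hR⟩ := exists_half (ibw_two h2) h12 h13 h23 hS'
    rw [← p.out_eq, ← q.out_eq]
    apply QuotientAddGroup.eq.mpr
    refine AddMonoidHom.mem_range.mpr ⟨q.out - R, ?_⟩
    change (2 : ℤ) • (q.out - R) = -p.out + q.out
    rw [two_zsmul]
    have h3 : -p.out + q.out = (q.out - R) + (q.out - R) := by
      have : p.out = R + R - q.out := by rw [← hR]; abel
      rw [this]; abel
    exact h3.symm
  have : Finite ((curve e1 e2 e3).toAffine.Point ⧸ H) := Finite.of_injective φ hφ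
  exact AddSubgroup.finiteIndex_of_finite_quotient

end Pool.Agent.Helper72.TD
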