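import Pool.Agent.Helper72.TD.HtAdd
import Pool.Agent.Helper72.TD.HtDouble

/-!
TD-8e: Mordell-Weil for curves with full 2-torsion over `k(t)`, `k` finite, given weak Mordell-Weil.
-/

namespace Pool.Agent.Helper72.TD

open Polynomial

variable {k : Type*} [Field k]

/-- The height of a point. -/
private noncomputable def htP {e1 e2 e3 : RatFunc k} : (curve e1 e2 e3).toAffine.Point → ℝ
  | .zero => 0
  | .some x _ _ => (ht x : ℝ)

private lemma htP_zero {e1 e2 e3 : RatFunc k} :
    htP (0 : (curve e1 e2 e3).toAffine.Point) = 0 := rfl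

private lemma htP_some {e1 e2 e3 : RatFunc k} {x y : RatFunc k}
    (h : (curve e1 e2 e3).toAffine.Nonsingular x y) :
    htP (WeierstrassCurve.Affine.Point.some x y h) = (ht x : ℝ) := rfl

private lemma htP_nonneg {e1 e2 e3 : RatFunc k} (P : (curve e1 e2 e3).toAffine.Point) :
    0 ≤ htP P := by
  match P with
  | .zero => exact le_rfl
  | .some x y h =>
    rw [htP_some]
    positivity

private lemma finite_sq (c : RatFunc k) : {y : RatFunc k | y ^ 2 = c}.Finite := by
  classical
  have h1 : (X ^ 2 - C c : (RatFunc k)[X]) ≠ 0 := X_pow_sub_C_ne_zero (by norm_num) c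
  refine ((X ^ 2 - C c : (RatFunc k)[X]).roots.toFinset.finite_toSet).subset ?_
  intro y hy
  have hy' : y ^ 2 = c := hy
  rw [Finset.mem_coe, Multiset.mem_toFinset, mem_roots h1]
  simp [IsRoot, hy']

private lemma eqn {e1 e2 e3 x y : RatFunc k} (h : (curve e1 e2 e3).toAffine.Nonsingular x y) :
    y ^ 2 = (x - e1) * (x - e2) * (x - e3) := by
  have h1 := (WeierstrassCurve.Affine.equation_iff (W := (curve e1 e2 e3)) x y).1 h.1
  simp only [curve] at h1
  linear_combination h1

private lemma northcott_htP [Finite k] (e1 e2 e3 : RatFunc k) :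
    Northcott (htP (e1 := e1) (e2 := e2) (e3 := e3)) := by
  refine ⟨fun b => ?_⟩
  obtain ⟨B, hB⟩ := exists_nat_ge b
  have hfin := finite_ht_le (k := k) B
  set S : Set (RatFunc k × RatFunc k) := ⋃ x ∈ {x : RatFunc k | ht x ≤ B},
    (fun y => (x, y)) '' {y : RatFunc k | y ^ 2 = (x - e1) * (x - e2) * (x - e3)} with hS
  have hSfin : S.Finite := by
    apply hfin.biUnion
    intro x _
    exact (finite_sq _).image _
  let φ : (curve e1 e2 e3).toAffine.Point → Option (RatFunc k × RatFunc k) := fun P =>
    match P with
    | .zero => none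
    | .some x y _ => some (x, y)
  have hφ : Function.Injective φ := by
    intro P Q hPQ
    match P, Q with
    | .zero, .zero => rfl
    | .zero, .some x y h => exact absurd hPQ (by simp [φ])
    | .some x y h, .zero => exact absurd hPQ (by simp [φ])
    | .some x y h, .some x' y' h' =>
      have h1 : (x, y) = (x', y') := Option.some.inj hPQ
      obtain ⟨h2, h3⟩ := Prod.mk.inj h1
      subst h2
      subst h3
      rfl
  apply Set.Finite.of_finite_image (f := φ) _ hφ.injOn
  refine ((hSfin.image some).insert none).subset ?_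
  rintro _ ⟨P, hP, rfl⟩
  match P with
  | .zero => exact Set.mem_insert _ _
  | .some x y h =>
    apply Set.mem_insert_of_mem
    refine ⟨(x, y), ?_, rfl⟩
    rw [hS, Set.mem_iUnion₂]
    have h1 : (ht x : ℝ) ≤ b := hP
    have h2 : ht x ≤ B := by exact_mod_cast h1.trans hB
    exact ⟨x, h2, y, eqn h, rfl⟩

theorem mordell_weil [Finite k] [DecidableEq (RatFunc k)] (h2 : (2 : k) ≠ 0)
    {e1 e2 e3 : RatFunc k} (h12 : e1 ≠ e2) (h13 : e1 ≠ e3) (h23 : e2 ≠ e3)
    (hw : (zsmulAddGroupHom (α := (curve e1 e2 e3).toAffine.Point) 2).range.FiniteIndex) :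
    AddGroup.FG (curve e1 e2 e3).toAffine.Point := by
  have hnc := northcott_htP (k := k) e1 e2 e3
  choose c hc using fun Q : (curve e1 e2 e3).toAffine.Point => ht_add_le (k := k) Q
  obtain ⟨C0, hC0⟩ := ht_double_ge (k := k) h2 h12 h13 h23
  have hw' : (nsmulAddMonoidHom (α := (curve e1 e2 e3).toAffine.Point) 2).range.FiniteIndex := by
    have h : (nsmulAddMonoidHom (α := (curve e1 e2 e3).toAffine.Point) 2).range =
        (zsmulAddGroupHom (α := (curve e1 e2 e3).toAffine.Point) 2).range := by
      ext P
      rw [AddMonoidHom.mem_range, AddMonoidHom.mem_range]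
      constructor
      · rintro ⟨Q, rfl⟩
        exact ⟨Q, natCast_zsmul Q 2⟩
      · rintro ⟨Q, rfl⟩
        exact ⟨Q, (natCast_zsmul Q 2).symm⟩
    rw [h]
    exact hw
  refine AddCommGroup.fg_of_descent (n := 2) (h := htP (e1 := e1) (e2 := e2) (e3 := e3))
    (a := 2) (b := 4) (c₀ := C0 + 4 * (ht e1 + ht e2 + ht e3)) (c := fun Q => c Q + htP (-Q))
    (by norm_num) (by norm_num) hw' ?_ ?_
  · intro Q P
    match hP : P with
    | .zero =>
      have h1 := htP_nonneg (Q + .zero)
      have h2 := htP_nonneg (-Q)
      have h3 : (0 : ℝ) ≤ c Q := by positivity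
      change (0 : ℝ) ≤ _
      linarith
    | .some x y h =>
      match hQP : Q + .some x y h with
      | .zero =>
        have h1 : (WeierstrassCurve.Affine.Point.some x y h : (curve e1 e2 e3).toAffine.Point)
            = -Q := by
          have : Q + WeierstrassCurve.Affine.Point.some x y h = 0 := hQP
          exact (neg_eq_of_add_eq_zero_right this).symm
        have h3 : (0 : ℝ) ≤ c Q := by positivity
        rw [hQP, ← h1]
        change _ ≤ 2 * (0 : ℝ) + _
        linarith
      | .some x' y' h' =>
        have h1 := hc Q x y x' y' h h' hQP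
        have h2 := htP_nonneg (-Q)
        rw [hQP, htP_some, htP_some]
        have h3 : (ht x : ℝ) ≤ 2 * ht x' + c Q := by exact_mod_cast h1
        linarith
  · intro P
    rw [two_nsmul]
    have h0 : (0 : ℝ) ≤ C0 := by positivity
    have i1 : (0 : ℝ) ≤ ht e1 := by positivity
    have i2 : (0 : ℝ) ≤ ht e2 := by positivity
    have i3 : (0 : ℝ) ≤ ht e3 := by positivity
    match hP : P with
    | .zero =>
      have h1 := htP_nonneg ((WeierstrassCurve.Affine.Point.zero :
        (curve e1 e2 e3).toAffine.Point) + .zero)
      change 4 * (0 : ℝ) - _ ≤ _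
      linarith
    | .some x y h =>
      match hPP : WeierstrassCurve.Affine.Point.some x y h + .some x y h with
      | .zero =>
        have h1 : (WeierstrassCurve.Affine.Point.some x y h : (curve e1 e2 e3).toAffine.Point)
            = -(WeierstrassCurve.Affine.Point.some x y h) := by
          have : (WeierstrassCurve.Affine.Point.some x y h : (curve e1 e2 e3).toAffine.Point)
            + WeierstrassCurve.Affine.Point.some x y h = 0 := hPP
          exact eq_neg_of_add_eq_zero_left this
        rw [WeierstrassCurve.Affine.Point.neg_some] at h1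
        have h3 : y = (curve e1 e2 e3).toAffine.negY x y := by
          injection h1
        simp only [WeierstrassCurve.Affine.negY, curve] at h3
        have h4 : (2 : RatFunc k) * y = 0 := by linear_combination h3
        have h5 : (2 : RatFunc k) ≠ 0 := by
          intro h6
          apply h2
          have h7 : algebraMap k (RatFunc k) 2 = algebraMap k (RatFunc k) 0 := by
            rw [map_ofNat, map_zero, h6]
          exact (algebraMap k (RatFunc k)).injective h7
        have h6 : y = 0 := (mul_eq_zero.1 h4).resolve_left h5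
        have h7 := eqn h
        rw [h6] at h7
        have h8 : (x - e1) * (x - e2) * (x - e3) = 0 := by rw [← h7]; ring
        rw [hPP, htP_some]
        change _ ≤ (0 : ℝ)
        rcases mul_eq_zero.1 h8 with h9 | h9
        · rcases mul_eq_zero.1 h9 with h10 | h10
          · rw [sub_eq_zero.1 h10]; linarith
          · rw [sub_eq_zero.1 h10]; linarith
        · rw [sub_eq_zero.1 h9]; linarith
      | .some x' y' h' =>
        have h1 := hC0 x y x' y' h h' hPP
        rw [hPP, htP_some, htP_some]
        have h3 : 4 * (ht x : ℝ) ≤ ht x' + C0 := by exact_mod_cast h1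
        linarith

end Pool.Agent.Helper72.TD
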