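import Mathlib

/-!
TD-9: the rank of a finitely generated abelian group from `G/2G` and `G[2]`.
-/

namespace Pool.Agent.Helper72.TD

private noncomputable abbrev rq (H : Type*) [AddCommGroup H] : ℕ :=
  Nat.card (H ⧸ (zsmulAddGroupHom (α := H) 2).range)

private noncomputable abbrev rt (H : Type*) [AddCommGroup H] : ℕ :=
  Nat.card {x : H // x + x = 0}

private lemma rq_congr {A B : Type*} [AddCommGroup A] [AddCommGroup B] (e : A ≃+ B) :
    rq A = rq B := by
  refine Nat.card_congr (QuotientAddGroup.congr _ _ e ?_).toEquiv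
  ext y
  simp only [AddSubgroup.mem_map, AddMonoidHom.mem_range, zsmulAddGroupHom_apply]
  constructor
  · rintro ⟨_, ⟨z, rfl⟩, rfl⟩
    exact ⟨e z, by simp⟩
  · rintro ⟨z, rfl⟩
    exact ⟨_, ⟨e.symm z, rfl⟩, by simp⟩

private lemma rt_congr {A B : Type*} [AddCommGroup A] [AddCommGroup B] (e : A ≃+ B) :
    rt A = rt B := by
  refine Nat.card_congr (e.toEquiv.subtypeEquiv fun x => ?_)
  rw [← e.injective.eq_iff]
  simp

private lemma rt_prod (A B : Type*) [AddCommGroup A] [AddCommGroup B] :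
    rt (A × B) = rt A * rt B := by
  rw [← Nat.card_prod]
  refine Nat.card_congr
    { toFun := fun x => ⟨⟨x.1.1, (Prod.ext_iff.mp x.2).1⟩, ⟨x.1.2, (Prod.ext_iff.mp x.2).2⟩⟩
      invFun := fun x => ⟨(x.1.1, x.2.1), Prod.ext x.1.2 x.2.2⟩
      left_inv := fun x => rfl
      right_inv := fun x => rfl }

private lemma rq_prod (A B : Type*) [AddCommGroup A] [AddCommGroup B] :
    rq (A × B) = rq A * rq B := by
  rw [← Nat.card_prod]
  have h : (zsmulAddGroupHom (α := A × B) 2).range =
      (AddSubgroup.prod (zsmulAddGroupHom (α := A) 2).range (zsmulAddGroupHom (α := B) 2).range) := by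
    ext ⟨x, y⟩
    simp only [AddMonoidHom.mem_range, zsmulAddGroupHom_apply, AddSubgroup.mem_prod, Prod.exists,
      Prod.smul_mk, Prod.mk.injEq]
    constructor
    · rintro ⟨a, b, h1, h2⟩
      exact ⟨⟨a, h1⟩, ⟨b, h2⟩⟩
    · rintro ⟨⟨a, h1⟩, ⟨b, h2⟩⟩
      exact ⟨a, b, h1, h2⟩
  let φ : A × B →+ (A ⧸ (zsmulAddGroupHom (α := A) 2).range) ×
      (B ⧸ (zsmulAddGroupHom (α := B) 2).range) :=
    (QuotientAddGroup.mk' _).prodMap (QuotientAddGroup.mk' _)
  have hφ : Function.Surjective φ := by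
    rintro ⟨x, y⟩
    obtain ⟨a, rfl⟩ := QuotientAddGroup.mk'_surjective _ x
    obtain ⟨b, rfl⟩ := QuotientAddGroup.mk'_surjective _ y
    exact ⟨(a, b), rfl⟩
  have hk : φ.ker = (zsmulAddGroupHom (α := A × B) 2).range := by
    rw [h]
    ext ⟨x, y⟩
    simp [φ, AddSubgroup.mem_prod]
  unfold rq
  rw [← hk]
  exact Nat.card_congr (QuotientAddGroup.quotientKerEquivOfSurjective φ hφ).toEquiv

private lemma rq_finite (A : Type*) [AddCommGroup A] [Finite A] : rq A = rt A := by
  have h1 : Nat.card A = rq A * Nat.card (zsmulAddGroupHom (α := A) 2).range :=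
    AddSubgroup.card_eq_card_quotient_mul_card_addSubgroup _
  have h2 : Nat.card A = Nat.card (A ⧸ (zsmulAddGroupHom (α := A) 2).ker) *
      Nat.card (zsmulAddGroupHom (α := A) 2).ker :=
    AddSubgroup.card_eq_card_quotient_mul_card_addSubgroup _
  have h3 : Nat.card (A ⧸ (zsmulAddGroupHom (α := A) 2).ker) =
      Nat.card (zsmulAddGroupHom (α := A) 2).range :=
    Nat.card_congr (QuotientAddGroup.quotientKerEquivRange _).toEquiv
  have h4 : Nat.card (zsmulAddGroupHom (α := A) 2).ker = rt A := by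
    refine Nat.card_congr (Equiv.subtypeEquivRight fun x => ?_)
    simp [AddMonoidHom.mem_ker, two_zsmul]
  have h5 : 0 < Nat.card (zsmulAddGroupHom (α := A) 2).range := Nat.card_pos
  rw [h3, h4, h1, mul_comm (rq A)] at h2
  exact Nat.eq_of_mul_eq_mul_left h5 h2

private lemma rq_free (n : ℕ) : rq (Fin n →₀ ℤ) = 2 ^ n := by
  let φ : (Fin n →₀ ℤ) →+ (Fin n → ZMod 2) :=
    { toFun := fun f i => ((f i : ℤ) : ZMod 2)
      map_zero' := by ext i; simp
      map_add' := fun f g => by ext i; simp }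
  have hφ : Function.Surjective φ := by
    intro g
    refine ⟨Finsupp.equivFunOnFinite.symm fun i => ((g i).val : ℤ), ?_⟩
    ext i
    simp [φ]
  have hk : φ.ker = (zsmulAddGroupHom (α := (Fin n →₀ ℤ)) 2).range := by
    ext f
    simp only [AddMonoidHom.mem_ker, AddMonoidHom.mem_range, zsmulAddGroupHom_apply]
    constructor
    · intro h
      have h' : ∀ i, (2 : ℤ) ∣ f i := by
        intro i
        have := congrFun h i
        exact (ZMod.intCast_zmod_eq_zero_iff_dvd (f i) 2).mp this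
      refine ⟨Finsupp.equivFunOnFinite.symm fun i => f i / 2, ?_⟩
      ext i
      simp [Int.mul_ediv_cancel' (h' i)]
    · rintro ⟨g, rfl⟩
      ext i
      simp only [φ, AddMonoidHom.coe_mk, ZeroHom.coe_mk, Pi.zero_apply]
      rw [ZMod.intCast_zmod_eq_zero_iff_dvd]
      exact ⟨g i, by simp⟩
  have h1 : rq (Fin n →₀ ℤ) = Nat.card (Fin n → ZMod 2) := by
    unfold rq
    rw [← hk]
    exact Nat.card_congr (QuotientAddGroup.quotientKerEquivOfSurjective φ hφ).toEquiv
  rw [h1]
  simp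

private lemma rt_free (n : ℕ) : rt (Fin n →₀ ℤ) = 1 := by
  rw [Nat.card_eq_one_iff_unique]
  refine ⟨⟨fun a b => ?_⟩, ⟨⟨0, by simp⟩⟩⟩
  have : ∀ a : {x : (Fin n →₀ ℤ) // x + x = 0}, a.1 = 0 := by
    rintro ⟨x, hx⟩
    ext i
    have := DFunLike.congr_fun hx i
    simp only [Finsupp.coe_add, Pi.add_apply, Finsupp.coe_zero, Pi.zero_apply] at this
    simp only [Finsupp.coe_zero, Pi.zero_apply]
    omega
  exact Subtype.ext ((this a).trans (this b).symm)

theorem finrank_add_eq {G : Type*} [AddCommGroup G] [Module.Finite ℤ G] (a b : ℕ)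
    (ha : Nat.card (G ⧸ (zsmulAddGroupHom (α := G) 2).range) = 2 ^ a)
    (hb : Nat.card {x : G // x + x = 0} = 2 ^ b) :
    Module.finrank ℤ G + b = a := by
  have : AddGroup.FG G := Module.Finite.iff_addGroup_fg.mp inferInstance
  obtain ⟨n, ι, fι, p, hp, e, ⟨E⟩⟩ := AddCommGroup.equiv_free_prod_directSum_zmod G
  have : ∀ i, NeZero (p i ^ e i) := fun i => ⟨pow_ne_zero _ (hp i).ne_zero⟩
  classical
  have : Finite (DirectSum ι fun i => ZMod (p i ^ e i)) :=
    Finite.of_equiv _ (DirectSum.addEquivProd (fun i => ZMod (p i ^ e i))).symm.toEquiv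
  set T := DirectSum ι fun i => ZMod (p i ^ e i)
  have h1 : rq G = 2 ^ n * rq T := by
    rw [rq_congr E, rq_prod, rq_free]
  have h2 : rt G = rt T := by
    rw [rt_congr E, rt_prod, rt_free, one_mul]
  have h3 : (2 : ℕ) ^ a = 2 ^ (n + b) := by
    rw [pow_add, ← ha, ← hb]
    rw [show Nat.card (G ⧸ (zsmulAddGroupHom (α := G) 2).range) = rq G from rfl,
      show Nat.card {x : G // x + x = 0} = rt G from rfl, h1, h2, rq_finite]
  have h4 : a = n + b := Nat.pow_right_injective le_rfl h3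
  have h5 : Module.finrank ℤ G = n := by
    have e1 : Module.finrank ℤ G = Module.finrank ℤ ((Fin n →₀ ℤ) × T) :=
      LinearEquiv.finrank_eq E.toIntLinearEquiv
    have : Module.Finite ℤ ((Fin n →₀ ℤ) × T) := Module.Finite.equiv E.toIntLinearEquiv
    have : Module.Finite ℤ T :=
      Module.Finite.of_surjective (LinearMap.snd ℤ (Fin n →₀ ℤ) T) LinearMap.snd_surjective
    have e2 := Submodule.finrank_quotient_add_finrank (R := ℤ)
      (LinearMap.ker (LinearMap.fst ℤ (Fin n →₀ ℤ) T))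
    have e3 : Module.finrank ℤ (((Fin n →₀ ℤ) × T) ⧸
        (LinearMap.ker (LinearMap.fst ℤ (Fin n →₀ ℤ) T))) = n := by
      rw [LinearEquiv.finrank_eq
        (LinearMap.quotKerEquivOfSurjective (LinearMap.fst ℤ (Fin n →₀ ℤ) T)
          LinearMap.fst_surjective)]
      simp
    have e4 : Module.finrank ℤ (LinearMap.ker (LinearMap.fst ℤ (Fin n →₀ ℤ) T)) = 0 := by
      refine (Module.finrank_eq_zero_iff_isTorsion (R := ℤ)
        (M := LinearMap.ker (LinearMap.fst ℤ (Fin n →₀ ℤ) T))).mpr ?_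
      rintro ⟨⟨x, y⟩, hx⟩
      have hx0 : x = 0 := by simpa using hx
      subst hx0
      letI : Fintype T := Fintype.ofFinite T
      refine ⟨⟨(Fintype.card T : ℤ), ?_⟩, ?_⟩
      · exact mem_nonZeroDivisors_of_ne_zero (by exact_mod_cast Fintype.card_ne_zero)
      · ext : 1
        ext : 1
        · simp
        · show (Fintype.card T : ℤ) • y = 0
          rw [natCast_zsmul]
          exact card_nsmul_eq_zero
    rw [e1, ← e2, e3, e4, add_zero]
  rw [h5, h4]

end Pool.Agent.Helper72.TD
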