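import Pool.Agent.Helper72.TD.LegCard
import Pool.Agent.Helper72.TD.MordellWeil
import Pool.Agent.Helper72.TD.Rank

/-!
The main theorems for `y² = x (x + 1) (x + g^(Q+1))`.
-/

namespace Pool.Agent.Helper72.TD

open IsDedekindDomain Polynomial WithZero

section
variable {G : Type*} [AddCommGroup G]

/-- A finitely generated abelian group `A` with a subgroup `H` such that `A = H + 2A`: the index of
`H` is odd. -/
theorem odd_index [AddGroup.FG G] (H : AddSubgroup G) (h : ∀ x : G, ∃ a ∈ H, ∃ r : G,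
    x = a + (r + r)) : Odd H.index := by
  have hfin : Module.Finite ℤ G := Module.Finite.iff_addGroup_fg.mpr inferInstance
  -- the quotient is a finitely generated module with 2 A = A
  have hfq : Module.Finite ℤ (G ⧸ H) :=
    Module.Finite.of_surjective (QuotientAddGroup.mk' H).toIntLinearMap
      (QuotientAddGroup.mk'_surjective H)
  have h2 : ∀ x : G ⧸ H, ∃ y : G ⧸ H, x = y + y := by
    intro x
    obtain ⟨g, rfl⟩ := QuotientAddGroup.mk'_surjective H x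
    obtain ⟨a, ha, r, hr⟩ := h g
    refine ⟨QuotientAddGroup.mk' H r, ?_⟩
    rw [← map_add, hr, map_add]
    have : (QuotientAddGroup.mk' H) a = 0 := by
      rw [QuotientAddGroup.mk'_apply, QuotientAddGroup.eq_zero_iff]; exact ha
    rw [this, zero_add]
  -- Nakayama
  obtain ⟨r, hr1, hr2⟩ := Submodule.exists_sub_one_mem_and_smul_eq_zero_of_fg_of_le_smul
    (Ideal.span {(2 : ℤ)}) (⊤ : Submodule ℤ (G ⧸ H)) (Module.Finite.fg_top) (by
      intro x _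
      obtain ⟨y, rfl⟩ := h2 x
      have : y + y = (2 : ℤ) • y := by rw [two_smul]
      rw [this]
      exact Submodule.smul_mem_smul (Ideal.mem_span_singleton_self _) trivial)
  have hodd : Odd r := by
    rw [Ideal.mem_span_singleton] at hr1
    obtain ⟨c, hc⟩ := hr1
    exact ⟨c, by linear_combination hc⟩
  have hr0 : r ≠ 0 := by rintro rfl; simp at hodd
  have hfinite : Finite (G ⧸ H) := by
    have htors : Module.IsTorsion ℤ (G ⧸ H) := by
      intro x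
      exact ⟨⟨r, mem_nonZeroDivisors_of_ne_zero hr0⟩, hr2 x trivial⟩
    exact Module.finite_of_fg_torsion (G ⧸ H) htors
  rw [AddSubgroup.index, ← Nat.not_even_iff_odd, even_iff_two_dvd]
  intro hdvd
  have : Fact (Nat.Prime 2) := ⟨Nat.prime_two⟩
  obtain ⟨x, hx⟩ := exists_prime_addOrderOf_dvd_card' 2 hdvd
  have h3 : addOrderOf x ∣ r.natAbs := by
    rw [← Int.natCast_dvd, addOrderOf_dvd_iff_zsmul_eq_zero]
    exact hr2 x trivial
  rw [hx] at h3
  have h4 : Odd r.natAbs := Int.natAbs_odd.mpr hodd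
  exact (Nat.not_even_iff_odd.mpr h4) (even_iff_two_dvd.mpr h3)

end

section main
variable {k : Type*} [Field k] (p f : ℕ) [hp : Fact p.Prime] [CharP k p]

theorem eq_mul_sq_of {K : Type*} [Field K] {d D r : K} (hD : D ≠ 0) (h : d * D = r * r) :
    d = D * (r / D) ^ 2 := by
  field_simp
  linear_combination h

/-- Every linear pair is the class of a sum of points `P_ζ`. -/
theorem lin_hasClass [DecidableEq (RatFunc k)] (hp2 : p ≠ 2) (g : k[X]) (hg : g.natDegree ≠ 0)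
    {μ : k} (hμ : IsPrimitiveRoot μ (p ^ f + 1))
    (hgπ : ∃ π : k[X], Irreducible π ∧ Odd π.natDegree ∧ ∃ (u : k) (n : ℕ), n ≠ 0 ∧
      g = C u * π ^ n)
    (hgζ : ∀ ζ : k, ζ ^ (p ^ f + 1) = 1 → ∃ π : k[X], Irreducible π ∧ ∃ (u : k) (n : ℕ), Odd n ∧
      g - C ζ = C u * π ^ n)
    {d1 d2 : RatFunc k} (hL : Lin g (p ^ f + 1) d1 d2) :
    ∃ P ∈ AddSubgroup.closure (ptSet g (p ^ f)), HasClass P d1 d2 := by
  have hodd : Odd (p ^ f) := (Fact.out : p.Prime).odd_of_ne_two hp2 |>.pow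
  have hev : Even (p ^ f + 1) := hodd.add_odd odd_one
  obtain ⟨T, hT, ⟨r1, hr1⟩, ⟨r2, hr2⟩⟩ := lin_imp g hg hev (Nat.succ_pos _) hμ hgπ hgζ hL
  obtain ⟨P, hPm, hP⟩ := exists_sum_point p f hp2 g hg T hT
  have hLT := lin_prod (g := g) (d := p ^ f + 1) T
    (fun ζ hζ => lin_pt g hg hev (Nat.succ_pos _) hμ (hT ζ hζ))
  have hr10 : r1 ≠ 0 := by
    rintro rfl
    exact mul_ne_zero hL.ne1 hLT.ne1 (by rw [hr1, mul_zero])
  have hr20 : r2 ≠ 0 := by
    rintro rfl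
    exact mul_ne_zero hL.ne2 hLT.ne2 (by rw [hr2, mul_zero])
  refine ⟨P, hPm, ?_⟩
  rw [eq_mul_sq_of hLT.ne1 hr1, eq_mul_sq_of hLT.ne2 hr2]
  exact (hasClass_mul_sq (div_ne_zero hr10 hLT.ne1) (div_ne_zero hr20 hLT.ne2)).mpr hP

omit hp [CharP k p] in
theorem distinct_e {g : k[X]} (hg : g.natDegree ≠ 0) :
    (0 : RatFunc k) ≠ -1 ∧ (0 : RatFunc k) ≠ -(algebraMap k[X] (RatFunc k) g ^ (p ^ f + 1)) ∧
      (-1 : RatFunc k) ≠ -(algebraMap k[X] (RatFunc k) g ^ (p ^ f + 1)) := by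
  refine ⟨by simp, ?_, ?_⟩
  · intro h
    rw [eq_comm, neg_eq_zero] at h
    exact G_ne_zero hg (pow_eq_zero_iff (Nat.succ_ne_zero _) |>.mp h)
  · intro h
    exact G_pow_ne_one hg (Nat.succ_ne_zero (p ^ f)) (neg_injective h).symm

/-- The Tate-Shafarevich group has no 2-torsion. -/
theorem els_hasPoint [DecidableEq (RatFunc k)] (hp2 : p ≠ 2) (g : k[X]) (hg : g.natDegree ≠ 0)
    {μ : k} (hμ : IsPrimitiveRoot μ (p ^ f + 1))
    (hgπ : ∃ π : k[X], Irreducible π ∧ Odd π.natDegree ∧ ∃ (u : k) (n : ℕ), n ≠ 0 ∧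
      g = C u * π ^ n)
    (hgζ : ∀ ζ : k, ζ ^ (p ^ f + 1) = 1 → ∃ π : k[X], Irreducible π ∧ ∃ (u : k) (n : ℕ), Odd n ∧
      g - C ζ = C u * π ^ n)
    {d1 d2 : RatFunc k} (hd1 : d1 ≠ 0) (hd2 : d2 ≠ 0)
    (h : ELS 0 (-1) (-(algebraMap k[X] (RatFunc k) g ^ (p ^ f + 1))) d1 d2) :
    HasPoint (RatFunc k) 0 (-1) (-(algebraMap k[X] (RatFunc k) g ^ (p ^ f + 1))) d1 d2 := by
  have := charP_ratFunc (k := k) p
  have h2 := two_ne p hp2 (RatFunc k)
  have hodd : Odd (p ^ f) := (Fact.out : p.Prime).odd_of_ne_two hp2 |>.pow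
  have hev : Even (p ^ f + 1) := hodd.add_odd odd_one
  obtain ⟨a1, a2, a3⟩ := distinct_e p f hg
  have hL := lin_of_els g hg (p ^ f + 1) hev (Nat.succ_ne_zero _) hd1 hd2 h
  obtain ⟨P, -, hP⟩ := lin_hasClass p f hp2 g hg hμ hgπ hgζ hL
  exact (hasPoint_iff h2 a1 a2 a3 hd1 hd2).mpr ⟨P, hP⟩

theorem lin_of_hasClass [DecidableEq (RatFunc k)] (hp2 : p ≠ 2) (g : k[X]) (hg : g.natDegree ≠ 0)
    {P : (curve (0 : RatFunc k) (-1)
      (-(algebraMap k[X] (RatFunc k) g ^ (p ^ f + 1)))).toAffine.Point}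
    {d1 d2 : RatFunc k} (hd1 : d1 ≠ 0) (hd2 : d2 ≠ 0) (h : HasClass P d1 d2) :
    Lin g (p ^ f + 1) d1 d2 := by
  have := charP_ratFunc (k := k) p
  have h2 := two_ne p hp2 (RatFunc k)
  have hodd : Odd (p ^ f) := (Fact.out : p.Prime).odd_of_ne_two hp2 |>.pow
  have hev : Even (p ^ f + 1) := hodd.add_odd odd_one
  obtain ⟨a1, a2, a3⟩ := distinct_e p f hg
  exact lin_of_els g hg (p ^ f + 1) hev (Nat.succ_ne_zero _) hd1 hd2
    (els_of_hasPoint ((hasPoint_iff h2 a1 a2 a3 hd1 hd2).mpr ⟨P, h⟩))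

/-- The points `P_ζ` generate `E(K)/2E(K)`. -/
theorem generate [DecidableEq (RatFunc k)] (hp2 : p ≠ 2) (g : k[X]) (hg : g.natDegree ≠ 0)
    {μ : k} (hμ : IsPrimitiveRoot μ (p ^ f + 1))
    (hgπ : ∃ π : k[X], Irreducible π ∧ Odd π.natDegree ∧ ∃ (u : k) (n : ℕ), n ≠ 0 ∧
      g = C u * π ^ n)
    (hgζ : ∀ ζ : k, ζ ^ (p ^ f + 1) = 1 → ∃ π : k[X], Irreducible π ∧ ∃ (u : k) (n : ℕ), Odd n ∧
      g - C ζ = C u * π ^ n)
    (P : (curve (0 : RatFunc k) (-1)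
      (-(algebraMap k[X] (RatFunc k) g ^ (p ^ f + 1)))).toAffine.Point) :
    ∃ a ∈ AddSubgroup.closure (ptSet g (p ^ f)), ∃ r, P = a + (r + r) := by
  have := charP_ratFunc (k := k) p
  have h2 := two_ne p hp2 (RatFunc k)
  obtain ⟨a1, a2, a3⟩ := distinct_e p f hg
  obtain ⟨d1, d2, hd1, hd2, hP⟩ := hasClass_exists a1 a2 a3 P
  have hL := lin_of_hasClass p f hp2 g hg hd1 hd2 hP
  obtain ⟨S, hSm, hS⟩ := lin_hasClass p f hp2 g hg hμ hgπ hgζ hL
  have h1 := hasClass_add h2 a1 a2 a3 hd1 hd2 hd1 hd2 hP hS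
  have h1' : HasClass (P + S) 1 1 := by
    rw [← hasClass_mul_sq hd1 hd2]
    convert h1 using 1 <;> ring
  obtain ⟨r, hr⟩ := exists_half h2 a1 a2 a3 h1'
  exact ⟨-S, neg_mem hSm, r, by rw [← hr]; abel⟩

/-- The order of `E(K)/2E(K)`. -/
theorem card_quot [DecidableEq (RatFunc k)] (hp2 : p ≠ 2) (g : k[X]) (hg : g.natDegree ≠ 0)
    {μ : k} (hμ : IsPrimitiveRoot μ (p ^ f + 1))
    (hgπ : ∃ π : k[X], Irreducible π ∧ Odd π.natDegree ∧ ∃ (u : k) (n : ℕ), n ≠ 0 ∧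
      g = C u * π ^ n)
    (hgζ : ∀ ζ : k, ζ ^ (p ^ f + 1) = 1 → ∃ π : k[X], Irreducible π ∧ ∃ (u : k) (n : ℕ), Odd n ∧
      g - C ζ = C u * π ^ n) :
    Nat.card ((curve (0 : RatFunc k) (-1)
      (-(algebraMap k[X] (RatFunc k) g ^ (p ^ f + 1)))).toAffine.Point ⧸
        (zsmulAddGroupHom (α := (curve (0 : RatFunc k) (-1)
          (-(algebraMap k[X] (RatFunc k) g ^ (p ^ f + 1)))).toAffine.Point) 2).range) =
      2 ^ (p ^ f + 1) := by
  classical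
  have := charP_ratFunc (k := k) p
  have h2 := two_ne p hp2 (RatFunc k)
  have hodd : Odd (p ^ f) := (Fact.out : p.Prime).odd_of_ne_two hp2 |>.pow
  have hev : Even (p ^ f + 1) := hodd.add_odd odd_one
  obtain ⟨a1, a2, a3⟩ := distinct_e p f hg
  set A := (curve (0 : RatFunc k) (-1)
      (-(algebraMap k[X] (RatFunc k) g ^ (p ^ f + 1)))).toAffine.Point with hA
  set N := (zsmulAddGroupHom (α := A) 2).range with hN
  have hmemN : ∀ x : A, x ∈ N ↔ ∃ r : A, x = r + r := by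
    intro x
    rw [hN, AddMonoidHom.mem_range]
    constructor
    · rintro ⟨r, rfl⟩
      exact ⟨r, by rw [zsmulAddGroupHom_apply, two_zsmul]⟩
    · rintro ⟨r, rfl⟩
      exact ⟨r, by rw [zsmulAddGroupHom_apply, two_zsmul]⟩
  set S := nthRootsFinset (p ^ f + 1) (1 : k) with hS
  have hmemS : ∀ T ∈ S.powerset, ∀ ζ ∈ T, ζ ^ (p ^ f + 1) = 1 := by
    intro T hT ζ hζ
    exact (mem_nthRootsFinset (Nat.succ_pos _) 1).mp (Finset.mem_powerset.mp hT hζ)
  have hex : ∀ T : S.powerset, ∃ P : A,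
      HasClass P (∏ ζ ∈ T.1, (RatFunc.C ζ * algebraMap k[X] (RatFunc k) g))
        (∏ ζ ∈ T.1, (RatFunc.C ζ * algebraMap k[X] (RatFunc k) g + 1)) := by
    intro T
    obtain ⟨P, -, hP⟩ := exists_sum_point p f hp2 g hg T.1 (hmemS T.1 T.2)
    exact ⟨P, hP⟩
  choose F hF using hex
  have hLT : ∀ T : S.powerset, Lin g (p ^ f + 1)
      (∏ ζ ∈ T.1, (RatFunc.C ζ * algebraMap k[X] (RatFunc k) g))
      (∏ ζ ∈ T.1, (RatFunc.C ζ * algebraMap k[X] (RatFunc k) g + 1)) := fun T =>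
    lin_prod T.1 (fun ζ hζ => lin_pt g hg hev (Nat.succ_pos _) hμ (hmemS T.1 T.2 ζ hζ))
  have hne : ∀ ζ : k, ζ ^ (p ^ f + 1) = 1 →
      RatFunc.C ζ * algebraMap k[X] (RatFunc k) g + 1 ≠ 0 := fun ζ hζ =>
    (lin_pt g hg hev (Nat.succ_pos _) hμ hζ).ne2
  have hbij : Function.Bijective (fun T : S.powerset => (QuotientAddGroup.mk (F T) : A ⧸ N)) := by
    constructor
    · intro T T' h
      rw [QuotientAddGroup.eq, hmemN] at h
      obtain ⟨r, hr⟩ := h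
      obtain ⟨c1, c2, hc1, hc2, hc⟩ := hasClass_exists a1 a2 a3 r
      have h3 := hasClass_add h2 a1 a2 a3 hc1 hc2 hc1 hc2 hc hc
      have h4 := hasClass_add h2 a1 a2 a3 (hLT T).ne1 (hLT T).ne2 (hLT T').ne1 (hLT T').ne2
        (hasClass_neg (hF T)) (hF T')
      rw [hr] at h4
      obtain ⟨-, s, hs⟩ := hasClass_unique h2 a1 a2 a3 (mul_ne_zero (hLT T).ne1 (hLT T').ne1)
        (mul_ne_zero (hLT T).ne2 (hLT T').ne2) (mul_ne_zero hc1 hc1) (mul_ne_zero hc2 hc2) h4 h3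
      have hsq : IsSquare ((∏ ζ ∈ T.1, (RatFunc.C ζ * algebraMap k[X] (RatFunc k) g + 1)) *
          ∏ ζ ∈ T'.1, (RatFunc.C ζ * algebraMap k[X] (RatFunc k) g + 1)) := by
        refine ⟨s / c2, ?_⟩
        rw [div_mul_div_comm, eq_div_iff (mul_ne_zero hc2 hc2), hs]
      apply Subtype.ext
      apply Finset.Subset.antisymm
      · exact sets_eq hg hev (Nat.succ_pos _) hgζ (hmemS T.1 T.2) (hmemS T'.1 T'.2) hne hsq
      · exact sets_eq hg hev (Nat.succ_pos _) hgζ (hmemS T'.1 T'.2) (hmemS T.1 T.2) hne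
          (by rwa [mul_comm])
    · intro x
      obtain ⟨P, rfl⟩ := QuotientAddGroup.mk_surjective x
      obtain ⟨d1, d2, hd1, hd2, hP⟩ := hasClass_exists a1 a2 a3 P
      have hL := lin_of_hasClass p f hp2 g hg hd1 hd2 hP
      obtain ⟨T, hT, ⟨r1, hr1⟩, ⟨r2, hr2⟩⟩ := lin_imp g hg hev (Nat.succ_pos _) hμ hgπ hgζ hL
      have hTS : T ∈ S.powerset := by
        rw [Finset.mem_powerset]
        intro ζ hζ
        exact (mem_nthRootsFinset (Nat.succ_pos _) 1).mpr (hT ζ hζ)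
      refine ⟨⟨T, hTS⟩, ?_⟩
      have hl := hLT ⟨T, hTS⟩
      have h1 := hasClass_add h2 a1 a2 a3 hl.ne1 hl.ne2 hd1 hd2 (hasClass_neg (hF ⟨T, hTS⟩)) hP
      have hr10 : r1 ≠ 0 := by
        rintro rfl
        exact mul_ne_zero hL.ne1 hl.ne1 (by rw [hr1, mul_zero])
      have hr20 : r2 ≠ 0 := by
        rintro rfl
        exact mul_ne_zero hL.ne2 hl.ne2 (by rw [hr2, mul_zero])
      have h1' : HasClass (-F ⟨T, hTS⟩ + P) 1 1 := by
        rw [← hasClass_mul_sq hr10 hr20]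
        convert h1 using 1
        · rw [mul_comm _ d1, hr1]; ring
        · rw [mul_comm _ d2, hr2]; ring
      obtain ⟨r, hr⟩ := exists_half h2 a1 a2 a3 h1'
      change (QuotientAddGroup.mk (F ⟨T, hTS⟩) : A ⧸ N) = QuotientAddGroup.mk P
      rw [QuotientAddGroup.eq, hmemN]
      exact ⟨r, hr⟩
  rw [← Nat.card_congr (Equiv.ofBijective _ hbij)]
  rw [Nat.card_eq_fintype_card, Fintype.card_coe, Finset.card_powerset, hS,
    hμ.card_nthRootsFinset]

end main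

end Pool.Agent.Helper72.TD
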