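import Pool.Agent.Helper72.TD.IBCompare
import Pool.Agent.Helper72.TD.IBHensel
import Pool.Agent.Helper72.TD.IBFinRes
import Pool.Agent.Helper72.TD.IBPlace
import Pool.Agent.Helper72.TD.IBInj
import Pool.Agent.Helper72.TD.IBWeakMW
import Pool.Agent.Helper72.TD.LegMain

/-!
Global comparison of the 2-Selmer groups of `E` and of its inert base change.
-/

namespace Pool.Agent.Helper72.TD

open IsDedekindDomain Polynomial WithZero

variable {k : Type*} [Field k]

/-- There is exactly one place above each bad finite place. -/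
def InertAtBad (g : k[X]) (e1 e2 e3 : RatFunc k) : Prop :=
  ∀ v : HeightOneSpectrum k[X], ¬ GoodAt (v.valuation (RatFunc k)) e1 e2 e3 →
    ∃ (π ρ : k[X]) (u : k) (m : ℕ), v.asIdeal = Ideal.span {π} ∧ Irreducible ρ ∧ Odd m ∧
      π.comp g = C u * ρ ^ m

variable [Finite k]

omit [Finite k] in
private theorem two_rat (h2 : (2 : k) ≠ 0) : (2 : RatFunc k) ≠ 0 := by
  intro h
  apply h2
  have : (algebraMap k (RatFunc k)) 2 = 0 := by rw [map_ofNat]; exact h
  exact (map_eq_zero (algebraMap k (RatFunc k))).mp this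

/-- The unique place above a bad place. -/
theorem bad_above {g : k[X]} (hg : Odd g.natDegree) (hg0 : g.natDegree ≠ 0)
    {e1 e2 e3 : RatFunc k} (hin : InertAtBad g e1 e2 e3) (v : HeightOneSpectrum k[X])
    (hv : ¬ GoodAt (v.valuation (RatFunc k)) e1 e2 e3) :
    ∃ (w : HeightOneSpectrum k[X]) (m : ℕ) (π : k[X]), v.asIdeal = Ideal.span {π} ∧
      OddOver (cmp g hg0) (v.valuation (RatFunc k)) (w.valuation (RatFunc k)) m ∧
      ∀ w' : HeightOneSpectrum k[X], π.comp g ∈ w'.asIdeal → w' = w := by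
  obtain ⟨π, ρ, u, m, h1, h2, h3, h4⟩ := hin v hv
  obtain ⟨w, -, a, b, c⟩ := inert_place g hg hg0 v h1 h2 h3 h4
  exact ⟨w, m, π, h1, ⟨h3, a, b⟩, c⟩

omit [Finite k] in
theorem infty_above [DecidableEq (RatFunc k)] {g : k[X]} (hg : Odd g.natDegree)
    (hg0 : g.natDegree ≠ 0) :
    OddOver (cmp g hg0) (RatFunc.inftyValuation k) (RatFunc.inftyValuation k) g.natDegree :=
  ⟨hg, (infty_place g hg hg0).1, (infty_place g hg hg0).2⟩

theorem good_map {K K' : Type*} [Field K] [Field K'] {φ : K →+* K'} {v : Valuation K ℤᵐ⁰}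
    {w : Valuation K' ℤᵐ⁰} {n : ℕ} (h : ∀ x, w (φ x) = v x ^ n) {e1 e2 e3 : K}
    (hgood : GoodAt v e1 e2 e3) : GoodAt w (φ e1) (φ e2) (φ e3) := by
  obtain ⟨γ, h0, h1, h2, h3⟩ := hgood
  exact ⟨γ ^ n, pow_ne_zero n h0, by rw [← map_sub, h, h1, pow_right_comm],
    by rw [← map_sub, h, h2, pow_right_comm], by rw [← map_sub, h, h3, pow_right_comm]⟩

theorem even_map {K K' : Type*} [Field K] [Field K'] {φ : K →+* K'} {v : Valuation K ℤᵐ⁰}
    {w : Valuation K' ℤᵐ⁰} {n : ℕ} (h : ∀ x, w (φ x) = v x ^ n) {d : K}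
    (hd : EvenAt v d) : EvenAt w (φ d) := by
  obtain ⟨γ, h0, h1⟩ := hd
  exact ⟨γ ^ n, pow_ne_zero n h0, by rw [h, h1, pow_right_comm]⟩

theorem els_map {g : k[X]} (hg : Odd g.natDegree) (hg0 : g.natDegree ≠ 0) (h2 : (2 : k) ≠ 0)
    {e1 e2 e3 : RatFunc k} (h12 : e1 ≠ e2) (h13 : e1 ≠ e3) (h23 : e2 ≠ e3)
    (hin : InertAtBad g e1 e2 e3) {d1 d2 : RatFunc k} (hd1 : d1 ≠ 0) (hd2 : d2 ≠ 0)
    (h : ELS e1 e2 e3 d1 d2) :
    ELS (cmp g hg0 e1) (cmp g hg0 e2) (cmp g hg0 e3) (cmp g hg0 d1) (cmp g hg0 d2) := by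
  classical
  have h2' := two_rat h2
  obtain ⟨hf, hi⟩ := h
  refine ⟨fun w => ?_, ?_⟩
  · obtain ⟨v, n, hn, hval, hmem⟩ := place_below g hg0 w
    obtain ⟨wv, hwv⟩ := localData_finite h2 v
    obtain ⟨ww, hww⟩ := localData_finite h2 w
    have hFv := finRes_finite h2 v
    have hFw := finRes_finite h2 w
    by_cases hv : GoodAt (v.valuation (RatFunc k)) e1 e2 e3
    · obtain ⟨a, b⟩ := nec_good hwv hd1 hd2 hv (hf v)
      exact hasPoint_of_good hww hFw (good_map hval hv) (even_map hval a) (even_map hval b)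
    · obtain ⟨w0, m, π, h1, ho, hu⟩ := bad_above hg hg0 hin v hv
      have : w = w0 := hu w (hmem π h1)
      subst this
      exact (compare ho hwv hww hFv hFw h2' h2' h12 h13 h23 hd1 hd2).mp (hf v)
  · obtain ⟨wv, hwv⟩ := localData_infty (k := k) h2
    have hF := finRes_infty (k := k) h2
    exact (compare (infty_above hg hg0) hwv hwv hF hF h2' h2' h12 h13 h23 hd1 hd2).mp hi

omit [Finite k] in
theorem comp_C_rat (g : k[X]) (hg0 : g.natDegree ≠ 0) (u : k) :
    cmp g hg0 (RatFunc.C u) = RatFunc.C u := by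
  rw [← RatFunc.algebraMap_C, cmp_algebraMap, C_comp]

omit [Finite k] in
theorem exists_gen (v : HeightOneSpectrum k[X]) : ∃ π : k[X], v.asIdeal = Ideal.span {π} ∧
    π ≠ 0 ∧ v.valuation (RatFunc k) (algebraMap k[X] (RatFunc k) π) = exp (-1 : ℤ) := by
  obtain ⟨π, hπ⟩ := (IsPrincipalIdealRing.principal v.asIdeal).principal
  have h1 : v.asIdeal = Ideal.span {π} := hπ
  have h0 : π ≠ 0 := by
    rintro rfl
    apply v.ne_bot
    rw [h1]
    simp
  refine ⟨π, h1, h0, ?_⟩
  rw [HeightOneSpectrum.valuation_of_algebraMap, HeightOneSpectrum.intValuation_singleton v h0 h1]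

omit [Finite k] in
/-- The value of a generator at another place. -/
theorem val_gen_ne {v v' : HeightOneSpectrum k[X]} (hne : v ≠ v') {π : k[X]}
    (hv : v.asIdeal = Ideal.span {π}) :
    v'.valuation (RatFunc k) (algebraMap k[X] (RatFunc k) π) = 1 := by
  have hle := v'.valuation_le_one (K := RatFunc k) π
  rcases lt_or_eq_of_le hle with h | h
  · exfalso
    rw [HeightOneSpectrum.valuation_lt_one_iff_mem] at h
    apply hne
    have h1 : v.asIdeal ≤ v'.asIdeal := by
      rw [hv, Ideal.span_singleton_le_iff_mem]; exact h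
    have h2 : v.asIdeal.IsMaximal := v.isMaximal
    exact HeightOneSpectrum.ext (h2.eq_of_le v'.isPrime.ne_top h1)
  · exact h

omit [Finite k] in
theorem val_const (v : HeightOneSpectrum k[X]) {u : k} (hu : u ≠ 0) :
    v.valuation (RatFunc k) (RatFunc.C u) = 1 := by
  have h1 : ∀ c : k, v.valuation (RatFunc k) (RatFunc.C c) ≤ 1 := by
    intro c
    rw [← RatFunc.algebraMap_C]
    exact v.valuation_le_one (K := RatFunc k) (C c)
  have h2 : v.valuation (RatFunc k) (RatFunc.C u) * v.valuation (RatFunc k) (RatFunc.C u⁻¹) = 1 := by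
    rw [← map_mul, ← map_mul, mul_inv_cancel₀ hu, map_one, map_one]
  refine le_antisymm (h1 u) ?_
  rw [← h2]
  exact mul_le_of_le_one_right' (h1 _)

omit [Finite k] in
theorem evenAt_of_val_one {K : Type*} [Field K] {v : Valuation K ℤᵐ⁰} {x : K} (h : v x = 1) :
    EvenAt v x := ⟨1, one_ne_zero, by rw [h, one_pow]⟩

omit [Finite k] in
theorem evenAt_mul_one_iff {K : Type*} [Field K] {v : Valuation K ℤᵐ⁰} {x y : K} (h : v y = 1) :
    EvenAt v (x * y) ↔ EvenAt v x := by
  unfold EvenAt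
  rw [map_mul, h, mul_one]

/-- A class which is even outside the places above the bad places descends. -/
theorem descend {g : k[X]} (hg : Odd g.natDegree) (hg0 : g.natDegree ≠ 0)
    {e1 e2 e3 : RatFunc k} (h12 : e1 ≠ e2) (h13 : e1 ≠ e3) (h23 : e2 ≠ e3)
    (hin : InertAtBad g e1 e2 e3) {D : RatFunc k} (hD : D ≠ 0)
    (heven : ∀ w : HeightOneSpectrum k[X],
      GoodAt (w.valuation (RatFunc k)) (cmp g hg0 e1) (cmp g hg0 e2) (cmp g hg0 e3) →
        EvenAt (w.valuation (RatFunc k)) D) :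
    ∃ d s : RatFunc k, d ≠ 0 ∧ s ≠ 0 ∧ D = cmp g hg0 d * s ^ 2 ∧
      ∀ v : HeightOneSpectrum k[X], GoodAt (v.valuation (RatFunc k)) e1 e2 e3 →
        EvenAt (v.valuation (RatFunc k)) d := by
  classical
  have key : ∀ v : HeightOneSpectrum k[X], ∃ (w : HeightOneSpectrum k[X]) (m : ℕ) (π : k[X]),
      v.asIdeal = Ideal.span {π} ∧ (¬ GoodAt (v.valuation (RatFunc k)) e1 e2 e3 →
      OddOver (cmp g hg0) (v.valuation (RatFunc k)) (w.valuation (RatFunc k)) m ∧
      ∀ w' : HeightOneSpectrum k[X], π.comp g ∈ w'.asIdeal → w' = w) := by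
    intro v
    by_cases hv : GoodAt (v.valuation (RatFunc k)) e1 e2 e3
    · obtain ⟨π, h1, -⟩ := exists_gen v
      exact ⟨v, 0, π, h1, fun h => absurd hv h⟩
    · obtain ⟨w, m, π, h1, h2, h3⟩ := bad_above hg hg0 hin v hv
      exact ⟨w, m, π, h1, fun _ => ⟨h2, h3⟩⟩
  choose W M Gn hG hW using key
  have hG0 : ∀ v, Gn v ≠ 0 := by
    intro v h
    apply v.ne_bot
    rw [hG v, h]
    simp
  have hGv : ∀ v : HeightOneSpectrum k[X],
      v.valuation (RatFunc k) (algebraMap k[X] (RatFunc k) (Gn v)) = exp (-1 : ℤ) := by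
    intro v
    rw [HeightOneSpectrum.valuation_of_algebraMap,
      HeightOneSpectrum.intValuation_singleton v (hG0 v) (hG v)]
  have hGodd : ∀ v : HeightOneSpectrum k[X],
      ¬ EvenAt (v.valuation (RatFunc k)) (algebraMap k[X] (RatFunc k) (Gn v)) := by
    intro v
    rw [evenAt_iff_exp _ (hGv v)]
    decide
  have hGa : ∀ v, algebraMap k[X] (RatFunc k) (Gn v) ≠ 0 := fun v =>
    (map_ne_zero_iff _ (RatFunc.algebraMap_injective k)).mpr (hG0 v)
  set B := (finite_bad h12 h13 h23).toFinset with hB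
  set S := B.filter (fun v => ¬ EvenAt ((W v).valuation (RatFunc k)) D) with hS
  set d0 : RatFunc k := ∏ v ∈ S, algebraMap k[X] (RatFunc k) (Gn v) with hd0
  have hd00 : d0 ≠ 0 := Finset.prod_ne_zero_iff.mpr fun v _ => hGa v
  have hφd0 : cmp g hg0 d0 ≠ 0 := (map_ne_zero (cmp g hg0)).mpr hd00
  -- all the values outside
  have hout : ∀ (v : HeightOneSpectrum k[X]) (T : Finset (HeightOneSpectrum k[X])), v ∉ T →
      v.valuation (RatFunc k) (∏ v' ∈ T, algebraMap k[X] (RatFunc k) (Gn v')) = 1 := by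
    intro v T hvT
    rw [map_prod]
    apply Finset.prod_eq_one
    intro v' hv'
    exact val_gen_ne (fun h => hvT (by rw [← h]; exact hv')) (hG v')
  have hall : ∀ w : HeightOneSpectrum k[X],
      EvenAt (w.valuation (RatFunc k)) (D * cmp g hg0 d0) := by
    intro w
    obtain ⟨v, n, hn, hval, hmem⟩ := place_below g hg0 w
    by_cases hvS : v ∈ S
    · have hvS' := hvS
      rw [hS, Finset.mem_filter, hB, Set.Finite.mem_toFinset] at hvS'
      obtain ⟨hbad, hodd⟩ := hvS'
      obtain ⟨ho, hu⟩ := hW v hbad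
      have hw : w = W v := hu w (hmem _ (hG v))
      rw [← hw] at hodd ho
      have e : D * cmp g hg0 d0 = D * cmp g hg0 (algebraMap k[X] (RatFunc k) (Gn v)) *
          cmp g hg0 (∏ v' ∈ S.erase v, algebraMap k[X] (RatFunc k) (Gn v')) := by
        rw [hd0, ← Finset.mul_prod_erase S _ hvS, map_mul, mul_assoc]
      rw [e, evenAt_mul_one_iff]
      · apply evenAt_of_odd_odd _ hD ((map_ne_zero (cmp g hg0)).mpr (hGa v)) hodd
        rw [ho.even_iff (hGa v)]
        exact hGodd v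
      · rw [hval, hout v _ (Finset.notMem_erase v S), one_pow]
    · rw [evenAt_mul_one_iff]
      · by_cases hv : GoodAt (v.valuation (RatFunc k)) e1 e2 e3
        · exact heven w (good_map hval hv)
        · obtain ⟨ho, hu⟩ := hW v hv
          have hw : w = W v := hu w (hmem _ (hG v))
          rw [hw]
          by_contra hodd
          apply hvS
          rw [hS, Finset.mem_filter, hB, Set.Finite.mem_toFinset]
          exact ⟨hv, hodd⟩
      · rw [hval, hout v _ hvS, one_pow]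
  obtain ⟨u, s, hu, hs, he⟩ := const_of_even (mul_ne_zero hD hφd0) hall
  have hCu : (RatFunc.C u : RatFunc k) ≠ 0 := (_root_.map_ne_zero RatFunc.C).mpr hu
  refine ⟨RatFunc.C u * d0, s / cmp g hg0 d0, mul_ne_zero hCu hd00, div_ne_zero hs hφd0, ?_, ?_⟩
  · rw [map_mul, comp_C_rat]
    field_simp
    rw [he]
  · intro v hv
    apply evenAt_of_val_one
    rw [map_mul, val_const v hu, one_mul]
    apply hout
    rw [hS, Finset.mem_filter, hB, Set.Finite.mem_toFinset]
    exact fun h => h.1 hv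

end Pool.Agent.Helper72.TD
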