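import Pool.Agent.Helper72.TD.IBDefs

/-!
OD-3: the kernel of the evaluation `K[Y] → k(t)`, `x ↦ g(t)`, `Y ↦ t`, where `K = k(x)`.
-/

namespace Pool.Agent.Helper72.TD

open Polynomial

variable {k : Type*} [Field k]

/-- Proof. Clear denominators (`IsLocalization.integerNormalization`): for some nonzero `s ∈ k[x]`,
`s A` is the image of some `A' ∈ k[x][Y]`. Let `ψ : k[x][Y] → k[t]` be the ring homomorphism
`x ↦ g`, `Y ↦ t` (`eval₂RingHom (compRingHom g) X`). As `k[t] → k(t)` is injective and by
`cmp_algebraMap`, `ψ A' = 0`. Let `I = span {g.map C - C X}` in `k[x][Y]`. The two ring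
homomorphisms `k[x][Y] → k[x][Y] / I`, the projection and `A' ↦ [(ψ A').map C]`, agree on the
constants of `k`, on `x` and on `Y`, so they are equal (`Polynomial.ringHom_ext`). Hence
`A' ∈ I`, and mapping to `k(x)[Y]`, where `s` is a unit, gives the claim. -/
theorem dvd_of_eval (g : k[X]) (hg : g.natDegree ≠ 0) (A : (RatFunc k)[X])
    (h : eval₂ (cmp g hg) RatFunc.X A = 0) :
    (g.map (algebraMap k (RatFunc k)) - C RatFunc.X) ∣ A := by
  obtain ⟨s, hsM, hs⟩ := IsLocalization.integerNormalization_spec (nonZeroDivisors k[X]) A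
  set N : k[X][X] := IsLocalization.integerNormalization (nonZeroDivisors k[X]) A with hN
  have hs0 : algebraMap k[X] (RatFunc k) s ≠ 0 :=
    IsFractionRing.to_map_ne_zero_of_mem_nonZeroDivisors hsM
  have hsA : N.map (algebraMap k[X] (RatFunc k)) = C (algebraMap k[X] (RatFunc k) s) * A := by
    rw [hs, ← smul_eq_C_mul, algebraMap_smul]
  let ψ : k[X][X] →+* k[X] := eval₂RingHom (compRingHom g) X
  have hψ : ψ N = 0 := by
    apply IsFractionRing.injective k[X] (RatFunc k)
    have h1 : algebraMap k[X] (RatFunc k) (ψ N) =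
        eval₂ (cmp g hg) RatFunc.X (N.map (algebraMap k[X] (RatFunc k))) := by
      rw [eval₂_map]
      change algebraMap k[X] (RatFunc k) (eval₂ (compRingHom g) X N) = _
      rw [hom_eval₂, RatFunc.algebraMap_X]
      congr 1
      refine RingHom.ext fun f => ?_
      exact (cmp_algebraMap g hg f).symm
    rw [h1, hsA, eval₂_mul, h, mul_zero, map_zero]
  let I : Ideal k[X][X] := Ideal.span {g.map C - C X}
  let π : k[X][X] →+* k[X][X] ⧸ I := Ideal.Quotient.mk I
  have hπ : π = (π.comp (mapRingHom (C : k →+* k[X]))).comp ψ := by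
    apply Polynomial.ringHom_ext'
    · apply Polynomial.ringHom_ext
      · intro a
        simp [ψ, π]
      · simp only [RingHom.comp_apply, ψ, coe_eval₂RingHom, eval₂_C, coe_compRingHom_apply, X_comp,
          coe_mapRingHom, π]
        rw [eq_comm, Ideal.Quotient.eq]
        exact Ideal.subset_span rfl
    · simp [ψ, π]
  have hNI : N ∈ I := by
    rw [← Ideal.Quotient.eq_zero_iff_mem]
    change π N = 0
    rw [hπ, RingHom.comp_apply, hψ, map_zero]
  obtain ⟨B, hB⟩ := Ideal.mem_span_singleton'.1 hNI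
  have h2 : (g.map (algebraMap k (RatFunc k)) - C RatFunc.X) ∣
      C (algebraMap k[X] (RatFunc k) s) * A := by
    refine ⟨B.map (algebraMap k[X] (RatFunc k)), ?_⟩
    rw [← hsA, ← hB, Polynomial.map_mul, Polynomial.map_sub, Polynomial.map_map, map_C,
      RatFunc.algebraMap_X, mul_comm]
    rfl
  have hu : IsUnit (C (algebraMap k[X] (RatFunc k) s)) :=
    isUnit_C.2 (isUnit_iff_ne_zero.2 hs0)
  exact (hu.dvd_mul_left).1 h2

/-- A nonzero vector of rational functions is a multiple of a unimodular vector of polynomials. -/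
theorem exists_primitive_vector {ι : Type*} [Fintype ι] (z : ι → RatFunc k) (hz : z ≠ 0) :
    ∃ (w b : ι → k[X]) (s : RatFunc k), s ≠ 0 ∧ ∑ i, b i * w i = 1 ∧
      ∀ i, z i = s * algebraMap k[X] (RatFunc k) (w i) := by
  obtain ⟨d, hd⟩ := IsLocalization.exist_integer_multiples_of_finite (nonZeroDivisors k[X]) z
  choose n hn using hd
  have hd0 : algebraMap k[X] (RatFunc k) (d : k[X]) ≠ 0 :=
    IsFractionRing.to_map_ne_zero_of_mem_nonZeroDivisors d.2
  have hn' : ∀ i, algebraMap k[X] (RatFunc k) (n i) = algebraMap k[X] (RatFunc k) d * z i := by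
    intro i
    rw [hn i, Algebra.smul_def]
  let I : Ideal k[X] := Ideal.span (Set.range n)
  obtain ⟨m, hm⟩ := (IsPrincipalIdealRing.principal I).principal
  have hm' : I = Ideal.span {m} := hm
  have hmem : ∀ i, ∃ w : k[X], n i = m * w := by
    intro i
    have h1 : n i ∈ I := Ideal.subset_span ⟨i, rfl⟩
    rw [hm', Ideal.mem_span_singleton] at h1
    exact h1
  choose w hw using hmem
  have hmI : m ∈ I := by rw [hm']; exact Ideal.mem_span_singleton_self m
  obtain ⟨b, hb⟩ := (Ideal.mem_span_range_iff_exists_fun).1 hmI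
  have hm0 : m ≠ 0 := by
    rintro rfl
    apply hz
    funext i
    have h1 := hn' i
    rw [hw i, zero_mul, map_zero] at h1
    exact (mul_eq_zero.1 h1.symm).resolve_left hd0
  have hma : algebraMap k[X] (RatFunc k) m ≠ 0 := by
    intro h
    exact hm0 (IsFractionRing.injective k[X] (RatFunc k) (by rw [h, map_zero]))
  refine ⟨w, b, algebraMap k[X] (RatFunc k) m / algebraMap k[X] (RatFunc k) d,
    div_ne_zero hma hd0, ?_, fun i => ?_⟩
  · apply mul_left_cancel₀ hm0
    rw [mul_one, Finset.mul_sum]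
    conv_rhs => rw [← hb]
    refine Finset.sum_congr rfl fun i _ => ?_
    rw [hw i]
    ring
  · have h1 := hn' i
    rw [hw i, map_mul] at h1
    rw [div_mul_eq_mul_div, h1, mul_div_cancel_left₀ _ hd0]

end Pool.Agent.Helper72.TD
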