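import Pool.Agent.Helper72.TD.Springer
import Pool.Agent.Helper72.TD.AmerBrumer
import Pool.Agent.Helper72.TD.OddKernel
import Pool.Agent.Helper72.TD.IBDefs

/-!
A 2-covering over `k(t)` which acquires a point after an odd degree substitution has a point.
-/

namespace Pool.Agent.Helper72.TD

open Polynomial

variable {k : Type*} [Field k]

private theorem natDegree_gx (g : k[X]) (hg : g.natDegree ≠ 0) :
    (g.map (algebraMap k (RatFunc k)) - C (RatFunc.X : RatFunc k)).natDegree = g.natDegree := by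
  rw [natDegree_sub_C, natDegree_map]

private theorem eval_w (g : k[X]) (hg : g.natDegree ≠ 0) (w : k[X]) :
    eval₂ (cmp g hg) RatFunc.X (w.map (algebraMap k (RatFunc k))) =
      algebraMap k[X] (RatFunc k) w := by
  have hC : (cmp g hg).comp (algebraMap k (RatFunc k)) = algebraMap k (RatFunc k) := by
    ext c
    have h1 : (algebraMap k (RatFunc k)) c = algebraMap k[X] (RatFunc k) (C c) := by
      rw [IsScalarTower.algebraMap_apply k k[X] (RatFunc k) c]
      rfl
    rw [RingHom.comp_apply, h1, cmp_algebraMap, C_comp]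
  rw [eval₂_map, hC]
  induction w using Polynomial.induction_on' with
  | add p q hp hq => rw [eval₂_add, hp, hq, map_add]
  | monomial n a =>
    rw [eval₂_monomial, ← C_mul_X_pow_eq_monomial, map_mul, map_pow, RatFunc.algebraMap_X,
      RatFunc.algebraMap_C]
    rfl

/-- A covering with a point after an odd substitution has a point. -/
theorem hasPoint_of_cmp (h2 : (2 : k) ≠ 0) {g : k[X]} (hg : Odd g.natDegree)
    (hg0 : g.natDegree ≠ 0) {e1 e2 e3 d1 d2 : RatFunc k}
    (h : HasPoint (RatFunc k) (cmp g hg0 e1) (cmp g hg0 e2) (cmp g hg0 e3) (cmp g hg0 d1)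
      (cmp g hg0 d2)) : HasPoint (RatFunc k) e1 e2 e3 d1 d2 := by
  classical
  have h2' : (2 : RatFunc k) ≠ 0 := by
    intro h
    apply h2
    have : (algebraMap k (RatFunc k)) 2 = 0 := by rw [map_ofNat]; exact h
    exact (_root_.map_eq_zero (algebraMap k (RatFunc k))).mp this
  obtain ⟨z0, z1, z2, z3, hz, h1, h3⟩ := h
  simp only [Algebra.algebraMap_self, RingHom.id_apply] at h1 h3
  -- primitive vector
  set z : Fin 4 → RatFunc k := ![z0, z1, z2, z3] with hzdef
  have hz' : z ≠ 0 := by
    intro h0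
    apply hz
    have := fun i => congrFun h0 i
    exact ⟨this 0, this 1, this 2, this 3⟩
  obtain ⟨w, b, s, hs, hb, hw⟩ := exists_primitive_vector z hz'
  have w0 : z0 = s * algebraMap k[X] (RatFunc k) (w 0) := hw 0
  have w1 : z1 = s * algebraMap k[X] (RatFunc k) (w 1) := hw 1
  have w2 : z2 = s * algebraMap k[X] (RatFunc k) (w 2) := hw 2
  have w3 : z3 = s * algebraMap k[X] (RatFunc k) (w 3) := hw 3
  have hs2 : s ^ 2 ≠ 0 := pow_ne_zero 2 hs
  -- polynomials over K = k(x)
  set W : Fin 4 → (RatFunc k)[X] := fun i => (w i).map (algebraMap k (RatFunc k)) with hW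
  set P : (RatFunc k)[X] := g.map (algebraMap k (RatFunc k)) - C RatFunc.X with hP
  have hA1 : P ∣ C d1 * W 1 ^ 2 - C d2 * W 2 ^ 2 - C (e2 - e1) * W 0 ^ 2 := by
    apply dvd_of_eval g hg0
    simp only [eval₂_sub, eval₂_mul, eval₂_pow, eval₂_C, hW, eval_w]
    apply mul_left_cancel₀ hs2
    rw [w1, w2, w0] at h1
    rw [mul_zero, map_sub]
    linear_combination h1
  have hA2 : P ∣ C d1 * W 1 ^ 2 - C (d1 * d2) * W 3 ^ 2 - C (e3 - e1) * W 0 ^ 2 := by
    apply dvd_of_eval g hg0
    simp only [eval₂_sub, eval₂_mul, eval₂_pow, eval₂_C, hW, eval_w]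
    apply mul_left_cancel₀ hs2
    rw [w1, w3, w0] at h3
    rw [mul_zero, map_sub, map_mul]
    linear_combination h3
  -- the pencil over F = K(T)
  set a : Fin 4 → RatFunc k := ![-(e2 - e1), d1, -d2, 0] with ha
  set c : Fin 4 → RatFunc k := ![-(e3 - e1), d1, 0, -(d1 * d2)] with hc
  let F := RatFunc (RatFunc k)
  let ι : RatFunc k →+* F := RatFunc.C
  let A : Fin 4 → F := fun i => RatFunc.C (a i) + RatFunc.X * RatFunc.C (c i)
  let V : Fin 4 → F[X] := fun i => (W i).map ι
  have hPdeg : Odd (P.map ι).natDegree := by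
    rw [natDegree_map, hP, natDegree_gx g hg0]
    exact hg
  have hunim : ∑ i, ((b i).map (algebraMap k (RatFunc k))).map ι * V i + 0 * P.map ι = 1 := by
    have e : ∑ i, ((b i).map (algebraMap k (RatFunc k))).map ι * V i =
        ((∑ i, b i * w i).map (algebraMap k (RatFunc k))).map ι := by
      rw [Polynomial.map_sum, Polynomial.map_sum]
      apply Finset.sum_congr rfl
      intro i _
      rw [Polynomial.map_mul, Polynomial.map_mul]
    rw [e, hb]
    simp
  have hdvd : P.map ι ∣ ∑ i, C (A i) * V i ^ 2 := by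
    have e : ∑ i, C (A i) * V i ^ 2 =
        (C d1 * W 1 ^ 2 - C d2 * W 2 ^ 2 - C (e2 - e1) * W 0 ^ 2).map ι +
        C RatFunc.X * (C d1 * W 1 ^ 2 - C (d1 * d2) * W 3 ^ 2 - C (e3 - e1) * W 0 ^ 2).map ι := by
      simp only [Fin.sum_univ_four, A, V, ha, hc, Polynomial.map_sub, Polynomial.map_mul,
        Polynomial.map_pow, Polynomial.map_C, Matrix.cons_val, map_add, map_mul, map_neg, map_zero]
      simp only [ι, map_sub, map_mul]
      ring
    rw [e]
    exact dvd_add (Polynomial.map_dvd ι hA1) (dvd_mul_of_dvd_right (Polynomial.map_dvd ι hA2) _)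
  obtain ⟨y, hy, hy0⟩ := springer A (P.map ι) hPdeg V _ 0 hunim hdvd
  obtain ⟨x, hx, hx1, hx2⟩ := amer_brumer h2' a c y hy hy0
  refine ⟨x 0, x 1, x 2, x 3, ?_, ?_, ?_⟩
  · rintro ⟨c0, c1, c2, c3⟩
    apply hx
    funext i
    fin_cases i
    exacts [c0, c1, c2, c3]
  · simp only [Fin.sum_univ_four, ha, Matrix.cons_val] at hx1
    simp only [Algebra.algebraMap_self, RingHom.id_apply]
    linear_combination hx1
  · simp only [Fin.sum_univ_four, hc, Matrix.cons_val] at hx2
    simp only [Algebra.algebraMap_self, RingHom.id_apply]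
    linear_combination hx2

end Pool.Agent.Helper72.TD
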