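import Pool.Agent.Helper72.TD.IBRank
import Pool.Agent.Helper72.TD.IBOdd

/-!
The inert base change theorem.
-/

namespace Pool.Agent.Helper72.TD

open IsDedekindDomain Polynomial WithZero

variable {k : Type*} [Field k]

/-- The degree of a place below divides the degree of the place above. -/
theorem natDegree_dvd_of_comp {π ρ g : k[X]} (hπ : Irreducible π) (hρ : Irreducible ρ)
    (h : ρ ∣ π.comp g) : π.natDegree ∣ ρ.natDegree := by
  have f1 : Fact (Irreducible π) := ⟨hπ⟩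
  have f2 : Fact (Irreducible ρ) := ⟨hρ⟩
  have hev : π.eval₂ (algebraMap k (AdjoinRoot ρ)) (AdjoinRoot.mk ρ g) = 0 := by
    have h1 : AdjoinRoot.mk ρ (π.comp g) = 0 := AdjoinRoot.mk_eq_zero.mpr h
    rw [Polynomial.comp, Polynomial.hom_eval₂] at h1
    exact h1
  let φ : AdjoinRoot π →+* AdjoinRoot ρ := AdjoinRoot.lift (algebraMap k (AdjoinRoot ρ)) _ hev
  letI : Algebra (AdjoinRoot π) (AdjoinRoot ρ) := φ.toAlgebra
  have : IsScalarTower k (AdjoinRoot π) (AdjoinRoot ρ) := by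
    apply IsScalarTower.of_algebraMap_eq
    intro c
    change _ = φ (AdjoinRoot.of π c)
    rw [AdjoinRoot.lift_of]
  have hfin : Module.Finite k (AdjoinRoot ρ) := (AdjoinRoot.powerBasis hρ.ne_zero).finite
  have d1 : Module.finrank k (AdjoinRoot π) = π.natDegree := by
    rw [(AdjoinRoot.powerBasis hπ.ne_zero).finrank, AdjoinRoot.powerBasis_dim]
  have d2 : Module.finrank k (AdjoinRoot ρ) = ρ.natDegree := by
    rw [(AdjoinRoot.powerBasis hρ.ne_zero).finrank, AdjoinRoot.powerBasis_dim]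
  rw [← d1, ← d2]
  exact ⟨_, (Module.finrank_mul_finrank k (AdjoinRoot π) (AdjoinRoot ρ)).symm⟩

theorem odd_of_oneAbove {π ρ g : k[X]} {u : k} {m : ℕ} (hπ : Irreducible π) (hρ : Irreducible ρ)
    (hg : Odd g.natDegree) (h : π.comp g = C u * ρ ^ m) : Odd m := by
  have hg0 : 0 < g.natDegree := hg.pos
  have hπ0 : 0 < π.natDegree := hπ.natDegree_pos
  have hdeg : π.natDegree * g.natDegree = m * ρ.natDegree := by
    have hu : u ≠ 0 := by
      rintro rfl
      rw [C_0, zero_mul] at h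
      have := congrArg natDegree h
      rw [natDegree_comp, natDegree_zero] at this
      exact absurd this (Nat.mul_pos hπ0 hg0).ne'
    rw [← natDegree_comp, h, natDegree_C_mul hu, natDegree_pow]
  have hm : m ≠ 0 := by
    rintro rfl
    rw [zero_mul] at hdeg
    exact absurd hdeg (Nat.mul_pos hπ0 hg0).ne'
  obtain ⟨c, hc⟩ := natDegree_dvd_of_comp (g := g) hπ hρ
    (by rw [h]; exact dvd_mul_of_dvd_right (dvd_pow_self ρ hm) _)
  have : g.natDegree = m * c := by
    apply Nat.eq_of_mul_eq_mul_left hπ0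
    rw [hdeg, hc]
    ring
  rw [this] at hg
  exact (Nat.odd_mul.mp hg).1

/-- There is exactly one place above each bad finite place: for a generator `π` of the place, the
polynomial `π ∘ g` is a constant times a power of one irreducible polynomial. -/
def OneAbove (g : k[X]) (e1 e2 e3 : RatFunc k) : Prop :=
  ∀ v : HeightOneSpectrum k[X], ¬ GoodAt (v.valuation (RatFunc k)) e1 e2 e3 →
    ∃ (π ρ : k[X]) (u : k) (m : ℕ), v.asIdeal = Ideal.span {π} ∧ Irreducible ρ ∧
      π.comp g = C u * ρ ^ m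

theorem OneAbove.inert {g : k[X]} (hg : Odd g.natDegree) {e1 e2 e3 : RatFunc k}
    (h : OneAbove g e1 e2 e3) : InertAtBad g e1 e2 e3 := by
  intro v hv
  obtain ⟨π, ρ, u, m, h1, h2, h3⟩ := h v hv
  have hπ : Irreducible π := by
    have hp := v.isPrime
    rw [h1] at hp
    have hne : π ≠ 0 := by
      rintro rfl
      apply v.ne_bot
      rw [h1]
      simp
    exact ((Ideal.span_singleton_prime hne).mp hp).irreducible
  exact ⟨π, ρ, u, m, h1, h2, odd_of_oneAbove hπ h2 hg h3, h3⟩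

variable [Finite k]

/-- The Mordell-Weil groups. -/
theorem points_transfer' [DecidableEq (RatFunc k)] {g : k[X]} (hg : Odd g.natDegree)
    (hg0 : g.natDegree ≠ 0) (h2 : (2 : k) ≠ 0)
    {e1 e2 e3 : RatFunc k} (h12 : e1 ≠ e2) (h13 : e1 ≠ e3) (h23 : e2 ≠ e3)
    (hin : InertAtBad g e1 e2 e3) :
    AddGroup.FG (curve (cmp g hg0 e1) (cmp g hg0 e2) (cmp g hg0 e3)).toAffine.Point ∧
    Module.finrank ℤ (curve (cmp g hg0 e1) (cmp g hg0 e2) (cmp g hg0 e3)).toAffine.Point =
      Module.finrank ℤ (curve e1 e2 e3).toAffine.Point ∧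
    ∃ f : (curve e1 e2 e3).toAffine.Point →+
        (curve (cmp g hg0 e1) (cmp g hg0 e2) (cmp g hg0 e3)).toAffine.Point,
      Function.Injective f ∧
      (∀ (x y : RatFunc k) (h : (curve e1 e2 e3).toAffine.Nonsingular x y),
        ∃ h' : (curve (cmp g hg0 e1) (cmp g hg0 e2) (cmp g hg0 e3)).toAffine.Nonsingular
          (cmp g hg0 x) (cmp g hg0 y), f (.some x y h) = .some (cmp g hg0 x) (cmp g hg0 y) h') ∧
      Odd f.range.index := by
  have h2' : (2 : RatFunc k) ≠ 0 := by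
    intro h
    apply h2
    have : (algebraMap k (RatFunc k)) 2 = 0 := by rw [map_ofNat]; exact h
    exact (_root_.map_eq_zero (algebraMap k (RatFunc k))).mp this
  have inj := (cmp g hg0).injective
  have i12 := inj.ne h12
  have i13 := inj.ne h13
  have i23 := inj.ne h23
  have hFG : AddGroup.FG (curve (cmp g hg0 e1) (cmp g hg0 e2) (cmp g hg0 e3)).toAffine.Point :=
    mordell_weil h2 i12 i13 i23 (weak_mw h2 i12 i13 i23)
  obtain ⟨f, hf, hform⟩ := exists_hom (cmp g hg0) e1 e2 e3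
  have hodd : Odd f.range.index := by
    apply odd_index
    intro P
    obtain ⟨D1, D2, hD1, hD2, hP⟩ := hasClass_exists i12 i13 i23 P
    have hpt : HasPoint (RatFunc k) (cmp g hg0 e1) (cmp g hg0 e2) (cmp g hg0 e3) D1 D2 :=
      (hasPoint_iff h2' i12 i13 i23 hD1 hD2).mpr ⟨P, hP⟩
    have hels := els_of_hasPoint hpt
    obtain ⟨d1, d2, s1, s2, hd1, hd2, hs1, hs2, a1, a2, he⟩ :=
      els_descend hg hg0 h2 h12 h13 h23 hin hD1 hD2 hels
    have hφ1 : cmp g hg0 d1 ≠ 0 := (_root_.map_ne_zero (cmp g hg0)).mpr hd1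
    have hφ2 : cmp g hg0 d2 ≠ 0 := (_root_.map_ne_zero (cmp g hg0)).mpr hd2
    have hpt' : HasPoint (RatFunc k) (cmp g hg0 e1) (cmp g hg0 e2) (cmp g hg0 e3)
        (cmp g hg0 d1) (cmp g hg0 d2) :=
      (hasPoint_of_eq_mul_sq (RatFunc k) hφ1 hφ2 hs1 hs2 a1 a2).mp hpt
    obtain ⟨P0, hP0⟩ := (hasPoint_iff h2' h12 h13 h23 hd1 hd2).mp (hasPoint_of_cmp h2 hg hg0 hpt')
    have hc := hasClass_hom (cmp g hg0) hform hP0
    have hsum := hasClass_add h2' i12 i13 i23 hD1 hD2 hφ1 hφ2 hP hc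
    have e1' : D1 * cmp g hg0 d1 = 1 * (cmp g hg0 d1 * s1) ^ 2 := by rw [a1]; ring
    have e2' : D2 * cmp g hg0 d2 = 1 * (cmp g hg0 d2 * s2) ^ 2 := by rw [a2]; ring
    rw [e1', e2', hasClass_mul_sq (mul_ne_zero hφ1 hs1) (mul_ne_zero hφ2 hs2)] at hsum
    obtain ⟨Q, hQ⟩ := exists_half h2' i12 i13 i23 hsum
    refine ⟨f (-P0), ⟨-P0, rfl⟩, Q, ?_⟩
    rw [map_neg, ← hQ]
    abel
  refine ⟨hFG, ?_, f, hf, hform, hodd⟩
  have hfin : Module.Finite ℤ
      (curve (cmp g hg0 e1) (cmp g hg0 e2) (cmp g hg0 e3)).toAffine.Point :=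
    Module.Finite.iff_addGroup_fg.mpr hFG
  refine (finrank_eq_of_index f hf ?_).symm
  intro h0
  rw [h0] at hodd
  exact absurd hodd (by decide)

end Pool.Agent.Helper72.TD
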