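import Pool.Agent.Helper72.TD.IBDefs
import Pool.Agent.Helper72.TD.Transfer
import Pool.Agent.Helper72.TD.Local

/-!
IB-5: necessary conditions for solubility at bad places.
-/

namespace Pool.Agent.Helper72.TD

open WithZero

section valued

variable {L Γ : Type*} [Field L] [LinearOrderedCommGroupWithZero Γ] {e1 e2 e3 d1 d2 d3 : L}

private theorem evenAt_of_val (w : Valuation L Γ) {z : L} {m : Γ} (hm : m ≠ 0)
    (h : w (d3 * z ^ 2) = m ^ 2) : EvenAt w d3 := by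
  have hz : z ≠ 0 := by
    rintro rfl
    rw [zero_pow two_ne_zero, mul_zero, map_zero] at h
    exact pow_ne_zero 2 hm h.symm
  have hwz : w z ≠ 0 := (Valuation.ne_zero_iff w).mpr hz
  refine ⟨m / w z, div_ne_zero hm hwz, ?_⟩
  rw [div_pow, ← h, map_mul, map_pow]
  field_simp

private theorem val_of_evenAt (w : Valuation L Γ) {z : L} (hz : z ≠ 0) (h : EvenAt w d3) :
    ∃ m : Γ, m ≠ 0 ∧ w (d3 * z ^ 2) = m ^ 2 := by
  obtain ⟨γ, hγ, h⟩ := h
  exact ⟨γ * w z, mul_ne_zero hγ ((Valuation.ne_zero_iff w).mpr hz), by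
    rw [map_mul, map_pow, h, mul_pow]⟩

private theorem evenAt_of_oneSq (w : Valuation L Γ) (h : OneSq w d3) : EvenAt w d3 := by
  obtain ⟨s, hs⟩ := h
  have h1 : w (d3 * s ^ 2) = 1 := by
    rw [Valuation.map_eq_of_sub_lt w (x := 1) (y := d3 * s ^ 2) (by rw [map_one]; exact hs),
      map_one]
  exact evenAt_of_val w (m := 1) one_ne_zero (by rw [h1, one_pow])

private theorem evenAt_congr_right (w : Valuation L Γ) (h3 : EvenAt w (d1 * d2))
    (h1 : EvenAt w d1) : EvenAt w d2 := by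
  obtain ⟨a, ha, e1⟩ := h1
  obtain ⟨b, hb, e2⟩ := h3
  refine ⟨b / a, div_ne_zero hb ha, ?_⟩
  rw [div_pow, ← e1, ← e2, map_mul]
  have : w d1 ≠ 0 := by rw [e1]; exact pow_ne_zero 2 ha
  field_simp

private theorem vaux (w : Valuation L Γ) {x y : L} {m : Γ} (hx : w x < m) (h : w (x - y) = m) :
    w y = m := by
  have : w (y - -(x - y)) < w (-(x - y)) := by
    rw [Valuation.map_neg, h]
    convert hx using 2
    ring
  rw [Valuation.map_eq_of_sub_lt w this, Valuation.map_neg, h]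

private theorem vaux' (w : Valuation L Γ) {x y : L} {m : Γ} (hx : m < w x) (h : w (x - y) = m) :
    w y = w x := by
  apply Valuation.map_eq_of_sub_lt w
  rw [Valuation.map_sub_swap, h]
  exact hx

private theorem osq_aux (w : Valuation L Γ) {D z1 z2 : L} (hD : D ≠ 0)
    (hp : d1 * d2 * d3 = D ^ 2) (h : w (d1 * z1 ^ 2 - d2 * z2 ^ 2) < w (d1 * z1 ^ 2)) :
    OneSq w d3 := by
  have hA1 : d1 * z1 ^ 2 ≠ 0 := (Valuation.ne_zero_iff w).mp (ne_zero_of_lt h)
  have hw : w (d2 * z2 ^ 2) = w (d1 * z1 ^ 2) := by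
    apply Valuation.map_eq_of_sub_lt w
    rw [Valuation.map_sub_swap]
    exact h
  have hA2 : d2 * z2 ^ 2 ≠ 0 := (Valuation.ne_zero_iff w).mp (by rw [hw]; exact ne_zero_of_lt h)
  have hz1 : z1 ≠ 0 := by rintro rfl; simp at hA1
  have hz2 : z2 ≠ 0 := by rintro rfl; simp at hA2
  have hd1 : d1 ≠ 0 := by rintro rfl; simp at hA1
  have hd2 : d2 ≠ 0 := by rintro rfl; simp at hA2
  refine ⟨d1 * z1 ^ 2 / (D * z1 * z2), ?_⟩
  have e : d3 * (d1 * z1 ^ 2 / (D * z1 * z2)) ^ 2 - 1 =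
      (d1 * z1 ^ 2 - d2 * z2 ^ 2) / (d2 * z2 ^ 2) := by
    field_simp
    linear_combination d1 * z1 ^ 2 * hp
  rw [e, map_div₀, hw]
  exact (div_lt_one₀ (zero_lt_iff.mpr (ne_zero_of_lt h))).mpr h

/-- The dichotomy at a multiplicative place. -/
private theorem dich (w : Valuation L Γ) (h12 : w (e2 - e1) < w (e3 - e1)) {D z0 z1 z2 z3 : L}
    (hD : D ≠ 0) (hp : d1 * d2 * d3 = D ^ 2) (hz : ¬ (z0 = 0 ∧ z1 = 0 ∧ z2 = 0 ∧ z3 = 0))
    (h1 : d1 * z1 ^ 2 - d2 * z2 ^ 2 = (e2 - e1) * z0 ^ 2)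
    (h2 : d1 * z1 ^ 2 - d3 * z3 ^ 2 = (e3 - e1) * z0 ^ 2) :
    (w (d1 * z1 ^ 2 - d2 * z2 ^ 2) < w (d1 * z1 ^ 2) ∧
      ((z0 ≠ 0 ∧ w (d1 * z1 ^ 2) = w (e3 - e1) * w z0 ^ 2) ∨
        w (d1 * z1 ^ 2) = w (d3 * z3 ^ 2))) ∨
    (z0 ≠ 0 ∧ w (d3 * z3 ^ 2) = w (e3 - e1) * w z0 ^ 2 ∧
      w (d1 * z1 ^ 2) < w (e3 - e1) * w z0 ^ 2) := by
  have hD2 : D ^ 2 ≠ 0 := pow_ne_zero 2 hD
  have hd1 : d1 ≠ 0 := by rintro rfl; simp at hp; exact pow_ne_zero 2 hD hp.symm
  have hd2 : d2 ≠ 0 := by rintro rfl; simp at hp; exact pow_ne_zero 2 hD hp.symm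
  have hd3 : d3 ≠ 0 := by rintro rfl; simp at hp; exact pow_ne_zero 2 hD hp.symm
  rcases eq_or_ne z0 0 with rfl | hz0
  · left
    have e1 : d1 * z1 ^ 2 = d2 * z2 ^ 2 := by linear_combination h1
    have e2 : d1 * z1 ^ 2 = d3 * z3 ^ 2 := by linear_combination h2
    refine ⟨?_, Or.inr (by rw [e2])⟩
    rw [e1, sub_self, map_zero, ← e1, zero_lt_iff, Valuation.ne_zero_iff]
    intro h0
    apply hz
    have a1 : z1 = 0 := by simpa [hd1] using h0
    have a2 : z2 = 0 := by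
      have : d2 * z2 ^ 2 = 0 := by rw [← e1, h0]
      simpa [hd2] using this
    have a3 : z3 = 0 := by
      have : d3 * z3 ^ 2 = 0 := by rw [← e2, h0]
      simpa [hd3] using this
    exact ⟨rfl, a1, a2, a3⟩
  · have hwz : w z0 ^ 2 ≠ 0 := pow_ne_zero 2 ((Valuation.ne_zero_iff w).mpr hz0)
    have g1 : w (d1 * z1 ^ 2 - d2 * z2 ^ 2) < w (e3 - e1) * w z0 ^ 2 := by
      rw [h1, map_mul, map_pow]
      exact mul_lt_mul_of_pos_right h12 (zero_lt_iff.mpr hwz)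
    have g2 : w (d1 * z1 ^ 2 - d3 * z3 ^ 2) = w (e3 - e1) * w z0 ^ 2 := by
      rw [h2, map_mul, map_pow]
    have g2' := g2
    rw [Valuation.map_sub_swap] at g2
    rcases lt_trichotomy (w (d3 * z3 ^ 2)) (w (e3 - e1) * w z0 ^ 2) with hlt | heq | hgt
    · have b1 := vaux w hlt g2
      exact Or.inl ⟨by rw [b1]; exact g1, Or.inl ⟨hz0, b1⟩⟩
    · rcases lt_trichotomy (w (d1 * z1 ^ 2)) (w (e3 - e1) * w z0 ^ 2) with hlt | heq2 | hgt
      · exact Or.inr ⟨hz0, heq, hlt⟩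
      · exact Or.inl ⟨by rw [heq2]; exact g1, Or.inl ⟨hz0, heq2⟩⟩
      · have := vaux' w hgt g2'
        rw [heq] at this
        exact absurd this.symm hgt.ne'
    · have b1 := vaux' w hgt g2
      exact Or.inl ⟨by rw [b1]; exact g1.trans hgt, Or.inr b1⟩

/-- The second case of the dichotomy. -/
private theorem osq_aux2 (w : Valuation L Γ) {z0 z1 z3 : L} (hz0 : z0 ≠ 0) (he : e1 - e3 ≠ 0)
    (h2 : d1 * z1 ^ 2 - d3 * z3 ^ 2 = (e3 - e1) * z0 ^ 2)
    (hlt : w (d1 * z1 ^ 2) < w (e3 - e1) * w z0 ^ 2) : OneSq w (d3 * (e1 - e3)) := by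
  refine ⟨z3 / ((e1 - e3) * z0), ?_⟩
  have e : d3 * (e1 - e3) * (z3 / ((e1 - e3) * z0)) ^ 2 - 1 =
      d1 * z1 ^ 2 / ((e1 - e3) * z0 ^ 2) := by
    field_simp
    linear_combination (-1 : L) * h2
  rw [e, map_div₀, map_mul w (e1 - e3), Valuation.map_sub_swap w e1 e3, map_pow]
  exact (div_lt_one₀ (zero_lt_iff.mpr (ne_zero_of_lt hlt))).mpr hlt

end valued

section transfer

variable {K L : Type*} [Field K] [Field L] [Algebra K L] {v : Valuation K ℤᵐ⁰}
  {w : Valuation L ℤᵐ⁰}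

theorem evenAt_iff_alg (hL : LocalData v w) {a : K} :
    EvenAt w (algebraMap K L a) ↔ EvenAt v a := by
  unfold EvenAt
  rw [hL.ext]

theorem oneSq_iff_alg (hL : LocalData v w) {a : K} :
    OneSq w (algebraMap K L a) ↔ OneSq v a := by
  constructor
  · exact oneSq_transfer v w hL.ext hL.dense
  · rintro ⟨s, hs⟩
    refine ⟨algebraMap K L s, ?_⟩
    rw [← map_pow, ← map_mul, ← map_one (algebraMap K L), ← map_sub, hL.ext]
    exact hs

private theorem setup (hL : LocalData v w) {e1 e2 e3 d1 d2 : K} (hd1 : d1 ≠ 0) (hd2 : d2 ≠ 0)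
    (h : HasPoint L e1 e2 e3 d1 d2) :
    SymPoint (algebraMap K L e1) (algebraMap K L e2) (algebraMap K L e3)
      (algebraMap K L d1) (algebraMap K L d2) (algebraMap K L (d1 * d2)) ∧
    w (algebraMap K L e2 - algebraMap K L e1) = v (e1 - e2) ∧
    w (algebraMap K L e3 - algebraMap K L e1) = v (e1 - e3) ∧
    w (algebraMap K L e3 - algebraMap K L e2) = v (e2 - e3) := by
  refine ⟨symPoint_of_hasPoint hd1 hd2 h, ?_, ?_, ?_⟩ <;>
  rw [← map_sub, hL.ext, Valuation.map_sub_swap]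

theorem nec_good (hL : LocalData v w) {e1 e2 e3 d1 d2 : K} (hd1 : d1 ≠ 0) (hd2 : d2 ≠ 0)
    (hg : GoodAt v e1 e2 e3) (h : HasPoint L e1 e2 e3 d1 d2) : EvenAt v d1 ∧ EvenAt v d2 := by
  obtain ⟨hs, w12, w13, w23⟩ := setup hL hd1 hd2 h
  obtain ⟨γ, hγ, g12, g13, g23⟩ := hg
  obtain ⟨⟨D, hD, hp⟩, z0, z1, z2, z3, hz, h1, h2, h3⟩ := hs
  rw [← evenAt_iff_alg hL, ← evenAt_iff_alg hL]
  set D1 := algebraMap K L d1
  set D2 := algebraMap K L d2
  set D3 := algebraMap K L (d1 * d2)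
  have hD1 : D1 ≠ 0 := by rintro h0; rw [h0] at hp; simp at hp; exact pow_ne_zero 2 hD hp.symm
  have hD2 : D2 ≠ 0 := by rintro h0; rw [h0] at hp; simp at hp; exact pow_ne_zero 2 hD hp.symm
  have hD3 : D3 ≠ 0 := by rintro h0; rw [h0] at hp; simp at hp; exact pow_ne_zero 2 hD hp.symm
  -- if two of the values agree and are nonzero, the third class is even
  have key : ∀ {x y a b c : L}, a * b * c = D ^ 2 → a * x ^ 2 ≠ 0 →
      w (b * y ^ 2) = w (a * x ^ 2) → EvenAt w c := by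
    intro x y a b c habc ha hab
    have hwA : w (a * x ^ 2) ≠ 0 := (Valuation.ne_zero_iff w).mpr ha
    have hb : b * y ^ 2 ≠ 0 := (Valuation.ne_zero_iff w).mp (by rw [hab]; exact hwA)
    have hx : x ≠ 0 := by rintro rfl; simp at ha
    have hy : y ≠ 0 := by rintro rfl; simp at hb
    have ha0 : a ≠ 0 := by rintro rfl; simp at ha
    have hb0 : b ≠ 0 := by rintro rfl; simp at hb
    refine ⟨w (D * x * y / (a * x ^ 2)), ?_, ?_⟩
    · rw [Valuation.ne_zero_iff]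
      exact div_ne_zero (mul_ne_zero (mul_ne_zero hD hx) hy) ha
    · have e : c = (D * x * y / (a * x ^ 2)) ^ 2 * ((a * x ^ 2) / (b * y ^ 2)) := by
        field_simp
        linear_combination habc
      rw [e, map_mul, map_pow]
      have : w ((a * x ^ 2) / (b * y ^ 2)) = 1 := by
        rw [map_div₀, hab, div_self hwA]
      rw [this, mul_one]
  have hp' : D3 * D1 * D2 = D ^ 2 := by rw [← hp]; ring
  have hp'' : D2 * D3 * D1 = D ^ 2 := by rw [← hp]; ring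
  rcases eq_or_ne z0 0 with rfl | hz0
  · have e1 : D1 * z1 ^ 2 = D2 * z2 ^ 2 := by linear_combination h1
    have e2 : D1 * z1 ^ 2 = D3 * z3 ^ 2 := by linear_combination h2
    have hA1 : D1 * z1 ^ 2 ≠ 0 := by
      intro h0
      apply hz
      have a1 : z1 = 0 := by simpa [hD1] using h0
      have a2 : z2 = 0 := by
        have : D2 * z2 ^ 2 = 0 := by rw [← e1, h0]
        simpa [hD2] using this
      have a3 : z3 = 0 := by
        have : D3 * z3 ^ 2 = 0 := by rw [← e2, h0]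
        simpa [hD3] using this
      exact ⟨rfl, a1, a2, a3⟩
    exact ⟨key hp'' (by rw [← e1]; exact hA1) (by rw [← e2, e1]),
      key hp' (by rw [← e2]; exact hA1) (by rw [← e2])⟩
  · have hm : γ * w z0 ≠ 0 := mul_ne_zero hγ ((Valuation.ne_zero_iff w).mpr hz0)
    have g1 : w (D1 * z1 ^ 2 - D2 * z2 ^ 2) = (γ * w z0) ^ 2 := by
      rw [h1, map_mul, w12, g12, map_pow, mul_pow]
    have g2 : w (D1 * z1 ^ 2 - D3 * z3 ^ 2) = (γ * w z0) ^ 2 := by
      rw [h2, map_mul, w13, g13, map_pow, mul_pow]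
    have g3 : w (D2 * z2 ^ 2 - D3 * z3 ^ 2) = (γ * w z0) ^ 2 := by
      rw [h3, map_mul, w23, g23, map_pow, mul_pow]
    have hm2 : (γ * w z0) ^ 2 ≠ 0 := pow_ne_zero 2 hm
    rcases lt_trichotomy (w (D1 * z1 ^ 2)) ((γ * w z0) ^ 2) with hlt | heq | hgt
    · have b2 := vaux w hlt g1
      have b3 := vaux w hlt g2
      exact ⟨key hp'' ((Valuation.ne_zero_iff w).mp (by rw [b2]; exact hm2))
        (by rw [b2, b3]), evenAt_of_val w hm b2⟩
    · refine ⟨evenAt_of_val w hm heq, ?_⟩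
      rcases lt_trichotomy (w (D2 * z2 ^ 2)) ((γ * w z0) ^ 2) with hlt | heq2 | hgt
      · have b3 := vaux w hlt g3
        exact key hp' ((Valuation.ne_zero_iff w).mp (by rw [b3]; exact hm2)) (by rw [b3, heq])
      · exact evenAt_of_val w hm heq2
      · rw [Valuation.map_sub_swap] at g1
        have := vaux' w hgt g1
        rw [heq] at this
        exact absurd this.symm hgt.ne'
    · have b2 := vaux' w hgt g1
      have b3 := vaux' w hgt g2
      have hA1 : D1 * z1 ^ 2 ≠ 0 := (Valuation.ne_zero_iff w).mp (ne_zero_of_lt hgt)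
      exact ⟨key hp'' ((Valuation.ne_zero_iff w).mp (by rw [b2]; exact ne_zero_of_lt hgt))
        (by rw [b2, b3]), key hp' ((Valuation.ne_zero_iff w).mp
          (by rw [b3]; exact ne_zero_of_lt hgt)) (by rw [b3])⟩

/-- Multiplicative reduction, `e1 ≡ e2`: the third class has even value. -/
theorem nec_mult (hL : LocalData v w) {e1 e2 e3 d1 d2 : K} (hd1 : d1 ≠ 0) (hd2 : d2 ≠ 0)
    (h12 : v (e1 - e2) < v (e1 - e3)) (hev : EvenAt v (e1 - e3))
    (h : HasPoint L e1 e2 e3 d1 d2) : EvenAt v (d1 * d2) := by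
  obtain ⟨hs, w12, w13, w23⟩ := setup hL hd1 hd2 h
  obtain ⟨⟨D, hD, hp⟩, z0, z1, z2, z3, hz, h1, h2, h3⟩ := hs
  obtain ⟨γ, hγ, hev⟩ := hev
  rw [← evenAt_iff_alg hL]
  rcases dich w (by rw [w12, w13]; exact h12) hD hp hz h1 h2 with ⟨a, -⟩ | ⟨hz0, b, -⟩
  · exact evenAt_of_oneSq w (osq_aux w hD hp a)
  · rw [w13, hev, ← mul_pow] at b
    exact evenAt_of_val w (mul_ne_zero hγ ((Valuation.ne_zero_iff w).mpr hz0)) b

/-- Split multiplicative reduction. -/
theorem nec_split (hL : LocalData v w) {e1 e2 e3 d1 d2 : K} (hd1 : d1 ≠ 0) (hd2 : d2 ≠ 0)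
    (h12 : v (e1 - e2) < v (e1 - e3)) (hev : EvenAt v (e1 - e3)) (hs : OneSq v (e1 - e3))
    (h : HasPoint L e1 e2 e3 d1 d2) : OneSq v (d1 * d2) := by
  obtain ⟨hsp, w12, w13, w23⟩ := setup hL hd1 hd2 h
  obtain ⟨⟨D, hD, hp⟩, z0, z1, z2, z3, hz, h1, h2, h3⟩ := hsp
  obtain ⟨γ, hγ, hev⟩ := hev
  have hne : e1 - e3 ≠ 0 := by
    rw [← Valuation.ne_zero_iff v, hev]; exact pow_ne_zero 2 hγ
  have hneL : algebraMap K L e1 - algebraMap K L e3 ≠ 0 := by
    rw [← map_sub]; exact (map_ne_zero _).mpr hne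
  rcases dich w (by rw [w12, w13]; exact h12) hD hp hz h1 h2 with ⟨a, -⟩ | ⟨hz0, b, c⟩
  · exact (oneSq_iff_alg hL).mp (osq_aux w hD hp a)
  · have := osq_aux2 w hz0 hneL h2 c
    rw [← map_sub, ← map_mul, oneSq_iff_alg hL] at this
    have h4 := oneSq_mul this hs
    have e : d1 * d2 * (e1 - e3) * (e1 - e3) = d1 * d2 * (e1 - e3) ^ 2 := by ring
    rw [e] at h4
    exact (oneSq_mul_sq hne).mp h4

/-- In the second case of the dichotomy, with the parities of `d1` and `e1 - e2` different,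
the third class is a square up to 1-units. -/
private theorem second_case (hL : LocalData v w) {e1 e2 d1 d2 : K}
    (hne12 : e1 ≠ e2) (hd3 : EvenAt v (d1 * d2))
    (hpar : ¬ (EvenAt v d1 ↔ EvenAt v (e1 - e2))) {D z0 z1 z2 : L} (hD : D ≠ 0)
    (hp : algebraMap K L d1 * algebraMap K L d2 * algebraMap K L (d1 * d2) = D ^ 2)
    (hz0 : z0 ≠ 0)
    (h1 : algebraMap K L d1 * z1 ^ 2 - algebraMap K L d2 * z2 ^ 2 =
      (algebraMap K L e2 - algebraMap K L e1) * z0 ^ 2) : OneSq w (algebraMap K L (d1 * d2)) := by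
  have hwz0 : w z0 ≠ 0 := (Valuation.ne_zero_iff w).mpr hz0
  have he : v (e1 - e2) ≠ 0 := (Valuation.ne_zero_iff v).mpr (sub_ne_zero.mpr hne12)
  have hw : w (algebraMap K L d1 * z1 ^ 2 - algebraMap K L d2 * z2 ^ 2) =
      v (e1 - e2) * w z0 ^ 2 := by
    rw [h1, map_mul, ← map_sub, hL.ext, Valuation.map_sub_swap, map_pow]
  have hd12 : EvenAt v d2 ↔ EvenAt v d1 := by
    constructor
    · intro h
      rw [mul_comm] at hd3
      exact evenAt_congr_right v hd3 h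
    · exact evenAt_congr_right v hd3
  -- the value of `d * z^2`, compared with that of `(e1 - e2) z0^2`
  have ne1 : ∀ {d : K} {z : L}, (EvenAt v d ↔ EvenAt v d1) →
      w (algebraMap K L d * z ^ 2) ≠ v (e1 - e2) * w z0 ^ 2 := by
    intro d z hd heq
    have hz : z ≠ 0 := by
      rintro rfl
      rw [zero_pow two_ne_zero, mul_zero, map_zero] at heq
      exact mul_ne_zero he (pow_ne_zero 2 hwz0) heq.symm
    have hwz : w z ≠ 0 := (Valuation.ne_zero_iff w).mpr hz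
    rw [map_mul, map_pow, hL.ext] at heq
    apply hpar
    rw [← hd]
    constructor
    · rintro ⟨γ, hγ, h⟩
      refine ⟨γ * w z / w z0, div_ne_zero (mul_ne_zero hγ hwz) hwz0, ?_⟩
      rw [div_pow, mul_pow, ← h, heq]
      field_simp
    · rintro ⟨γ, hγ, h⟩
      refine ⟨γ * w z0 / w z, div_ne_zero (mul_ne_zero hγ hwz0) hwz, ?_⟩
      rw [div_pow, mul_pow, ← h, ← heq]
      field_simp
  have n1 := ne1 (d := d1) (z := z1) Iff.rfl
  have n2 := ne1 (d := d2) (z := z2) hd12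
  apply osq_aux w hD hp
  by_contra hcon
  rw [not_lt] at hcon
  rw [hw] at hcon
  have hlt : w (algebraMap K L d1 * z1 ^ 2) < v (e1 - e2) * w z0 ^ 2 := lt_of_le_of_ne hcon n1
  exact n2 (vaux w hlt hw)

/-- In the first case of the dichotomy `d1` has even value. -/
private theorem first_case (hL : LocalData v w) {e1 e3 d1 d2 : K}
    (hev : EvenAt v (e1 - e3)) {D z0 z1 z2 z3 : L} (hD : D ≠ 0)
    (hp : algebraMap K L d1 * algebraMap K L d2 * algebraMap K L (d1 * d2) = D ^ 2)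
    (a : w (algebraMap K L d1 * z1 ^ 2 - algebraMap K L d2 * z2 ^ 2) <
      w (algebraMap K L d1 * z1 ^ 2))
    (b : (z0 ≠ 0 ∧ w (algebraMap K L d1 * z1 ^ 2) =
        w (algebraMap K L e3 - algebraMap K L e1) * w z0 ^ 2) ∨
      w (algebraMap K L d1 * z1 ^ 2) = w (algebraMap K L (d1 * d2) * z3 ^ 2)) :
    EvenAt v d1 := by
  rw [← evenAt_iff_alg hL]
  rcases b with ⟨hz0, b⟩ | b
  · obtain ⟨γ, hγ, hev⟩ := hev
    rw [← map_sub, hL.ext, Valuation.map_sub_swap, hev, ← mul_pow] at b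
    exact evenAt_of_val w (mul_ne_zero hγ ((Valuation.ne_zero_iff w).mpr hz0)) b
  · have h3 : EvenAt w (algebraMap K L (d1 * d2)) := evenAt_of_oneSq w (osq_aux w hD hp a)
    have hz3 : z3 ≠ 0 := by
      rintro rfl
      rw [zero_pow two_ne_zero, mul_zero, map_zero] at b
      exact (ne_zero_of_lt a) b
    obtain ⟨m, hm, h4⟩ := val_of_evenAt w hz3 h3
    rw [h4] at b
    exact evenAt_of_val w hm b

/-- Non-split multiplicative reduction, `e1 - e2` of even value. -/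
theorem nec_nonsplit_even (hL : LocalData v w) {e1 e2 e3 d1 d2 : K} (hd1 : d1 ≠ 0) (hd2 : d2 ≠ 0)
    (h12 : v (e1 - e2) < v (e1 - e3)) (hev : EvenAt v (e1 - e3)) (hs : ¬ OneSq v (e1 - e3))
    (hν : EvenAt v (e1 - e2)) (h : HasPoint L e1 e2 e3 d1 d2) : EvenAt v d1 := by
  have hd3 := nec_mult hL hd1 hd2 h12 hev h
  obtain ⟨hsp, w12, w13, w23⟩ := setup hL hd1 hd2 h
  obtain ⟨⟨D, hD, hp⟩, z0, z1, z2, z3, hz, h1, h2, h3⟩ := hsp
  have hne : e1 - e3 ≠ 0 := by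
    obtain ⟨γ, hγ, hev⟩ := hev
    rw [← Valuation.ne_zero_iff v, hev]; exact pow_ne_zero 2 hγ
  have hne12 : e1 ≠ e2 := by
    obtain ⟨γ, hγ, hν⟩ := hν
    intro h0
    rw [h0, sub_self, map_zero] at hν
    exact pow_ne_zero 2 hγ hν.symm
  have hneL : algebraMap K L e1 - algebraMap K L e3 ≠ 0 := by
    rw [← map_sub]; exact (map_ne_zero _).mpr hne
  rcases dich w (by rw [w12, w13]; exact h12) hD hp hz h1 h2 with ⟨a, b⟩ | ⟨hz0, b, c⟩
  · exact first_case hL hev hD hp a b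
  · by_contra hcon
    have q1 := second_case hL hne12 hd3 (fun hh => hcon (hh.mpr hν)) hD hp hz0 h1
    rw [oneSq_iff_alg hL] at q1
    have q2 := osq_aux2 w hz0 hneL h2 c
    rw [← map_sub, ← map_mul, oneSq_iff_alg hL] at q2
    apply hs
    have q3 := oneSq_mul q1 q2
    have e : d1 * d2 * (d1 * d2 * (e1 - e3)) = (e1 - e3) * (d1 * d2) ^ 2 := by ring
    rw [e] at q3
    exact (oneSq_mul_sq (mul_ne_zero hd1 hd2)).mp q3

/-- Multiplicative reduction, `e1 - e2` of odd value. -/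
theorem nec_odd1 (hL : LocalData v w) {e1 e2 e3 d1 d2 : K} (hd1 : d1 ≠ 0) (hd2 : d2 ≠ 0)
    (h12 : v (e1 - e2) < v (e1 - e3)) (hev : EvenAt v (e1 - e3)) (hne : e1 ≠ e2)
    (hν : ¬ EvenAt v (e1 - e2)) (h : HasPoint L e1 e2 e3 d1 d2) (he : EvenAt v d1) :
    OneSq v (d1 * d2) := by
  have hd3 := nec_mult hL hd1 hd2 h12 hev h
  obtain ⟨hsp, w12, w13, w23⟩ := setup hL hd1 hd2 h
  obtain ⟨⟨D, hD, hp⟩, z0, z1, z2, z3, hz, h1, h2, h3⟩ := hsp
  rw [← oneSq_iff_alg hL]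
  rcases dich w (by rw [w12, w13]; exact h12) hD hp hz h1 h2 with ⟨a, b⟩ | ⟨hz0, b, c⟩
  · exact osq_aux w hD hp a
  · exact second_case hL hne hd3 (fun hh => hν (hh.mp he)) hD hp hz0 h1

/-- Multiplicative reduction, `d1` of odd value. -/
theorem nec_odd2 (hL : LocalData v w) {e1 e2 e3 d1 d2 : K} (hd1 : d1 ≠ 0) (hd2 : d2 ≠ 0)
    (h12 : v (e1 - e2) < v (e1 - e3)) (hev : EvenAt v (e1 - e3))
    (h : HasPoint L e1 e2 e3 d1 d2) (he : ¬ EvenAt v d1) : OneSq v (d1 * d2 * (e1 - e3)) := by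
  obtain ⟨hsp, w12, w13, w23⟩ := setup hL hd1 hd2 h
  obtain ⟨⟨D, hD, hp⟩, z0, z1, z2, z3, hz, h1, h2, h3⟩ := hsp
  have hne : e1 - e3 ≠ 0 := by
    obtain ⟨γ, hγ, hev⟩ := hev
    rw [← Valuation.ne_zero_iff v, hev]; exact pow_ne_zero 2 hγ
  have hneL : algebraMap K L e1 - algebraMap K L e3 ≠ 0 := by
    rw [← map_sub]; exact (map_ne_zero _).mpr hne
  rcases dich w (by rw [w12, w13]; exact h12) hD hp hz h1 h2 with ⟨a, b⟩ | ⟨hz0, b, c⟩
  · exact absurd (first_case hL hev hD hp a b) he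
  · have q2 := osq_aux2 w hz0 hneL h2 c
    rwa [← map_sub, ← map_mul, oneSq_iff_alg hL] at q2

/-- Additive reduction. -/
theorem nec_add (hL : LocalData v w) {e1 e2 e3 d1 d2 : K} (hd1 : d1 ≠ 0) (hd2 : d2 ≠ 0)
    (h13 : v (e1 - e3) = v (e2 - e3)) (hodd : ¬ EvenAt v (e1 - e3)) (hne : e1 ≠ e3)
    (h : HasPoint L e1 e2 e3 d1 d2) (he1 : EvenAt v d1) (he2 : EvenAt v d2) :
    OneSq v d1 ∧ OneSq v d2 := by
  have he3 : EvenAt v (d1 * d2) := evenAt_mul he1 he2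
  obtain ⟨hsp, w12, w13, w23⟩ := setup hL hd1 hd2 h
  obtain ⟨⟨D, hD, hp⟩, z0, z1, z2, z3, hz, h1, h2, h3⟩ := hsp
  have hM : v (e1 - e3) ≠ 0 := (Valuation.ne_zero_iff v).mpr (sub_ne_zero.mpr hne)
  rw [← oneSq_iff_alg hL, ← oneSq_iff_alg hL]
  have hD1 : algebraMap K L d1 ≠ 0 := by simpa using hd1
  have hD2 : algebraMap K L d2 ≠ 0 := by simpa using hd2
  have hD3 : algebraMap K L (d1 * d2) ≠ 0 := by simpa using ⟨hd1, hd2⟩
  have hp' : algebraMap K L d1 * algebraMap K L (d1 * d2) * algebraMap K L d2 = D ^ 2 := by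
    rw [← hp]; ring
  have hp'' : algebraMap K L d2 * algebraMap K L (d1 * d2) * algebraMap K L d1 = D ^ 2 := by
    rw [← hp]; ring
  -- the value of `d * z^2` is never that of `(e1 - e3) z0^2`
  have nev : ∀ {d : K} {z : L}, z0 ≠ 0 → EvenAt v d →
      w (algebraMap K L d * z ^ 2) ≠ v (e1 - e3) * w z0 ^ 2 := by
    intro d z hz0 hd heq
    have hwz0 : w z0 ≠ 0 := (Valuation.ne_zero_iff w).mpr hz0
    have hz : z ≠ 0 := by
      rintro rfl
      rw [zero_pow two_ne_zero, mul_zero, map_zero] at heq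
      exact mul_ne_zero hM (pow_ne_zero 2 hwz0) heq.symm
    have hwz : w z ≠ 0 := (Valuation.ne_zero_iff w).mpr hz
    rw [map_mul, map_pow, hL.ext] at heq
    obtain ⟨γ, hγ, h⟩ := hd
    apply hodd
    refine ⟨γ * w z / w z0, div_ne_zero (mul_ne_zero hγ hwz) hwz0, ?_⟩
    rw [div_pow, mul_pow, ← h, heq]
    field_simp
  rcases eq_or_ne z0 0 with rfl | hz0
  · have e1 : algebraMap K L d1 * z1 ^ 2 = algebraMap K L d2 * z2 ^ 2 := by
      linear_combination h1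
    have e2 : algebraMap K L d1 * z1 ^ 2 = algebraMap K L (d1 * d2) * z3 ^ 2 := by
      linear_combination h2
    have hA1 : algebraMap K L d1 * z1 ^ 2 ≠ 0 := by
      intro h0
      apply hz
      have a1 : z1 = 0 := by
        rcases mul_eq_zero.mp h0 with h | h
        · exact absurd h hD1
        · exact pow_eq_zero_iff two_ne_zero |>.mp h
      have a2 : z2 = 0 := by
        have : algebraMap K L d2 * z2 ^ 2 = 0 := by rw [← e1, h0]
        rcases mul_eq_zero.mp this with h | h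
        · exact absurd h hD2
        · exact pow_eq_zero_iff two_ne_zero |>.mp h
      have a3 : z3 = 0 := by
        have : algebraMap K L (d1 * d2) * z3 ^ 2 = 0 := by rw [← e2, h0]
        rcases mul_eq_zero.mp this with h | h
        · exact absurd h hD3
        · exact pow_eq_zero_iff two_ne_zero |>.mp h
      exact ⟨rfl, a1, a2, a3⟩
    refine ⟨osq_aux w hD hp'' (z1 := z2) (z2 := z3) ?_,
      osq_aux w hD hp' (z1 := z1) (z2 := z3) ?_⟩
    · rw [← e1, ← e2, sub_self, map_zero, zero_lt_iff, Valuation.ne_zero_iff]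
      exact hA1
    · rw [← e2, sub_self, map_zero, zero_lt_iff, Valuation.ne_zero_iff]
      exact hA1
  · have g2 : w (algebraMap K L d1 * z1 ^ 2 - algebraMap K L (d1 * d2) * z3 ^ 2) =
        v (e1 - e3) * w z0 ^ 2 := by rw [h2, map_mul, w13, map_pow]
    have g3 : w (algebraMap K L d2 * z2 ^ 2 - algebraMap K L (d1 * d2) * z3 ^ 2) =
        v (e1 - e3) * w z0 ^ 2 := by rw [h3, map_mul, w23, ← h13, map_pow]
    have g2' := g2
    have g3' := g3
    rw [Valuation.map_sub_swap] at g2' g3'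
    rcases lt_trichotomy (w (algebraMap K L (d1 * d2) * z3 ^ 2)) (v (e1 - e3) * w z0 ^ 2) with
      hlt | heq | hgt
    · exact absurd (vaux w hlt g2') (nev hz0 he1)
    · exact absurd heq (nev hz0 he3)
    · have b1 := vaux' w hgt g2'
      have b2 := vaux' w hgt g3'
      exact ⟨osq_aux w hD hp'' (z1 := z2) (z2 := z3) (by rw [g3, b2]; exact hgt),
        osq_aux w hD hp' (z1 := z1) (z2 := z3) (by rw [g2, b1]; exact hgt)⟩

end transfer

end Pool.Agent.Helper72.TD
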