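import Pool.Agent.Helper72.TD.IBSelmer

/-!
The Mordell-Weil groups of `E` and of its inert base change.
-/

namespace Pool.Agent.Helper72.TD

open IsDedekindDomain Polynomial WithZero

section map

variable {F K : Type*} [Field F] [Field K] [DecidableEq F] [DecidableEq K]

open WeierstrassCurve.Affine in
/-- The homomorphism on points induced by a field homomorphism. -/
noncomputable def mapPt (φ : F →+* K) (W : WeierstrassCurve.Affine F) :
    W.Point →+ (W.map φ).toAffine.Point where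
  toFun P := match P with
    | .zero => .zero
    | .some _ _ h => .some _ _ <| (W.map_nonsingular φ.injective ..).mpr h
  map_zero' := rfl
  map_add' := by
    rintro (_ | ⟨x₁, y₁, h₁⟩) (_ | ⟨x₂, y₂, h₂⟩)
    any_goals rfl
    by_cases hxy : x₁ = x₂ ∧ y₁ = W.negY x₂ y₂
    · rw [Point.add_of_Y_eq hxy.left hxy.right,
        Point.add_of_Y_eq (congr_arg _ hxy.left) <| by rw [hxy.right, map_negY]]
      rfl
    · have h3 : ¬(φ x₁ = φ x₂ ∧ φ y₁ = (W.map φ).toAffine.negY (φ x₂) (φ y₂)) := by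
        rintro ⟨a, b⟩
        apply hxy
        refine ⟨φ.injective a, φ.injective ?_⟩
        rw [b, map_negY]
      rw [Point.add_some hxy, Point.add_some h3]
      simp only [map_slope, map_addX, map_addY]

theorem curve_map (φ : F →+* K) (e1 e2 e3 : F) :
    (curve e1 e2 e3).map φ = curve (φ e1) (φ e2) (φ e3) := by
  ext <;> simp [curve]

theorem exists_hom (φ : F →+* K) (e1 e2 e3 : F) :
    ∃ f : (curve e1 e2 e3).toAffine.Point →+ (curve (φ e1) (φ e2) (φ e3)).toAffine.Point,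
      Function.Injective f ∧
      ∀ (x y : F) (h : (curve e1 e2 e3).toAffine.Nonsingular x y),
        ∃ h' : (curve (φ e1) (φ e2) (φ e3)).toAffine.Nonsingular (φ x) (φ y),
          f (.some x y h) = .some (φ x) (φ y) h' := by
  have key : ∀ W : WeierstrassCurve K, (curve e1 e2 e3).map φ = W →
      ∃ f : (curve e1 e2 e3).toAffine.Point →+ W.toAffine.Point,
      Function.Injective f ∧
      ∀ (x y : F) (h : (curve e1 e2 e3).toAffine.Nonsingular x y),
        ∃ h' : W.toAffine.Nonsingular (φ x) (φ y),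
          f (.some x y h) = .some (φ x) (φ y) h' := by
    rintro W rfl
    refine ⟨mapPt φ (curve e1 e2 e3).toAffine, ?_, fun x y h => ⟨_, rfl⟩⟩
    rintro (_ | ⟨x₁, y₁, h₁⟩) (_ | ⟨x₂, y₂, h₂⟩) h
    · rfl
    · exact absurd h (by rintro ⟨⟩)
    · exact absurd h (by rintro ⟨⟩)
    · have h' := (WeierstrassCurve.Affine.Point.some.injEq ..).mp h
      have a := φ.injective h'.1
      have b := φ.injective h'.2
      subst a b
      rfl
  exact key _ (curve_map φ e1 e2 e3)

theorem hasClass_hom (φ : F →+* K) {e1 e2 e3 : F}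
    {f : (curve e1 e2 e3).toAffine.Point →+ (curve (φ e1) (φ e2) (φ e3)).toAffine.Point}
    (hf : ∀ (x y : F) (h : (curve e1 e2 e3).toAffine.Nonsingular x y),
        ∃ h' : (curve (φ e1) (φ e2) (φ e3)).toAffine.Nonsingular (φ x) (φ y),
          f (.some x y h) = .some (φ x) (φ y) h')
    {P : (curve e1 e2 e3).toAffine.Point} {d1 d2 : F} (h : HasClass P d1 d2) :
    HasClass (f P) (φ d1) (φ d2) := by
  rcases P with _ | ⟨x, y, hP⟩
  · have : f (.zero) = .zero := map_zero f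
    rw [this]
    obtain ⟨⟨a, ha⟩, ⟨b, hb⟩⟩ := h
    exact ⟨⟨φ a, by rw [ha, map_mul]⟩, ⟨φ b, by rw [hb, map_mul]⟩⟩
  · obtain ⟨h', e⟩ := hf x y hP
    rw [e]
    obtain ⟨z1, z2, z3, a, b, c⟩ := h
    refine ⟨φ z1, φ z2, φ z3, ?_, ?_, ?_⟩
    · rw [← map_sub, a, map_mul, map_pow]
    · rw [← map_sub, b, map_mul, map_pow]
    · rw [← map_sub, c, map_mul, map_mul, map_pow]

end map

theorem finrank_eq_of_index {A B : Type*} [AddCommGroup A] [AddCommGroup B] [Module.Finite ℤ B]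
    (f : A →+ B) (hf : Function.Injective f) (hi : f.range.index ≠ 0) :
    Module.finrank ℤ A = Module.finrank ℤ B := by
  have h1 := (LinearMap.range f.toIntLinearMap).finrank_quotient_add_finrank (R := ℤ)
  have h2 : Module.finrank ℤ A = Module.finrank ℤ (LinearMap.range f.toIntLinearMap) :=
    LinearEquiv.finrank_eq (LinearEquiv.ofInjective f.toIntLinearMap hf)
  have h3 : Module.finrank ℤ (B ⧸ LinearMap.range f.toIntLinearMap) = 0 := by
    rw [Module.finrank_eq_zero_iff_isTorsion]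
    intro x
    obtain ⟨b, rfl⟩ := Submodule.Quotient.mk_surjective _ x
    refine ⟨⟨(f.range.index : ℤ), mem_nonZeroDivisors_of_ne_zero (by exact_mod_cast hi)⟩, ?_⟩
    rw [Submonoid.mk_smul, ← Submodule.Quotient.mk_smul, Submodule.Quotient.mk_eq_zero]
    have := AddSubgroup.nsmul_index_mem f.range b
    rw [natCast_zsmul]
    exact this
  rw [h2, ← h1, h3, zero_add]

variable {k : Type*} [Field k] [Finite k]

/-- The points of the base change. -/
theorem points_transfer [DecidableEq (RatFunc k)] {g : k[X]} (hg : Odd g.natDegree)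
    (hg0 : g.natDegree ≠ 0) (h2 : (2 : k) ≠ 0)
    {e1 e2 e3 : RatFunc k} (h12 : e1 ≠ e2) (h13 : e1 ≠ e3) (h23 : e2 ≠ e3)
    (hin : InertAtBad g e1 e2 e3)
    (hp : ∀ d1 d2 : RatFunc k, d1 ≠ 0 → d2 ≠ 0 → ELS e1 e2 e3 d1 d2 →
      HasPoint (RatFunc k) e1 e2 e3 d1 d2) :
    AddGroup.FG (curve (cmp g hg0 e1) (cmp g hg0 e2) (cmp g hg0 e3)).toAffine.Point ∧
    Module.finrank ℤ (curve (cmp g hg0 e1) (cmp g hg0 e2) (cmp g hg0 e3)).toAffine.Point =
      Module.finrank ℤ (curve e1 e2 e3).toAffine.Point ∧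
    ∃ f : (curve e1 e2 e3).toAffine.Point →+
        (curve (cmp g hg0 e1) (cmp g hg0 e2) (cmp g hg0 e3)).toAffine.Point,
      Function.Injective f ∧
      (∀ (x y : RatFunc k) (h : (curve e1 e2 e3).toAffine.Nonsingular x y),
        ∃ h' : (curve (cmp g hg0 e1) (cmp g hg0 e2) (cmp g hg0 e3)).toAffine.Nonsingular
          (cmp g hg0 x) (cmp g hg0 y), f (.some x y h) = .some (cmp g hg0 x) (cmp g hg0 y) h') ∧
      Odd f.range.index := by
  have h2' : (2 : RatFunc k) ≠ 0 := by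
    intro h
    apply h2
    have : (algebraMap k (RatFunc k)) 2 = 0 := by rw [map_ofNat]; exact h
    exact (map_eq_zero (algebraMap k (RatFunc k))).mp this
  have inj := (cmp g hg0).injective
  have i12 := inj.ne h12
  have i13 := inj.ne h13
  have i23 := inj.ne h23
  have hFG : AddGroup.FG (curve (cmp g hg0 e1) (cmp g hg0 e2) (cmp g hg0 e3)).toAffine.Point :=
    mordell_weil h2 i12 i13 i23 (weak_mw h2 i12 i13 i23)
  obtain ⟨f, hf, hform⟩ := exists_hom (cmp g hg0) e1 e2 e3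
  have hodd : Odd f.range.index := by
    apply odd_index
    intro P
    obtain ⟨D1, D2, hD1, hD2, hP⟩ := hasClass_exists i12 i13 i23 P
    have hpt : HasPoint (RatFunc k) (cmp g hg0 e1) (cmp g hg0 e2) (cmp g hg0 e3) D1 D2 :=
      (hasPoint_iff h2' i12 i13 i23 hD1 hD2).mpr ⟨P, hP⟩
    have hels := els_of_hasPoint hpt
    obtain ⟨d1, d2, s1, s2, hd1, hd2, hs1, hs2, a1, a2, he⟩ :=
      els_descend hg hg0 h2 h12 h13 h23 hin hD1 hD2 hels
    obtain ⟨P0, hP0⟩ := (hasPoint_iff h2' h12 h13 h23 hd1 hd2).mp (hp d1 d2 hd1 hd2 he)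
    have hφ1 : cmp g hg0 d1 ≠ 0 := (map_ne_zero (cmp g hg0)).mpr hd1
    have hφ2 : cmp g hg0 d2 ≠ 0 := (map_ne_zero (cmp g hg0)).mpr hd2
    have hc := hasClass_hom (cmp g hg0) hform hP0
    have hsum := hasClass_add h2' i12 i13 i23 hD1 hD2 hφ1 hφ2 hP hc
    have e1' : D1 * cmp g hg0 d1 = 1 * (cmp g hg0 d1 * s1) ^ 2 := by rw [a1]; ring
    have e2' : D2 * cmp g hg0 d2 = 1 * (cmp g hg0 d2 * s2) ^ 2 := by rw [a2]; ring
    rw [e1', e2', hasClass_mul_sq (mul_ne_zero hφ1 hs1) (mul_ne_zero hφ2 hs2)] at hsum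
    obtain ⟨Q, hQ⟩ := exists_half h2' i12 i13 i23 hsum
    refine ⟨f (-P0), ⟨-P0, rfl⟩, Q, ?_⟩
    rw [map_neg, ← hQ]
    abel
  refine ⟨hFG, ?_, f, hf, hform, hodd⟩
  have hfin : Module.Finite ℤ
      (curve (cmp g hg0 e1) (cmp g hg0 e2) (cmp g hg0 e3)).toAffine.Point :=
    Module.Finite.iff_addGroup_fg.mpr hFG
  refine (finrank_eq_of_index f hf ?_).symm
  intro h0
  rw [h0] at hodd
  exact absurd hodd (by decide)

end Pool.Agent.Helper72.TD
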