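import Pool.Agent.Helper72.TD.IBGlobal

/-!
The 2-Selmer groups of `E` and of its inert base change are isomorphic.
-/

namespace Pool.Agent.Helper72.TD

open IsDedekindDomain Polynomial WithZero

variable {k : Type*} [Field k]

/-- Global points are preserved by the substitution. -/
theorem hasPoint_cmp {K : Type*} [Field K] (φ : K →+* K) {e1 e2 e3 d1 d2 : K}
    (h : HasPoint K e1 e2 e3 d1 d2) : HasPoint K (φ e1) (φ e2) (φ e3) (φ d1) (φ d2) := by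
  obtain ⟨z0, z1, z2, z3, hz, h1, h2⟩ := h
  refine ⟨φ z0, φ z1, φ z2, φ z3, ?_, ?_, ?_⟩
  · rintro ⟨a, b, c, d⟩
    exact hz ⟨(map_eq_zero φ).mp a, (map_eq_zero φ).mp b, (map_eq_zero φ).mp c,
      (map_eq_zero φ).mp d⟩
  · simp only [Algebra.algebraMap_self, RingHom.id_apply] at h1 ⊢
    rw [← map_pow, ← map_pow, ← map_pow, ← map_mul, ← map_mul, ← map_sub, h1, map_mul, map_sub]
  · simp only [Algebra.algebraMap_self, RingHom.id_apply] at h2 ⊢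
    rw [← map_pow, ← map_pow, ← map_pow, ← map_mul, ← map_mul, ← map_mul, ← map_sub, h2, map_mul,
      map_sub]

theorem hasPoint_of_eq_mul_sq {K : Type*} [Field K] (L : Type*) [Field L] [Algebra K L]
    {e1 e2 e3 c1 c2 d1 d2 s1 s2 : K} (hc1 : c1 ≠ 0) (hc2 : c2 ≠ 0) (hs1 : s1 ≠ 0) (hs2 : s2 ≠ 0)
    (h1 : d1 = c1 * s1 ^ 2) (h2 : d2 = c2 * s2 ^ 2) :
    HasPoint L e1 e2 e3 d1 d2 ↔ HasPoint L e1 e2 e3 c1 c2 := by
  have hd1 : d1 ≠ 0 := by rw [h1]; exact mul_ne_zero hc1 (pow_ne_zero 2 hs1)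
  have hd2 : d2 ≠ 0 := by rw [h2]; exact mul_ne_zero hc2 (pow_ne_zero 2 hs2)
  constructor
  · intro h
    refine hasPoint_congr L hd1 hd2 hc1 hc2 ⟨algebraMap K L (c1 * s1), ?_⟩
      ⟨algebraMap K L (c2 * s2), ?_⟩ h
    · rw [← map_mul, h1]; congr 1; ring
    · rw [← map_mul, h2]; congr 1; ring
  · intro h
    refine hasPoint_congr L hc1 hc2 hd1 hd2 ⟨algebraMap K L (c1 * s1), ?_⟩
      ⟨algebraMap K L (c2 * s2), ?_⟩ h
    · rw [← map_mul, h1]; congr 1; ring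
    · rw [← map_mul, h2]; congr 1; ring

theorem els_of_eq_mul_sq {e1 e2 e3 c1 c2 d1 d2 s1 s2 : RatFunc k} (hc1 : c1 ≠ 0) (hc2 : c2 ≠ 0)
    (hs1 : s1 ≠ 0) (hs2 : s2 ≠ 0) (h1 : d1 = c1 * s1 ^ 2) (h2 : d2 = c2 * s2 ^ 2) :
    ELS e1 e2 e3 d1 d2 ↔ ELS e1 e2 e3 c1 c2 := by
  classical
  constructor
  · rintro ⟨hf, hi⟩
    refine ⟨fun v => ?_, ?_⟩
    · exact (hasPoint_of_eq_mul_sq _ hc1 hc2 hs1 hs2 h1 h2).mp (hf v)
    · exact (hasPoint_of_eq_mul_sq _ hc1 hc2 hs1 hs2 h1 h2).mp hi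
  · rintro ⟨hf, hi⟩
    refine ⟨fun v => ?_, ?_⟩
    · exact (hasPoint_of_eq_mul_sq _ hc1 hc2 hs1 hs2 h1 h2).mpr (hf v)
    · exact (hasPoint_of_eq_mul_sq _ hc1 hc2 hs1 hs2 h1 h2).mpr hi

variable [Finite k]

/-- Everywhere locally soluble coverings of the base change come from the base. -/
theorem els_descend {g : k[X]} (hg : Odd g.natDegree) (hg0 : g.natDegree ≠ 0) (h2 : (2 : k) ≠ 0)
    {e1 e2 e3 : RatFunc k} (h12 : e1 ≠ e2) (h13 : e1 ≠ e3) (h23 : e2 ≠ e3)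
    (hin : InertAtBad g e1 e2 e3) {D1 D2 : RatFunc k} (hD1 : D1 ≠ 0) (hD2 : D2 ≠ 0)
    (h : ELS (cmp g hg0 e1) (cmp g hg0 e2) (cmp g hg0 e3) D1 D2) :
    ∃ d1 d2 s1 s2 : RatFunc k, d1 ≠ 0 ∧ d2 ≠ 0 ∧ s1 ≠ 0 ∧ s2 ≠ 0 ∧
      D1 = cmp g hg0 d1 * s1 ^ 2 ∧ D2 = cmp g hg0 d2 * s2 ^ 2 ∧ ELS e1 e2 e3 d1 d2 := by
  classical
  have h2' : (2 : RatFunc k) ≠ 0 := by
    intro h
    apply h2
    have : (algebraMap k (RatFunc k)) 2 = 0 := by rw [map_ofNat]; exact h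
    exact (map_eq_zero (algebraMap k (RatFunc k))).mp this
  have hev : ∀ w : HeightOneSpectrum k[X],
      GoodAt (w.valuation (RatFunc k)) (cmp g hg0 e1) (cmp g hg0 e2) (cmp g hg0 e3) →
        EvenAt (w.valuation (RatFunc k)) D1 ∧ EvenAt (w.valuation (RatFunc k)) D2 := by
    intro w hw
    obtain ⟨ww, hww⟩ := localData_finite h2 w
    exact nec_good hww hD1 hD2 hw (h.1 w)
  obtain ⟨d1, s1, hd1, hs1, e1', hg1⟩ := descend hg hg0 h12 h13 h23 hin hD1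
    (fun w hw => (hev w hw).1)
  obtain ⟨d2, s2, hd2, hs2, e2', hg2⟩ := descend hg hg0 h12 h13 h23 hin hD2
    (fun w hw => (hev w hw).2)
  have hφ1 : cmp g hg0 d1 ≠ 0 := (map_ne_zero (cmp g hg0)).mpr hd1
  have hφ2 : cmp g hg0 d2 ≠ 0 := (map_ne_zero (cmp g hg0)).mpr hd2
  rw [els_of_eq_mul_sq hφ1 hφ2 hs1 hs2 e1' e2'] at h
  refine ⟨d1, d2, s1, s2, hd1, hd2, hs1, hs2, e1', e2', fun v => ?_, ?_⟩
  · obtain ⟨wv, hwv⟩ := localData_finite h2 v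
    have hFv := finRes_finite h2 v
    by_cases hv : GoodAt (v.valuation (RatFunc k)) e1 e2 e3
    · exact (good_iff hwv hFv hd1 hd2 hv).mpr ⟨hg1 v hv, hg2 v hv⟩
    · obtain ⟨w, m, π, -, ho, -⟩ := bad_above hg hg0 hin v hv
      obtain ⟨ww, hww⟩ := localData_finite h2 w
      have hFw := finRes_finite h2 w
      exact (compare ho hwv hww hFv hFw h2' h2' h12 h13 h23 hd1 hd2).mpr (h.1 w)
  · obtain ⟨wv, hwv⟩ := localData_infty (k := k) h2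
    have hF := finRes_infty (k := k) h2
    exact (compare (infty_above hg hg0) hwv hwv hF hF h2' h2' h12 h13 h23 hd1 hd2).mpr h.2

theorem els_iff {g : k[X]} (hg : Odd g.natDegree) (hg0 : g.natDegree ≠ 0) (h2 : (2 : k) ≠ 0)
    {e1 e2 e3 : RatFunc k} (h12 : e1 ≠ e2) (h13 : e1 ≠ e3) (h23 : e2 ≠ e3)
    (hin : InertAtBad g e1 e2 e3) {d1 d2 : RatFunc k} (hd1 : d1 ≠ 0) (hd2 : d2 ≠ 0) :
    ELS e1 e2 e3 d1 d2 ↔
      ELS (cmp g hg0 e1) (cmp g hg0 e2) (cmp g hg0 e3) (cmp g hg0 d1) (cmp g hg0 d2) := by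
  constructor
  · exact els_map hg hg0 h2 h12 h13 h23 hin hd1 hd2
  · intro h
    have hφ1 : cmp g hg0 d1 ≠ 0 := (map_ne_zero (cmp g hg0)).mpr hd1
    have hφ2 : cmp g hg0 d2 ≠ 0 := (map_ne_zero (cmp g hg0)).mpr hd2
    obtain ⟨c1, c2, s1, s2, hc1, hc2, hs1, hs2, a1, a2, he⟩ :=
      els_descend hg hg0 h2 h12 h13 h23 hin hφ1 hφ2 h
    have sq : ∀ {d c s : RatFunc k}, d ≠ 0 → c ≠ 0 → s ≠ 0 →
        cmp g hg0 d = cmp g hg0 c * s ^ 2 → ∃ r : RatFunc k, r ≠ 0 ∧ d = c * r ^ 2 := by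
      intro d c s hd hc hs h
      have hφ : cmp g hg0 c ≠ 0 := (map_ne_zero (cmp g hg0)).mpr hc
      have h3 : IsSquare (cmp g hg0 (d * c)) := by
        refine ⟨cmp g hg0 c * s, ?_⟩
        rw [map_mul, h]
        ring
      obtain ⟨r, hr⟩ := isSquare_of_cmp g hg hg0 h3
      have hr0 : r ≠ 0 := by
        rintro rfl
        rw [mul_zero] at hr
        exact mul_ne_zero hd hc hr
      refine ⟨r / c, div_ne_zero hr0 hc, ?_⟩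
      field_simp
      rw [hr, sq]
    obtain ⟨r1, hr1, b1⟩ := sq hd1 hc1 hs1 a1
    obtain ⟨r2, hr2, b2⟩ := sq hd2 hc2 hs2 a2
    exact (els_of_eq_mul_sq hc1 hc2 hr1 hr2 b1 b2).mpr he

/-- Transfer of the vanishing of the 2-torsion of the Tate-Shafarevich group. -/
theorem hp_transfer {g : k[X]} (hg : Odd g.natDegree) (hg0 : g.natDegree ≠ 0) (h2 : (2 : k) ≠ 0)
    {e1 e2 e3 : RatFunc k} (h12 : e1 ≠ e2) (h13 : e1 ≠ e3) (h23 : e2 ≠ e3)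
    (hin : InertAtBad g e1 e2 e3)
    (hp : ∀ d1 d2 : RatFunc k, d1 ≠ 0 → d2 ≠ 0 → ELS e1 e2 e3 d1 d2 →
      HasPoint (RatFunc k) e1 e2 e3 d1 d2) {D1 D2 : RatFunc k} (hD1 : D1 ≠ 0) (hD2 : D2 ≠ 0)
    (h : ELS (cmp g hg0 e1) (cmp g hg0 e2) (cmp g hg0 e3) D1 D2) :
    HasPoint (RatFunc k) (cmp g hg0 e1) (cmp g hg0 e2) (cmp g hg0 e3) D1 D2 := by
  obtain ⟨c1, c2, s1, s2, hc1, hc2, hs1, hs2, a1, a2, he⟩ :=
    els_descend hg hg0 h2 h12 h13 h23 hin hD1 hD2 h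
  rw [hasPoint_of_eq_mul_sq (RatFunc k) ((map_ne_zero (cmp g hg0)).mpr hc1)
    ((map_ne_zero (cmp g hg0)).mpr hc2) hs1 hs2 a1 a2]
  exact hasPoint_cmp (cmp g hg0) (hp c1 c2 hc1 hc2 he)

end Pool.Agent.Helper72.TD
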