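import Pool.Agent.Helper72.TD.IBMain

/-!
Invariance of the 2-Selmer group, of the 2-torsion of the Tate-Shafarevich group and of the
Mordell-Weil rank of an elliptic curve with full 2-torsion over `k(t)` under every inert base
change `t ↦ g(t)` of odd degree.
-/

namespace Pool.Agent.Results.MP_8ac872_ag.InertBaseChange

open IsDedekindDomain Polynomial Pool.Agent.Helper72.TD

/-- The substitution `t ↦ g(t)` on `k(t)`, for a polynomial `g` of odd degree. -/
noncomputable def sub {k : Type*} [Field k] (g : k[X]) (hg : Odd g.natDegree) :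
    RatFunc k →+* RatFunc k :=
  cmp g (fun h => by rw [h] at hg; exact absurd hg (by decide))

theorem result {k : Type*} [Field k] [Finite k] [DecidableEq (RatFunc k)] (h2 : (2 : k) ≠ 0)
    {e1 e2 e3 : RatFunc k} (h12 : e1 ≠ e2) (h13 : e1 ≠ e3) (h23 : e2 ≠ e3)
    (g : k[X]) (hg : Odd g.natDegree) (hin : OneAbove g e1 e2 e3) :
    -- the map of the classes of 2-coverings is injective
    (∀ d : RatFunc k, IsSquare (sub g hg d) → IsSquare d) ∧
    -- it preserves and reflects everywhere local solubility and global solubility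
    (∀ d1 d2 : RatFunc k, d1 ≠ 0 → d2 ≠ 0 →
      (ELS e1 e2 e3 d1 d2 ↔
        ELS (sub g hg e1) (sub g hg e2) (sub g hg e3) (sub g hg d1) (sub g hg d2)) ∧
      (HasPoint (RatFunc k) e1 e2 e3 d1 d2 ↔
        HasPoint (RatFunc k) (sub g hg e1) (sub g hg e2) (sub g hg e3) (sub g hg d1)
          (sub g hg d2))) ∧
    -- it is surjective on the everywhere locally soluble ones
    (∀ D1 D2 : RatFunc k, D1 ≠ 0 → D2 ≠ 0 →
      ELS (sub g hg e1) (sub g hg e2) (sub g hg e3) D1 D2 →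
        ∃ d1 d2 : RatFunc k, d1 ≠ 0 ∧ d2 ≠ 0 ∧ ELS e1 e2 e3 d1 d2 ∧
          IsSquare (D1 * sub g hg d1) ∧ IsSquare (D2 * sub g hg d2)) ∧
    -- Sha[2] vanishes for the one curve if and only if it vanishes for the other
    ((∀ d1 d2 : RatFunc k, d1 ≠ 0 → d2 ≠ 0 → ELS e1 e2 e3 d1 d2 →
        HasPoint (RatFunc k) e1 e2 e3 d1 d2) ↔
      ∀ D1 D2 : RatFunc k, D1 ≠ 0 → D2 ≠ 0 →
        ELS (sub g hg e1) (sub g hg e2) (sub g hg e3) D1 D2 →
          HasPoint (RatFunc k) (sub g hg e1) (sub g hg e2) (sub g hg e3) D1 D2) ∧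
    -- the Mordell-Weil groups have the same rank, and the natural map has odd index
    AddGroup.FG (curve e1 e2 e3).toAffine.Point ∧
    AddGroup.FG (curve (sub g hg e1) (sub g hg e2) (sub g hg e3)).toAffine.Point ∧
    Module.finrank ℤ (curve (sub g hg e1) (sub g hg e2) (sub g hg e3)).toAffine.Point =
      Module.finrank ℤ (curve e1 e2 e3).toAffine.Point ∧
    ∃ f : (curve e1 e2 e3).toAffine.Point →+
        (curve (sub g hg e1) (sub g hg e2) (sub g hg e3)).toAffine.Point,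
      Function.Injective f ∧
      (∀ (x y : RatFunc k) (h : (curve e1 e2 e3).toAffine.Nonsingular x y),
        ∃ h' : (curve (sub g hg e1) (sub g hg e2) (sub g hg e3)).toAffine.Nonsingular
          (sub g hg x) (sub g hg y), f (.some x y h) = .some (sub g hg x) (sub g hg y) h') ∧
      Odd f.range.index := by
  have hg0 : g.natDegree ≠ 0 := fun h => by rw [h] at hg; exact absurd hg (by decide)
  have hI := hin.inert hg
  refine ⟨fun d hd => isSquare_of_cmp g hg hg0 hd, fun d1 d2 hd1 hd2 => ⟨?_, ?_⟩, ?_, ⟨?_, ?_⟩,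
    ?_, ?_⟩
  · exact els_iff hg hg0 h2 h12 h13 h23 hI hd1 hd2
  · exact ⟨fun h => hasPoint_cmp _ h, fun h => hasPoint_of_cmp h2 hg hg0 h⟩
  · intro D1 D2 hD1 hD2 h
    obtain ⟨d1, d2, s1, s2, hd1, hd2, hs1, hs2, a1, a2, he⟩ :=
      els_descend hg hg0 h2 h12 h13 h23 hI hD1 hD2 h
    refine ⟨d1, d2, hd1, hd2, he, ⟨sub g hg d1 * s1, ?_⟩, ⟨sub g hg d2 * s2, ?_⟩⟩
    · rw [a1]
      change cmp g hg0 d1 * s1 ^ 2 * cmp g hg0 d1 = cmp g hg0 d1 * s1 * (cmp g hg0 d1 * s1)
      ring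
    · rw [a2]
      change cmp g hg0 d2 * s2 ^ 2 * cmp g hg0 d2 = cmp g hg0 d2 * s2 * (cmp g hg0 d2 * s2)
      ring
  · intro hp D1 D2 hD1 hD2 h
    exact hp_transfer hg hg0 h2 h12 h13 h23 hI hp hD1 hD2 h
  · intro hp d1 d2 hd1 hd2 h
    apply hasPoint_of_cmp h2 hg hg0
    exact hp _ _ ((_root_.map_ne_zero (cmp g hg0)).mpr hd1)
      ((_root_.map_ne_zero (cmp g hg0)).mpr hd2) (els_map hg hg0 h2 h12 h13 h23 hI hd1 hd2 h)
  · exact mordell_weil h2 h12 h13 h23 (weak_mw h2 h12 h13 h23)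
  · exact points_transfer' hg hg0 h2 h12 h13 h23 hI

end Pool.Agent.Results.MP_8ac872_ag.InertBaseChange
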