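import Pool.Agent.Helper72.TD.LegGlobal
import Pool.Agent.Helper72.TD.Halving

/-!
Consequences for the group `E(K)` and for the 2-coverings.
-/

namespace Pool.Agent.Helper72.TD

open IsDedekindDomain Polynomial WithZero

section
variable {K : Type*} [Field K] {e1 e2 e3 : K}

theorem hasClass_neg {P : (curve e1 e2 e3).toAffine.Point} {d1 d2 : K} (h : HasClass P d1 d2) :
    HasClass (-P) d1 d2 := by
  match P, h with
  | .zero, h => exact h
  | .some x y hxy, h => exact h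

theorem hasClass_unique [DecidableEq K] (h2 : (2 : K) ≠ 0) (h12 : e1 ≠ e2) (h13 : e1 ≠ e3)
    (h23 : e2 ≠ e3)
    {P : (curve e1 e2 e3).toAffine.Point} {a1 a2 b1 b2 : K} (ha1 : a1 ≠ 0) (ha2 : a2 ≠ 0)
    (hb1 : b1 ≠ 0) (hb2 : b2 ≠ 0) (ha : HasClass P a1 a2) (hb : HasClass P b1 b2) :
    IsSquare (a1 * b1) ∧ IsSquare (a2 * b2) := by
  have := hasClass_add h2 h12 h13 h23 ha1 ha2 hb1 hb2 ha (hasClass_neg hb)
  rw [add_neg_cancel] at this
  exact this

end

variable {k : Type*} [Field k]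

theorem even_prod_other {g : k[X]} {d : ℕ} (hd0 : 0 < d) {η : k} (_ : η ≠ 0)
    (v : HeightOneSpectrum k[X])
    (hv : v.valuation (RatFunc k) (algebraMap k[X] (RatFunc k) (g - C (-η⁻¹))) < 1)
    (S : Finset k) (hS : ∀ ζ ∈ S, ζ ^ d = 1) (hηS : η ∉ S) :
    EvenAt (v.valuation (RatFunc k))
      (∏ ζ ∈ S, (RatFunc.C ζ * algebraMap k[X] (RatFunc k) g + 1)) := by
  refine ⟨1, one_ne_zero, ?_⟩
  rw [map_prod, one_pow]
  apply Finset.prod_eq_one
  intro ζ hζ
  have hz : ζ ≠ 0 := by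
    rintro rfl
    have := hS 0 hζ
    rw [zero_pow hd0.ne'] at this
    exact zero_ne_one this
  apply val_factor hz v hv
  intro h3
  apply hηS
  have h4 : ζ = η := by
    have := neg_injective h3
    exact inv_injective this
  rwa [← h4]

theorem not_even_factor {g : k[X]} (hg : g.natDegree ≠ 0) {η : k} (hη : η ≠ 0) {π : k[X]}
    (hπ : Irreducible π) {u : k} {n : ℕ} (hn : Odd n) (hfac : g - C (-η⁻¹) = C u * π ^ n) :
    ∃ v : HeightOneSpectrum k[X],
      v.valuation (RatFunc k) (algebraMap k[X] (RatFunc k) (g - C (-η⁻¹))) < 1 ∧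
      ¬ EvenAt (v.valuation (RatFunc k)) (RatFunc.C η * algebraMap k[X] (RatFunc k) g + 1) := by
  have hne : g - C (-η⁻¹) ≠ 0 := by
    intro h
    apply hg
    rw [sub_eq_zero.mp h, natDegree_C]
  have hn0 : n ≠ 0 := by rintro rfl; simp at hn
  obtain ⟨v, hv, hv'⟩ := exists_place_of hπ hfac hne hn0
  refine ⟨v, hv', ?_⟩
  have hu0 : u ≠ 0 := by
    rintro rfl
    apply hne
    simpa using hfac
  have hnd : ¬ π ∣ C u := by
    intro hdvd
    exact hπ.not_isUnit (isUnit_of_dvd_unit hdvd (isUnit_C.mpr hu0.isUnit))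
  have h1 := (evenAt_pow v hv n hnd).not.mpr (by rwa [Nat.not_even_iff_odd])
  rw [factor_eq g hη]
  rintro ⟨γ, hγ, h2⟩
  apply h1
  refine ⟨γ, hγ, ?_⟩
  rw [← h2, val_const_mul v hη, hfac, mul_comm]

/-- If two products of classes differ by a square, the index sets agree. -/
theorem sets_eq {g : k[X]} (hg : g.natDegree ≠ 0) {d : ℕ} (hd : Even d) (hd0 : 0 < d)
    (hgζ : ∀ ζ : k, ζ ^ d = 1 → ∃ π : k[X], Irreducible π ∧ ∃ (u : k) (n : ℕ), Odd n ∧
      g - C ζ = C u * π ^ n)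
    {T T' : Finset k} (hT : ∀ ζ ∈ T, ζ ^ d = 1) (hT' : ∀ ζ ∈ T', ζ ^ d = 1)
    (hne : ∀ ζ : k, ζ ^ d = 1 → RatFunc.C ζ * algebraMap k[X] (RatFunc k) g + 1 ≠ 0)
    (h : IsSquare ((∏ ζ ∈ T, (RatFunc.C ζ * algebraMap k[X] (RatFunc k) g + 1)) *
      ∏ ζ ∈ T', (RatFunc.C ζ * algebraMap k[X] (RatFunc k) g + 1))) : T ⊆ T' := by
  classical
  intro η hη
  by_contra hη'
  have hηd := hT η hη
  have hη0 : η ≠ 0 := by
    rintro rfl
    rw [zero_pow hd0.ne'] at hηd
    exact zero_ne_one hηd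
  obtain ⟨π, hπ, u, n, hn, hfac⟩ := hgζ (-η⁻¹) (by rw [hd.neg_pow, inv_pow, hηd, inv_one])
  obtain ⟨v, hv, hodd⟩ := not_even_factor hg hη0 hπ hn hfac
  have h1 := even_prod_other hd0 hη0 v hv (T.erase η)
    (fun ζ hζ => hT ζ (Finset.mem_of_mem_erase hζ)) (Finset.notMem_erase η T)
  have h2 := even_prod_other hd0 hη0 v hv T' hT' hη'
  apply hodd
  rw [← Finset.mul_prod_erase T _ hη, mul_assoc] at h
  obtain ⟨r, hr⟩ := h
  have hr0 : r ≠ 0 := by
    rintro rfl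
    rw [mul_zero] at hr
    have hA := Finset.prod_ne_zero_iff.mpr
      (fun ζ hζ => hne ζ (hT ζ (Finset.mem_of_mem_erase hζ)) :
        ∀ ζ ∈ T.erase η, RatFunc.C ζ * algebraMap k[X] (RatFunc k) g + 1 ≠ 0)
    have hB := Finset.prod_ne_zero_iff.mpr
      (fun ζ hζ => hne ζ (hT' ζ hζ) :
        ∀ ζ ∈ T', RatFunc.C ζ * algebraMap k[X] (RatFunc k) g + 1 ≠ 0)
    exact mul_ne_zero (hne η hηd) (mul_ne_zero hA hB) hr
  set A := ∏ ζ ∈ T.erase η, (RatFunc.C ζ * algebraMap k[X] (RatFunc k) g + 1)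
  set B := ∏ ζ ∈ T', (RatFunc.C ζ * algebraMap k[X] (RatFunc k) g + 1)
  have hA0 : A ≠ 0 := by
    intro h0; rw [h0] at hr; simp at hr; exact hr0 hr
  have hB0 : B ≠ 0 := by
    intro h0; rw [h0] at hr; simp at hr; exact hr0 hr
  have e : RatFunc.C η * algebraMap k[X] (RatFunc k) g + 1 = (A * B) * (r / (A * B)) ^ 2 := by
    field_simp
    linear_combination hr
  rw [e]
  exact (evenAt_mul_sq (div_ne_zero hr0 (mul_ne_zero hA0 hB0))).mpr (evenAt_mul h1 h2)

section main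

variable (p f : ℕ) [hp : Fact p.Prime] [CharP k p]

omit hp in
theorem charP_ratFunc : CharP (RatFunc k) p :=
  charP_of_injective_algebraMap (algebraMap k (RatFunc k)).injective p

theorem two_ne (hp2 : p ≠ 2) (K : Type*) [Field K] [CharP K p] : (2 : K) ≠ 0 := by
  intro h
  have h' : ((2 : ℕ) : K) = 0 := by exact_mod_cast h
  rw [CharP.cast_eq_zero_iff K p] at h'
  exact hp2 ((Nat.prime_dvd_prime_iff_eq Fact.out Nat.prime_two).mp h')

theorem G_pow_ne_one {g : k[X]} (hg : g.natDegree ≠ 0) {d : ℕ} (hd : d ≠ 0) :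
    algebraMap k[X] (RatFunc k) g ^ d ≠ 1 := by
  intro h
  rw [← map_pow, ← map_one (algebraMap k[X] (RatFunc k))] at h
  have := RatFunc.algebraMap_injective k h
  have h2 := congrArg natDegree this
  rw [natDegree_pow, natDegree_one] at h2
  rcases Nat.mul_eq_zero.mp h2 with h3 | h3
  · exact hd h3
  · exact hg h3

theorem G_ne_zero {g : k[X]} (hg : g.natDegree ≠ 0) : algebraMap k[X] (RatFunc k) g ≠ 0 :=
  RatFunc.algebraMap_ne_zero (by rintro rfl; simp at hg)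

/-- The points with `x = ζ g`, `ζ^(Q+1) = 1`. -/
def ptSet (g : k[X]) (Q : ℕ) : Set (curve (0 : RatFunc k) (-1)
    (-(algebraMap k[X] (RatFunc k) g ^ (Q + 1)))).toAffine.Point :=
  {P | ∃ (ζ : k) (y : RatFunc k) (h : (curve (0 : RatFunc k) (-1)
    (-(algebraMap k[X] (RatFunc k) g ^ (Q + 1)))).toAffine.Nonsingular
      (RatFunc.C ζ * algebraMap k[X] (RatFunc k) g) y), ζ ^ (Q + 1) = 1 ∧
      P = WeierstrassCurve.Affine.Point.some _ y h}

/-- The sum of the points `P_ζ`, `ζ ∈ T`. -/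
theorem exists_sum_point [DecidableEq (RatFunc k)] (hp2 : p ≠ 2) (g : k[X])
    (hg : g.natDegree ≠ 0)
    (T : Finset k) (hT : ∀ ζ ∈ T, ζ ^ (p ^ f + 1) = 1) :
    ∃ P ∈ AddSubgroup.closure (ptSet g (p ^ f)),
      HasClass P (∏ ζ ∈ T, (RatFunc.C ζ * algebraMap k[X] (RatFunc k) g))
        (∏ ζ ∈ T, (RatFunc.C ζ * algebraMap k[X] (RatFunc k) g + 1)) := by
  classical
  have := charP_ratFunc (k := k) p
  have h2 := two_ne p hp2 (RatFunc k)
  have hG := G_ne_zero hg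
  have hG1 := G_pow_ne_one hg (Nat.succ_ne_zero (p ^ f))
  have hne : ∀ ζ : k, ζ ^ (p ^ f + 1) = 1 → RatFunc.C ζ * algebraMap k[X] (RatFunc k) g ≠ 0 ∧
      RatFunc.C ζ * algebraMap k[X] (RatFunc k) g + 1 ≠ 0 := by
    intro ζ hζ
    have hζ0 : ζ ≠ 0 := by
      rintro rfl
      rw [zero_pow (Nat.succ_ne_zero _)] at hζ
      exact zero_ne_one hζ
    refine ⟨mul_ne_zero (by simpa using hζ0) hG, ?_⟩
    rw [factor_eq g hζ0]
    refine mul_ne_zero (by simpa using hζ0) (RatFunc.algebraMap_ne_zero ?_)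
    intro h
    apply hg
    rw [sub_eq_zero.mp h, natDegree_C]
  induction T using Finset.induction_on with
  | empty => exact ⟨0, AddSubgroup.zero_mem _, by
      simp only [Finset.prod_empty]
      exact ⟨⟨1, by ring⟩, ⟨1, by ring⟩⟩⟩
  | insert a s ha ih =>
    obtain ⟨P, hPm, hP⟩ := ih (fun ζ hζ => hT ζ (Finset.mem_insert_of_mem hζ))
    have haT := hT a (Finset.mem_insert_self a s)
    have haC : (RatFunc.C a : RatFunc k) ^ (p ^ f + 1) = 1 := by rw [← map_pow, haT, map_one]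
    rw [Finset.prod_insert ha, Finset.prod_insert ha]
    refine ⟨Pt p f hp2 (RatFunc.C a) _ haC hG hG1 + P,
      AddSubgroup.add_mem _ (AddSubgroup.subset_closure ⟨a, _, _, haT, rfl⟩) hPm, ?_⟩
    refine hasClass_add h2 ?_ ?_ ?_ (hne a haT).1 (hne a haT).2 ?_ ?_
      (hasClass_pt p f hp2 (RatFunc.C a) _ haC hG hG1) hP
    · simp
    · intro h
      rw [eq_comm, neg_eq_zero] at h
      exact hG (pow_eq_zero_iff (Nat.succ_ne_zero _) |>.mp h)
    · intro h
      exact hG1 (neg_injective h).symm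
    · exact Finset.prod_ne_zero_iff.mpr fun ζ hζ =>
        (hne ζ (hT ζ (Finset.mem_insert_of_mem hζ))).1
    · exact Finset.prod_ne_zero_iff.mpr fun ζ hζ =>
        (hne ζ (hT ζ (Finset.mem_insert_of_mem hζ))).2

end main

end Pool.Agent.Helper72.TD
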