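import Pool.Agent.Helper72.TD.LegLocal
import Pool.Agent.Helper72.TD.Residue
import Pool.Agent.Helper72.TD.Sqf

/-!
The linear conditions satisfied by everywhere locally soluble pairs and by the classes of the
points `P_ζ`.
-/

namespace Pool.Agent.Helper72.TD

open IsDedekindDomain Polynomial WithZero

variable {k : Type*} [Field k]

/-- The linear conditions. `d` is the exponent. -/
structure Lin [DecidableEq (RatFunc k)] (g : k[X]) (d : ℕ) (d1 d2 : RatFunc k) : Prop where
  ne1 : d1 ≠ 0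
  ne2 : d2 ≠ 0
  even1 : ∀ v : HeightOneSpectrum k[X],
    v.valuation (RatFunc k) (algebraMap k[X] (RatFunc k) g) = 1 →
      EvenAt (v.valuation (RatFunc k)) d1
  even2 : ∀ v : HeightOneSpectrum k[X],
    v.valuation (RatFunc k) (1 - algebraMap k[X] (RatFunc k) g ^ d) = 1 →
      EvenAt (v.valuation (RatFunc k)) d2
  one2 : ∀ v : HeightOneSpectrum k[X],
    v.valuation (RatFunc k) (algebraMap k[X] (RatFunc k) g) < 1 →
      OneSq (v.valuation (RatFunc k)) d2
  even3 : EvenAt (RatFunc.inftyValuation k) (d1 * d2)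
  one3 : OneSq (RatFunc.inftyValuation k) (d1 * d2)

theorem Lin.mul [DecidableEq (RatFunc k)] {g : k[X]} {d : ℕ} {a1 a2 b1 b2 : RatFunc k}
    (ha : Lin g d a1 a2) (hb : Lin g d b1 b2) : Lin g d (a1 * b1) (a2 * b2) := by
  have e : a1 * b1 * (a2 * b2) = a1 * a2 * (b1 * b2) := by ring
  exact ⟨mul_ne_zero ha.ne1 hb.ne1, mul_ne_zero ha.ne2 hb.ne2,
    fun v h => evenAt_mul (ha.even1 v h) (hb.even1 v h),
    fun v h => evenAt_mul (ha.even2 v h) (hb.even2 v h),
    fun v h => oneSq_mul (ha.one2 v h) (hb.one2 v h),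
    by rw [e]; exact evenAt_mul ha.even3 hb.even3,
    by rw [e]; exact oneSq_mul ha.one3 hb.one3⟩

theorem Lin.one [DecidableEq (RatFunc k)] {g : k[X]} {d : ℕ} : Lin g d 1 1 :=
  ⟨one_ne_zero, one_ne_zero, fun _ _ => ⟨1, one_ne_zero, by simp⟩, fun _ _ => ⟨1, one_ne_zero, by simp⟩,
    fun _ _ => ⟨1, by simp⟩, ⟨1, one_ne_zero, by simp⟩, ⟨1, by simp⟩⟩

theorem lin_of_els [inst : DecidableEq (RatFunc k)] (g : k[X]) (hg : g.natDegree ≠ 0) (d : ℕ)
    (hd : Even d) (hd0 : d ≠ 0) {d1 d2 : RatFunc k} (hd1 : d1 ≠ 0) (hd2 : d2 ≠ 0)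
    (h : ELS 0 (-1) (-(algebraMap k[X] (RatFunc k) g ^ d)) d1 d2) : Lin g d d1 d2 := by
  have e : inst = (fun a b => Classical.propDecidable (a = b) : DecidableEq (RatFunc k)) :=
    Subsingleton.elim _ _
  subst e
  letI : DecidableEq (RatFunc k) := fun a b => Classical.propDecidable (a = b)
  obtain ⟨hf, hi⟩ := h
  obtain ⟨i1, i2⟩ := leg_infty g hg d hd hd0 hd1 hd2 hi
  exact ⟨hd1, hd2, fun v => (leg_finite v g d hd0 hd1 hd2 (hf v)).1,
    fun v => (leg_finite v g d hd0 hd1 hd2 (hf v)).2.1,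
    fun v => (leg_finite v g d hd0 hd1 hd2 (hf v)).2.2, i1, i2⟩

theorem els_of_hasPoint {e1 e2 e3 d1 d2 : RatFunc k} (h : HasPoint (RatFunc k) e1 e2 e3 d1 d2) :
    ELS e1 e2 e3 d1 d2 := by
  classical
  have key : ∀ (L : Type _) [Field L] [Algebra (RatFunc k) L], HasPoint L e1 e2 e3 d1 d2 := by
    intro L _ _
    obtain ⟨z0, z1, z2, z3, hz, h1, h2⟩ := h
    refine ⟨algebraMap _ L z0, algebraMap _ L z1, algebraMap _ L z2, algebraMap _ L z3, ?_, ?_, ?_⟩
    · rintro ⟨a, b, c, d⟩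
      rw [map_eq_zero] at a b c d
      exact hz ⟨a, b, c, d⟩
    · have := congrArg (algebraMap (RatFunc k) L) h1
      simp only [map_sub, map_mul, map_pow, Algebra.algebraMap_self, RingHom.id_apply] at this ⊢
      exact this
    · have := congrArg (algebraMap (RatFunc k) L) h2
      simp only [map_sub, map_mul, map_pow, Algebra.algebraMap_self, RingHom.id_apply] at this ⊢
      exact this
  exact ⟨fun v => key _, key _⟩

theorem val_C (v : HeightOneSpectrum k[X]) {u : k} (hu : u ≠ 0) :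
    v.valuation (RatFunc k) (RatFunc.C u) = 1 := by
  have hle : ∀ a : k, v.valuation (RatFunc k) (RatFunc.C a) ≤ 1 := fun a => by
    rw [← RatFunc.algebraMap_C]; exact HeightOneSpectrum.valuation_le_one v _
  apply le_antisymm (hle u)
  have : v.valuation (RatFunc k) (RatFunc.C u) * v.valuation (RatFunc k) (RatFunc.C u⁻¹) = 1 := by
    rw [← map_mul, ← map_mul, mul_inv_cancel₀ hu, map_one, map_one]
  rw [← this]
  exact mul_le_of_le_one_right' (hle _)

/-- The product over the roots of unity. -/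
theorem prod_roots {d : ℕ} (hd : 0 < d) {μ : k} (hμ : IsPrimitiveRoot μ d) (g : k[X]) :
    g ^ d - 1 = ∏ ζ ∈ nthRootsFinset d (1 : k), (g - C ζ) := by
  have hprod := X_pow_sub_one_eq_prod hd hμ
  have := congrArg (fun p => p.comp g) hprod
  simpa [Polynomial.prod_comp] using this

theorem val_one_sub {d : ℕ} (hd : 0 < d) {μ : k} (hμ : IsPrimitiveRoot μ d) (g : k[X])
    (v : HeightOneSpectrum k[X])
    (h : ∀ ζ : k, ζ ^ d = 1 →
      v.valuation (RatFunc k) (algebraMap k[X] (RatFunc k) (g - C ζ)) = 1) :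
    v.valuation (RatFunc k) (1 - algebraMap k[X] (RatFunc k) g ^ d) = 1 := by
  have e : (1 - algebraMap k[X] (RatFunc k) g ^ d : RatFunc k) =
      -(∏ ζ ∈ nthRootsFinset d (1 : k), algebraMap k[X] (RatFunc k) (g - C ζ)) := by
    rw [← map_prod, ← prod_roots hd hμ g]
    simp
  rw [e, Valuation.map_neg, map_prod]
  apply Finset.prod_eq_one
  intro ζ hζ
  exact h ζ ((mem_nthRootsFinset hd 1).mp hζ)

theorem val_one_sub_iff {d : ℕ} (hd : 0 < d) {μ : k} (hμ : IsPrimitiveRoot μ d) (g : k[X])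
    (v : HeightOneSpectrum k[X])
    (h : v.valuation (RatFunc k) (1 - algebraMap k[X] (RatFunc k) g ^ d) = 1) (ζ : k)
    (hζ : ζ ^ d = 1) : v.valuation (RatFunc k) (algebraMap k[X] (RatFunc k) (g - C ζ)) = 1 := by
  classical
  have e : (1 - algebraMap k[X] (RatFunc k) g ^ d : RatFunc k) =
      -(∏ ζ ∈ nthRootsFinset d (1 : k), algebraMap k[X] (RatFunc k) (g - C ζ)) := by
    rw [← map_prod, ← prod_roots hd hμ g]
    simp
  have hle : ∀ a : k[X], v.valuation (RatFunc k) (algebraMap k[X] (RatFunc k) a) ≤ 1 := fun a =>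
    HeightOneSpectrum.valuation_le_one v a
  rw [e, Valuation.map_neg, ← Finset.mul_prod_erase _ _ ((mem_nthRootsFinset hd 1).mpr hζ),
    map_mul, ← map_prod] at h
  apply le_antisymm (hle _)
  rw [← h]
  exact mul_le_of_le_one_right' (hle _)

end Pool.Agent.Helper72.TD
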