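import Pool.Agent.Helper72.TD.Local
import Pool.Agent.Helper72.TD.Transfer

/-!
Local conditions for the 2-coverings of `y² = x (x + 1) (x + g^(Q+1))`.
-/

namespace Pool.Agent.Helper72.TD

open IsDedekindDomain Polynomial WithZero

section
variable {L Γ : Type*} [Field L] [LinearOrderedCommGroupWithZero Γ] {H d1 d2 d3 : L}

theorem leg_valued (w : Valuation L Γ) (hH : w H ≤ 1)
    (h : SymPoint 0 (-1) (-H) d1 d2 d3) :
    (w H = 1 → EvenAt w d1) ∧ (w (1 - H) = 1 → EvenAt w d2) ∧ (w H < 1 → OneSq w d2) := by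
  have hle : w (1 - H) ≤ 1 := by
    refine (Valuation.map_sub w _ _).trans (max_le ?_ hH)
    rw [map_one]
  have g12 : w ((-1 : L) - 0) = 1 := by rw [sub_zero, Valuation.map_neg, map_one]
  have g21 : w ((0 : L) - (-1)) = 1 := by rw [zero_sub, neg_neg, map_one]
  have g13 : w (-H - 0) = w H := by rw [sub_zero, Valuation.map_neg]
  have g23 : w (-H - (-1)) = w (1 - H) := by congr 1; ring
  have h132 := symPoint_swap23 h
  -- order (2, 3, 1)
  have h231 := symPoint_swap23 (symPoint_swap12 h)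
  refine ⟨fun h1 => ?_, fun h1 => ?_, fun h1 => ?_⟩
  · rcases lt_or_eq_of_le hle with hlt | heq
    · exact even_of_mult w (by rw [g23]; exact hlt) g21 h231
    · exact (even_of_good w g12 (by rw [g13, h1]) (by rw [g23, heq]) h).1
  · rcases lt_or_eq_of_le hH with hlt | heq
    · exact even_of_mult w (by rw [g13]; exact hlt) g12 h132
    · exact (even_of_good w g12 (by rw [g13, heq]) (by rw [g23, h1]) h).2.1
  · refine oneSq_of_mult w (by rw [g13]; exact h1) g12 ⟨1, ?_⟩ h132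
    simp

theorem leg_valued_infty (w : Valuation L Γ) {c : L} (hc : H = c ^ 2) (hH : 1 < w H)
    (h : SymPoint 0 (-1) (-H) d1 d2 d3) : EvenAt w d3 ∧ OneSq w d3 := by
  have hH0 : H ≠ 0 := (Valuation.ne_zero_iff w).mp (ne_zero_of_lt hH)
  have hc0 : c ≠ 0 := by rintro rfl; simp [hc] at hH0
  have hs := symPoint_scale hc0 h
  rw [← hc, zero_div, neg_div, neg_div, div_self hH0] at hs
  have g12 : w (-(1 / H) - 0) < 1 := by
    rw [sub_zero, Valuation.map_neg, map_div₀, map_one]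
    exact (div_lt_one₀ (zero_lt_iff.mpr (ne_zero_of_lt hH))).mpr hH
  have g13 : w ((-1 : L) - 0) = 1 := by rw [sub_zero, Valuation.map_neg, map_one]
  exact ⟨even_of_mult w g12 g13 hs, oneSq_of_mult w g12 g13 ⟨1, by simp⟩ hs⟩

end

section
variable {k : Type*} [Field k]

theorem leg_finite (v : HeightOneSpectrum k[X]) (g : k[X]) (d : ℕ) (hd : d ≠ 0)
    {d1 d2 : RatFunc k} (hd1 : d1 ≠ 0) (hd2 : d2 ≠ 0)
    (h : HasPoint (v.adicCompletion (RatFunc k)) 0 (-1) (-(algebraMap k[X] (RatFunc k) g ^ d))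
      d1 d2) :
    (v.valuation (RatFunc k) (algebraMap k[X] (RatFunc k) g) = 1 →
      EvenAt (v.valuation (RatFunc k)) d1) ∧
    (v.valuation (RatFunc k) (1 - algebraMap k[X] (RatFunc k) g ^ d) = 1 →
      EvenAt (v.valuation (RatFunc k)) d2) ∧
    (v.valuation (RatFunc k) (algebraMap k[X] (RatFunc k) g) < 1 →
      OneSq (v.valuation (RatFunc k)) d2) := by
  obtain ⟨w, hw, hdense⟩ := finite_place v
  have hs := symPoint_of_hasPoint hd1 hd2 h
  rw [map_zero, map_neg, map_one, map_neg] at hs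
  set i := algebraMap (RatFunc k) (v.adicCompletion (RatFunc k))
  have hg1 : v.valuation (RatFunc k) (algebraMap k[X] (RatFunc k) g) ≤ 1 :=
    HeightOneSpectrum.valuation_le_one v g
  have hH : w (i (algebraMap k[X] (RatFunc k) g ^ d)) ≤ 1 := by
    rw [hw, map_pow]
    exact pow_le_one₀ zero_le hg1
  obtain ⟨a1, a2, a3⟩ := leg_valued w hH hs
  refine ⟨fun h1 => ?_, fun h1 => ?_, fun h1 => ?_⟩
  · obtain ⟨γ, hγ, e⟩ := a1 (by rw [hw, map_pow, h1, one_pow])
    exact ⟨γ, hγ, by rw [← e, hw]⟩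
  · obtain ⟨γ, hγ, e⟩ := a2 (by rw [← map_one i, ← map_sub, hw, h1])
    exact ⟨γ, hγ, by rw [← e, hw]⟩
  · exact oneSq_transfer _ w hw hdense (a3 (by
      rw [hw, map_pow]; exact pow_lt_one₀ zero_le h1 hd))

theorem leg_infty [DecidableEq (RatFunc k)] (g : k[X]) (hg : g.natDegree ≠ 0) (d : ℕ) (hd : Even d)
    (hd0 : d ≠ 0)
    {d1 d2 : RatFunc k} (hd1 : d1 ≠ 0) (hd2 : d2 ≠ 0)
    (h : HasPoint (RatFunc.CompletionAtInfty k) 0 (-1) (-(algebraMap k[X] (RatFunc k) g ^ d))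
      d1 d2) :
    EvenAt (RatFunc.inftyValuation k) (d1 * d2) ∧ OneSq (RatFunc.inftyValuation k) (d1 * d2) := by
  obtain ⟨w, hw, hdense⟩ := infinite_place (k := k)
  have hs := symPoint_of_hasPoint hd1 hd2 h
  rw [map_zero, map_neg, map_one, map_neg] at hs
  set i := algebraMap (RatFunc k) (RatFunc.CompletionAtInfty k)
  have hg0 : g ≠ 0 := by rintro rfl; simp at hg
  have hv : RatFunc.inftyValuation k (algebraMap k[X] (RatFunc k) g) = exp (g.natDegree : ℤ) :=
    RatFunc.inftyValuation.polynomial k hg0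
  have hv1 : 1 < RatFunc.inftyValuation k (algebraMap k[X] (RatFunc k) g) := by
    rw [hv, ← exp_zero, exp_lt_exp]
    exact_mod_cast Nat.pos_of_ne_zero hg
  have hH : 1 < w (i (algebraMap k[X] (RatFunc k) g ^ d)) := by
    rw [hw, map_pow]
    exact one_lt_pow₀ hv1 hd0
  obtain ⟨n, rfl⟩ := hd
  obtain ⟨⟨γ, hγ, e⟩, a3⟩ := leg_valued_infty w
    (c := i (algebraMap k[X] (RatFunc k) g ^ n)) (by rw [← map_pow i, ← pow_mul, mul_two]) hH hs
  exact ⟨⟨γ, hγ, by rw [← e, hw]⟩, oneSq_transfer _ w hw hdense a3⟩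

end

end Pool.Agent.Helper72.TD
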