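import Pool.Agent.Helper72.TD.LegLin
import Pool.Agent.Helper72.TD.Descent

/-!
The points `P_ζ` on `y² = x (x + 1) (x + g^(Q+1))` and their descent classes.
-/

namespace Pool.Agent.Helper72.TD

open IsDedekindDomain Polynomial WithZero

theorem point_identity {K : Type*} [Field K] (p f : ℕ) [Fact p.Prime] [CharP K p] (z G : K)
    (hz : z ^ (p ^ f + 1) = 1) :
    z * G + G ^ (p ^ f + 1) = z * G * (z * G + 1) ^ (p ^ f) := by
  rw [add_pow_char_pow, one_pow, mul_pow]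
  rw [pow_succ] at hz
  linear_combination (-G ^ (p ^ f + 1)) * hz

/-- The point `(ζ g, ζ g (ζ g + 1)^((Q+1)/2))`. -/
theorem point_nonsingular {K : Type*} [Field K] (p f : ℕ) [Fact p.Prime] [CharP K p] (hp2 : p ≠ 2)
    (z G : K) (hz : z ^ (p ^ f + 1) = 1) (hG : G ≠ 0) (hG1 : G ^ (p ^ f + 1) ≠ 1) :
    (curve (0 : K) (-1) (-(G ^ (p ^ f + 1)))).toAffine.Nonsingular (z * G)
      (z * G * (z * G + 1) ^ ((p ^ f + 1) / 2)) := by
  have hodd : Odd (p ^ f) := (Fact.out : p.Prime).odd_of_ne_two hp2 |>.pow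
  have h2 : (2 : K) ≠ 0 := by
    intro h
    have h' : ((2 : ℕ) : K) = 0 := by exact_mod_cast h
    rw [CharP.cast_eq_zero_iff K p] at h'
    exact hp2 ((Nat.prime_dvd_prime_iff_eq Fact.out Nat.prime_two).mp h')
  apply nonsingular_of h2
  · simp
  · intro h
    apply hG
    have : G ^ (p ^ f + 1) = 0 := by rw [eq_comm, neg_eq_zero] at h; exact h
    exact pow_eq_zero_iff (Nat.succ_ne_zero _) |>.mp this
  · intro h
    apply hG1
    exact (neg_injective h).symm
  · have e : (z * G * (z * G + 1) ^ ((p ^ f + 1) / 2)) ^ 2 =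
        (z * G) ^ 2 * (z * G + 1) ^ (p ^ f + 1) := by
      rw [mul_pow, ← pow_mul]
      congr 2
      obtain ⟨n, hn⟩ := hodd
      omega
    have id := point_identity p f z G hz
    rw [e]
    rw [pow_succ (z * G + 1)]
    linear_combination (-(z * G) * (z * G + 1)) * id

/-- The point `P_ζ` as a point of the curve. -/
noncomputable def Pt {K : Type*} [Field K] (p f : ℕ) [Fact p.Prime] [CharP K p] (hp2 : p ≠ 2)
    (z G : K) (hz : z ^ (p ^ f + 1) = 1) (hG : G ≠ 0) (hG1 : G ^ (p ^ f + 1) ≠ 1) :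
    (curve (0 : K) (-1) (-(G ^ (p ^ f + 1)))).toAffine.Point :=
  .some (z * G) (z * G * (z * G + 1) ^ ((p ^ f + 1) / 2)) (point_nonsingular p f hp2 z G hz hG hG1)

theorem hasClass_pt {K : Type*} [Field K] (p f : ℕ) [Fact p.Prime] [CharP K p] (hp2 : p ≠ 2)
    (z G : K) (hz : z ^ (p ^ f + 1) = 1) (hG : G ≠ 0) (hG1 : G ^ (p ^ f + 1) ≠ 1) :
    HasClass (Pt p f hp2 z G hz hG hG1) (z * G) (z * G + 1) := by
  have hodd : Odd (p ^ f) := (Fact.out : p.Prime).odd_of_ne_two hp2 |>.pow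
  refine ⟨1, 1, (z * G + 1) ^ ((p ^ f - 1) / 2), by ring, by ring, ?_⟩
  have id := point_identity p f z G hz
  rw [sub_neg_eq_add, id, ← pow_mul]
  obtain ⟨n, hn⟩ := hodd
  have : (p ^ f - 1) / 2 * 2 = 2 * n := by omega
  rw [this, hn]
  ring

variable {k : Type*} [Field k]

theorem val_const_mul (v : HeightOneSpectrum k[X]) {u : k} (hu : u ≠ 0) (a : RatFunc k) :
    v.valuation (RatFunc k) (RatFunc.C u * a) = v.valuation (RatFunc k) a := by
  rw [map_mul, val_C v hu, one_mul]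

theorem lin_pt [DecidableEq (RatFunc k)] (g : k[X]) (hg : g.natDegree ≠ 0) {d : ℕ} (hd : Even d)
    (hd0 : 0 < d) {μ : k} (hμ : IsPrimitiveRoot μ d) {ζ : k} (hζ : ζ ^ d = 1) :
    Lin g d (RatFunc.C ζ * algebraMap k[X] (RatFunc k) g)
      (RatFunc.C ζ * algebraMap k[X] (RatFunc k) g + 1) := by
  set G := algebraMap k[X] (RatFunc k) g with hG
  have hζ0 : ζ ≠ 0 := by rintro rfl; rw [zero_pow hd0.ne'] at hζ; exact zero_ne_one hζ
  have hg0 : g ≠ 0 := by rintro rfl; simp at hg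
  have hG0 : G ≠ 0 := RatFunc.algebraMap_ne_zero hg0
  have hC0 : RatFunc.C ζ ≠ 0 := by simpa using hζ0
  have ha0 : RatFunc.C ζ * G ≠ 0 := mul_ne_zero hC0 hG0
  have hinf : RatFunc.inftyValuation k (RatFunc.C ζ * G) = exp (g.natDegree : ℤ) := by
    rw [map_mul, RatFunc.inftyValuation.C k hζ0, one_mul]
    exact RatFunc.inftyValuation.polynomial k hg0
  have hinf1 : 1 < RatFunc.inftyValuation k (RatFunc.C ζ * G) := by
    rw [hinf, ← exp_zero, exp_lt_exp]
    exact_mod_cast Nat.pos_of_ne_zero hg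
  have hinf2 : RatFunc.inftyValuation k (RatFunc.C ζ * G + 1) =
      RatFunc.inftyValuation k (RatFunc.C ζ * G) := by
    apply Valuation.map_eq_of_sub_lt
    rw [add_sub_cancel_left, map_one]
    exact hinf1
  have hb0 : RatFunc.C ζ * G + 1 ≠ 0 :=
    (Valuation.ne_zero_iff (RatFunc.inftyValuation k)).mp
      (by rw [hinf2]; exact ne_zero_of_lt hinf1)
  -- the factorisation of ζ G + 1
  have hfac : RatFunc.C ζ * G + 1 =
      RatFunc.C ζ * algebraMap k[X] (RatFunc k) (g - C (-ζ⁻¹)) := by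
    rw [map_sub, RatFunc.algebraMap_C, mul_sub, map_neg, ← hG, mul_neg, sub_neg_eq_add,
      ← map_mul, mul_inv_cancel₀ hζ0, map_one]
  refine ⟨ha0, hb0, ?_, ?_, ?_, ?_, ?_⟩
  · intro v hv
    exact ⟨1, one_ne_zero, by rw [val_const_mul v hζ0, hv, one_pow]⟩
  · intro v hv
    refine ⟨1, one_ne_zero, ?_⟩
    rw [hfac, val_const_mul v hζ0, one_pow]
    exact val_one_sub_iff hd0 hμ g v hv _ (by rw [hd.neg_pow, inv_pow, hζ, inv_one])
  · intro v hv
    refine ⟨1, ?_⟩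
    rw [one_pow, mul_one, add_sub_cancel_right, val_const_mul v hζ0]
    exact hv
  · refine ⟨RatFunc.inftyValuation k (RatFunc.C ζ * G), ne_zero_of_lt hinf1, ?_⟩
    rw [map_mul, hinf2, sq]
  · refine ⟨1 / (RatFunc.C ζ * G), ?_⟩
    have e : RatFunc.C ζ * G * (RatFunc.C ζ * G + 1) * (1 / (RatFunc.C ζ * G)) ^ 2 - 1 =
        1 / (RatFunc.C ζ * G) := by
      field_simp
      ring
    rw [e, map_div₀, map_one]
    exact (div_lt_one₀ (zero_lt_iff.mpr (ne_zero_of_lt hinf1))).mpr hinf1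

end Pool.Agent.Helper72.TD
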