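import Pool.Agent.Helper72.TD.LegMain
import Pool.Agent.Helper72.TD.Example

/-!
The Mordell-Weil rank and the vanishing of the 2-torsion of the Tate-Shafarevich group for the
elliptic surfaces `y² = x (x + 1) (x + g^(Q+1))` over `k(t)`.
-/

namespace Pool.Agent.Results.MP_8ac872_ag.LegendreInert

open Polynomial Pool.Agent.Helper72.TD

/-- `g` is a nonzero constant times a power of one irreducible polynomial of odd degree, and for
every `ζ` with `ζ^(Q+1) = 1` the polynomial `g - ζ` is a constant times an odd power of an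
irreducible polynomial. -/
def Adm {k : Type*} [Field k] (Q : ℕ) (g : k[X]) : Prop :=
  (∃ (π : k[X]) (u : k) (n : ℕ), Irreducible π ∧ Odd π.natDegree ∧ u ≠ 0 ∧ n ≠ 0 ∧
    g = C u * π ^ n) ∧
  ∀ ζ : k, ζ ^ (Q + 1) = 1 → ∃ (π : k[X]) (u : k) (n : ℕ), Irreducible π ∧ Odd n ∧
    g - C ζ = C u * π ^ n

/-- The third root `-g^(Q+1)`; the curve is `curve 0 (-1) (root Q g)`, that is
`y² = x (x + 1) (x + g^(Q+1))`. -/
noncomputable def root {k : Type*} [Field k] (Q : ℕ) (g : k[X]) : RatFunc k :=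
  -(algebraMap k[X] (RatFunc k) g ^ (Q + 1))

private theorem exists_primitive {k : Type*} [Field k] [Fintype k] {d : ℕ}
    (h : d ∣ Fintype.card k - 1) : ∃ μ : k, IsPrimitiveRoot μ d := by
  classical
  obtain ⟨γ, hγ⟩ := IsCyclic.exists_generator (α := kˣ)
  have ho : orderOf γ = Fintype.card k - 1 := by
    rw [orderOf_eq_card_of_forall_mem_zpowers hγ, Nat.card_eq_fintype_card, Fintype.card_units]
  have hpos : 0 < Fintype.card k - 1 := by
    have := Fintype.one_lt_card (α := k)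
    omega
  obtain ⟨e, he⟩ := h
  have he0 : e ≠ 0 := by rintro rfl; simp at he; omega
  have hd0 : 0 < d := by
    rcases Nat.eq_zero_or_pos d with h0 | h0
    · rw [h0, zero_mul] at he; omega
    · exact h0
  refine ⟨((γ ^ e : kˣ) : k), ?_⟩
  rw [IsPrimitiveRoot.coe_units_iff, IsPrimitiveRoot.iff_orderOf,
    orderOf_pow_of_dvd he0 (by rw [ho, he]; exact dvd_mul_left _ _), ho, he,
    Nat.mul_div_cancel _ (Nat.pos_of_ne_zero he0)]

theorem result {p f m : ℕ} [Fact p.Prime] (hp2 : p ≠ 2) (hf : 0 < f) {k : Type*} [Field k]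
    [Fintype k] [DecidableEq (RatFunc k)] (hk : Fintype.card k = (p ^ (2 * f)) ^ m) :
    (∀ g : k[X], Adm (p ^ f) g →
      (∀ d1 d2 : RatFunc k, d1 ≠ 0 → d2 ≠ 0 → ELS 0 (-1) (root (p ^ f) g) d1 d2 →
        HasPoint (RatFunc k) 0 (-1) (root (p ^ f) g) d1 d2) ∧
      AddGroup.FG (curve 0 (-1) (root (p ^ f) g)).toAffine.Point ∧
      Module.finrank ℤ (curve 0 (-1) (root (p ^ f) g)).toAffine.Point = p ^ f - 1 ∧
      Odd (AddSubgroup.closure {P : (curve 0 (-1) (root (p ^ f) g)).toAffine.Point |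
        ∃ (ζ : k) (y : RatFunc k) (h : (curve 0 (-1) (root (p ^ f) g)).toAffine.Nonsingular
          (RatFunc.C ζ * algebraMap k[X] (RatFunc k) g) y),
          ζ ^ (p ^ f + 1) = 1 ∧ P = .some _ y h}).index) ∧
    (p ∣ m → ∃ c : k, Adm (p ^ f) (X ^ p - X + C c)) := by
  have hp : p.Prime := Fact.out
  have hm : m ≠ 0 := by
    rintro rfl
    have := Fintype.one_lt_card (α := k)
    rw [hk, pow_zero] at this
    exact lt_irrefl _ this
  have hchar : CharP k p := by
    apply charP_of_card_eq_prime_pow (f := 2 * f * m)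
    rw [hk, pow_mul (p) (2 * f) m]
  constructor
  · rintro g ⟨⟨π, u, n, hπ, hπodd, hu, hn, hg⟩, hζ⟩
    have hgdeg : g.natDegree ≠ 0 := by
      rw [hg, natDegree_C_mul hu, natDegree_pow]
      refine mul_ne_zero hn ?_
      rintro h0
      rw [h0] at hπodd
      simp at hπodd
    have hdvd : p ^ f + 1 ∣ Fintype.card k - 1 := by
      have h1 : p ^ f + 1 ∣ p ^ (2 * f) - 1 := by
        refine ⟨p ^ f - 1, ?_⟩
        have : p ^ (2 * f) = p ^ f * p ^ f := by rw [two_mul, pow_add]
        have hpos : 1 ≤ p ^ f := Nat.one_le_pow _ _ hp.pos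
        rw [this]
        obtain ⟨q, hq⟩ := Nat.exists_eq_add_of_le hpos
        rw [hq, Nat.add_sub_cancel_left]
        have : (1 + q) * (1 + q) = (1 + q + 1) * q + 1 := by ring
        rw [this, Nat.add_sub_cancel]
      rw [hk]
      exact h1.trans (by simpa using Nat.sub_dvd_pow_sub_pow (p ^ (2 * f)) 1 m)
    obtain ⟨μ, hμ⟩ := exists_primitive hdvd
    have hgπ : ∃ π : k[X], Irreducible π ∧ Odd π.natDegree ∧ ∃ (u : k) (n : ℕ), n ≠ 0 ∧
      g = C u * π ^ n := ⟨π, hπ, hπodd, u, n, hn, hg⟩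
    have hgζ : ∀ ζ : k, ζ ^ (p ^ f + 1) = 1 → ∃ π : k[X], Irreducible π ∧ ∃ (u : k) (n : ℕ),
        Odd n ∧ g - C ζ = C u * π ^ n := by
      intro ζ h
      obtain ⟨π, u, n, h1, h2, h3⟩ := hζ ζ h
      exact ⟨π, h1, u, n, h2, h3⟩
    have hchar' := charP_ratFunc (k := k) p
    have h2 := two_ne p hp2 (RatFunc k)
    have h2k := two_ne p hp2 k
    obtain ⟨a1, a2, a3⟩ := distinct_e f (p := p) hgdeg
    have hcard := card_quot p f hp2 g hgdeg hμ hgπ hgζ
    have hfg : AddGroup.FG (curve (0 : RatFunc k) (-1) (root (p ^ f) g)).toAffine.Point := by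
      apply mordell_weil h2k a1 a2 a3
      constructor
      rw [AddSubgroup.index, hcard]
      exact pow_ne_zero _ two_ne_zero
    refine ⟨fun d1 d2 hd1 hd2 h => els_hasPoint p f hp2 g hgdeg hμ hgπ hgζ hd1 hd2 h, hfg, ?_, ?_⟩
    · have hfin : Module.Finite ℤ (curve (0 : RatFunc k) (-1) (root (p ^ f) g)).toAffine.Point :=
        Module.Finite.iff_addGroup_fg.mpr hfg
      have h4 := card_two_torsion h2 a1 a2 a3
      have := finrank_add_eq (G := (curve (0 : RatFunc k) (-1) (root (p ^ f) g)).toAffine.Point)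
        (p ^ f + 1) 2 hcard (by rw [show (2 : ℕ) ^ 2 = 4 from rfl]; exact h4)
      omega
    · have := hfg
      exact odd_index _ (fun P => generate p f hp2 g hgdeg hμ hgπ hgζ P)
  · rintro ⟨m', rfl⟩
    obtain ⟨c, hc⟩ := artin_schreier_example p f m' hf k hk
    have hirr0 : Irreducible ((X : k[X]) ^ p - X + C c) := by
      have := hc 0 (by rw [zero_pow (pow_ne_zero _ hp.ne_zero)])
      simpa using this
    have hdeg : ((X : k[X]) ^ p - X + C c).natDegree = p := by
      have h1 : (-(X : k[X]) + C c).natDegree ≤ 1 := by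
        apply natDegree_add_le_of_degree_le
        · rw [natDegree_neg]; exact natDegree_X_le
        · rw [natDegree_C]; exact Nat.zero_le _
      have e : (X : k[X]) ^ p - X + C c = X ^ p + (-X + C c) := by ring
      rw [e, natDegree_add_eq_left_of_natDegree_lt, natDegree_X_pow]
      rw [natDegree_X_pow]
      exact h1.trans_lt hp.one_lt
    refine ⟨c, ⟨X ^ p - X + C c, 1, 1, hirr0, ?_, one_ne_zero, one_ne_zero, by simp⟩, ?_⟩
    · rw [hdeg]; exact hp.odd_of_ne_two hp2
    · intro ζ hζ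
      have hz : ζ ^ (p ^ (2 * f)) = ζ := by
        have h0 : ζ ≠ 0 := by
          rintro rfl
          rw [zero_pow (Nat.succ_ne_zero _)] at hζ
          exact zero_ne_one hζ
        have h1 : ζ ^ (p ^ (2 * f) - 1) = 1 := by
          have hd : p ^ f + 1 ∣ p ^ (2 * f) - 1 := by
            refine ⟨p ^ f - 1, ?_⟩
            have : p ^ (2 * f) = p ^ f * p ^ f := by rw [two_mul, pow_add]
            have hpos : 1 ≤ p ^ f := Nat.one_le_pow _ _ hp.pos
            rw [this]
            obtain ⟨q, hq⟩ := Nat.exists_eq_add_of_le hpos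
            rw [hq, Nat.add_sub_cancel_left]
            have : (1 + q) * (1 + q) = (1 + q + 1) * q + 1 := by ring
            rw [this, Nat.add_sub_cancel]
          obtain ⟨e, he⟩ := hd
          rw [he, pow_mul, hζ, one_pow]
        have hpos : 1 ≤ p ^ (2 * f) := Nat.one_le_pow _ _ hp.pos
        calc ζ ^ (p ^ (2 * f)) = ζ ^ (p ^ (2 * f) - 1 + 1) := by rw [Nat.sub_add_cancel hpos]
          _ = ζ := by rw [pow_succ, h1, one_mul]
      refine ⟨X ^ p - X + C (c - ζ), 1, 1, hc ζ hz, odd_one, ?_⟩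
      rw [C_sub, C_1, one_mul, pow_one]
      ring

end Pool.Agent.Results.MP_8ac872_ag.LegendreInert
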