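import Mathlib

/-!
OD-1: Springer's theorem for diagonal quadratic forms, in a polynomial form.
-/

namespace Pool.Agent.Helper72.TD

open Polynomial

/-- Let `p` be a polynomial of odd degree and `v` a vector of polynomials which is unimodular
modulo `p`, with `p ∣ ∑ a_i v_i²`. Then the form `∑ a_i z_i²` is isotropic.

Proof (strong induction on `natDegree p = n`). Suppose the form has no nontrivial zero.
Replace `v_i` by `v_i % p`: still unimodular modulo `p`, and `p` still divides the value.
Not all `v_i` are zero (`p` is not a unit). Let `G` generate the ideal `(v_i)` and `v_i = G w_i`;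
then `∑ b_i w_i = 1` for some `b`, `G` is coprime to `p` (it divides all `v_i`), so
`p ∣ ∑ a_i w_i² =: N`. Let `m` be the maximal `natDegree` of the `w_i`, `m ≤ n - 1`. The
coefficient of `X^(2m)` in `N` is `∑ a_i (coeff w_i m)²`, which is nonzero as the form has no
nontrivial zero; hence `natDegree N = 2m`, `N = p h` with `natDegree h = 2m - n` odd and
`< n`. Apply the induction hypothesis to `h`, `w`. -/
theorem springer {F : Type*} [Field F] {ι : Type*} [Fintype ι] (a : ι → F) (p : F[X])
    (hp : Odd p.natDegree) (v c : ι → F[X]) (r : F[X]) (hc : ∑ i, c i * v i + r * p = 1)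
    (hdvd : p ∣ ∑ i, C (a i) * v i ^ 2) :
    ∃ z : ι → F, z ≠ 0 ∧ ∑ i, a i * z i ^ 2 = 0 := by
  by_contra hno
  push Not at hno
  -- the induction
  have key : ∀ n : ℕ, ∀ (p : F[X]) (v c : ι → F[X]) (r : F[X]), p.natDegree = n → Odd n →
      ∑ i, c i * v i + r * p = 1 → p ∣ ∑ i, C (a i) * v i ^ 2 → False := by
    intro n
    induction n using Nat.strong_induction_on with
    | _ n ih =>
      intro p v c r hpn hn hc hdvd
      have hn0 : 0 < n := hn.pos
      have hp0 : p ≠ 0 := by
        rintro rfl
        simp at hpn
        omega
      -- reduce modulo p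
      set v' : ι → F[X] := fun i => v i % p with hv'
      have hvv : ∀ i, v i = v' i + p * (v i / p) := fun i => (EuclideanDomain.mod_add_div _ _).symm
      set r' : F[X] := r + ∑ i, c i * (v i / p) with hr'
      have hc' : ∑ i, c i * v' i + r' * p = 1 := by
        rw [← hc, hr', add_mul, Finset.sum_mul]
        rw [add_comm (r * p), ← add_assoc, ← Finset.sum_add_distrib]
        congr 1
        refine Finset.sum_congr rfl fun i _ => ?_
        conv_rhs => rw [hvv i]
        ring
      have hdvd' : p ∣ ∑ i, C (a i) * v' i ^ 2 := by
        have h1 : ∑ i, C (a i) * v' i ^ 2 = ∑ i, C (a i) * v i ^ 2 -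
            p * ∑ i, C (a i) * (v i / p) * (2 * v' i + p * (v i / p)) := by
          rw [Finset.mul_sum, ← Finset.sum_sub_distrib]
          refine Finset.sum_congr rfl fun i _ => ?_
          conv_rhs => rw [show C (a i) * v i ^ 2 = C (a i) * (v' i + p * (v i / p)) ^ 2 by
            rw [← hvv i]]
          ring
        rw [h1]
        exact dvd_sub hdvd (dvd_mul_right _ _)
      have hdeg' : ∀ i, (v' i).natDegree < n := by
        intro i
        rw [← hpn]
        exact Polynomial.natDegree_mod_lt _ (by omega)
      -- the generator
      set I : Ideal F[X] := Ideal.span (Set.range v') with hI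
      set G : F[X] := Submodule.IsPrincipal.generator I with hG
      have hGdvd : ∀ i, G ∣ v' i := fun i =>
        (Submodule.IsPrincipal.mem_iff_generator_dvd I).1 (Ideal.subset_span ⟨i, rfl⟩)
      have hGmem : G ∈ I := Submodule.IsPrincipal.generator_mem I
      obtain ⟨b, hb⟩ := Ideal.mem_span_range_iff_exists_fun.1 hGmem
      choose w hw using hGdvd
      have hG0 : G ≠ 0 := by
        intro h0
        have : ∀ i, v' i = 0 := fun i => by rw [hw i, h0, zero_mul]
        have h2 : r' * p = 1 := by
          rw [← hc']
          simp [this]
        have h3 : IsUnit p := IsUnit.of_mul_eq_one r' (by rw [mul_comm]; exact h2)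
        have := Polynomial.natDegree_eq_zero_of_isUnit h3
        omega
      have hbw : ∑ i, b i * w i = 1 := by
        apply mul_left_cancel₀ hG0
        rw [Finset.mul_sum, mul_one, ← hb]
        refine Finset.sum_congr rfl fun i _ => ?_
        rw [hb]
        conv_rhs => rw [hw i]
        ring
      have hcop : IsCoprime p (G ^ 2) := by
        apply IsCoprime.pow_right
        refine ⟨r', ∑ i, c i * w i, ?_⟩
        rw [← hc', Finset.sum_mul, add_comm]
        congr 1
        refine Finset.sum_congr rfl fun i _ => ?_
        rw [hw i]
        ring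
      set N : F[X] := ∑ i, C (a i) * w i ^ 2 with hN
      have hpN : p ∣ N := by
        apply hcop.dvd_of_dvd_mul_left
        have : G ^ 2 * N = ∑ i, C (a i) * v' i ^ 2 := by
          rw [hN, Finset.mul_sum]
          refine Finset.sum_congr rfl fun i _ => ?_
          rw [hw i]
          ring
        rw [this]
        exact hdvd'
      have hwdeg : ∀ i, (w i).natDegree < n := by
        intro i
        by_cases h0 : w i = 0
        · rw [h0, natDegree_zero]; exact hn0
        · have h1 : (v' i).natDegree = G.natDegree + (w i).natDegree := by
            rw [hw i, natDegree_mul hG0 h0]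
          have := hdeg' i
          omega
      set m : ℕ := Finset.univ.sup (fun i => (w i).natDegree) with hm
      have hwm : ∀ i, (w i).natDegree ≤ m := fun i =>
        Finset.le_sup (f := fun i => (w i).natDegree) (Finset.mem_univ i)
      have hmn : m < n := by
        rw [hm, Finset.sup_lt_iff (by simpa using hn0)]
        exact fun i _ => hwdeg i
      have hne : (Finset.univ : Finset ι).Nonempty := by
        rw [Finset.nonempty_iff_ne_empty]
        intro h
        rw [h, Finset.sum_empty] at hbw
        exact zero_ne_one hbw
      obtain ⟨i0, -, hi0⟩ := Finset.exists_mem_eq_sup Finset.univ hne (fun i => (w i).natDegree)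
      rw [← hm] at hi0
      have hz : (fun i => (w i).coeff m) ≠ 0 := by
        intro h
        have h1 : (w i0).coeff m = 0 := congrFun h i0
        rw [hi0, coeff_natDegree, leadingCoeff_eq_zero] at h1
        rw [h1, natDegree_zero] at hi0
        have h2 : ∀ i, w i = 0 := by
          intro i
          have h3 : (w i).natDegree = 0 := by
            have := hwm i
            omega
          have h4 : (w i).coeff m = 0 := congrFun h i
          rw [hi0, ← h3, coeff_natDegree, leadingCoeff_eq_zero] at h4
          exact h4
        have h5 : (0 : F[X]) = 1 := by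
          rw [← hbw]
          simp [h2]
        exact zero_ne_one h5
      have hcoef : N.coeff (2 * m) = ∑ i, a i * (w i).coeff m ^ 2 := by
        rw [hN, finsetSum_coeff]
        refine Finset.sum_congr rfl fun i _ => ?_
        rw [coeff_C_mul, coeff_pow_of_natDegree_le (hwm i)]
      have hcoef0 : N.coeff (2 * m) ≠ 0 := by
        rw [hcoef]
        exact hno _ hz
      have hNle : N.natDegree ≤ 2 * m := by
        rw [hN]
        refine natDegree_sum_le_of_forall_le _ _ fun i _ => ?_
        refine (natDegree_C_mul_le _ _).trans ?_
        refine (natDegree_pow_le).trans ?_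
        exact Nat.mul_le_mul_left 2 (hwm i)
      have hNdeg : N.natDegree = 2 * m := natDegree_eq_of_le_of_coeff_ne_zero hNle hcoef0
      have hN0 : N ≠ 0 := by
        intro h
        rw [h, coeff_zero] at hcoef0
        exact hcoef0 rfl
      obtain ⟨h, hh⟩ := hpN
      have hh0 : h ≠ 0 := by
        rintro rfl
        rw [mul_zero] at hh
        exact hN0 hh
      have hsum : 2 * m = n + h.natDegree := by
        rw [← hNdeg, hh, natDegree_mul hp0 hh0, hpn]
      have hlt : h.natDegree < n := by omega
      have hodd : Odd h.natDegree := by
        obtain ⟨k, hk⟩ := hn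
        refine ⟨m - k - 1, ?_⟩
        omega
      refine ih h.natDegree hlt h w b 0 rfl hodd ?_ ?_
      · rw [zero_mul, add_zero]; exact hbw
      · exact ⟨p, by rw [← hN, hh, mul_comm]⟩
  exact key p.natDegree p v c r rfl hp hc hdvd

end Pool.Agent.Helper72.TD
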